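import Pool.Agent.H69.NB.Frm
import Pool.Agent.H81.XF.Thm2

/-!
# The frames of LEMMA X in the class

For a good family and two windows `w ≤ w'`: the frame `M` of the box of `w` and the frame `M₁` of
the box of `w'` (with codes of arbitrary closed histories), the relative frame `M'`; `A`, `A'` are
its coordinates in the natural units of the box of `w`.
-/

set_option autoImplicit false

namespace Pool.NB

open Finset Real
open Pool.Agent.H49.Ent Pool.Agent.H32.Dense Pool.STK Pool.KA Pool.K2S Pool.PB Pool.KSAT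
open Pool.PC (On Cnt DetA pt Dec Bar Evt lex)
open Pool.XF (Chg crs)

variable {m J : ℕ}

/-- `M` is the frame `g` times a code of `K`. -/
structure Cfr (F : Fam m J) (A : F.Ω → Prop) {α : Type} (K : F.Ω → α)
    (g M : F.Ω → Fin m → Fin m → ℝ) : Prop where
  fac : ∃ c : F.Ω → ℝ, (∀ ω, 1 ≤ c ω ∧ c ω ≤ 2) ∧ (∀ ω ω', K ω = K ω' → c ω = c ω') ∧
    ∀ ω, M ω = c ω • g ω
  det : DetA F A K M
  inv : DetA F A M K

/-- Frames with codes exist. -/
theorem Cfr.exists {F : Fam m J} {A : F.Ω → Prop} {α : Type} (K : F.Ω → α)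
    {g : F.Ω → Fin m → Fin m → ℝ} (hg : ∀ ω, On F A ω → g ω ≠ 0) (hK : DetA F A K g) :
    ∃ M, Cfr F A K g M := by
  obtain ⟨c, hc1, hc2, hc3⟩ := code_fr (On F A) K g hg hK
  refine ⟨fun ω => c ω • g ω, ⟨⟨c, hc1, hc2, fun ω => rfl⟩, fun ω ω' a b h => ?_, hc3⟩⟩
  show c ω • g ω = c ω' • g ω'
  rw [hc2 ω ω' h, hK ω ω' a b h]

theorem Bx.Ok.ne {F : Fam m J} {A : F.Ω → Prop} {z : Bx F} (hz : z.Ok A) (i : Fin m) :
    ∀ ω, On F A ω → z.g ω ≠ 0 := by
  intro ω hω h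
  have h1 := (hz.fr ω hω).one i
  rw [h] at h1
  exact zero_ne_one h1

theorem mco_smul (c : ℝ) (M : Fin m → Fin m → ℝ) (x : Fin m → ℝ) (i : Fin m) :
    mco (c • M) x i = c * mco M x i := by
  unfold mco
  rw [Finset.mul_sum]
  refine Finset.sum_congr rfl fun j _ => ?_
  show c * M i j * x j = c * (M i j * x j)
  ring

/-! ### The change of the frame -/

section chg

variable {F : Fam m J} {z z' : Bx F} {A : F.Ω → Prop}

/-- The coordinates of the relative frame. -/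
theorem rf_chg (hz : z.Ok A) (hz' : z'.Ok A) {ω : F.Ω} (hω : On F A ω) {c c' : ℝ} (hc : 0 < c)
    (hc' : 0 < c') :
    (∀ (x : Fin m → ℝ) (i : Fin m), 2 ^ z.q i * mco (c' • z.rf z' ω) x i =
      ∑ j, (c' / c * z.fA z' ω i j) * (2 ^ z.q j * mco (c • z.g ω) x j)) ∧
    (∀ i l, ∑ j, (c / c' * z.fA' z' ω i j) * (c' / c * z.fA z' ω j l) =
      if i = l then 1 else 0) := by
  refine ⟨fun x i => ?_, fun i l => ?_⟩
  · rw [mco_smul]
    have h1 := Bx.rf_mco z z' ω x i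
    have e1 : ∀ j ∈ (univ : Finset (Fin m)),
        (c' / c * z.fA z' ω i j) * (2 ^ z.q j * mco (c • z.g ω) x j) =
        c' * (z.fA z' ω i j * (2 ^ z.q j * mco (z.g ω) x j)) := by
      intro j _
      rw [mco_smul]
      field_simp
    rw [Finset.sum_congr rfl e1, ← Finset.mul_sum, ← h1]
    ring
  · have h1 := (Bx.rel hz hz' hω).inv i l
    rw [← h1]
    refine Finset.sum_congr rfl fun j _ => ?_
    field_simp

end chg

theorem fac_le {c c' : ℝ} (h : 1 ≤ c ∧ c ≤ 2) (h' : 1 ≤ c' ∧ c' ≤ 2) :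
    0 < c' / c ∧ c' / c ≤ 2 ∧ 1 / 2 ≤ c' / c := by
  have hc : 0 < c := by linarith [h.1]
  refine ⟨div_pos (by linarith [h'.1]) hc, ?_, ?_⟩
  · rw [div_le_iff₀ hc]
    linarith [h'.2, h.1]
  · rw [div_le_div_iff₀ (by norm_num) hc]
    linarith [h.2, h'.1]

/-- Minors of vectors with factors. -/
theorem minor_fac {a b : Fin m → ℝ} {c c' : ℝ} (hc : 1 / 2 ≤ c) (hc' : 1 / 2 ≤ c') {x : ℕ}
    (hx : 2 ≤ x) (h : ∀ j l, |(c * a j) * (c' * b l) - (c * a l) * (c' * b j)| ≤ 1 / 2 ^ x)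
    (j l : Fin m) : |a j * b l - a l * b j| ≤ 1 / 2 ^ (x - 2) := by
  have h1 := h j l
  have e1 : (c * a j) * (c' * b l) - (c * a l) * (c' * b j) =
      (c * c') * (a j * b l - a l * b j) := by ring
  have h2 : 0 < c * c' := by positivity
  have h3 : 1 / 4 ≤ c * c' := by nlinarith
  rw [e1, abs_mul, abs_of_pos h2] at h1
  have h4 : 1 / 4 * |a j * b l - a l * b j| ≤ c * c' * |a j * b l - a l * b j| :=
    mul_le_mul_of_nonneg_right h3 (abs_nonneg _)
  have e2 : (1 : ℝ) / 2 ^ (x - 2) = 4 * (1 / 2 ^ x) := by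
    obtain ⟨y, rfl⟩ := Nat.exists_eq_add_of_le hx
    rw [Nat.add_sub_cancel_left, pow_add]
    field_simp
    norm_num
  rw [e2]
  linarith

/-! ### Two copies -/

theorem dbl_on {F : Fam m J} {A : F.Ω → Prop} {T : Type} {Z : F.Ω → T} {u : F.Ω × F.Ω}
    (hu : 0 < dbl (Pool.Agent.H49.Ent.cond F.p A True) Z u) :
    0 < Pool.Agent.H49.Ent.cond F.p A True u.1 ∧ 0 < Pool.Agent.H49.Ent.cond F.p A True u.2 ∧
      Z u.1 = Z u.2 := by
  have h0 := cond_nonneg F.isLaw.nonneg A True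
  exact (glue_pos_iff h0 h0 u).mp hu

theorem on_iff {F : Fam m J} {A : F.Ω → Prop} {ω : F.Ω} :
    0 < Pool.Agent.H49.Ent.cond F.p A True ω ↔ On F A ω := by
  rw [cond_pos_iff F.isLaw.nonneg A True ω]
  exact ⟨fun h => ⟨h.1, by rw [h.2]; trivial⟩, fun h => ⟨h.1, eq_true h.2⟩⟩

theorem det_iff {F : Fam m J} {A : F.Ω → Prop} {α β : Type} {P : F.Ω → α} {o : F.Ω → β} :
    Det (Pool.Agent.H49.Ent.cond F.p A True) P o ↔ DetA F A P o :=
  ⟨fun h ω ω' a b c => h ω ω' (on_iff.2 a) (on_iff.2 b) c,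
    fun h ω ω' a b c => h ω ω' (on_iff.1 a) (on_iff.1 b) c⟩

section good

variable {M : ℕ} {Λ' : Lbs m M} {δ γ : ℝ} {s s₂ : ℕ → ℝ} {W : Finset ℚ} {h ψ : ℝ} {F : Fam m J}
  {A : F.Ω → Prop} {e : ℕ} {B : ℕ → Bx F} {N : ℕ → ℝ} {z : Bool → ℕ → ℚ → Bx F} {u : Λ'.T F}

/-- **(dbl)** with factors. -/
theorem Good.dbN_fac (G : Good (M := M) δ γ s s₂ W h ψ F A e B N z u) {b : Bool} {k : ℕ}
    (hk : k < M) {w w' : ℚ} (hw : w ∈ W) (hw' : w' ∈ W) {i : Fin m} {x : ℕ}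
    (hx : h * J + 2 ≤ x) (hx' : (x : ℝ) ≤ (nf s₂ b k w w' i - h) * J) {c : F.Ω → ℝ}
    (hc : ∀ ω, 1 / 2 ≤ c ω) (hh : 0 ≤ h) :
    Pe (dbl (Pool.Agent.H49.Ent.cond F.p A True) (slam F (Pool.NB.win J w))) (fun u => ∀ j l,
      |(c u.1 * (z b k w).fA (z b k w') u.1 i j) * (c u.2 * (z b k w).fA (z b k w') u.2 i l) -
        (c u.1 * (z b k w).fA (z b k w') u.1 i l) * (c u.2 * (z b k w).fA (z b k w') u.2 i j)| ≤
        1 / 2 ^ x) ≤ Real.exp (-(ψ * J)) := by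
  have hJ : (0 : ℝ) ≤ J := Nat.cast_nonneg J
  have h2 : 2 ≤ x := by
    have : (2 : ℝ) ≤ x := by nlinarith
    exact_mod_cast this
  have e1 : ((x - 2 : ℕ) : ℝ) = x - 2 := by
    rw [Nat.cast_sub h2]
    norm_num
  refine le_trans ?_ (G.dbN b k hk w hw w' hw' i (x - 2) (by rw [e1]; linarith)
    (by rw [e1]; linarith))
  refine Pool.XF.Pe_mono_pos (dbl_nonneg (cond_nonneg F.isLaw.nonneg A True)) fun u _ hu => ?_
  exact fun j l => minor_fac (hc u.1) (hc u.2) h2 hu j l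

/-- **(dbe)** with factors. -/
theorem Good.dbV_fac (G : Good (M := M) δ γ s s₂ W h ψ F A e B N z u) {b : Bool} {k : ℕ}
    (hk : k < M) {w w' : ℚ} (hw : w ∈ W) (hw' : w' ∈ W) {i : Fin m} {x : ℕ} (hm : 2 ≤ m)
    (hx : h * J + 2 ≤ x) (hx' : ∀ j, j ≠ i → (x : ℝ) ≤ (nf s₂ b k w w' j - h) * J)
    {c : F.Ω → ℝ} (hc : ∀ ω, 1 / 2 ≤ c ω) (hh : 0 ≤ h) :
    Pe (dbl (Pool.Agent.H49.Ent.cond F.p A True) (slam F (Pool.NB.win J w))) (fun u => ∀ j l,
      |(c u.1 * (z b k w).fA' (z b k w') u.1 j i) * (c u.2 * (z b k w).fA' (z b k w') u.2 l i) -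
        (c u.1 * (z b k w).fA' (z b k w') u.1 l i) * (c u.2 * (z b k w).fA' (z b k w') u.2 j i)| ≤
        1 / 2 ^ x) ≤ Real.exp (-(ψ * J)) := by
  have hJ : (0 : ℝ) ≤ J := Nat.cast_nonneg J
  have h2 : 2 ≤ x := by
    have : (2 : ℝ) ≤ x := by nlinarith
    exact_mod_cast this
  have e1 : ((x - 2 : ℕ) : ℝ) = x - 2 := by
    rw [Nat.cast_sub h2]
    norm_num
  refine le_trans ?_ (G.dbV b k hk w hw w' hw' i (x - 2) hm (by rw [e1]; linarith)
    (fun j hj => by rw [e1]; linarith [hx' j hj]))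
  refine Pool.XF.Pe_mono_pos (dbl_nonneg (cond_nonneg F.isLaw.nonneg A True)) fun u _ hu => ?_
  exact fun j l => minor_fac (a := fun j => (z b k w).fA' (z b k w') u.1 j i)
    (b := fun j => (z b k w).fA' (z b k w') u.2 j i) (hc u.1) (hc u.2) h2 hu j l

end good

/-! ### The precisions of the second box in the relative frame -/

/-- The precisions of the second box in the relative frame. -/
noncomputable def cfn (J : ℕ) (q : Fin m → ℕ) (f : Fin m → ℝ) (i : Fin m) : ℕ :=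
  q i + ⌊f i * J⌋₊

theorem pow_le_logb {σ : ℝ} (hσ : 0 < σ) {n E : ℕ} (h : (n : ℝ) ≤ Real.logb 2 σ + E) :
    (2 : ℝ) ^ n ≤ σ * 2 ^ E := by
  have h1 : (2 : ℝ) ^ ((n : ℝ)) ≤ 2 ^ (Real.logb 2 σ + E) :=
    Real.rpow_le_rpow_of_exponent_le (by norm_num) h
  rw [Real.rpow_add (by norm_num), Real.rpow_logb (by norm_num) (by norm_num) hσ,
    Real.rpow_natCast, Real.rpow_natCast] at h1
  exact h1

theorem logb_le_pow {σ : ℝ} (hσ : 0 < σ) {n E : ℕ} (h : Real.logb 2 σ ≤ n + E) :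
    σ ≤ 2 ^ n * 2 ^ E := by
  have h1 : (2 : ℝ) ^ (Real.logb 2 σ) ≤ 2 ^ ((n : ℝ) + E) :=
    Real.rpow_le_rpow_of_exponent_le (by norm_num) h
  rw [Real.rpow_add (by norm_num), Real.rpow_logb (by norm_num) (by norm_num) hσ,
    Real.rpow_natCast, Real.rpow_natCast] at h1
  exact h1

section good

variable {M : ℕ} {Λ' : Lbs m M} {δ γ : ℝ} {s s₂ : ℕ → ℝ} {W : Finset ℚ} {h ψ : ℝ} {F : Fam m J}
  {A : F.Ω → Prop} {e : ℕ} {B : ℕ → Bx F} {N : ℕ → ℝ} {z : Bool → ℕ → ℚ → Bx F} {u : Λ'.T F}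

theorem Good.cf_low (G : Good (M := M) δ γ s s₂ W h ψ F A e B N z u) {b : Bool} {k : ℕ}
    (hk : k < M) {w w' : ℚ} (hw : w ∈ W) (hw' : w' ∈ W) {i : Fin m} {E : ℕ}
    (hE : 5 * h * J + 1 ≤ E) (hf : -(4 * h) ≤ nf s₂ b k w w' i) (hh : 0 ≤ h) {ω : F.Ω}
    (hω : On F A ω) : (2 : ℝ) ^ cfn J (z b k w).q (nf s₂ b k w w') i ≤
      (z b k w).fs (z b k w') ω i * 2 ^ (z b k w).q i * 2 ^ E := by
  have hJ : (0 : ℝ) ≤ J := Nat.cast_nonneg J
  have hσ := ((z b k w).rel (G.ok b k hk w) (G.ok b k hk w') hω).pos i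
  have h1 := abs_le.1 (G.fal b k hk w hw w' hw' i ω hω)
  have h2 : ((⌊nf s₂ b k w w' i * J⌋₊ : ℕ) : ℝ) ≤ Real.logb 2 ((z b k w).fs (z b k w') ω i) + E := by
    rcases le_total 0 (nf s₂ b k w w' i * J) with h3 | h3
    · have h4 := Nat.floor_le h3
      nlinarith [h1.1, mul_nonneg hh hJ]
    · rw [Nat.floor_of_nonpos h3, Nat.cast_zero]
      have h4 := mul_le_mul_of_nonneg_right hf hJ
      nlinarith [h1.1, mul_nonneg hh hJ]
  have h3 := pow_le_logb hσ h2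
  unfold cfn
  rw [pow_add]
  calc (2 : ℝ) ^ (z b k w).q i * 2 ^ ⌊nf s₂ b k w w' i * J⌋₊
      ≤ 2 ^ (z b k w).q i * ((z b k w).fs (z b k w') ω i * 2 ^ E) :=
        mul_le_mul_of_nonneg_left h3 (by positivity)
    _ = _ := by ring

theorem Good.cf_up (G : Good (M := M) δ γ s s₂ W h ψ F A e B N z u) {b : Bool} {k : ℕ}
    (hk : k < M) {w w' : ℚ} (hw : w ∈ W) (hw' : w' ∈ W) {i : Fin m} {E : ℕ}
    (hE : 5 * h * J + 1 ≤ E) (hh : 0 ≤ h) {ω : F.Ω}
    (hω : On F A ω) : (z b k w).fs (z b k w') ω i * 2 ^ (z b k w).q i ≤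
      (2 : ℝ) ^ cfn J (z b k w).q (nf s₂ b k w w') i * 2 ^ E := by
  have hJ : (0 : ℝ) ≤ J := Nat.cast_nonneg J
  have hσ := ((z b k w).rel (G.ok b k hk w) (G.ok b k hk w') hω).pos i
  have h1 := abs_le.1 (G.fal b k hk w hw w' hw' i ω hω)
  have h2 : Real.logb 2 ((z b k w).fs (z b k w') ω i) ≤
      ((⌊nf s₂ b k w w' i * J⌋₊ : ℕ) : ℝ) + E := by
    have h4 := Nat.lt_floor_add_one (nf s₂ b k w w' i * (J : ℝ))
    nlinarith [h1.2, mul_nonneg hh hJ]
  have h3 := logb_le_pow hσ h2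
  unfold cfn
  rw [pow_add]
  calc (z b k w).fs (z b k w') ω i * 2 ^ (z b k w).q i
      ≤ (2 ^ ⌊nf s₂ b k w w' i * J⌋₊ * 2 ^ E) * 2 ^ (z b k w).q i :=
        mul_le_mul_of_nonneg_right h3 (by positivity)
    _ = _ := by ring

end good

/-! ### The labels -/

theorem log_le_dig {n : ℕ} : Real.log (2 * 2 ^ n + 3) ≤ (n + 3 : ℕ) * Real.log 2 := by
  rw [← Real.log_pow]
  refine Real.log_le_log (by positivity) ?_
  have h1 : (1 : ℝ) ≤ 2 ^ n := one_le_pow₀ (by norm_num)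
  rw [pow_add]
  norm_num
  linarith

/-- **The label of the second box in the relative frame, and in its own frame.** -/
theorem Cfr.lab {F : Fam m J} {A : F.Ω → Prop} {z z' : Bx F} (hz : z.Ok A) (hz' : z'.Ok A)
    (hp : IsLaw (Pool.Agent.H49.Ent.cond F.p A True)) {α : Type} {K : F.Ω → α}
    {M' M₁ : F.Ω → Fin m → Fin m → ℝ} (h' : Cfr F A K (z.rf z') M') (h₁ : Cfr F A K z'.g M₁)
    {c : Fin m → ℕ} {E : ℕ}
    (hc : ∀ ω, On F A ω → ∀ i, (2 : ℝ) ^ c i ≤ z.fs z' ω i * 2 ^ z.q i * 2 ^ E)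
    (hc' : ∀ ω, On F A ω → ∀ i, z.fs z' ω i * 2 ^ z.q i ≤ (2 : ℝ) ^ c i * 2 ^ E)
    (v y : ℕ) :
    CH (Pool.Agent.H49.Ent.cond F.p A True)
      (F.mlb v (fun i => c i + y + v) (fun i => c i + y) M')
      (F.mlb v (fun i => z'.q i + y + v) (fun i => z'.q i + y) M₁) ≤
        2 * (m * ((m + E + 4 : ℕ) * Real.log 2)) ∧
    CH (Pool.Agent.H49.Ent.cond F.p A True)
      (F.mlb v (fun i => z'.q i + y + v) (fun i => z'.q i + y) M₁)
      (F.mlb v (fun i => c i + y + v) (fun i => c i + y) M') ≤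
        2 * (m * ((m + E + 4 : ℕ) * Real.log 2)) := by
  obtain ⟨f', f1', -, f3'⟩ := h'.fac
  obtain ⟨f₁, f1₁, -, f3₁⟩ := h₁.fac
  -- the inclusions
  have L1 : ∀ (a : ℕ) ω, 0 < Pool.Agent.H49.Ent.cond F.p A True ω → ∀ x : Fin m → ℝ,
      (∀ i, |mco (M₁ ω) x i| ≤ 1 / 2 ^ (z'.q i + a)) →
      ∀ i, |mco (M' ω) x i| ≤ 2 ^ (m + E + 1) / 2 ^ (c i + a) := by
    intro a ω hω x hx i
    have hO := on_iff.1 hω
    have h1 := Bx.rf_low hz hz' hO (hc ω hO) zero_le_one (v := x) (a := a) (fun i => by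
      have h2 := hx i
      rw [f3₁, mco_smul, abs_mul, abs_of_nonneg (by linarith [(f1₁ ω).1])] at h2
      refine le_trans ?_ h2
      have := mul_le_mul_of_nonneg_right (f1₁ ω).1 (abs_nonneg (mco (z'.g ω) x i))
      linarith) i
    rw [f3', mco_smul, abs_mul, abs_of_nonneg (by linarith [(f1' ω).1])]
    have h3 := mul_le_mul (f1' ω).2 h1 (abs_nonneg _) (by norm_num)
    refine h3.trans (le_of_eq ?_)
    rw [pow_add, pow_add]
    ring
  have L2 : ∀ (a : ℕ) ω, 0 < Pool.Agent.H49.Ent.cond F.p A True ω → ∀ x : Fin m → ℝ,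
      (∀ i, |mco (M' ω) x i| ≤ 1 / 2 ^ (c i + a)) →
      ∀ i, |mco (M₁ ω) x i| ≤ 2 ^ (m + E + 1) / 2 ^ (z'.q i + a) := by
    intro a ω hω x hx i
    have hO := on_iff.1 hω
    have h1 := Bx.rf_up hz hz' hO (hc' ω hO) zero_le_one (v := x) (a := a) (fun i => by
      have h2 := hx i
      rw [f3', mco_smul, abs_mul, abs_of_nonneg (by linarith [(f1' ω).1])] at h2
      refine le_trans ?_ h2
      have := mul_le_mul_of_nonneg_right (f1' ω).1 (abs_nonneg (mco (z.rf z' ω) x i))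
      linarith) i
    rw [f3₁, mco_smul, abs_mul, abs_of_nonneg (by linarith [(f1₁ ω).1])]
    have h3 := mul_le_mul (f1₁ ω).2 h1 (abs_nonneg _) (by norm_num)
    refine h3.trans ?_
    rw [mul_div_assoc']
    refine div_le_div_of_nonneg_right ?_ (by positivity)
    rw [pow_add, pow_add, mul_one, pow_one]
    have := nat_le_two_pow m
    have h4 := mul_le_mul_of_nonneg_right this (show (0 : ℝ) ≤ 2 ^ E by positivity)
    linarith
  have hM1 : DetA F A M₁ M' := fun ω ω' a b c => h'.det ω ω' a b (h₁.inv ω ω' a b c)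
  have hM2 : DetA F A M' M₁ := fun ω ω' a b c => h₁.det ω ω' a b (h'.inv ω ω' a b c)
  have hlog : 2 * (m * Real.log (2 * 2 ^ (m + E + 1) + 3)) ≤
      2 * (m * ((m + E + 4 : ℕ) * Real.log 2)) := by
    have h1 := log_le_dig (n := m + E + 1)
    have e1 : m + E + 1 + 3 = m + E + 4 := by ring
    rw [e1] at h1
    have h2 : (0 : ℝ) ≤ m := Nat.cast_nonneg m
    linarith [mul_le_mul_of_nonneg_left h1 h2]
  constructor
  · refine (ch_lab hp (D := 2 ^ (m + E + 1)) (fun ω hω x hx => ?_) (fun ω hω x hx => ?_)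
      (det_iff.2 hM1)).trans hlog
    · have := L1 (y + v) ω hω x (fun i => by rw [← add_assoc]; exact hx i)
      exact fun i => by
        have h1 := this i
        rwa [← add_assoc] at h1
    · exact L1 y ω hω x hx
  · refine (ch_lab hp (D := 2 ^ (m + E + 1)) (fun ω hω x hx => ?_) (fun ω hω x hx => ?_)
      (det_iff.2 hM2)).trans hlog
    · have := L2 (y + v) ω hω x (fun i => by rw [← add_assoc]; exact hx i)
      exact fun i => by
        have h1 := this i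
        rwa [← add_assoc] at h1
    · exact L2 y ω hω x hx

/-- Labels of closed frames are closed. -/
theorem slam_mlb {F : Fam m J} {p : F.Ω → ℝ} {v : ℕ} {k c : Fin m → ℕ}
    {M : F.Ω → Fin m → Fin m → ℝ} (hM : Det p (slam F v) M) :
    Det p (slam F v) (F.mlb v k c M) := by
  intro ω ω' hω hω' h
  have hz := hM ω ω' hω hω' h
  unfold slam at h
  simp only [Prod.mk.injEq] at h
  obtain ⟨h1, h2, h3⟩ := h
  have hu : F.u ω = F.u ω' := (Prod.ext_iff.mp h1).1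
  have hd : F.d ω = F.d ω' := (Prod.ext_iff.mp h1).2
  have hx : F.x1 v ω = F.x1 v ω' := by
    funext i
    unfold Fam.x1
    rw [hu, hd, h3]
  refine Box.mlb_mk h3 hz ?_ ?_ h2
  · unfold Fam.mps
    rw [hz, hx]
  · unfold Fam.mvl
    rw [hz, hd]

/-! ### LEMMA X -/

open Pool.XF Pool.PC in
/-- **LEMMA X in the class.** -/
theorem xf_good : ∃ (C : ℝ) (L : ℕ), 0 ≤ C ∧
    ∀ {M : ℕ} {Λ' : Lbs 3 M} {δ γ : ℝ} {s s₂ : ℕ → ℝ} {W : Finset ℚ} {h ψ : ℝ} {J : ℕ}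
      {F : Fam 3 J} {A : F.Ω → Prop} {e : ℕ} {B : ℕ → Bx F} {N : ℕ → ℝ}
      {z : Bool → ℕ → ℚ → Bx F} {u : Λ'.T F} (_ : Good (M := M) δ γ s s₂ W h ψ F A e B N z u)
      (hp : IsLaw (Pool.Agent.H49.Ent.cond F.p A True)), 0 < J → 0 ≤ h →
      ∀ (b : Bool) (k : ℕ), k < M → ∀ w ∈ W, ∀ w' ∈ W, w ≤ w' →
      ∀ (α₀ α₁ : Type) (K₀ : F.Ω → α₀) (K₁ : F.Ω → α₁) (M₀ M' M₁ : F.Ω → Fin 3 → Fin 3 → ℝ),
      Cfr F A K₀ (z b k w).g M₀ → Cfr F A K₁ ((z b k w).rf (z b k w')) M' →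
      Cfr F A K₁ (z b k w').g M₁ → DetA F A K₁ K₀ → DetA F A (slam F (win J w)) K₀ →
      DetA F A (slam F (win J w')) K₁ →
      ∀ (y X n n1 K r x : ℕ) (E₁ : ℝ), win J w + y = win J w' → n1 ≤ n →
      win J w + y + n * X ≤ J → y + n1 * X ≤ K * r → x + L ≤ r → x + h * J ≤ r → h * J + 2 ≤ x →
      K * r ≤ nf s₂ b k w w' (1 : Fin 3) * J → K * r ≤ nf s₂ b k w w' (2 : Fin 3) * J →
      (y + n * X : ℕ) ≤ nf s₂ b k w w' (2 : Fin 3) * J →
      (n1 < n → x + h * J ≤ nf s₂ b k w w' (2 : Fin 3) * J) →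
      (0 < K → 3 * ((K * r : ℕ) * Real.log 2) ≤ CH (uni (K * r) (F.res A True hp).p)
        (upos (K * r) (ypv (F.res A True hp) (win J w) (z b k w).q M₀)) (fun u =>
          (u.2, (F.res A True hp).blb (win J w) (z b k w).q M₀ u.1)) + E₁) → 0 ≤ E₁ →
      nfo (F.res A True hp) (win J w) ((F.res A True hp).blb (win J w) (z b k w).q M₀) +
        ∑ i ∈ Finset.range n1, Row (F.res A True hp) (win J w) y X (z b k w).q
          (fun i => cfn J (z b k w).q (nf s₂ b k w w') i + (win J w + y))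
          (cfn J (z b k w).q (nf s₂ b k w w')) M₀ M' i +
        ∑ i ∈ Finset.range n, Row (F.res A True hp) (win J w) y X (z b k w).q
          (fun i => cfn J (z b k w).q (nf s₂ b k w w') i + (win J w + y))
          (cfn J (z b k w).q (nf s₂ b k w w')) M₀ M' i ≤
      nfo (F.res A True hp) (win J w') ((F.res A True hp).blb (win J w') (z b k w').q M₁) +
        ((n : ℝ) - n1) * X * Real.log 2 + E₁ +
        C * (y + r + (x + 1) * (K + n + 1) + Real.exp (-(ψ * J)) * (K * r + n * X + 1) +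
          h * J) := by
  obtain ⟨C, L, hC, hxf⟩ := xf2 16 (by norm_num)
  refine ⟨C + 1000, L, by linarith, ?_⟩
  intro M Λ' δ γ s s₂ W h ψ J F A e B N z u G hp hJ hh b k hk w hw w' hw' hww α₀ α₁ K₀ K₁ M₀ M'
    M₁ c₀ c' c₁ hK hcl₀ hcl₁ y X n n1 K r x E₁ hy hn hnX hK1 hxL hxr hx hf1 hf2 hf3 hf4 hsat hE₁
  have hJr : (0 : ℝ) < J := Nat.cast_pos.2 hJ
  have hhJ : 0 ≤ h * J := by positivity
  obtain ⟨ω₀, hω₀⟩ : ∃ ω, 0 < Pool.Agent.H49.Ent.cond F.p A True ω := by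
    by_contra hcon
    push Not at hcon
    have h1 := hp.sum_one
    have h2 := Finset.sum_nonpos fun ω (_ : ω ∈ (univ : Finset F.Ω)) => hcon ω
    linarith
  have hA : ∃ ω, On F A ω := ⟨ω₀, on_iff.1 hω₀⟩
  have hz := G.ok b k hk w
  have hz' := G.ok b k hk w'
  have hnn : ∀ i, -(4 * h) ≤ nf s₂ b k w w' i := fun i =>
    G.f_nonneg hA hh hJ hk hw hw' hww i
  have hfl : ∀ (a : ℕ) (t : ℝ), (a : ℝ) ≤ t → a ≤ ⌊t⌋₊ := fun a t h => Nat.le_floor h
  obtain ⟨q, hq⟩ : ∃ q, q = (z b k w).q := ⟨_, rfl⟩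
  obtain ⟨f0, g01, -, g03⟩ := c₀.fac
  obtain ⟨f', g'1, -, g'3⟩ := c'.fac
  obtain ⟨AA, hAA⟩ : ∃ AA : F.Ω → Fin 3 → Fin 3 → ℝ, AA = fun ω i j =>
      f' ω / f0 ω * (z b k w).fA (z b k w') ω i j := ⟨_, rfl⟩
  obtain ⟨AA', hAA'⟩ : ∃ AA' : F.Ω → Fin 3 → Fin 3 → ℝ, AA' = fun ω i j =>
      f0 ω / f' ω * (z b k w).fA' (z b k w') ω i j := ⟨_, rfl⟩
  have hchg : ∀ ω, 0 < Pool.Agent.H49.Ent.cond F.p A True ω →
      Chg 16 (z b k w).q (M₀ ω) (M' ω) (AA ω) (AA' ω) := by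
    intro ω hω
    have hO := on_iff.1 hω
    obtain ⟨a1, a2, -⟩ := fac_le (g01 ω) (g'1 ω)
    obtain ⟨a1', a2', -⟩ := fac_le (g'1 ω) (g01 ω)
    have hr := Bx.rel hz hz' hO
    obtain ⟨d1, d2⟩ := rf_chg hz hz' hO (show 0 < f0 ω by linarith [(g01 ω).1])
      (show 0 < f' ω by linarith [(g'1 ω).1])
    refine ⟨fun x i => ?_, fun i l => ?_, fun i j => ?_, fun i j => ?_⟩
    · rw [g'3, g03, hAA]
      exact d1 x i
    · rw [hAA, hAA']
      exact d2 i l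
    · rw [hAA]
      show |f' ω / f0 ω * (z b k w).fA (z b k w') ω i j| ≤ 16
      rw [abs_mul, abs_of_pos a1]
      have := mul_le_mul a2 (hr.bd i j) (abs_nonneg _) (by norm_num)
      linarith
    · rw [hAA']
      show |f0 ω / f' ω * (z b k w).fA' (z b k w') ω i j| ≤ 16
      rw [abs_mul, abs_of_pos a1']
      have := mul_le_mul a2' (hr.bd' i j) (abs_nonneg _) (by norm_num)
      norm_num at this
      linarith
  have hdM : DetA F A (slam F (win J w)) M₀ := fun ω ω' a b c => c₀.det ω ω' a b (hcl₀ ω ω' a b c)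
  have hdM₁ : DetA F A (slam F (win J w')) M₁ := fun ω ω' a b c =>
    c₁.det ω ω' a b (hcl₁ ω ω' a b c)
  have hdM' : DetA F A (slam F (win J w')) M' := fun ω ω' a b c =>
    c'.det ω ω' a b (hcl₁ ω ω' a b c)
  have hMM : CH (Pool.Agent.H49.Ent.cond F.p A True) M₀ M' ≤ 0 := by
    refine le_of_eq (CH_eq_zero hp.nonneg (det_iff.2 ?_))
    exact fun ω ω' a b c => c₀.det ω ω' a b (hK ω ω' a b (c'.inv ω ω' a b c))
  have key := hxf J (F.res A True hp) (win J w) y X n n1 K r x 0 1 2 (z b k w).q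
    (fun i => cfn J (z b k w).q (nf s₂ b k w w') i + (win J w + y))
    (cfn J (z b k w).q (nf s₂ b k w w')) M₀ M' AA AA' (Real.exp (-(ψ * J))) 0 E₁
    (by decide) (by decide) (by decide) hn hnX hK1 hxL
    (fun j => by unfold cfn; omega) (fun j => by simp only [cfn]; omega)
    (by have := hfl (K * r) _ (by push_cast; exact hf1); unfold cfn; omega)
    (by have := hfl (K * r) _ (by push_cast; exact hf1); simp only [cfn]; omega)
    (by have := hfl (K * r) _ (by push_cast; exact hf2); unfold cfn; omega)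
    (by have := hfl (K * r) _ (by push_cast; exact hf2); simp only [cfn]; omega)
    (by have := hfl _ _ hf3; unfold cfn; omega)
    (by have := hfl _ _ hf3; simp only [cfn]; omega)
    hchg (det_iff.2 hdM) hMM
    (fun hK0 => by
      have hx1 : ∀ j : Fin 3, j ≠ 0 → (x : ℝ) ≤ (nf s₂ b k w w' j - h) * J := by
        have h1 : (r : ℝ) ≤ (K : ℝ) * r := by
          have : (1 : ℝ) ≤ K := by exact_mod_cast hK0
          nlinarith [(Nat.cast_nonneg r : (0 : ℝ) ≤ r)]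
        intro j hj
        rw [sub_mul]
        fin_cases j
        · exact absurd rfl hj
        · show (x : ℝ) ≤ nf s₂ b k w w' (1 : Fin 3) * J - h * J
          linarith
        · show (x : ℝ) ≤ nf s₂ b k w w' (2 : Fin 3) * J - h * J
          linarith
      refine le_trans ?_ (G.dbV_fac hk hw hw' (b := b) (i := 0) (by norm_num) hx hx1
        (c := fun ω => f0 ω / f' ω) (fun ω => (fac_le (g'1 ω) (g01 ω)).2.2) hh)
      refine Pe_mono_pos (dbl_nonneg hp.nonneg) fun u _ hu => ?_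
      have h2 := crs_le (by positivity) hu
      intro j l
      have h3 := h2 j l
      rw [hAA'] at h3
      exact h3)
    (fun hnn1 => by
      refine le_trans ?_ (G.dbN_fac hk hw hw' (b := b) (i := 2) hx
        (by rw [sub_mul]; linarith [hf4 hnn1])
        (c := fun ω => f' ω / f0 ω) (fun ω => (fac_le (g01 ω) (g'1 ω)).2.2) hh)
      refine Pe_mono_pos (dbl_nonneg hp.nonneg) fun u _ hu => ?_
      have h2 := crs_le (by positivity) hu
      intro j l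
      have h3 := h2 j l
      rw [hAA] at h3
      exact h3)
    (Real.exp_pos _).le hsat hE₁
  -- the label of the second box
  obtain ⟨E, hE⟩ : ∃ E : ℕ, E = ⌈5 * h * J + 1⌉₊ := ⟨_, rfl⟩
  have hE1 : 5 * h * J + 1 ≤ E := by rw [hE]; exact Nat.le_ceil _
  have hE2 : (E : ℝ) ≤ 5 * h * J + 2 := by
    rw [hE]
    have := Nat.ceil_lt_add_one (show 0 ≤ 5 * h * (J : ℝ) + 1 by linarith)
    linarith
  obtain ⟨l1, -⟩ := Cfr.lab hz hz' hp c' c₁ (c := cfn J (z b k w).q (nf s₂ b k w w')) (E := E)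
    (fun ω hω i => G.cf_low hk hw hw' hE1 (hnn i) hh hω)
    (fun ω hω i => G.cf_up hk hw hw' hE1 hh hω) (win J w + y) 0
  have hT : ∀ (v : ℕ) (k' c : Fin 3 → ℕ) (N : F.Ω → Fin 3 → Fin 3 → ℝ),
      Det (Pool.Agent.H49.Ent.cond F.p A True) (F.mlb v k' c N) (F.T1 v) :=
    fun v k' c N ω ω' _ _ h => (Box.mlb_ext h).1
  have hmon := nfo_mono (F := F) (w := win J w + y) (w' := win J w + y) hp
    (F.mlb (win J w + y) (fun i => cfn J (z b k w).q (nf s₂ b k w w') i + 0 + (win J w + y))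
      (fun i => cfn J (z b k w).q (nf s₂ b k w w') i + 0) M')
    (F.mlb (win J w + y) (fun i => (z b k w').q i + 0 + (win J w + y))
      (fun i => (z b k w').q i + 0) M₁)
    (slam_mlb (by rw [hy]; exact det_iff.2 hdM')) (hT _ _ _ _)
    (slam_mlb (by rw [hy]; exact det_iff.2 hdM₁)) (hT _ _ _ _)
  have hmono : CH (Pool.Agent.H49.Ent.cond F.p A True)
      (F.mlb (win J w + y) (fun i => cfn J (z b k w).q (nf s₂ b k w w') i + 0 + (win J w + y))
      (fun i => cfn J (z b k w).q (nf s₂ b k w w') i + 0) M')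
      (fun ω => (F.mlb (win J w + y) (fun i => (z b k w').q i + 0 + (win J w + y))
      (fun i => (z b k w').q i + 0) M₁ ω, F.Z ω)) ≤
      CH (Pool.Agent.H49.Ent.cond F.p A True)
      (F.mlb (win J w + y) (fun i => cfn J (z b k w).q (nf s₂ b k w w') i + 0 + (win J w + y))
      (fun i => cfn J (z b k w).q (nf s₂ b k w w') i + 0) M')
      (F.mlb (win J w + y) (fun i => (z b k w').q i + 0 + (win J w + y))
      (fun i => (z b k w').q i + 0) M₁) :=
    CH_mono_cond hp.nonneg fun ω ω' _ _ h => (Prod.ext_iff.mp h).1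
  have hfin : nfo (F.res A True hp) (win J w + y) ((F.res A True hp).mlb (win J w + y)
      (fun i => cfn J (z b k w).q (nf s₂ b k w w') i + (win J w + y))
      (cfn J (z b k w).q (nf s₂ b k w w')) M') ≤
      nfo (F.res A True hp) (win J w') ((F.res A True hp).blb (win J w') (z b k w').q M₁) +
        2 * (3 * ((3 + E + 4 : ℕ) * Real.log 2)) := by
    rw [← hy]
    have := (hmon.trans (add_le_add le_rfl (hmono.trans l1)))
    exact this
  have hxx : (2 : ℝ) ≤ x := by linarith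
  have hlog : Real.log 2 ≤ 1 := by
    have := Real.log_two_lt_d9
    linarith
  have hlog0 : 0 < Real.log 2 := Real.log_pos (by norm_num)
  have hlast : 2 * (3 * (((3 + E + 4 : ℕ) : ℝ) * Real.log 2)) ≤ 1000 * ((x + 1) * (K + n + 1) +
      h * J) := by
    have h1 : ((3 + E + 4 : ℕ) : ℝ) ≤ 5 * h * J + 9 := by
      push_cast
      linarith
    have h2 : ((3 + E + 4 : ℕ) : ℝ) * Real.log 2 ≤ 5 * h * J + 9 :=
      (mul_le_of_le_one_right (Nat.cast_nonneg _) hlog).trans h1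
    have h3 : (1 : ℝ) ≤ (x + 1) * (K + n + 1) := by
      have a1 : (1 : ℝ) ≤ (x : ℝ) + 1 := by linarith
      have a2 : (1 : ℝ) ≤ (K : ℝ) + n + 1 := by
        have b1 : (0 : ℝ) ≤ K := Nat.cast_nonneg _
        have b2 : (0 : ℝ) ≤ n := Nat.cast_nonneg _
        linarith
      nlinarith
    nlinarith
  have hrest : (0 : ℝ) ≤ y + r + Real.exp (-(ψ * J)) * (K * r + n * X + 1) := by positivity
  have hrest2 : (0 : ℝ) ≤ (x + 1) * (K + n + 1) := by positivity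
  refine key.trans ?_
  rw [add_mul]
  have e1 : C * (↑y + ↑r + (↑x + 1) * (↑K + ↑n + 1) + Real.exp (-(ψ * ↑J)) *
      (↑K * ↑r + ↑n * ↑X + 1)) ≤ C * (↑y + ↑r + (↑x + 1) * (↑K + ↑n + 1) +
        Real.exp (-(ψ * ↑J)) * (↑K * ↑r + ↑n * ↑X + 1) + h * J) :=
    mul_le_mul_of_nonneg_left (by linarith) hC
  linarith

end Pool.NB
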