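import Pool.Agent.H69.NB.Frm

/-!
# The number of small cells in a large cell
-/

set_option autoImplicit false

namespace Pool.NB

open Finset Real
open Pool.Agent.H49.Ent Pool.Agent.H32.Dense Pool.STK Pool.KA Pool.K2S Pool.PB Pool.KSAT
open Pool.PC (On Cnt DetA pt Dec Bar Evt lex)

variable {m : ℕ}

/-- A vector and its coordinates. -/
theorem ch_coord {Ω : Type} [Fintype Ω] {p : Ω → ℝ} (hp : ∀ ω, 0 ≤ p ω) {T E : Type} :
    ∀ (n : ℕ) (X : Ω → Fin n → E) (W : Ω → T),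
      CH p X W ≤ ∑ i, CH p (fun ω => X ω i) W := by
  intro n
  induction n with
  | zero =>
    intro X W
    rw [Fin.sum_univ_zero]
    refine le_of_eq (CH_eq_zero hp fun ω ω' _ _ _ => ?_)
    funext i
    exact i.elim0
  | succ n ih =>
    intro X W
    have h1 : CH p X W ≤ CH p (fun ω => (X ω 0, fun i : Fin n => X ω i.succ)) W := by
      refine CH_mono_left hp fun ω ω' _ _ h => ?_
      have h2 := (Prod.ext_iff.mp h).1
      have h3 := Prod.ext_iff.mp h2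
      funext i
      refine Fin.cases h3.1 (fun j => ?_) i
      exact congrFun h3.2 j
    have h2 := CH_subadd hp (fun ω => X ω 0) (fun ω (i : Fin n) => X ω i.succ) W
    have h3 := ih (fun ω (i : Fin n) => X ω i.succ) W
    rw [Fin.sum_univ_succ]
    linarith

theorem one_le_of_logb {σ : ℝ} (hσ : 0 < σ) {n : ℕ} (h : -((n : ℕ) : ℝ) ≤ Real.logb 2 σ) :
    1 ≤ σ * 2 ^ n := by
  rw [Real.le_logb_iff_rpow_le (by norm_num) hσ, Real.rpow_neg (by norm_num), Real.rpow_natCast,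
    inv_le_iff_one_le_mul₀ (by positivity)] at h
  exact h

/-- **The number of small cells in a large cell.** `x` is a random vector which, given `W`, is
known up to `C` cells of the frame `g` with the precisions `κ`; the frame `g'` with the precisions
`κ'` has smaller cells, up to `c` digits. -/
theorem ch_vol {Ω : Type} [Fintype Ω] {p : Ω → ℝ} (hp : IsLaw p) {T : Type} {W : Ω → T}
    {κ κ' : Fin m → ℕ} {g g' : Ω → Fin m → Fin m → ℝ} {o o' : Equiv.Perm (Fin m)}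
    (hg : ∀ ω, 0 < p ω → Fr o (g ω)) (hg' : ∀ ω, 0 < p ω → Fr o' (g' ω))
    (hW : Det p W g) (hW' : Det p W g') {x : Ω → Fin m → ℝ} {n c : ℕ}
    (hx : ∀ ω ω', 0 < p ω → 0 < p ω' → W ω = W ω' →
      ∀ i, |dot (g ω i) (fun l => x ω l - x ω' l)| ≤ 2 ^ n / 2 ^ κ i)
    (hn : ∀ ω, 0 < p ω → ∀ v : Fin m → ℝ, (∀ i, |dot (g' ω i) v| ≤ 1 / 2 ^ κ' i) →
      ∀ i, |dot (g ω i) v| ≤ 2 ^ c / 2 ^ κ i) :
    CH p (fun ω i => ⌊(2 : ℝ) ^ κ' i * dot (g' ω i) (x ω)⌋) W ≤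
      ((∑ i, κ' i : ℕ) - (∑ i, κ i : ℕ) : ℝ) * Real.log 2 +
        m * ((n + c + 4 * m + 6 : ℕ) * Real.log 2) := by
  classical
  have h0 := hp.nonneg
  have hlog2 : 0 < Real.log 2 := Real.log_pos (by norm_num)
  -- the relative positions
  have hrel : ∀ ω, 0 < p ω → Rel κ κ' (g ω) (g' ω) (relf κ κ' (g ω) (g' ω)).1
      (relf κ κ' (g ω) (g' ω)).2.1 (relf κ κ' (g ω) (g' ω)).2.2 := by
    intro ω hω
    have hex : ∃ x : (Fin m → Fin m → ℝ) × ((Fin m → Fin m → ℝ) × (Fin m → ℝ)),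
        Rel κ κ' (g ω) (g' ω) x.1 x.2.1 x.2.2 := by
      obtain ⟨A, A', σ, h1⟩ := Pool.NB.rel (hg ω hω) (hg' ω hω) κ κ'
      exact ⟨(A, (A', σ)), h1⟩
    unfold relf
    rw [dif_pos hex]
    exact hex.choose_spec
  obtain ⟨A, hA⟩ : ∃ A : Ω → Fin m → Fin m → ℝ, A = fun ω => (relf κ κ' (g ω) (g' ω)).1 := ⟨_, rfl⟩
  obtain ⟨A', hA'⟩ : ∃ A' : Ω → Fin m → Fin m → ℝ, A' = fun ω => (relf κ κ' (g ω) (g' ω)).2.1 :=
    ⟨_, rfl⟩
  obtain ⟨σ, hσ⟩ : ∃ σ : Ω → Fin m → ℝ, σ = fun ω => (relf κ κ' (g ω) (g' ω)).2.2 := ⟨_, rfl⟩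
  have hR : ∀ ω, 0 < p ω → Rel κ κ' (g ω) (g' ω) (A ω) (A' ω) (σ ω) := by
    intro ω hω
    rw [hA, hA', hσ]
    exact hrel ω hω
  have hWr : ∀ ω ω', 0 < p ω → 0 < p ω' → W ω = W ω' → g ω = g ω' ∧ g' ω = g' ω' ∧ A ω = A ω' ∧
      σ ω = σ ω' := by
    intro ω ω' a b h
    have e1 := hW ω ω' a b h
    have e2 := hW' ω ω' a b h
    refine ⟨e1, e2, ?_, ?_⟩
    · rw [hA]
      show (relf κ κ' (g ω) (g' ω)).1 = (relf κ κ' (g ω') (g' ω')).1
      rw [e1, e2]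
    · rw [hσ]
      show (relf κ κ' (g ω) (g' ω)).2.2 = (relf κ κ' (g ω') (g' ω')).2.2
      rw [e1, e2]
  -- the coordinates
  obtain ⟨y, hy⟩ : ∃ y : Ω → Fin m → ℝ, y = fun ω i =>
      σ ω i * ∑ j, A ω i j * (2 ^ κ j * dot (g ω j) (x ω)) := ⟨_, rfl⟩
  have hysub : ∀ ω ω', 0 < p ω → 0 < p ω' → W ω = W ω' → ∀ i, y ω i - y ω' i =
      σ ω i * ∑ j, A ω i j * (2 ^ κ j * dot (g ω j) (fun l => x ω l - x ω' l)) := by
    intro ω ω' a b h i
    obtain ⟨e1, -, e3, e4⟩ := hWr ω ω' a b h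
    rw [hy]
    show σ ω i * ∑ j, A ω i j * (2 ^ κ j * dot (g ω j) (x ω)) -
      σ ω' i * ∑ j, A ω' i j * (2 ^ κ j * dot (g ω' j) (x ω')) = _
    rw [← e1, ← e3, ← e4, ← mul_sub, ← Finset.sum_sub_distrib]
    congr 1
    refine Finset.sum_congr rfl fun j _ => ?_
    rw [dot_sub]
    ring
  have hm2 := nat_le_two_pow m
  have hmr : (0 : ℝ) ≤ m := Nat.cast_nonneg m
  -- the range of the coordinates
  have hyr : ∀ ω ω', 0 < p ω → 0 < p ω' → W ω = W ω' → ∀ i,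
      |y ω i - y ω' i| ≤ σ ω i * (m * 2 ^ n) := by
    intro ω ω' a b h i
    have hr := hR ω a
    rw [hysub ω ω' a b h i, abs_mul, abs_of_pos (hr.pos i)]
    refine mul_le_mul_of_nonneg_left ?_ (hr.pos i).le
    refine (Finset.abs_sum_le_sum_abs _ _).trans ?_
    have h3 : ∀ j ∈ (univ : Finset (Fin m)),
        |A ω i j * (2 ^ κ j * dot (g ω j) (fun l => x ω l - x ω' l))| ≤ 2 ^ n := by
      intro j _
      have h4 := hx ω ω' a b h j
      rw [le_div_iff₀ (by positivity)] at h4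
      rw [abs_mul, abs_mul, abs_of_pos (show (0 : ℝ) < 2 ^ κ j by positivity)]
      have h5 := mul_le_mul (hr.bd i j) h4 (by positivity) zero_le_one
      linarith
    refine (Finset.sum_le_card_nsmul _ _ _ h3).trans ?_
    rw [card_univ, Fintype.card_fin, nsmul_eq_mul]
  -- the falls
  have hσl : ∀ ω, 0 < p ω → ∀ i, 1 ≤ σ ω i * 2 ^ (c + 2 * m) := by
    intro ω hω i
    have h1 := (hR ω hω).nonneg (hg ω hω) (c := c) (hn ω hω) i
    exact one_le_of_logb ((hR ω hω).pos i) h1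
  have hL : ∀ ω, 0 < p ω → ∀ i, Real.log (2 * (σ ω i * (m * 2 ^ n) + 1) + 1) ≤
      Real.logb 2 (σ ω i) * Real.log 2 + (n + c + 3 * m + 3 : ℕ) * Real.log 2 := by
    intro ω hω i
    have hs := (hR ω hω).pos i
    have h1 := hσl ω hω i
    have e1 : Real.logb 2 (σ ω i) * Real.log 2 = Real.log (σ ω i) := by
      unfold Real.logb
      field_simp
    rw [e1, ← Real.log_pow, ← Real.log_mul hs.ne' (by positivity)]
    refine Real.log_le_log (by positivity) ?_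
    have hm1 : 1 ≤ m := lt_of_le_of_lt (Nat.zero_le _) i.2
    have a1 : (m : ℝ) * 2 ^ n ≤ 2 ^ (n + c + 3 * m) := by
      calc (m : ℝ) * 2 ^ n ≤ 2 ^ m * 2 ^ n := mul_le_mul_of_nonneg_right hm2 (by positivity)
        _ = 2 ^ (m + n) := by rw [pow_add]
        _ ≤ 2 ^ (n + c + 3 * m) := pow_le_pow_right₀ (by norm_num) (by omega)
    have a2 : (2 : ℝ) ^ (c + 2 * m) ≤ 2 ^ (n + c + 3 * m) :=
      pow_le_pow_right₀ (by norm_num) (by omega)
    have a3 : (1 : ℝ) ≤ σ ω i * 2 ^ (n + c + 3 * m) :=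
      h1.trans (mul_le_mul_of_nonneg_left a2 hs.le)
    have a4 : σ ω i * (m * 2 ^ n) ≤ σ ω i * 2 ^ (n + c + 3 * m) :=
      mul_le_mul_of_nonneg_left a1 hs.le
    rw [pow_add 2 (n + c + 3 * m) 3]
    nlinarith
  -- the coordinates
  have hC1 : CH p (fun ω i => ⌊y ω i⌋) W ≤ ∑ i : Fin m, Ex p (fun ω =>
      Real.logb 2 (σ ω i) * Real.log 2 + (n + c + 3 * m + 3 : ℕ) * Real.log 2) := by
    refine (ch_coord h0 m (fun ω i => ⌊y ω i⌋) W).trans (Finset.sum_le_sum fun i _ => ?_)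
    refine (CH_le_int h0 hp.sum_one (fun ω => ⌊y ω i⌋) W
      (fun ω => σ ω i * (m * 2 ^ n) + 1) fun ω ω' a b h => ?_).trans
      (Ex_mono h0 fun ω hω => hL ω hω i)
    exact Plk.floor_sub_lt (hyr ω ω' a b h i)
  have hC2 : ∑ i : Fin m, Ex p (fun ω =>
      Real.logb 2 (σ ω i) * Real.log 2 + (n + c + 3 * m + 3 : ℕ) * Real.log 2) ≤
      ((∑ i, κ' i : ℕ) - (∑ i, κ i : ℕ) : ℝ) * Real.log 2 +
        m * ((n + c + 3 * m + 3 : ℕ) * Real.log 2) := by
    unfold Ex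
    rw [Finset.sum_comm]
    have h1 : ∀ ω ∈ (univ : Finset Ω), ∑ i : Fin m, p ω * (Real.logb 2 (σ ω i) * Real.log 2 +
        (n + c + 3 * m + 3 : ℕ) * Real.log 2) ≤
        p ω * (((∑ i, κ' i : ℕ) - (∑ i, κ i : ℕ) : ℝ) * Real.log 2 +
        m * ((n + c + 3 * m + 3 : ℕ) * Real.log 2)) := by
      intro ω _
      rcases eq_or_lt_of_le (h0 ω) with h2 | h2
      · rw [← h2]
        simp
      · rw [← Finset.mul_sum, Finset.sum_add_distrib, ← Finset.sum_mul, (hR ω h2).sum,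
          Finset.sum_const, card_univ, Fintype.card_fin, nsmul_eq_mul]
    refine (Finset.sum_le_sum h1).trans (le_of_eq ?_)
    rw [← Finset.sum_mul, hp.sum_one, one_mul]
  -- the small cells
  have hC3 : CH p (fun ω i => ⌊(2 : ℝ) ^ κ' i * dot (g' ω i) (x ω)⌋)
      (fun ω => ((fun i => ⌊y ω i⌋), W ω)) ≤ m * ((m + 3 : ℕ) * Real.log 2) := by
    have h1 := Plk.CH_vec_const (m := m) hp
      (fun ω i => ⌊(2 : ℝ) ^ κ' i * dot (g' ω i) (x ω)⌋) (fun ω => ((fun i => ⌊y ω i⌋), W ω))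
      (c := m * 1 + 1) (fun ω ω' a b h i => by
        have h2 := Prod.ext_iff.mp h
        have h3 : ∀ i, |y ω i - y ω' i| ≤ 1 := fun i =>
          Plk.abs_sub_lt_of_floor (congrFun h2.1 i)
        have hr := hR ω a
        have h4 := hr.out (fun l => x ω l - x ω' l) 1 zero_le_one (fun i => by
          have h5 := h3 i
          rw [hysub ω ω' a b h2.2 i, abs_mul, abs_of_pos (hr.pos i)] at h5
          exact h5) i
        obtain ⟨-, e2, -, -⟩ := hWr ω ω' a b h2.2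
        refine Plk.floor_sub_lt ?_
        rw [← e2, ← mul_sub, ← dot_sub, abs_mul, abs_of_pos (by positivity)]
        exact h4)
    refine h1.trans (mul_le_mul_of_nonneg_left ?_ hmr)
    rw [← Real.log_pow]
    refine Real.log_le_log (by positivity) ?_
    rw [pow_add]
    have : (1 : ℝ) ≤ 2 ^ m := one_le_pow₀ (by norm_num)
    linarith
  have hfin := CH_le_add h0 (fun ω i => ⌊(2 : ℝ) ^ κ' i * dot (g' ω i) (x ω)⌋)
    (fun ω i => ⌊y ω i⌋) W
  have e1 : (m : ℝ) * ((n + c + 4 * m + 6 : ℕ) * Real.log 2) =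
      m * ((n + c + 3 * m + 3 : ℕ) * Real.log 2) + m * ((m + 3 : ℕ) * Real.log 2) := by
    push_cast
    ring
  rw [e1]
  linarith

end Pool.NB
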