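import Pool.Agent.H69.NB.Piv

/-!
# A strip in a box is, up to constants, a finer box
-/

set_option autoImplicit false

namespace Pool.NB

open Finset

/-- The determinant of a frame. -/
theorem Fr.det {m : ℕ} {o : Equiv.Perm (Fin m)} {g : Fin m → Fin m → ℝ} (h : Fr o g) :
    |(Matrix.of g).det| = 1 := by
  have h1 : ((Matrix.of g).submatrix id o).det = 1 := by
    rw [Matrix.det_of_lowerTriangular]
    · refine Finset.prod_eq_one fun i _ => ?_
      exact h.one i
    · intro i j hij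
      exact h.zer i j hij
  have h2 := Matrix.det_permute' o (Matrix.of g)
  rw [h1] at h2
  have h3 : |((Equiv.Perm.sign o : ℤ) : ℝ)| = 1 := by
    rcases Int.units_eq_one_or (Equiv.Perm.sign o) with h4 | h4
    · rw [h4]; simp
    · rw [h4]; simp
  have h4 := congrArg abs h2
  rw [abs_one, abs_mul, h3, one_mul] at h4
  exact h4.symm

/-- The coordinates of a vector are bounded by its values at the functionals of a frame. -/
theorem Fr.coord {m : ℕ} {o : Equiv.Perm (Fin m)} {g : Fin m → Fin m → ℝ} (h : Fr o g)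
    {v : Fin m → ℝ} {c : ℝ} (hc : 0 ≤ c) (hv : ∀ i, |dot (g i) v| ≤ c) (l : Fin m) :
    |v l| ≤ 2 ^ m * c := by
  have key : ∀ n : ℕ, ∀ i : Fin m, (i : ℕ) = n → |v (o i)| ≤ 2 ^ n * c := by
    intro n
    induction n using Nat.strong_induction_on with
    | _ n ih =>
    intro i hi
    have h1 : dot (g i) v = ∑ j, g i (o j) * v (o j) := by
      unfold dot
      exact (Equiv.sum_comp o fun l => g i l * v l).symm
    have h2 : dot (g i) v = v (o i) + ∑ j ∈ univ.filter (· < i), g i (o j) * v (o j) := by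
      rw [h1, ← Finset.sum_filter_add_sum_filter_not univ (· < i), add_comm]
      congr 1
      rw [Finset.sum_eq_single i]
      · rw [h.one, one_mul]
      · intro j hj hji
        rw [mem_filter] at hj
        rw [h.zer i j (lt_of_le_of_ne (not_lt.1 hj.2) (Ne.symm hji)), zero_mul]
      · intro hcon
        rw [mem_filter] at hcon
        exact absurd ⟨mem_univ _, lt_irrefl i⟩ hcon
    have h3 : |∑ j ∈ univ.filter (· < i), g i (o j) * v (o j)| ≤
        ∑ j ∈ univ.filter (· < i), 2 ^ (j : ℕ) * c := by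
      refine (Finset.abs_sum_le_sum_abs _ _).trans (Finset.sum_le_sum fun j hj => ?_)
      rw [mem_filter] at hj
      rw [abs_mul]
      have h4 := ih (j : ℕ) (by rw [← hi]; exact hj.2) j rfl
      have := mul_le_mul (h.bd i (o j)) h4 (abs_nonneg _) zero_le_one
      linarith
    have h5 : ∑ j ∈ univ.filter (· < i), (2 : ℝ) ^ (j : ℕ) * c = (2 ^ n - 1) * c := by
      rw [← Finset.sum_mul]
      congr 1
      have e : ∑ j ∈ univ.filter (· < i), (2 : ℝ) ^ (j : ℕ) = ∑ k ∈ range n, (2 : ℝ) ^ k := by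
        refine Finset.sum_bij (fun j _ => (j : ℕ)) (fun j hj => ?_) (fun j _ j' _ e => ?_)
          (fun k hk => ?_) (fun _ _ => rfl)
        · rw [mem_filter] at hj
          rw [mem_range, ← hi]
          exact hj.2
        · exact Fin.ext e
        · rw [mem_range] at hk
          have hki : k < (i : ℕ) := by rw [hi]; exact hk
          exact ⟨⟨k, by have := i.2; omega⟩, mem_filter.2 ⟨mem_univ _, hki⟩, rfl⟩
      rw [e, geom_sum_eq (by norm_num)]
      norm_num
    have h6 : v (o i) = dot (g i) v - ∑ j ∈ univ.filter (· < i), g i (o j) * v (o j) := by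
      rw [h2]; ring
    rw [h6]
    refine (abs_sub _ _).trans ?_
    rw [h5] at h3
    have := hv i
    linarith
  obtain ⟨i, rfl⟩ := o.surjective l
  refine (key _ i rfl).trans (mul_le_mul_of_nonneg_right ?_ hc)
  exact pow_le_pow_right₀ (by norm_num) i.2.le

/-- The matrix of a strip in a box. -/
noncomputable def stM {m : ℕ} (g : Fin m → Fin m → ℝ) (q : Fin m → ℕ) (lam : Fin m → ℝ) (h : ℕ)
    (k : Fin m) : Matrix (Fin m) (Fin m) ℝ :=
  (Matrix.of fun i l => (2 : ℝ) ^ q i * g i l).updateRow k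
    (∑ j, ((2 : ℝ) ^ h * lam j) • (Matrix.of fun i l => (2 : ℝ) ^ q i * g i l) j)

theorem stM_det {m : ℕ} {o : Equiv.Perm (Fin m)} {g : Fin m → Fin m → ℝ} (hg : Fr o g)
    (q : Fin m → ℕ) {lam : Fin m → ℝ} (h : ℕ) {k : Fin m} (hk : |lam k| = 1) :
    |(stM g q lam h k).det| = 2 ^ (∑ i, q i + h) := by
  unfold stM
  rw [Matrix.det_updateRow_sum, smul_eq_mul, abs_mul, abs_mul, hk, mul_one, abs_pow, abs_two]
  have h1 : (Matrix.of fun i l => (2 : ℝ) ^ q i * g i l) =
      Matrix.diagonal (fun i => (2 : ℝ) ^ q i) * Matrix.of g := by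
    ext i l
    rw [Matrix.diagonal_mul]
    rfl
  rw [h1, Matrix.det_mul, Matrix.det_diagonal, abs_mul, hg.det, mul_one, Finset.abs_prod]
  have h2 : ∏ i, |(2 : ℝ) ^ q i| = 2 ^ ∑ i, q i := by
    rw [← Finset.prod_pow_eq_pow_sum]
    exact Finset.prod_congr rfl fun i _ => by rw [abs_pow, abs_two]
  rw [h2, pow_add, mul_comm]

theorem stM_ne {m : ℕ} (g : Fin m → Fin m → ℝ) (q : Fin m → ℕ) (lam : Fin m → ℝ) (h : ℕ)
    {k i : Fin m} (hi : i ≠ k) (l : Fin m) : stM g q lam h k i l = 2 ^ q i * g i l := by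
  unfold stM
  rw [Matrix.updateRow_ne hi]
  rfl

theorem stM_self {m : ℕ} (g : Fin m → Fin m → ℝ) (q : Fin m → ℕ) (lam : Fin m → ℝ) (h : ℕ)
    (k l : Fin m) : stM g q lam h k k l = ∑ j, 2 ^ h * lam j * (2 ^ q j * g j l) := by
  unfold stM
  rw [Matrix.updateRow_self, Finset.sum_apply]
  exact Finset.sum_congr rfl fun j _ => rfl

theorem dot_stM_ne {m : ℕ} (g : Fin m → Fin m → ℝ) (q : Fin m → ℕ) (lam : Fin m → ℝ) (h : ℕ)
    {k i : Fin m} (hi : i ≠ k) (v : Fin m → ℝ) :
    dot (stM g q lam h k i) v = 2 ^ q i * dot (g i) v := by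
  rw [← dot_smul]
  congr 1
  funext l
  exact stM_ne g q lam h hi l

theorem dot_stM_self {m : ℕ} (g : Fin m → Fin m → ℝ) (q : Fin m → ℕ) (lam : Fin m → ℝ) (h : ℕ)
    (k : Fin m) (v : Fin m → ℝ) :
    dot (stM g q lam h k k) v = 2 ^ h * ∑ j, lam j * (2 ^ q j * dot (g j) v) := by
  unfold dot
  rw [Finset.mul_sum]
  have e : ∀ l, stM g q lam h k k l * v l = ∑ j, 2 ^ h * lam j * (2 ^ q j * g j l) * v l := by
    intro l
    rw [stM_self, Finset.sum_mul]
  rw [Finset.sum_congr rfl fun l _ => e l, Finset.sum_comm]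
  refine Finset.sum_congr rfl fun j _ => ?_
  rw [Finset.mul_sum, Finset.mul_sum, Finset.mul_sum]
  exact Finset.sum_congr rfl fun l _ => by ring

/-- The new precisions. -/
noncomputable def nq {m : ℕ} (σ : Fin m → ℝ) (i : Fin m) : ℕ := (i : ℕ) + Nat.log 2 ⌊σ i⌋₊

theorem lt_pow_log {x : ℝ} (hx : 0 < x) : x < 2 ^ (Nat.log 2 ⌊x⌋₊ + 1) := by
  have h1 : ⌊x⌋₊ < 2 ^ (Nat.log 2 ⌊x⌋₊ + 1) := Nat.lt_pow_succ_log_self (by norm_num) _
  have h2 : x < ⌊x⌋₊ + 1 := Nat.lt_floor_add_one x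
  have h3 : ((⌊x⌋₊ + 1 : ℕ) : ℝ) ≤ ((2 ^ (Nat.log 2 ⌊x⌋₊ + 1) : ℕ) : ℝ) := by exact_mod_cast h1
  push_cast at h3
  linarith

theorem pow_log_le {x : ℝ} (hx : 1 ≤ x) : (2 : ℝ) ^ (Nat.log 2 ⌊x⌋₊) ≤ x := by
  have h0 : ⌊x⌋₊ ≠ 0 := by
    have : 1 ≤ ⌊x⌋₊ := Nat.le_floor (by exact_mod_cast hx)
    omega
  have h1 : 2 ^ Nat.log 2 ⌊x⌋₊ ≤ ⌊x⌋₊ := Nat.pow_log_le_self 2 h0
  have h2 : ((2 ^ Nat.log 2 ⌊x⌋₊ : ℕ) : ℝ) ≤ (⌊x⌋₊ : ℝ) := by exact_mod_cast h1
  push_cast at h2
  exact h2.trans (Nat.floor_le (by linarith))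

theorem log_le_of_lt {x : ℝ} {n : ℕ} (hx0 : 0 < x) (hx : x < 2 ^ (n + 1)) :
    Nat.log 2 ⌊x⌋₊ ≤ n := by
  have h1 : ⌊x⌋₊ < 2 ^ (n + 1) := by
    have h2 : (⌊x⌋₊ : ℝ) < 2 ^ (n + 1) := (Nat.floor_le hx0.le).trans_lt hx
    exact_mod_cast h2
  rcases Nat.eq_zero_or_pos ⌊x⌋₊ with h3 | h3
  · rw [h3]; simp
  · have h4 : Nat.log 2 ⌊x⌋₊ < n + 1 := Nat.log_lt_of_lt_pow (by omega) h1
    omega

/-- The constant. -/
def cM (m : ℕ) : ℕ := 4 * m + 2

theorem nat_le_two_pow (m : ℕ) : (m : ℝ) ≤ 2 ^ m := by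
  have h : m ≤ 2 ^ m := Nat.lt_two_pow_self.le
  exact_mod_cast h

/-- **(GEO)** A strip in a box is, up to constants, a finer box. -/
theorem geo {m : ℕ} {o : Equiv.Perm (Fin m)} {g : Fin m → Fin m → ℝ} (hg : Fr o g)
    (q : Fin m → ℕ) {lam : Fin m → ℝ} (hl : ∀ i, |lam i| ≤ 1) (hl1 : ∃ k, |lam k| = 1) (h : ℕ) :
    ∃ (o' : Equiv.Perm (Fin m)) (g' : Fin m → Fin m → ℝ) (q' : Fin m → ℕ), Fr o' g' ∧
      Monotone q' ∧ ∑ i, q i + h ≤ ∑ i, q' i + cM m ∧
      (∀ v : Fin m → ℝ, (∀ i, |dot (g i) v| ≤ 1 / 2 ^ q i) →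
        |∑ i, lam i * (2 ^ q i * dot (g i) v)| ≤ 1 / 2 ^ h →
        ∀ i, |dot (g' i) v| ≤ 2 ^ cM m / 2 ^ q' i) ∧
      (∀ v : Fin m → ℝ, (∀ i, |dot (g' i) v| ≤ 1 / 2 ^ q' i) →
        (∀ i, |dot (g i) v| ≤ 2 ^ cM m / 2 ^ q i) ∧
        |∑ i, lam i * (2 ^ q i * dot (g i) v)| ≤ 2 ^ cM m / 2 ^ h) ∧
      (∀ N : ℕ, (∀ j, q j ≤ N) → (∀ j, |lam j| * 2 ^ (q j + h) ≤ 2 ^ N) → ∀ i, q' i ≤ N + cM m)
    := by
  obtain ⟨k, hk⟩ := hl1
  have hm : 1 ≤ m := by
    have := k.2
    omega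
  have hdet := stM_det hg q h hk
  have hA : (stM g q lam h k).det ≠ 0 := by
    intro h0
    rw [h0, abs_zero] at hdet
    have : (0 : ℝ) < 2 ^ (∑ i, q i + h) := by positivity
    linarith
  obtain ⟨o', g', σ, hP⟩ := piv m _ hA
  have hmr := nat_le_two_pow m
  have h2m : (1 : ℝ) ≤ 2 ^ m := one_le_pow₀ (by norm_num)
  have hσ : ∀ i, σ i < 2 ^ (Nat.log 2 ⌊σ i⌋₊ + 1) := fun i => lt_pow_log (hP.pos i)
  refine ⟨o', g', nq σ, hP.fr, ?_, ?_, ?_, ?_, ?_⟩
  · -- monotone
    intro i j hij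
    have hij' : (i : ℕ) ≤ j := hij
    unfold nq
    have h1 : σ i < 2 ^ (((j : ℕ) - i + Nat.log 2 ⌊σ j⌋₊) + 1) := by
      refine lt_of_le_of_lt (hP.mon i j hij) ?_
      rw [show ((j : ℕ) - i + Nat.log 2 ⌊σ j⌋₊) + 1 = ((j : ℕ) - i) + (Nat.log 2 ⌊σ j⌋₊ + 1) by
        ring, pow_add]
      exact mul_lt_mul_of_pos_left (hσ j) (by positivity)
    have h2 := log_le_of_lt (hP.pos i) h1
    omega
  · -- the gain
    have h1 : (2 : ℝ) ^ (∑ i, q i + h) ≤ 2 ^ (∑ i, nq σ i + m) := by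
      rw [← hdet, hP.det]
      have h2 : ∏ i, σ i ≤ ∏ i, (2 : ℝ) ^ (nq σ i + 1) := by
        refine Finset.prod_le_prod (fun i _ => (hP.pos i).le) fun i _ => ?_
        refine (hσ i).le.trans (pow_le_pow_right₀ (by norm_num) ?_)
        unfold nq
        omega
      refine h2.trans (le_of_eq ?_)
      rw [Finset.prod_pow_eq_pow_sum, Finset.sum_add_distrib, Finset.sum_const, card_univ,
        Fintype.card_fin, smul_eq_mul, mul_one]
    have h3 : ∑ i, q i + h ≤ ∑ i, nq σ i + m := (pow_le_pow_iff_right₀ (by norm_num)).1 h1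
    refine h3.trans ?_
    unfold cM
    omega
  · -- the strip is in the new box
    intro v hv hs i
    have hA1 : ∀ j, |dot (stM g q lam h k j) v| ≤ 1 := by
      intro j
      have hq : (0 : ℝ) < 2 ^ q j := by positivity
      rcases eq_or_ne j k with hj | hj
      · rw [hj, dot_stM_self, abs_mul, abs_pow, abs_two]
        have h2 : (0 : ℝ) < 2 ^ h := by positivity
        have h3 := mul_le_mul_of_nonneg_left hs h2.le
        rwa [mul_one_div_cancel h2.ne'] at h3
      · rw [dot_stM_ne g q lam h hj, abs_mul, abs_of_pos hq]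
        have h3 := mul_le_mul_of_nonneg_left (hv j) hq.le
        rwa [mul_one_div_cancel hq.ne'] at h3
    have h1 := hP.inn v 1 zero_le_one hA1 i
    rw [mul_one] at h1
    have hqp : (0 : ℝ) < 2 ^ nq σ i := by positivity
    rw [le_div_iff₀ hqp]
    have hi : (2 : ℝ) ^ (i : ℕ) ≤ 2 ^ m := pow_le_pow_right₀ (by norm_num) i.2.le
    rcases le_or_gt 1 (σ i) with h2 | h2
    · have h3 := pow_log_le h2
      have h4 : (2 : ℝ) ^ nq σ i ≤ 2 ^ m * σ i := by
        unfold nq
        rw [pow_add]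
        exact mul_le_mul hi h3 (by positivity) (by positivity)
      calc |dot (g' i) v| * 2 ^ nq σ i ≤ |dot (g' i) v| * (2 ^ m * σ i) :=
            mul_le_mul_of_nonneg_left h4 (abs_nonneg _)
        _ = 2 ^ m * (σ i * |dot (g' i) v|) := by ring
        _ ≤ 2 ^ m * 2 ^ m := mul_le_mul_of_nonneg_left h1 (by positivity)
        _ = 2 ^ (m + m) := (pow_add _ _ _).symm
        _ ≤ 2 ^ cM m := pow_le_pow_right₀ (by norm_num) (by unfold cM; omega)
    · have h3 : ⌊σ i⌋₊ = 0 := Nat.floor_eq_zero.2 h2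
      have h4 : nq σ i = i := by
        unfold nq
        rw [h3]
        simp
      have h5 : ∀ l, |v l| ≤ 2 ^ m := fun l => by
        have := hg.coord zero_le_one (fun j => (hv j).trans (by
          rw [div_le_one (by positivity)]
          exact one_le_pow₀ (by norm_num))) l
        rwa [mul_one] at this
      have h6 := abs_dot_le zero_le_one (hP.fr.bd i) h5
      rw [one_mul] at h6
      rw [h4]
      calc |dot (g' i) v| * 2 ^ (i : ℕ) ≤ (m * 2 ^ m) * 2 ^ m :=
            mul_le_mul h6 hi (by positivity) (by positivity)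
        _ ≤ (2 ^ m * 2 ^ m) * 2 ^ m :=
            mul_le_mul_of_nonneg_right (mul_le_mul_of_nonneg_right hmr (by positivity))
              (by positivity)
        _ = 2 ^ (m + m + m) := by rw [pow_add, pow_add]
        _ ≤ 2 ^ cM m := pow_le_pow_right₀ (by norm_num) (by unfold cM; omega)
  · -- the new box is in the box
    intro v hv
    have h1 : ∀ j, σ j * |dot (g' j) v| ≤ 2 := by
      intro j
      have h2 := mul_le_mul (hσ j).le (hv j) (abs_nonneg _) (by positivity)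
      refine h2.trans ?_
      rw [mul_one_div, div_le_iff₀ (by positivity)]
      unfold nq
      rw [pow_add, pow_add, pow_one]
      have h3 : (1 : ℝ) ≤ 2 ^ (j : ℕ) := one_le_pow₀ (by norm_num)
      have h4 : (0 : ℝ) < 2 ^ Nat.log 2 ⌊σ j⌋₊ := by positivity
      nlinarith
    have h2 : ∀ j, |dot (stM g q lam h k j) v| ≤ 2 ^ (m + 1) := by
      intro j
      refine (hP.out v 2 (by norm_num) h1 j).trans ?_
      rw [pow_succ]
      exact mul_le_mul_of_nonneg_right hmr (by norm_num)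
    have h3 : ∀ j, j ≠ k → 2 ^ q j * |dot (g j) v| ≤ 2 ^ (m + 1) := by
      intro j hj
      have h4 := h2 j
      rw [dot_stM_ne g q lam h hj, abs_mul, abs_of_pos (show (0 : ℝ) < 2 ^ q j by positivity)]
        at h4
      exact h4
    have h4 : 2 ^ q k * |dot (g k) v| ≤ (m + 1) * 2 ^ (m + 1) := by
      have h5 := h2 k
      rw [dot_stM_self, abs_mul, abs_of_pos (show (0 : ℝ) < 2 ^ h by positivity)] at h5
      have h6 : |∑ j, lam j * (2 ^ q j * dot (g j) v)| ≤ 2 ^ (m + 1) := by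
        have h7 : (1 : ℝ) ≤ 2 ^ h := one_le_pow₀ (by norm_num)
        have h8 : 0 ≤ |∑ j, lam j * (2 ^ q j * dot (g j) v)| := abs_nonneg _
        nlinarith
      have h7 : ∑ j, lam j * (2 ^ q j * dot (g j) v) = lam k * (2 ^ q k * dot (g k) v) +
          ∑ j ∈ univ.erase k, lam j * (2 ^ q j * dot (g j) v) :=
        (Finset.add_sum_erase univ _ (mem_univ k)).symm
      have h8 : |∑ j ∈ univ.erase k, lam j * (2 ^ q j * dot (g j) v)| ≤ m * 2 ^ (m + 1) := by
        refine (Finset.abs_sum_le_sum_abs _ _).trans ?_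
        have h9 : ∀ j ∈ univ.erase k, |lam j * (2 ^ q j * dot (g j) v)| ≤ 2 ^ (m + 1) := by
          intro j hj
          rw [abs_mul, abs_mul, abs_of_pos (show (0 : ℝ) < 2 ^ q j by positivity)]
          have := mul_le_mul (hl j) (h3 j (Finset.ne_of_mem_erase hj)) (by positivity)
            zero_le_one
          linarith
        refine (Finset.sum_le_card_nsmul _ _ _ h9).trans ?_
        rw [nsmul_eq_mul]
        refine mul_le_mul_of_nonneg_right ?_ (by positivity)
        have : (univ.erase k).card ≤ m := by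
          refine (Finset.card_erase_le).trans ?_
          rw [card_univ, Fintype.card_fin]
        exact_mod_cast this
      have h9 : 2 ^ q k * |dot (g k) v| = |lam k * (2 ^ q k * dot (g k) v)| := by
        rw [abs_mul, hk, one_mul, abs_mul, abs_of_pos (show (0 : ℝ) < 2 ^ q k by positivity)]
      rw [h9]
      have h10 : lam k * (2 ^ q k * dot (g k) v) = ∑ j, lam j * (2 ^ q j * dot (g j) v) -
          ∑ j ∈ univ.erase k, lam j * (2 ^ q j * dot (g j) v) := by
        rw [h7]; ring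
      rw [h10]
      refine (abs_sub _ _).trans ?_
      linarith
    have hself : |∑ i, lam i * (2 ^ q i * dot (g i) v)| ≤ 2 ^ cM m / 2 ^ h := by
      have h5 := h2 k
      rw [dot_stM_self, abs_mul, abs_of_pos (show (0 : ℝ) < 2 ^ h by positivity)] at h5
      rw [le_div_iff₀ (by positivity), mul_comm]
      refine h5.trans (pow_le_pow_right₀ (by norm_num) ?_)
      unfold cM
      omega
    refine ⟨fun i => ?_, hself⟩
    have hm1 : ((m : ℝ) + 1) * 2 ^ (m + 1) ≤ 2 ^ cM m := by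
      have h5 : (m : ℝ) + 1 ≤ 2 ^ (m + 1) := by
        have := nat_le_two_pow (m + 1)
        push_cast at this
        exact this
      calc ((m : ℝ) + 1) * 2 ^ (m + 1) ≤ 2 ^ (m + 1) * 2 ^ (m + 1) :=
            mul_le_mul_of_nonneg_right h5 (by positivity)
        _ = 2 ^ ((m + 1) + (m + 1)) := (pow_add _ _ _).symm
        _ ≤ 2 ^ cM m := pow_le_pow_right₀ (by norm_num) (by unfold cM; omega)
    rw [le_div_iff₀ (by positivity), mul_comm]
    rcases eq_or_ne i k with hi | hi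
    · rw [hi]
      exact h4.trans hm1
    · refine (h3 i hi).trans (pow_le_pow_right₀ (by norm_num) ?_)
      unfold cM
      omega
  · -- the precisions are bounded
    intro N hN hlN i
    have h1 : ∀ j l, |stM g q lam h k j l| ≤ m * 2 ^ N := by
      intro j l
      rcases eq_or_ne j k with hj | hj
      · rw [hj, stM_self]
        refine (Finset.abs_sum_le_sum_abs _ _).trans ?_
        have h2 : ∀ j' ∈ (univ : Finset (Fin m)), |2 ^ h * lam j' * (2 ^ q j' * g j' l)| ≤
            2 ^ N := by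
          intro j' _
          have e : |2 ^ h * lam j' * (2 ^ q j' * g j' l)| =
              |lam j'| * 2 ^ (q j' + h) * |g j' l| := by
            rw [abs_mul, abs_mul, abs_mul, abs_of_pos (show (0 : ℝ) < 2 ^ h by positivity),
              abs_of_pos (show (0 : ℝ) < 2 ^ q j' by positivity), pow_add]
            ring
          rw [e]
          have := mul_le_mul (hlN j') (hg.bd j' l) (abs_nonneg _) (by positivity)
          linarith
        refine (Finset.sum_le_card_nsmul _ _ _ h2).trans ?_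
        rw [nsmul_eq_mul, card_univ, Fintype.card_fin]
      · rw [stM_ne g q lam h hj, abs_mul, abs_of_pos (show (0 : ℝ) < 2 ^ q j by positivity)]
        have h2 : (2 : ℝ) ^ q j ≤ 2 ^ N := pow_le_pow_right₀ (by norm_num) (hN j)
        have h3 := mul_le_mul h2 (hg.bd j l) (abs_nonneg _) (by positivity)
        have h4 : (1 : ℝ) ≤ m := by exact_mod_cast hm
        have h5 : (0 : ℝ) < 2 ^ N := by positivity
        nlinarith
    have h2 := hP.top _ h1 i
    have h3 : σ i < 2 ^ ((N + 2 * m) + 1) := by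
      refine lt_of_le_of_lt h2 ?_
      have h4 : (2 : ℝ) ^ (m - 1 - (i : ℕ)) ≤ 2 ^ m := pow_le_pow_right₀ (by norm_num) (by omega)
      calc (2 : ℝ) ^ (m - 1 - (i : ℕ)) * (m * 2 ^ N) ≤ 2 ^ m * (2 ^ m * 2 ^ N) :=
            mul_le_mul h4 (mul_le_mul_of_nonneg_right hmr (by positivity)) (by positivity)
              (by positivity)
        _ = 2 ^ (m + (m + N)) := by rw [pow_add, pow_add]
        _ < 2 ^ ((N + 2 * m) + 1) := pow_lt_pow_right₀ (by norm_num) (by omega)
    have h4 := log_le_of_lt (hP.pos i) h3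
    unfold nq cM
    have := i.2
    omega

end Pool.NB
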