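import Pool.Agent.H54.PC.Cnt
import Pool.Agent.H67.PC.Modx
import Pool.Agent.H69.NB.Geo

/-!
# Boxes in the space of directions at the exact points, in every dimension
-/

set_option autoImplicit false

namespace Pool.NB

open Finset Real
open Pool.Agent.H49.Ent Pool.Agent.H32.Dense Pool.STK Pool.KA Pool.K2S
open Pool.PC (On Cnt DetA pt)

variable {m J : ℕ}

/-- A box at the exact points: the order of the coordinates, the functionals, the precisions. -/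
structure Bx (F : Fam m J) where
  /-- the order -/
  o : Equiv.Perm (Fin m)
  /-- the functionals -/
  g : F.Ω → Fin m → Fin m → ℝ
  /-- the precisions -/
  q : Fin m → ℕ

section bx

variable {F : Fam m J}

/-- The vector is in the box, enlarged by the factor `C`. -/
def Bx.In (B : Bx F) (ω : F.Ω) (C : ℝ) (v : Fin m → ℝ) : Prop :=
  ∀ i, |dot (B.g ω i) v| ≤ C / 2 ^ B.q i

/-- The cell of the direction. -/
noncomputable def Bx.cel (B : Bx F) (ω : F.Ω) (i : Fin m) : ℤ :=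
  ⌊(2 : ℝ) ^ B.q i * dot (B.g ω i) (F.d ω)⌋

/-- The label of the box: the functionals and the cells of the direction. -/
noncomputable def Bx.lab (B : Bx F) (ω : F.Ω) : (Fin m → Fin m → ℝ) × (Fin m → ℤ) :=
  (B.g ω, B.cel ω)

/-- The zoomed direction. -/
noncomputable def Bx.om (B : Bx F) (ω : F.Ω) (i : Fin m) : ℝ :=
  Int.fract ((2 : ℝ) ^ B.q i * dot (B.g ω i) (F.d ω))

/-- Admissible boxes. -/
structure Bx.Ok (B : Bx F) (A : F.Ω → Prop) : Prop where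
  mono : Monotone B.q
  leJ : ∀ i, B.q i ≤ J
  fr : ∀ ω, On F A ω → Fr B.o (B.g ω)

/-- The total precision. -/
def Bx.vol (B : Bx F) : ℕ := ∑ i, B.q i

/-- The box `B'` is inside the box `B`, up to `c` digits. -/
def Bx.Sub (c : ℕ) (B' B : Bx F) (A : F.Ω → Prop) : Prop :=
  ∀ ω, On F A ω → ∀ v : Fin m → ℝ, B'.In ω 1 v → B.In ω (2 ^ c) v

/-- `g` more digits (at most `J`) in all directions, the same frame. -/
def Bx.sh (B : Bx F) (g : ℕ) : Bx F where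
  o := B.o
  g := B.g
  q i := min (B.q i + g) J

end bx

/-! ### Counting -/

section cnt

variable {F : Fam m J} {A : F.Ω → Prop} {α : Type} {P : F.Ω → α}

/-- Integer vectors which are near each other. -/
theorem cnt_vec {n : ℕ} {f : F.Ω → Fin n → ℤ} {c : ℕ} (h : ∀ ω ω', On F A ω → On F A ω' →
    P ω = P ω' → ∀ i, f ω i - f ω' i ≤ c) : Cnt F A P f ((2 * c + 1 : ℕ) ^ n : ℕ) := by
  classical
  refine Cnt.intro fun ω₀ h0 => ⟨Fintype.piFinset fun i => Finset.Icc (f ω₀ i - c) (f ω₀ i + c),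
    fun ω h1 h2 => ?_, ?_⟩
  · rw [Fintype.mem_piFinset]
    intro i
    have h3 := h ω ω₀ h1 h0 h2 i
    have h4 := h ω₀ ω h0 h1 h2.symm i
    rw [Finset.mem_Icc]
    constructor <;> linarith
  · rw [Fintype.card_piFinset]
    have e : ∀ i : Fin n, (Finset.Icc (f ω₀ i - c) (f ω₀ i + c)).card = 2 * c + 1 := by
      intro i
      rw [Int.card_Icc]
      have e : f ω₀ i + c + 1 - (f ω₀ i - c) = ((2 * c + 1 : ℕ) : ℤ) := by push_cast; ring
      rw [e, Int.toNat_natCast]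
    rw [Finset.prod_congr rfl fun i _ => e i, Finset.prod_const, card_univ, Fintype.card_fin]

/-- Floors of numbers which are near each other. -/
theorem floor_sub_le {x y : ℝ} {c : ℕ} (h : x - y ≤ c) : ⌊x⌋ - ⌊y⌋ ≤ (c + 1 : ℕ) := by
  have h1 := Int.floor_le x
  have h2 := Int.lt_floor_add_one y
  have h3 : ((⌊x⌋ - ⌊y⌋ : ℤ) : ℝ) < ((c + 2 : ℤ) : ℝ) := by
    push_cast
    linarith
  have h4 := Int.cast_lt.1 h3
  push_cast
  omega

end cnt

/-- The number of orders and precisions. -/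
noncomputable def nPig (m J : ℕ) : ℝ := (m.factorial : ℝ) * ((J : ℝ) + 1) ^ m

/-- The loss of digits. -/
def cV (m : ℕ) : ℕ := (m + 1) * cM m

/-- The loss of precision of the inclusion. -/
def cS (m : ℕ) : ℕ := 2 * cM m

/-- The logarithm of the number of labels. -/
def cN (m : ℕ) : ℕ := (cM m + 3) * m

/-- **(MOD)** If a unit functional of the zoomed direction is known to `h` digits, up to `exp L`
values, then there is a finer box, with `h` more digits in total, on a part of the event. -/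
theorem mod {F : Fam m J} {A : F.Ω → Prop} {B : Bx F} {α : Type} {P : F.Ω → α}
    {lam : F.Ω → Fin m → ℝ} {h : ℕ} {L : ℝ} (hO : B.Ok A) (hd : DetA F A P B.lab)
    (hl : DetA F A P lam) (h1 : ∀ ω, On F A ω → (∀ i, |lam ω i| ≤ 1) ∧ (∃ i, |lam ω i| = 1) ∧
      ∀ i, |lam ω i| * 2 ^ (B.q i + h) ≤ 2 ^ J)
    (hc : Cnt F A P (fun ω => ⌊(2 : ℝ) ^ h * ∑ i, lam ω i * B.om ω i⌋) (Real.exp L))
    (hA : 0 < Pe F.p A) :
    ∃ (A' : F.Ω → Prop) (B' : Bx F), (∀ ω, A' ω → A ω) ∧ Pe F.p A / nPig m J ≤ Pe F.p A' ∧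
      B'.Ok A' ∧ B.vol + h ≤ B'.vol + cV m ∧ B'.Sub (cS m) B A' ∧
      Cnt F A' P B'.lab (2 ^ cN m * Real.exp L) := by
  classical
  -- the new box, as a function of `(g, lam)`
  have hch : ∀ t : (Fin m → Fin m → ℝ) × (Fin m → ℝ),
      ∃ r : Equiv.Perm (Fin m) × ((Fin m → Fin m → ℝ) × (Fin m → ℕ)),
      (Fr B.o t.1 ∧ (∀ i, |t.2 i| ≤ 1) ∧ (∃ i, |t.2 i| = 1) ∧
        ∀ i, |t.2 i| * 2 ^ (B.q i + h) ≤ 2 ^ J) →
      Fr r.1 r.2.1 ∧ Monotone r.2.2 ∧ ∑ i, B.q i + h ≤ ∑ i, r.2.2 i + cM m ∧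
      (∀ v : Fin m → ℝ, (∀ i, |dot (t.1 i) v| ≤ 1 / 2 ^ B.q i) →
        |∑ i, t.2 i * (2 ^ B.q i * dot (t.1 i) v)| ≤ 1 / 2 ^ h →
        ∀ i, |dot (r.2.1 i) v| ≤ 2 ^ cM m / 2 ^ r.2.2 i) ∧
      (∀ v : Fin m → ℝ, (∀ i, |dot (r.2.1 i) v| ≤ 1 / 2 ^ r.2.2 i) →
        ∀ i, |dot (t.1 i) v| ≤ 2 ^ cM m / 2 ^ B.q i) ∧ ∀ i, r.2.2 i ≤ J + cM m := by
    intro t
    by_cases ht : Fr B.o t.1 ∧ (∀ i, |t.2 i| ≤ 1) ∧ (∃ i, |t.2 i| = 1) ∧
        ∀ i, |t.2 i| * 2 ^ (B.q i + h) ≤ 2 ^ J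
    · obtain ⟨o', g', q', k1, k2, k3, k4, k5, k6⟩ := geo ht.1 B.q ht.2.1 ht.2.2.1 h
      exact ⟨(o', (g', q')), fun _ => ⟨k1, k2, k3, k4, fun v hv => (k5 v hv).1, k6 J hO.leJ ht.2.2.2⟩⟩
    · exact ⟨(Equiv.refl _, (fun _ _ => 0, fun _ => 0)), fun h => absurd h ht⟩
  choose Φ hΦ using hch
  obtain ⟨t, ht⟩ : ∃ t : F.Ω → (Fin m → Fin m → ℝ) × (Fin m → ℝ),
      t = fun ω => (B.g ω, lam ω) := ⟨_, rfl⟩
  have hadm : ∀ ω, On F A ω → Fr B.o (t ω).1 ∧ (∀ i, |(t ω).2 i| ≤ 1) ∧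
      (∃ i, |(t ω).2 i| = 1) ∧ ∀ i, |(t ω).2 i| * 2 ^ (B.q i + h) ≤ 2 ^ J := by
    intro ω hω
    rw [ht]
    exact ⟨hO.fr ω hω, (h1 ω hω).1, (h1 ω hω).2.1, (h1 ω hω).2.2⟩
  obtain ⟨k, hk⟩ : ∃ k : F.Ω → Equiv.Perm (Fin m) × (Fin m → Fin (J + 1)), k = fun ω =>
      ((Φ (t ω)).1, fun i => ⟨min ((Φ (t ω)).2.2 i) J, by omega⟩) := ⟨_, rfl⟩
  obtain ⟨k₀, hk₀⟩ := Pool.PC.pe_pigeon67 (p := F.p) k A
  obtain ⟨A', hA'⟩ : ∃ A' : F.Ω → Prop, A' = fun ω => A ω ∧ k ω = k₀ := ⟨_, rfl⟩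
  have hcard : (Fintype.card (Equiv.Perm (Fin m) × (Fin m → Fin (J + 1))) : ℝ) = nPig m J := by
    unfold nPig
    rw [Fintype.card_prod, Fintype.card_perm, Fintype.card_fin, Fintype.card_fun,
      Fintype.card_fin, Fintype.card_fin]
    push_cast
    ring
  rw [hcard, ← hA'] at hk₀
  have hnp : 0 < nPig m J := by
    unfold nPig
    have : (0 : ℝ) < m.factorial := by exact_mod_cast m.factorial_pos
    positivity
  have hpos : 0 < Pe F.p A' := lt_of_lt_of_le (div_pos hA hnp) hk₀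
  have hon : ∀ ω, On F A' ω → On F A ω := by
    intro ω hω
    rw [hA'] at hω
    exact ⟨hω.1, hω.2.1⟩
  -- the values on `A'`
  have hval : ∀ ω, On F A' ω → (Φ (t ω)).1 = k₀.1 ∧ ∀ i, min ((Φ (t ω)).2.2 i) J = k₀.2 i := by
    intro ω hω
    have h5 : k ω = k₀ := by
      rw [hA'] at hω
      exact hω.2.2
    rw [← h5, hk]
    exact ⟨rfl, fun i => rfl⟩
  obtain ⟨B', hB'⟩ : ∃ B' : Bx F, B' = ⟨k₀.1, fun ω => (Φ (t ω)).2.1, fun i => k₀.2 i⟩ :=
    ⟨_, rfl⟩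
  have hBo : B'.o = k₀.1 := by rw [hB']
  have hBg : ∀ ω, B'.g ω = (Φ (t ω)).2.1 := fun ω => by rw [hB']
  have hBq : ∀ i, B'.q i = (k₀.2 i : ℕ) := fun i => by rw [hB']
  obtain ⟨ω₁, hω₁⟩ := Pool.PC.exists_on hpos
  refine ⟨A', B', fun ω h => ?_, hk₀, ⟨?_, ?_, fun ω hω => ?_⟩, ?_, fun ω hω v hv => ?_, ?_⟩
  · rw [hA'] at h
    exact h.1
  · intro i j hij
    rw [hBq, hBq, ← (hval ω₁ hω₁).2 i, ← (hval ω₁ hω₁).2 j]
    exact min_le_min_right _ ((hΦ (t ω₁) (hadm ω₁ (hon ω₁ hω₁))).2.1 hij)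
  · intro i
    rw [hBq]
    have := (k₀.2 i).2
    omega
  · rw [hBo, hBg, ← (hval ω hω).1]
    exact (hΦ (t ω) (hadm ω (hon ω hω))).1
  · obtain ⟨-, -, f3, -, -, f6⟩ := hΦ (t ω₁) (hadm ω₁ (hon ω₁ hω₁))
    have e1 : ∑ i, (Φ (t ω₁)).2.2 i ≤ ∑ i, (B'.q i + cM m) := by
      refine Finset.sum_le_sum fun i _ => ?_
      rw [hBq, ← (hval ω₁ hω₁).2 i]
      have := f6 i
      omega
    rw [Finset.sum_add_distrib, Finset.sum_const, card_univ, Fintype.card_fin, smul_eq_mul] at e1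
    unfold Bx.vol cV
    have e2 : (m + 1) * cM m = m * cM m + cM m := by ring
    omega
  · obtain ⟨-, -, -, -, f5, f6⟩ := hΦ (t ω) (hadm ω (hon ω hω))
    intro i
    have e1 : (0 : ℝ) < 2 ^ cM m := by positivity
    have e2 := f5 (fun l => (2 ^ cM m)⁻¹ * v l) (fun j => by
      have e3 : dot ((Φ (t ω)).2.1 j) (fun l => (2 ^ cM m)⁻¹ * v l) =
          (2 ^ cM m)⁻¹ * dot ((Φ (t ω)).2.1 j) v := by
        unfold dot
        rw [Finset.mul_sum]
        exact Finset.sum_congr rfl fun l _ => by ring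
      rw [e3, abs_mul, abs_inv, abs_of_pos e1, inv_mul_le_iff₀ e1]
      have e4 := hv j
      rw [hBg, hBq, ← (hval ω hω).2 j] at e4
      refine e4.trans ?_
      rw [mul_one_div, div_le_div_iff₀ (by positivity) (by positivity), one_mul, ← pow_add]
      refine pow_le_pow_right₀ (by norm_num) ?_
      have := f6 j
      omega) i
    have e3 : dot ((t ω).1 i) (fun l => (2 ^ cM m)⁻¹ * v l) =
        (2 ^ cM m)⁻¹ * dot ((t ω).1 i) v := by
      unfold dot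
      rw [Finset.mul_sum]
      exact Finset.sum_congr rfl fun l _ => by ring
    rw [e3, abs_mul, abs_inv, abs_of_pos e1, inv_mul_le_iff₀ e1] at e2
    have e5 : (t ω).1 i = B.g ω i := by rw [ht]
    rw [e5] at e2
    refine e2.trans (le_of_eq ?_)
    unfold cS
    rw [two_mul, pow_add]
    ring
  · -- the number of labels
    have hcc : Cnt F A' P (fun ω => ⌊(2 : ℝ) ^ h * ∑ i, lam ω i * B.om ω i⌋) (Real.exp L) :=
      hc.sub fun ω hω => by rw [hA'] at hω; exact hω.1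
    have hgd : DetA F A' (fun ω => (P ω, ⌊(2 : ℝ) ^ h * ∑ i, lam ω i * B.om ω i⌋)) B'.g := by
      intro ω ω' h3 h4 e
      have e1 : P ω = P ω' := congrArg Prod.fst e
      have e2 : B.g ω = B.g ω' := congrArg Prod.fst (hd ω ω' (hon ω h3) (hon ω' h4) e1)
      have e3 : lam ω = lam ω' := hl ω ω' (hon ω h3) (hon ω' h4) e1
      have e4 : t ω = t ω' := by
        rw [ht]
        show (B.g ω, lam ω) = (B.g ω', lam ω')
        rw [e2, e3]
      rw [hBg, hBg, e4]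
    have hcel : Cnt F A' (fun ω => (P ω, ⌊(2 : ℝ) ^ h * ∑ i, lam ω i * B.om ω i⌋)) B'.cel
        (((2 * (2 ^ cM m + 1) + 1 : ℕ) ^ m : ℕ) : ℝ) := by
      refine cnt_vec fun ω ω' h3 h4 e i => ?_
      have e1 : P ω = P ω' := congrArg Prod.fst e
      have e1' : ⌊(2 : ℝ) ^ h * ∑ i, lam ω i * B.om ω i⌋ =
          ⌊(2 : ℝ) ^ h * ∑ i, lam ω' i * B.om ω' i⌋ := congrArg Prod.snd e
      have e2 : B.g ω = B.g ω' := congrArg Prod.fst (hd ω ω' (hon ω h3) (hon ω' h4) e1)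
      have e2' : B.cel ω = B.cel ω' := congrArg Prod.snd (hd ω ω' (hon ω h3) (hon ω' h4) e1)
      have e3 : lam ω = lam ω' := hl ω ω' (hon ω h3) (hon ω' h4) e1
      have e4 : t ω = t ω' := by
        rw [ht]
        show (B.g ω, lam ω) = (B.g ω', lam ω')
        rw [e2, e3]
      obtain ⟨v, hv⟩ : ∃ v : Fin m → ℝ, v = fun l => F.d ω l - F.d ω' l := ⟨_, rfl⟩
      have d1 : ∀ j, 2 ^ B.q j * dot (B.g ω j) v = B.om ω j - B.om ω' j := by
        intro j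
        have e5 : ⌊(2 : ℝ) ^ B.q j * dot (B.g ω j) (F.d ω)⌋ =
            ⌊(2 : ℝ) ^ B.q j * dot (B.g ω' j) (F.d ω')⌋ := congrFun e2' j
        unfold Bx.om Int.fract
        rw [e5, hv, dot_sub, e2]
        ring
      have d2 : ∀ j, |2 ^ B.q j * dot (B.g ω j) v| ≤ 1 := by
        intro j
        rw [d1]
        unfold Bx.om
        have k1 := Int.fract_nonneg ((2 : ℝ) ^ B.q j * dot (B.g ω j) (F.d ω))
        have k2 := Int.fract_lt_one ((2 : ℝ) ^ B.q j * dot (B.g ω j) (F.d ω))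
        have k3 := Int.fract_nonneg ((2 : ℝ) ^ B.q j * dot (B.g ω' j) (F.d ω'))
        have k4 := Int.fract_lt_one ((2 : ℝ) ^ B.q j * dot (B.g ω' j) (F.d ω'))
        rw [abs_le]
        constructor <;> linarith
      have d3 : ∀ j, |dot ((t ω).1 j) v| ≤ 1 / 2 ^ B.q j := by
        intro j
        have k1 := d2 j
        have k2 : (0 : ℝ) < 2 ^ B.q j := by positivity
        rw [abs_mul, abs_of_pos k2] at k1
        have k3 : (t ω).1 j = B.g ω j := by rw [ht]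
        rw [k3, le_div_iff₀ k2, mul_comm]
        exact k1
      have d4 : |∑ j, (t ω).2 j * (2 ^ B.q j * dot ((t ω).1 j) v)| ≤ 1 / 2 ^ h := by
        have k1 := Int.abs_sub_lt_one_of_floor_eq_floor e1'
        have k2 : (2 : ℝ) ^ h * ∑ i, lam ω i * B.om ω i - 2 ^ h * ∑ i, lam ω' i * B.om ω' i =
            2 ^ h * ∑ j, (t ω).2 j * (2 ^ B.q j * dot ((t ω).1 j) v) := by
          rw [← mul_sub, ← Finset.sum_sub_distrib]
          congr 1
          refine Finset.sum_congr rfl fun j _ => ?_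
          have k3 : (t ω).1 j = B.g ω j := by rw [ht]
          have k4 : (t ω).2 = lam ω := by rw [ht]
          rw [k3, k4, d1, ← e3]
          ring
        have k5 : (0 : ℝ) < 2 ^ h := by positivity
        rw [k2, abs_mul, abs_of_pos k5] at k1
        rw [le_div_iff₀ k5, mul_comm]
        exact k1.le
      obtain ⟨-, -, -, f4, -, -⟩ := hΦ (t ω) (hadm ω (hon ω h3))
      have d5 := f4 v d3 d4 i
      have d6 : 2 ^ B'.q i * dot (B'.g ω i) (F.d ω) - 2 ^ B'.q i * dot (B'.g ω' i) (F.d ω') ≤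
          ((2 ^ cM m : ℕ) : ℝ) := by
        have k1 : B'.g ω' = B'.g ω := by rw [hBg, hBg, e4]
        rw [k1, ← mul_sub, ← dot_sub]
        have k2 : (fun l => F.d ω l - F.d ω' l) = v := hv.symm
        rw [k2, hBg]
        have k3 : (2 : ℝ) ^ B'.q i ≤ 2 ^ (Φ (t ω)).2.2 i := by
          rw [hBq, ← (hval ω h3).2 i]
          exact pow_le_pow_right₀ (by norm_num) (min_le_left _ _)
        have k4 : (0 : ℝ) < 2 ^ (Φ (t ω)).2.2 i := by positivity
        rw [le_div_iff₀ k4] at d5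
        have k5 := mul_le_mul_of_nonneg_left k3 (abs_nonneg (dot ((Φ (t ω)).2.1 i) v))
        have k6 := le_abs_self (dot ((Φ (t ω)).2.1 i) v)
        have k7 : (0 : ℝ) < 2 ^ B'.q i := by positivity
        have k8 := mul_le_mul_of_nonneg_left k6 k7.le
        push_cast
        linarith
      exact floor_sub_le d6
    have hlab : Cnt F A' (fun ω => (P ω, ⌊(2 : ℝ) ^ h * ∑ i, lam ω i * B.om ω i⌋)) B'.lab
        (((2 * (2 ^ cM m + 1) + 1 : ℕ) ^ m : ℕ) : ℝ) := by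
      refine hcel.det fun ω ω' h3 h4 e => ?_
      have e1 := hgd ω ω' h3 h4 (congrArg Prod.fst e)
      have e2 : B'.cel ω = B'.cel ω' := congrArg Prod.snd e
      show (B'.g ω, B'.cel ω) = (B'.g ω', B'.cel ω')
      rw [e1, e2]
    refine (hcc.comp hlab).mono ?_
    rw [mul_comm]
    refine mul_le_mul_of_nonneg_right ?_ (Real.exp_pos L).le
    have k1 : (2 * (2 ^ cM m + 1) + 1 : ℕ) ≤ 2 ^ (cM m + 3) := by
      have : 1 ≤ 2 ^ cM m := Nat.one_le_two_pow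
      rw [pow_add]
      omega
    have k2 : (2 * (2 ^ cM m + 1) + 1 : ℕ) ^ m ≤ 2 ^ cN m := by
      refine (Nat.pow_le_pow_left k1 m).trans (le_of_eq ?_)
      unfold cN
      rw [← pow_mul]
    calc (((2 * (2 ^ cM m + 1) + 1 : ℕ) ^ m : ℕ) : ℝ) ≤ ((2 ^ cN m : ℕ) : ℝ) := by
          exact_mod_cast k2
      _ = 2 ^ cN m := by push_cast; rfl

end Pool.NB
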