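import Pool.Agent.H69.NB.Box

/-!
# Chains of boxes: shrinking, the trivial chain, replacing a level by a finer box
-/

set_option autoImplicit false

namespace Pool.NB

open Finset Real
open Pool.Agent.H49.Ent Pool.Agent.H32.Dense Pool.STK Pool.KA Pool.K2S
open Pool.PC (On Cnt DetA pt)

variable {m J : ℕ} {F : Fam m J} {A A' : F.Ω → Prop}

/-! ### Boxes -/

theorem Bx.In.mono {B : Bx F} {ω : F.Ω} {C C' : ℝ} {v : Fin m → ℝ} (h : B.In ω C v)
    (hC : C ≤ C') : B.In ω C' v :=
  fun i => (h i).trans (div_le_div_of_nonneg_right hC (by positivity))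

theorem Bx.In.scale {B : Bx F} {ω : F.Ω} {C c : ℝ} {v : Fin m → ℝ} (hc : 0 < c) :
    B.In ω C (fun l => c * v l) ↔ B.In ω (C / c) v := by
  have e : ∀ i, dot (B.g ω i) (fun l => c * v l) = c * dot (B.g ω i) v := by
    intro i
    unfold dot
    rw [Finset.mul_sum]
    exact Finset.sum_congr rfl fun l _ => by ring
  constructor
  · intro h i
    have h1 := h i
    rw [e, abs_mul, abs_of_pos hc] at h1
    rw [div_div, mul_comm c, ← div_div, le_div_iff₀ hc, mul_comm]
    exact h1
  · intro h i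
    have h1 := h i
    rw [div_div, mul_comm c, ← div_div, le_div_iff₀ hc, mul_comm] at h1
    rw [e, abs_mul, abs_of_pos hc]
    exact h1

theorem Bx.Ok.sub {B : Bx F} (h : B.Ok A) (hA : ∀ ω, A' ω → A ω) : B.Ok A' :=
  ⟨h.mono, h.leJ, fun ω hω => h.fr ω (hω.mono hA)⟩

theorem Bx.Sub.sub {c : ℕ} {B B' : Bx F} (h : B'.Sub c B A) (hA : ∀ ω, A' ω → A ω) :
    B'.Sub c B A' :=
  fun ω hω => h ω (hω.mono hA)

theorem Bx.Sub.refl (c : ℕ) (B : Bx F) : B.Sub c B A := fun _ _ _ h =>
  h.mono (one_le_pow₀ (by norm_num))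

theorem Bx.Sub.mono {c c' : ℕ} {B B' : Bx F} (h : B'.Sub c B A) (hc : c ≤ c') :
    B'.Sub c' B A := fun ω hω v hv =>
  (h ω hω v hv).mono (pow_le_pow_right₀ (by norm_num) hc)

/-- A larger multiple of the small box. -/
theorem Bx.Sub.big {c : ℕ} {B B' : Bx F} (h : B'.Sub c B A) {ω : F.Ω} (hω : On F A ω)
    {C : ℝ} (hC : 0 < C) {v : Fin m → ℝ} (hv : B'.In ω C v) : B.In ω (2 ^ c * C) v := by
  have h1 : B'.In ω 1 (fun l => C⁻¹ * v l) := by
    rw [Bx.In.scale (inv_pos.2 hC), div_inv_eq_mul, one_mul]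
    exact hv
  have h2 := h ω hω _ h1
  rw [Bx.In.scale (inv_pos.2 hC), div_inv_eq_mul] at h2
  exact h2

theorem Bx.Sub.trans {c c' : ℕ} {B B' B'' : Bx F} (h : B''.Sub c' B' A) (h' : B'.Sub c B A) :
    B''.Sub (c + c') B A := fun ω hω v hv => by
  rw [pow_add]
  exact h'.big hω (by positivity) (h ω hω v hv)

theorem Bx.Ok.sh {B : Bx F} (h : B.Ok A) (g : ℕ) : (B.sh g).Ok A :=
  ⟨fun i j hij => min_le_min_right _ (Nat.add_le_add_right (h.mono hij) g),
    fun _ => min_le_right _ _, h.fr⟩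

theorem Bx.Ok.le_sh {B : Bx F} (h : B.Ok A) (g : ℕ) (i : Fin m) : B.q i ≤ (B.sh g).q i :=
  le_min (Nat.le_add_right _ _) (h.leJ i)

theorem Bx.Ok.vol_sh {B : Bx F} (h : B.Ok A) (g : ℕ) : B.vol ≤ (B.sh g).vol :=
  Finset.sum_le_sum fun i _ => h.le_sh g i

theorem Bx.Ok.vol_le {B : Bx F} (h : B.Ok A) : B.vol ≤ m * J := by
  refine (Finset.sum_le_sum fun i _ => h.leJ i).trans ?_
  rw [Finset.sum_const, card_univ, Fintype.card_fin, smul_eq_mul]

theorem Bx.sh_sub {B : Bx F} (h : B.Ok A) (g c : ℕ) : (B.sh g).Sub c B A := by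
  intro ω _ v hv i
  refine (hv i).trans ?_
  have h1 : (2 : ℝ) ^ B.q i ≤ 2 ^ (B.sh g).q i :=
    pow_le_pow_right₀ (by norm_num) (h.le_sh g i)
  refine (div_le_div_of_nonneg_left zero_le_one (by positivity) h1).trans ?_
  exact div_le_div_of_nonneg_right (one_le_pow₀ (by norm_num)) (by positivity)

/-- The label of the shrunk box: at most `2 ^ (m g)` values, given the label. -/
theorem Bx.sh_cnt {B : Bx F} (h : B.Ok A) (g : ℕ) {α : Type} {P : F.Ω → α}
    (hP : DetA F A P B.lab) : Cnt F A P (B.sh g).lab (2 ^ (m * g)) := by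
  classical
  refine Cnt.intro fun ω₀ h0 => ⟨(Fintype.piFinset fun i =>
    Finset.Ico (B.cel ω₀ i * 2 ^ ((B.sh g).q i - B.q i))
      ((B.cel ω₀ i + 1) * 2 ^ ((B.sh g).q i - B.q i))).image fun x => (B.g ω₀, x),
    fun ω h1 h2 => ?_, ?_⟩
  · have e := hP ω ω₀ h1 h0 h2
    have e1 : B.g ω = B.g ω₀ := congrArg Prod.fst e
    have e2 : B.cel ω = B.cel ω₀ := congrArg Prod.snd e
    rw [mem_image]
    refine ⟨(B.sh g).cel ω, ?_, ?_⟩
    · rw [Fintype.mem_piFinset]
      intro i
      have e3 : ⌊(2 : ℝ) ^ B.q i * dot (B.g ω i) (F.d ω)⌋ = B.cel ω₀ i := congrFun e2 i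
      have h3 := Int.floor_le ((2 : ℝ) ^ B.q i * dot (B.g ω i) (F.d ω))
      have h4 := Int.lt_floor_add_one ((2 : ℝ) ^ B.q i * dot (B.g ω i) (F.d ω))
      rw [e3] at h3 h4
      have e4 : (2 : ℝ) ^ (B.sh g).q i * dot (B.g ω i) (F.d ω) =
          2 ^ ((B.sh g).q i - B.q i) * (2 ^ B.q i * dot (B.g ω i) (F.d ω)) := by
        rw [← mul_assoc, ← pow_add, Nat.sub_add_cancel (h.le_sh g i)]
      have hp : (0 : ℝ) < 2 ^ ((B.sh g).q i - B.q i) := by positivity
      have e5 : (B.sh g).cel ω i = ⌊(2 : ℝ) ^ (B.sh g).q i * dot (B.g ω i) (F.d ω)⌋ := rfl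
      rw [Finset.mem_Ico, e5]
      constructor
      · rw [Int.le_floor, e4]
        push_cast
        rw [mul_comm]
        exact mul_le_mul_of_nonneg_left h3 hp.le
      · rw [Int.floor_lt, e4]
        push_cast
        rw [mul_comm ((B.cel ω₀ i : ℝ) + 1)]
        exact mul_lt_mul_of_pos_left h4 hp
    · show (B.g ω₀, (B.sh g).cel ω) = (B.g ω, (B.sh g).cel ω)
      rw [e1]
  · refine (Nat.cast_le.2 card_image_le).trans ?_
    rw [Fintype.card_piFinset]
    have e : ∀ i : Fin m, (Finset.Ico (B.cel ω₀ i * 2 ^ ((B.sh g).q i - B.q i))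
        ((B.cel ω₀ i + 1) * 2 ^ ((B.sh g).q i - B.q i))).card ≤ 2 ^ g := by
      intro i
      rw [Int.card_Ico]
      have e : (B.cel ω₀ i + 1) * 2 ^ ((B.sh g).q i - B.q i) -
          B.cel ω₀ i * 2 ^ ((B.sh g).q i - B.q i) =
          ((2 ^ ((B.sh g).q i - B.q i) : ℕ) : ℤ) := by
        push_cast; ring
      rw [e, Int.toNat_natCast]
      refine Nat.pow_le_pow_right (by norm_num) ?_
      have : (B.sh g).q i ≤ B.q i + g := min_le_left _ _
      omega
    have e2 : ∏ i : Fin m, (Finset.Ico (B.cel ω₀ i * 2 ^ ((B.sh g).q i - B.q i))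
        ((B.cel ω₀ i + 1) * 2 ^ ((B.sh g).q i - B.q i))).card ≤ 2 ^ (m * g) := by
      refine (Finset.prod_le_prod' fun i _ => e i).trans (le_of_eq ?_)
      rw [Finset.prod_const, card_univ, Fintype.card_fin, ← pow_mul, mul_comm]
    exact_mod_cast e2

/-- Iterated shrinking. -/
noncomputable def Bx.its (B : Bx F) (g : ℕ) : ℕ → Bx F
  | 0 => B
  | j + 1 => (B.its g j).sh g

theorem Bx.Ok.its {B : Bx F} (h : B.Ok A) (g : ℕ) : ∀ j, (B.its g j).Ok A
  | 0 => h
  | j + 1 => (h.its g j).sh g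

/-! ### Chains -/

/-- The cumulative label of a chain of boxes. -/
noncomputable def clab (B : ℕ → Bx F) (k : ℕ) (ω : F.Ω) (i : ℕ) :
    (Fin m → Fin m → ℝ) × (Fin m → ℤ) :=
  if i ≤ k then (B i).lab ω else (0, 0)

/-- The exact point with the labels of the boxes up to level `k`. -/
noncomputable def ptk (B : ℕ → Bx F) (k : ℕ) (ω : F.Ω) :
    ((Fin m → ℤ) × (ℕ × F.ζ)) × (ℕ → (Fin m → Fin m → ℝ) × (Fin m → ℤ)) := (pt F ω, clab B k ω)

/-- **A chain of boxes** of length `M`, with gaps `g` and error `e`; `N k` is the logarithm of the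
number of values of the labels up to level `k`, given the exact point. -/
structure Chn (F : Fam m J) (A : F.Ω → Prop) (M g e : ℕ) (B : ℕ → Bx F) (N : ℕ → ℝ) :
    Prop where
  ok : ∀ k < M, (B k).Ok A
  ins : ∀ k, k + 1 < M → (B (k + 1)).Sub e ((B k).sh g) A
  nn : ∀ k < M, 0 ≤ N k
  cnt : ∀ k < M, Cnt F A (pt F) (clab B k) (Real.exp (N k))

theorem Chn.sub {M g e : ℕ} {B : ℕ → Bx F} {N : ℕ → ℝ} (h : Chn F A M g e B N)
    (hA : ∀ ω, A' ω → A ω) : Chn F A' M g e B N :=
  ⟨fun k hk => (h.ok k hk).sub hA, fun k hk => (h.ins k hk).sub hA, h.nn,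
    fun k hk => (h.cnt k hk).sub hA⟩

theorem Chn.mono {M g e e' : ℕ} {B : ℕ → Bx F} {N : ℕ → ℝ} (h : Chn F A M g e B N)
    (he : e ≤ e') : Chn F A M g e' B N :=
  ⟨h.ok, fun k hk => (h.ins k hk).mono he, h.nn, h.cnt⟩

/-- `clab` up to `k` determines the label of level `i ≤ k`. -/
theorem clab_det {B : ℕ → Bx F} {k i : ℕ} (hi : i ≤ k) {ω ω' : F.Ω}
    (h : clab B k ω = clab B k ω') : (B i).lab ω = (B i).lab ω' := by
  have := congrFun h i
  unfold clab at this
  rwa [if_pos hi, if_pos hi] at this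

theorem clab_ext {B : ℕ → Bx F} {k : ℕ} {ω ω' : F.Ω}
    (h : ∀ i ≤ k, (B i).lab ω = (B i).lab ω') : clab B k ω = clab B k ω' := by
  funext i
  unfold clab
  by_cases hi : i ≤ k
  · rw [if_pos hi, if_pos hi]
    exact h i hi
  · rw [if_neg hi, if_neg hi]

theorem clab_mono {B : ℕ → Bx F} {k k' : ℕ} (hk : k ≤ k') {ω ω' : F.Ω}
    (h : clab B k' ω = clab B k' ω') : clab B k ω = clab B k ω' :=
  clab_ext fun _ hi => clab_det (hi.trans hk) h

/-- The labels of the levels `≤ k`. -/
theorem clab_congr {B B' : ℕ → Bx F} {k : ℕ} (h : ∀ i ≤ k, B' i = B i) (ω : F.Ω) :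
    clab B' k ω = clab B k ω := by
  funext i
  unfold clab
  by_cases hi : i ≤ k
  · rw [if_pos hi, if_pos hi, h i hi]
  · rw [if_neg hi, if_neg hi]

theorem ptk_det_lab (B : ℕ → Bx F) {k i : ℕ} (hi : i ≤ k) : DetA F A (ptk B k) (B i).lab :=
  fun _ _ _ _ e => clab_det hi (congrArg Prod.snd e)

theorem ptk_det_pt (B : ℕ → Bx F) (k : ℕ) : DetA F A (ptk B k) (pt F) :=
  fun _ _ _ _ e => congrArg Prod.fst e

theorem ptk_det_ptk (B : ℕ → Bx F) {k i : ℕ} (hi : i ≤ k) : DetA F A (ptk B k) (ptk B i) := by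
  intro ω ω' _ _ e
  show (pt F ω, clab B i ω) = (pt F ω', clab B i ω')
  rw [show pt F ω = pt F ω' from congrArg Prod.fst e, clab_mono hi (congrArg Prod.snd e)]

/-- The new chain: level `k` is replaced by `B'`, the later ones by shrinks of `B'`. -/
noncomputable def rep (B : ℕ → Bx F) (k : ℕ) (B' : Bx F) (g : ℕ) (i : ℕ) : Bx F :=
  if i < k then B i else B'.its g (i - k)

/-- The numbers of the new chain. -/
noncomputable def repN (m : ℕ) (N : ℕ → ℝ) (k : ℕ) (L : ℝ) (g : ℕ) (i : ℕ) : ℝ :=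
  if i < k then N i else L + ((i - k : ℕ) : ℝ) * (m * g * Real.log 2)

theorem rep_lt {B : ℕ → Bx F} {k : ℕ} {B' : Bx F} {g i : ℕ} (h : i < k) :
    rep B k B' g i = B i := if_pos h

theorem rep_ge {B : ℕ → Bx F} {k : ℕ} {B' : Bx F} {g : ℕ} (j : ℕ) :
    rep B k B' g (k + j) = B'.its g j := by
  unfold rep
  rw [if_neg (by omega), Nat.add_sub_cancel_left]

theorem rep_self {B : ℕ → Bx F} {k : ℕ} {B' : Bx F} {g : ℕ} : rep B k B' g k = B' := rep_ge 0

theorem repN_lt {N : ℕ → ℝ} {k : ℕ} {L : ℝ} {g i : ℕ} (h : i < k) :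
    repN m N k L g i = N i := if_pos h

theorem repN_ge {N : ℕ → ℝ} {k : ℕ} {L : ℝ} {g : ℕ} (j : ℕ) :
    repN m N k L g (k + j) = L + (j : ℝ) * (m * g * Real.log 2) := by
  unfold repN
  rw [if_neg (by omega), Nat.add_sub_cancel_left]

theorem repN_self {N : ℕ → ℝ} {k : ℕ} {L : ℝ} {g : ℕ} : repN m N k L g k = L := by
  have := repN_ge (m := m) (N := N) (k := k) (L := L) (g := g) 0
  rw [Nat.add_zero, Nat.cast_zero, zero_mul, add_zero] at this
  exact this

theorem two_pow_exp (n : ℕ) : (2 : ℝ) ^ n = Real.exp (n * Real.log 2) := by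
  rw [Real.exp_nat_mul, Real.exp_log (by norm_num)]

/-- **Replacing a level of a chain.** The hypothesis is on the labels up to level `k` of the new
chain. -/
theorem Chn.repl {M g e k : ℕ} {B : ℕ → Bx F} {N : ℕ → ℝ} (h : Chn F A M g e B N) (hk : k < M)
    {B' : Bx F} (hO : B'.Ok A) (hins : ∀ i, i + 1 = k → B'.Sub e ((B i).sh g) A) {L : ℝ}
    (hL : 0 ≤ L) (hc : Cnt F A (pt F) (clab (rep B k B' g) k) (Real.exp L)) :
    Chn F A M g e (rep B k B' g) (repN m N k L g) := by
  have hl2 : 0 < Real.log 2 := Real.log_pos (by norm_num)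
  refine ⟨fun i hi => ?_, fun i hi => ?_, fun i hi => ?_, fun i hi => ?_⟩
  · rcases lt_or_ge i k with h1 | h1
    · rw [rep_lt h1]
      exact h.ok i hi
    · obtain ⟨j, rfl⟩ := Nat.exists_eq_add_of_le h1
      rw [rep_ge]
      exact hO.its g j
  · rcases lt_trichotomy (i + 1) k with h1 | h1 | h1
    · rw [rep_lt h1, rep_lt (by omega)]
      exact h.ins i hi
    · have e : rep B k B' g (i + 1) = B' := by
        rw [h1]
        exact rep_self
      rw [e, rep_lt (show i < k by omega)]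
      exact hins i h1
    · obtain ⟨j, rfl⟩ := Nat.exists_eq_add_of_le (show k ≤ i by omega)
      rw [show k + j + 1 = k + (j + 1) by omega, rep_ge, rep_ge]
      exact Bx.Sub.refl _ _
  · rcases lt_or_ge i k with h1 | h1
    · rw [repN_lt h1]
      exact h.nn i hi
    · obtain ⟨j, rfl⟩ := Nat.exists_eq_add_of_le h1
      rw [repN_ge]
      positivity
  · rcases lt_or_ge i k with h1 | h1
    · rw [repN_lt h1]
      have e : clab (rep B k B' g) i = clab B i := by
        funext ω
        exact clab_congr (fun j hj => rep_lt (by omega)) ω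
      rw [e]
      exact h.cnt i hi
    · obtain ⟨j, rfl⟩ := Nat.exists_eq_add_of_le h1
      clear h1
      induction j with
      | zero =>
        rw [Nat.add_zero, repN_self]
        exact hc
      | succ j ih =>
        have k1 := ih (by omega)
        have k2 : Cnt F A (fun ω => (pt F ω, clab (rep B k B' g) (k + j) ω))
            (rep B k B' g (k + (j + 1))).lab (2 ^ (m * g)) := by
          rw [rep_ge]
          refine Bx.sh_cnt (hO.its g j) g fun ω ω' _ _ e => ?_
          have e2 : clab (rep B k B' g) (k + j) ω = clab (rep B k B' g) (k + j) ω' :=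
            congrArg Prod.snd e
          have := clab_det (le_refl (k + j)) e2
          rwa [rep_ge] at this
        have k3 := k1.pair k2
        have k4 : Cnt F A (pt F) (clab (rep B k B' g) (k + (j + 1)))
            (Real.exp (repN m N k L g (k + j)) * 2 ^ (m * g)) := by
          refine k3.det fun ω ω' _ _ e => clab_ext fun i hi2 => ?_
          have e2 : (clab (rep B k B' g) (k + j) ω, (rep B k B' g (k + (j + 1))).lab ω) =
            (clab (rep B k B' g) (k + j) ω', (rep B k B' g (k + (j + 1))).lab ω') :=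
            congrArg Prod.snd e
          rcases Nat.lt_or_ge i (k + (j + 1)) with h3 | h3
          · exact clab_det (by omega) (congrArg Prod.fst e2)
          · obtain rfl : i = k + (j + 1) := by omega
            exact congrArg Prod.snd e2
        refine k4.mono (le_of_eq ?_)
        rw [repN_ge, repN_ge, two_pow_exp, ← Real.exp_add]
        congr 1
        push_cast
        ring

/-- Replacing the level `k` by a finer box which has at most `C` values given the exact point and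
the labels up to level `k`. -/
theorem Chn.fin {M g e c k : ℕ} {B : ℕ → Bx F} {N : ℕ → ℝ} (h : Chn F A M g e B N) (hk : k < M)
    {B' : Bx F} (hO : B'.Ok A) (hs : B'.Sub c (B k) A) {L : ℝ} (hL : 0 ≤ L)
    (hc : Cnt F A (ptk B k) B'.lab (Real.exp L)) :
    Chn F A M g (e + c) (rep B k B' g) (repN m N k (N k + L) g) := by
  refine (h.mono (Nat.le_add_right e c)).repl hk hO (fun i hi => ?_)
    (add_nonneg (h.nn k hk) hL) ?_
  · subst hi
    exact hs.trans (h.ins i hk)
  · have k1 := (h.cnt k hk).pair hc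
    rw [Real.exp_add]
    refine k1.det fun ω ω' _ _ e => clab_ext fun i hi => ?_
    have e2 : (clab B k ω, B'.lab ω) = (clab B k ω', B'.lab ω') := congrArg Prod.snd e
    rcases Nat.lt_or_ge i k with h3 | h3
    · rw [rep_lt h3]
      exact clab_det h3.le (congrArg Prod.fst e2)
    · obtain rfl : i = k := by omega
      rw [rep_self]
      exact congrArg Prod.snd e2

/-- Replacing the level `k + 1` by the shrunk box of level `k`. -/
theorem Chn.shr {M g e k : ℕ} {B : ℕ → Bx F} {N : ℕ → ℝ} (h : Chn F A M g e B N)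
    (hk : k + 1 < M) :
    Chn F A M g e (rep B (k + 1) ((B k).sh g) g)
      (repN m N (k + 1) (N k + m * g * Real.log 2) g) := by
  have hk' : k < M := by omega
  have hl2 : 0 < Real.log 2 := Real.log_pos (by norm_num)
  have hg0 : (0 : ℝ) ≤ m * g * Real.log 2 := by positivity
  refine h.repl hk ((h.ok k hk').sh g) (fun i hi => ?_) (add_nonneg (h.nn k hk') hg0) ?_
  · obtain rfl : i = k := by omega
    exact Bx.Sub.refl _ _
  · have k2 : Cnt F A (fun ω => (pt F ω, clab B k ω)) ((B k).sh g).lab (2 ^ (m * g)) :=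
      Bx.sh_cnt (h.ok k hk') g fun ω ω' _ _ e => clab_det le_rfl (congrArg Prod.snd e)
    have k3 := (h.cnt k hk').pair k2
    have e4 : (2 : ℝ) ^ (m * g) = Real.exp (m * g * Real.log 2) := by
      rw [two_pow_exp]
      push_cast
      rfl
    rw [Real.exp_add, ← e4]
    refine k3.det fun ω ω' _ _ e => clab_ext fun i hi => ?_
    have e2 : (clab B k ω, ((B k).sh g).lab ω) = (clab B k ω', ((B k).sh g).lab ω') :=
      congrArg Prod.snd e
    rcases Nat.lt_or_ge i (k + 1) with h3 | h3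
    · rw [rep_lt h3]
      exact clab_det (by omega) (congrArg Prod.fst e2)
    · obtain rfl : i = k + 1 := by omega
      rw [rep_self]
      exact congrArg Prod.snd e2

/-- The trivial box. -/
noncomputable def Bx.one (F : Fam m J) : Bx F :=
  ⟨Equiv.refl _, fun _ i l => if l = i then 1 else 0, fun _ => 0⟩

theorem Bx.one_ok : (Bx.one F).Ok A := by
  refine ⟨fun _ _ _ => le_rfl, fun _ => Nat.zero_le _, fun ω _ => ⟨fun i => ?_, fun i l hil => ?_,
    fun i l => ?_⟩⟩
  · exact if_pos rfl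
  · exact if_neg hil.ne'
  · show |if l = i then (1 : ℝ) else 0| ≤ 1
    split_ifs
    · rw [abs_one]
    · rw [abs_zero]
      exact zero_le_one

theorem dot_one (F : Fam m J) (ω : F.Ω) (i : Fin m) (v : Fin m → ℝ) :
    dot ((Bx.one F).g ω i) v = v i := by
  unfold dot
  rw [Finset.sum_eq_single i]
  · show (if i = i then (1 : ℝ) else 0) * v i = v i
    rw [if_pos rfl, one_mul]
  · intro l _ hl
    show (if l = i then (1 : ℝ) else 0) * v l = 0
    rw [if_neg hl, zero_mul]
  · intro h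
    exact absurd (mem_univ _) h

/-- The trivial box has at most `5 ^ m` values. -/
theorem Bx.one_cnt {α : Type} {P : F.Ω → α} : Cnt F A P (Bx.one F).lab (5 ^ m) := by
  have h1 : Cnt F A P (Bx.one F).cel (((2 * 2 + 1 : ℕ) ^ m : ℕ) : ℝ) := by
    refine cnt_vec fun ω ω' _ _ _ i => ?_
    have e : ∀ ω, (Bx.one F).cel ω i = ⌊F.d ω i⌋ := by
      intro ω
      show ⌊(2 : ℝ) ^ 0 * dot ((Bx.one F).g ω i) (F.d ω)⌋ = _
      rw [dot_one, pow_zero, one_mul]
    rw [e, e]
    have h1 := abs_le.1 (F.dir ω i)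
    have h2 := abs_le.1 (F.dir ω' i)
    have h3 := Int.floor_le (F.d ω i)
    have h4 := Int.lt_floor_add_one (F.d ω' i)
    have h5 : ((⌊F.d ω i⌋ - ⌊F.d ω' i⌋ : ℤ) : ℝ) < ((3 : ℤ) : ℝ) := by
      push_cast
      linarith [h1.2, h2.1]
    have h6 := Int.cast_lt.1 h5
    push_cast
    omega
  refine (h1.det fun ω ω' _ _ e => ?_).mono (by push_cast; norm_num)
  have e2 : (Bx.one F).cel ω = (Bx.one F).cel ω' := congrArg Prod.snd e
  show ((Bx.one F).g ω, (Bx.one F).cel ω) = ((Bx.one F).g ω', (Bx.one F).cel ω')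
  rw [e2]
  rfl

/-- The numbers of the trivial chain. -/
noncomputable def trN (m g j : ℕ) : ℝ := m * Real.log 5 + (j : ℝ) * (m * g * Real.log 2)

/-- **The trivial chain.** -/
theorem Chn.triv (F : Fam m J) (A : F.Ω → Prop) {M : ℕ} (g e : ℕ) :
    Chn F A M g e (fun j => (Bx.one F).its g j) (trN m g) := by
  have h5 : 0 ≤ Real.log 5 := Real.log_nonneg (by norm_num)
  have hl2 : 0 < Real.log 2 := Real.log_pos (by norm_num)
  refine ⟨fun i _ => Bx.one_ok.its g i, fun i _ => Bx.Sub.refl _ _, fun i _ => ?_,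
    fun i _ => ?_⟩
  · unfold trN
    positivity
  induction i with
  | zero =>
    have k1 : Cnt F A (pt F) (Bx.one F).lab (5 ^ m) := Bx.one_cnt
    have k2 : Cnt F A (pt F) (clab (fun j => (Bx.one F).its g j) 0) (5 ^ m) := by
      refine k1.det fun ω ω' _ _ e => clab_ext fun i hi => ?_
      obtain rfl : i = 0 := by omega
      exact congrArg Prod.snd e
    refine k2.mono (le_of_eq ?_)
    unfold trN
    rw [Nat.cast_zero, zero_mul, add_zero, Real.exp_nat_mul, Real.exp_log (by norm_num)]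
  | succ i ih =>
    have k1 := ih (by omega)
    have k2 : Cnt F A (fun ω => (pt F ω, clab (fun j => (Bx.one F).its g j) i ω))
        ((Bx.one F).its g (i + 1)).lab (2 ^ (m * g)) :=
      Bx.sh_cnt (Bx.one_ok.its g i) g fun ω ω' _ _ e =>
        clab_det (B := fun j => (Bx.one F).its g j) (le_refl i) (congrArg Prod.snd e)
    have k3 := k1.pair k2
    have k4 : Cnt F A (pt F) (clab (fun j => (Bx.one F).its g j) (i + 1))
        (Real.exp (trN m g i) * 2 ^ (m * g)) := by
      refine k3.det fun ω ω' _ _ e => clab_ext fun j hj => ?_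
      have e2 : (clab (fun j => (Bx.one F).its g j) i ω, ((Bx.one F).its g (i + 1)).lab ω) =
        (clab (fun j => (Bx.one F).its g j) i ω', ((Bx.one F).its g (i + 1)).lab ω') :=
        congrArg Prod.snd e
      rcases Nat.lt_or_ge j (i + 1) with h3 | h3
      · exact clab_det (B := fun j => (Bx.one F).its g j) (show j ≤ i by omega)
          (congrArg Prod.fst e2)
      · obtain rfl : j = i + 1 := by omega
        exact congrArg Prod.snd e2
    refine k4.mono (le_of_eq ?_)
    rw [two_pow_exp, ← Real.exp_add]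
    congr 1
    unfold trN
    push_cast
    ring

end Pool.NB
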