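import Pool.Agent.H69.NB.Num

/-!
# The boxes of a class, in every dimension

The final statement: in a subclass, all families have a chain of boxes with additional labels at
the class numbers, which is exact and active in every direction on all events of cost `ψ J`.
-/

set_option autoImplicit false

namespace Pool.NB

open Finset Real
open Pool.Agent.H49.Ent Pool.Agent.H32.Dense Pool.STK Pool.KA Pool.K2S Pool.PB
open Pool.PC (On Cnt DetA pt Dec Bar Evt lex)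

variable {m M : ℕ} {Λ : Lbs m M}

/-- **The boxes of one family**: at the class numbers `s` up to `h`, for the coordinates `i ≤ I`,
exact and active, on all events of cost `ψ J`. -/
structure Box {J : ℕ} (δ γ : ℝ) (c : ℕ → Crd Λ) (s : ℕ → ℝ) (I : ℕ) (h ψ : ℝ) (F : Fam m J)
    (A : F.Ω → Prop) (e : ℕ) (B : ℕ → Bx F) (N : ℕ → ℝ) (t : Λ.T F) : Prop where
  /-- the chain -/
  chn : Chn F A M (gp γ J) e B N
  /-- the additional labels -/
  val : Λ.Val F A (gp γ J) e B N t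
  /-- the error of the inclusions -/
  err : (e : ℝ) ≤ h * J
  /-- the coordinates are attained -/
  att : ∀ i ≤ I, (knd c i).at δ (gp γ J) F A e B N t (s i - h)
  /-- the coordinates are not exceeded on large events -/
  bar : ∀ i ≤ I, ∀ E, Evt F A ψ E → ¬ (knd c i).at δ (gp γ J) F E e B N t (s i + h)
  /-- no finer box on large events -/
  nob : ∀ k < M, ∀ E, Evt F A ψ E → ∀ (B' : Bx F) (r : ℕ) (L : ℝ), B'.Ok E →
    B'.Sub r (B k) E → (r : ℝ) ≤ ψ * J → 0 ≤ L → Cnt F E (ptk B k) B'.lab (Real.exp L) →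
    ((B'.vol : ℝ) - (B k).vol) * (δ * Real.log 2) ≤ L + h * J
  /-- all functionals of the zoomed direction are active on large events -/
  act : ∀ k < M, ∀ E, Evt F A ψ E → ∀ (x : ℕ) (L : ℝ) (lam : F.Ω → Fin m → ℝ),
    DetA F E (ptk B k) lam → Adm (B k) E lam x → 0 ≤ L →
    Cnt F E (ptk B k) (fun ω => ⌊(2 : ℝ) ^ x * ∑ i, lam ω i * (B k).om ω i⌋) (Real.exp L) →
    δ * x * Real.log 2 - h * J ≤ L
  /-- the fans are not near hyperplanes on large events -/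
  exa : ∀ k < M, ∀ E, Evt F A ψ E → ∀ x : ℕ, h * J ≤ x → ¬ NearPl (B k) E (ptk B k) x
  /-- the price of the labels -/
  pri : ∀ k < M, N k ≤ (m * δ + m * M * γ + h) * J

/-- A common lower bound for finitely many positive numbers. -/
theorem min_pos (f : ℕ → ℝ) (hf : ∀ i, 0 < f i) (n : ℕ) : ∃ c > 0, ∀ i < n, c ≤ f i := by
  induction n with
  | zero => exact ⟨1, one_pos, fun i hi => absurd hi (Nat.not_lt_zero i)⟩
  | succ n ih =>
    obtain ⟨c, hc, h5⟩ := ih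
    refine ⟨min c (f n), lt_min hc (hf n), fun i hi => ?_⟩
    rcases Nat.lt_succ_iff_lt_or_eq.1 hi with h6 | h6
    · exact (min_le_left _ _).trans (h5 i h6)
    · rw [h6]
      exact min_le_right _ _

/-- Statements which hold for all large `J` and small defects, for finitely many indices. -/
theorem com_fin {P : ℕ → ℝ → ℕ → Prop}
    (hm : ∀ k ψ ψ' J, ψ' ≤ ψ → P k ψ J → P k ψ' J)
    (h : ∀ k, ∃ ψ > 0, ∃ J₁ : ℕ, ∀ J ≥ J₁, P k ψ J) (n : ℕ) :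
    ∃ ψ > 0, ∃ J₁ : ℕ, ∀ J ≥ J₁, ∀ k < n, P k ψ J := by
  choose ψ hψ J₁ h1 using h
  obtain ⟨c, hc, k1⟩ := min_pos ψ hψ n
  refine ⟨c, hc, ∑ i ∈ range n, J₁ i, fun J hJ k hk => hm k _ _ J (k1 k hk) (h1 k J ?_)⟩
  exact (Finset.single_le_sum (f := J₁) (fun _ _ => Nat.zero_le _)
    (Finset.mem_range.2 hk)).trans hJ

/-- **BOX**, for given class numbers. -/
theorem box_of {δ γ : ℝ} (hδ : 0 < δ) (hγ : 0 < γ) {c : ℕ → Crd Λ} {S : PCl m} {s : ℕ → ℝ}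
    (hpos : ∀ (τ : ℝ) (J : ℕ) (F : Fam m J) (A : F.Ω → Prop), S.St τ J F A → 0 < Pe F.p A)
    (h0 : s 0 = 0) (h4 : ∀ k < M, 0 ≤ s (k + 1)) (h3 : ∀ i, Bar S (bdec δ γ c) i s) :
    ∀ (I : ℕ) (h : ℝ), 0 < h → ∃ ψ > 0, ∃ J₁ : ℕ, ∀ J ≥ J₁, ∀ (F : Fam m J)
      (A : F.Ω → Prop), (S.sl ((bdec δ γ c).sld s)).St ψ J F A →
        ∃ e B N t, Box δ γ c s I h ψ F A e B N t := by
  intro I h hh
  -- the four statements
  obtain ⟨ψ₁, hψ₁, J₁, k1⟩ := com_fin (P := fun i ψ J => ∀ (F : Fam m J) (A : F.Ω → Prop),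
      S.St ψ J F A → ∀ (e : ℕ) (B : ℕ → Bx F) (N : ℕ → ℝ) (t : Λ.T F),
      Dat δ γ c s ψ F A e B N t → ∀ E : F.Ω → Prop, Evt F A ψ E →
        ¬ (knd c i).at δ (gp γ J) F E e B N t (s i + h))
    (fun i ψ ψ' J hψ H F A hS e B N t hD E hE => H F A (S.mono hψ hS) e B N t (hD.mono hψ) E
      (hE.mono hψ)) (fun i => bar_at (h3 i) h hh) (I + 1)
  obtain ⟨ψ₂, hψ₂, J₂, k2⟩ := com_fin (P := fun k ψ J => k < M → ∀ (F : Fam m J)
      (A : F.Ω → Prop), S.St ψ J F A → ∀ (e : ℕ) (B : ℕ → Bx F) (N : ℕ → ℝ),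
      Chn F A M (gp γ J) e B N → Scs δ γ s ψ k e B N →
      ∀ E : F.Ω → Prop, Evt F A ψ E →
      ∀ (B' : Bx F) (r : ℕ) (L : ℝ), B'.Ok E → B'.Sub r (B k) E → (r : ℝ) ≤ ψ * J → 0 ≤ L →
        Cnt F E (ptk B k) B'.lab (Real.exp L) →
        ((B'.vol : ℝ) - (B k).vol) * (δ * Real.log 2) ≤ L + h * J)
    (fun k ψ ψ' J hψ H hk F A hS e B N hC hs E hE B' r L a1 a2 a3 a4 a5 => by
      have hJr : (0 : ℝ) ≤ J := Nat.cast_nonneg J
      refine H hk F A (S.mono hψ hS) e B N hC ⟨hs.1.trans (mul_le_mul_of_nonneg_right hψ hJr),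
        fun j hj => le_trans (mul_le_mul_of_nonneg_right (by linarith) hJr) (hs.2 j hj)⟩ E
        (hE.mono hψ) B' r L a1 a2 (a3.trans (mul_le_mul_of_nonneg_right hψ hJr)) a4 a5)
    (fun k => by
      by_cases hk : k < M
      · obtain ⟨ψ, hψ, J₁, k1⟩ := no_better hδ h0.le hk (h3 (k + 1)) h hh
        exact ⟨ψ, hψ, J₁, fun J hJ _ => k1 J hJ⟩
      · exact ⟨1, one_pos, 0, fun _ _ h => absurd h hk⟩) M
  obtain ⟨ψ₃, hψ₃, J₃, k3⟩ := com_fin (P := fun k ψ J => k < M → ∀ (F : Fam m J)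
      (A : F.Ω → Prop), S.St ψ J F A → ∀ (e : ℕ) (B : ℕ → Bx F) (N : ℕ → ℝ),
      Chn F A M (gp γ J) e B N → Scs δ γ s ψ k e B N →
      ∀ E : F.Ω → Prop, Evt F A ψ E →
      ∀ (x : ℕ) (L : ℝ) (lam : F.Ω → Fin m → ℝ), DetA F E (ptk B k) lam → Adm (B k) E lam x →
        0 ≤ L → Cnt F E (ptk B k) (fun ω => ⌊(2 : ℝ) ^ x * ∑ i, lam ω i * (B k).om ω i⌋)
          (Real.exp L) → δ * x * Real.log 2 - h * J ≤ L)
    (fun k ψ ψ' J hψ H hk F A hS e B N hC hs E hE => by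
      have hJr : (0 : ℝ) ≤ J := Nat.cast_nonneg J
      exact H hk F A (S.mono hψ hS) e B N hC ⟨hs.1.trans (mul_le_mul_of_nonneg_right hψ hJr),
        fun j hj => le_trans (mul_le_mul_of_nonneg_right (by linarith) hJr) (hs.2 j hj)⟩ E
        (hE.mono hψ))
    (fun k => by
      by_cases hk : k < M
      · obtain ⟨ψ, hψ, J₁, k1⟩ := act hδ h0.le hk (h3 (k + 1)) hpos h hh
        exact ⟨ψ, hψ, J₁, fun J hJ _ => k1 J hJ⟩
      · exact ⟨1, one_pos, 0, fun _ _ h => absurd h hk⟩) M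
  obtain ⟨ψ₄, hψ₄, J₄, k4⟩ := com_fin (P := fun k ψ J => k < M → ∀ (F : Fam m J)
      (A : F.Ω → Prop), S.St ψ J F A → ∀ (e : ℕ) (B : ℕ → Bx F) (N : ℕ → ℝ),
      Chn F A M (gp γ J) e B N → Scs δ γ s ψ k e B N →
      ∀ E : F.Ω → Prop, Evt F A ψ E → ∀ x : ℕ, h * J ≤ x → ¬ NearPl (B k) E (ptk B k) x)
    (fun k ψ ψ' J hψ H hk F A hS e B N hC hs E hE => by
      have hJr : (0 : ℝ) ≤ J := Nat.cast_nonneg J
      exact H hk F A (S.mono hψ hS) e B N hC ⟨hs.1.trans (mul_le_mul_of_nonneg_right hψ hJr),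
        fun j hj => le_trans (mul_le_mul_of_nonneg_right (by linarith) hJr) (hs.2 j hj)⟩ E
        (hE.mono hψ))
    (fun k => by
      by_cases hk : k < M
      · obtain ⟨ψ, hψ, J₁, k1⟩ := exa hδ h0.le hk (h3 (k + 1)) hpos h hh
        exact ⟨ψ, hψ, J₁, fun J hJ _ => k1 J hJ⟩
      · exact ⟨1, one_pos, 0, fun _ _ h => absurd h hk⟩) M
  obtain ⟨ψ, hψ, e1, e2, e3, e4, e5, e6, e7, e8⟩ : ∃ ψ > 0, ψ ≤ ψ₁ ∧ ψ ≤ ψ₂ ∧ ψ ≤ ψ₃ ∧
      ψ ≤ ψ₄ ∧ ψ ≤ h ∧ ψ ≤ 1 / 2 ∧ ψ ≤ 1 / ((I : ℝ) + M + 2) ∧ δ * ψ ≤ h := by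
    refine ⟨min (min (min ψ₁ ψ₂) (min ψ₃ ψ₄)) (min (min h (1 / 2))
      (min (1 / ((I : ℝ) + M + 2)) (h / δ))), ?_, ?_⟩
    · refine lt_min (lt_min (lt_min hψ₁ hψ₂) (lt_min hψ₃ hψ₄)) (lt_min (lt_min hh (by norm_num))
        (lt_min ?_ ?_))
      · positivity
      · positivity
    · refine ⟨?_, ?_, ?_, ?_, ?_, ?_, ?_, ?_⟩
      · exact (min_le_left _ _).trans ((min_le_left _ _).trans (min_le_left _ _))
      · exact (min_le_left _ _).trans ((min_le_left _ _).trans (min_le_right _ _))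
      · exact (min_le_left _ _).trans ((min_le_right _ _).trans (min_le_left _ _))
      · exact (min_le_left _ _).trans ((min_le_right _ _).trans (min_le_right _ _))
      · exact (min_le_right _ _).trans ((min_le_left _ _).trans (min_le_left _ _))
      · exact (min_le_right _ _).trans ((min_le_left _ _).trans (min_le_right _ _))
      · exact (min_le_right _ _).trans ((min_le_right _ _).trans (min_le_left _ _))
      · have h5 := mul_le_mul_of_nonneg_left ((min_le_right (min (min ψ₁ ψ₂) (min ψ₃ ψ₄))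
          (min (min h (1 / 2)) (min (1 / ((I : ℝ) + M + 2)) (h / δ)))).trans
          ((min_le_right _ _).trans (min_le_right _ _))) hδ.le
        rwa [mul_div_cancel₀ _ hδ.ne'] at h5
  obtain ⟨J₅, k5⟩ := dat_of (S := S) (δ := δ) (γ := γ) (c := c) h0 h4 hψ
    (show ψ < 1 by linarith)
  refine ⟨ψ, hψ, J₁ + J₂ + J₃ + J₄ + J₅, fun J hJ F A hA => ?_⟩
  obtain ⟨e, B, N, t, hD⟩ := k5 J (by omega) F A hA
  have hJr : (0 : ℝ) ≤ J := Nat.cast_nonneg J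
  have hψJ : ∀ {x : ℝ}, ψ ≤ x → ψ * (J : ℝ) ≤ x * J := fun hx =>
    mul_le_mul_of_nonneg_right hx hJr
  have hidx : ∀ i : ℕ, i ≤ I + M + 1 → ((i : ℝ) + 1) * ψ ≤ 1 := by
    intro i hi
    have hi' : (i : ℝ) ≤ I + M + 1 := by exact_mod_cast hi
    have h5 : ((i : ℝ) + 1) * ψ ≤ ((I : ℝ) + M + 2) * (1 / ((I : ℝ) + M + 2)) :=
      mul_le_mul (by linarith) e7 hψ.le (by positivity)
    refine h5.trans (le_of_eq ?_)
    field_simp
  have her : (e : ℝ) ≤ ψ * J := by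
    have := hD.2.2 0 (hidx 0 (by omega))
    rw [knd_zero] at this
    have h6 : (e : ℝ) ≤ -((s 0 - ψ) * J) := this
    rw [h0] at h6
    linarith
  have hscs : ∀ k < M, ∀ ψ', ψ ≤ ψ' → Scs δ γ s ψ' k e B N := by
    intro k hk ψ' hψ'
    refine ⟨her.trans (hψJ hψ'), fun j hj => ?_⟩
    have := hD.2.2 (j + 1) (hidx (j + 1) (by omega))
    rw [knd_sc c (lt_of_le_of_lt hj hk)] at this
    exact le_trans (mul_le_mul_of_nonneg_right (by linarith) hJr) this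
  refine ⟨e, B, N, t, hD.1, hD.2.1, her.trans (hψJ e5),
    fun i hi => (hD.2.2 i (hidx i (by omega))).anti (by linarith), fun i hi E hE => ?_,
    fun k hk E hE B' r L a1 a2 a3 a4 a5 => ?_, fun k hk E hE => ?_, fun k hk E hE => ?_,
    fun k hk => ?_⟩
  · exact k1 J (by omega) i (by omega) F A (S.mono e1 hA.1) e B N t (hD.mono e1) E
      (hE.mono e1)
  · exact k2 J (by omega) k hk hk F A (S.mono e2 hA.1) e B N hD.1 (hscs k hk _ e2) E
      (hE.mono e2) B' r L a1 a2 (a3.trans (hψJ e2)) a4 a5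
  · exact k3 J (by omega) k hk hk F A (S.mono e3 hA.1) e B N hD.1 (hscs k hk _ e3) E
      (hE.mono e3)
  · exact k4 J (by omega) k hk hk F A (S.mono e4 hA.1) e B N hD.1 (hscs k hk _ e4) E
      (hE.mono e4)
  · refine (price hδ hγ.le hk (h4 k hk) hD.1 ((hscs k hk ψ le_rfl).2 k le_rfl)).trans ?_
    exact mul_le_mul_of_nonneg_right (by linarith) hJr

/-- **BOX.** -/
theorem box_thm {δ γ : ℝ} (hδ : 0 < δ) (hγ : 0 < γ) (c : ℕ → Crd Λ) {S : PCl m} (hS : S.Ne)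
    (hpos : ∀ (τ : ℝ) (J : ℕ) (F : Fam m J) (A : F.Ω → Prop), S.St τ J F A → 0 < Pe F.p A) :
    ∃ s : ℕ → ℝ, (∀ i, (knd c i).lo ≤ s i ∧ s i ≤ (knd c i).up δ γ) ∧ s 0 = 0 ∧
      (∀ k < M, 0 ≤ s (k + 1)) ∧ (S.sl ((bdec δ γ c).sld s)).Ne ∧
      (∀ i, Bar S (bdec δ γ c) i s) ∧
      ∀ (I : ℕ) (h : ℝ), 0 < h → ∃ ψ > 0, ∃ J₁ : ℕ, ∀ J ≥ J₁, ∀ (F : Fam m J)
        (A : F.Ω → Prop), (S.sl ((bdec δ γ c).sld s)).St ψ J F A →
          ∃ e B N t, Box δ γ c s I h ψ F A e B N t := by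
  obtain ⟨s, h1, h2, h3⟩ := box_lex hδ hγ c hS hpos
  have h0 := er_zero h1 h2 h3
  have h4 := sc_nonneg hδ h1 h2 h3
  exact ⟨s, h1, h0, h4, h2, h3, box_of hδ hγ hpos h0 h4 h3⟩

/-! ### The additional coordinates -/

section

variable {J : ℕ} {δ γ : ℝ} {c : ℕ → Crd Λ} {s : ℕ → ℝ} {I : ℕ} {h ψ : ℝ} {F : Fam m J}
  {A : F.Ω → Prop} {e : ℕ} {B : ℕ → Bx F} {N : ℕ → ℝ} {t : Λ.T F} {k : ℕ}

/-- The class number of the additional coordinate `j`. -/
def cnum (M : ℕ) (s : ℕ → ℝ) (j : ℕ) : ℝ := s (M + 1 + j)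

/-- The additional coordinate `j` is attained. -/
theorem Box.at' (hB : Box δ γ c s I h ψ F A e B N t) {j : ℕ} (hj : M + 1 + j ≤ I) :
    (c j).At F A (gp γ J) e B N t (cnum M s j - h) := by
  have := hB.att _ hj
  rwa [knd_ad] at this

/-- The additional coordinate `j` is not exceeded on large events. -/
theorem Box.not_at' (hB : Box δ γ c s I h ψ F A e B N t) {j : ℕ} (hj : M + 1 + j ≤ I)
    {E : F.Ω → Prop} (hE : Evt F A ψ E) :
    ¬ (c j).At F E (gp γ J) e B N t (cnum M s j + h) := by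
  have := hB.bar _ hj E hE
  rwa [knd_ad] at this

end

end Pool.NB
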