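import Pool.Agent.H69.NB.Cut
import Pool.Agent.H69.NB.Thm
import Pool.Agent.H64.K3.Join

/-!
# Closed boxes

For the level `k` of a chain of boxes and a rational window `w`, a closed box is a box whose
functionals are a function of the line and of the window, which contains the box of the level. The
closed boxes of a decoration have maximal total precision. Hence, outside small events, every
closed functional which is bounded on the box of the level is bounded on the closed box.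
-/

set_option autoImplicit false

namespace Pool.NB

open Finset Real
open Pool.Agent.H49.Ent Pool.Agent.H32.Dense Pool.STK Pool.KA Pool.K2S Pool.PB Pool.KSAT
open Pool.PC (On Cnt DetA pt Dec Bar Evt lex)

variable {m J : ℕ}

theorem nPig_pos (m J : ℕ) : 0 < nPig m J := by
  unfold nPig
  have : (0 : ℝ) < m.factorial := by exact_mod_cast m.factorial_pos
  positivity

/-- The constants of the cut of a family of boxes. -/
def cW (m : ℕ) : ℕ := (m + 1) * cC m

/-- **Cutting a family of boxes by functionals.** -/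
theorem cutF {F : Fam m J} {E : F.Ω → Prop} {z : Bx F} {α β : Type} {P : F.Ω → α}
    {P' : F.Ω → β} {c : Prop} {f : F.Ω → Fin m → ℝ} (hO : z.Ok E) (hz : DetA F E P z.g)
    (hzc : c → DetA F E P' z.g) (hf : DetA F E P f) (hf' : c → DetA F E P' f)
    (hb : ∀ ω, On F E ω → ∀ l, |f ω l| ≤ 2 ^ J) {h : ℕ}
    (hh : ∀ ω, On F E ω → ∃ v, z.In ω 1 v ∧ 2 ^ h ≤ |dot (f ω) v|) (hE : 0 < Pe F.p E) :
    ∃ (E' : F.Ω → Prop) (z' : Bx F), (∀ ω, E' ω → E ω) ∧ Pe F.p E / nPig m J ≤ Pe F.p E' ∧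
      z'.Ok E' ∧ DetA F E' P z'.g ∧ (c → DetA F E' P' z'.g) ∧ z.vol + h ≤ z'.vol + cW m ∧
      (∀ ω, On F E' ω → ∀ v, z.In ω 1 v → |dot (f ω) v| ≤ 1 → z'.In ω (2 ^ cC m) v) ∧
      z'.Sub (2 * cC m) z E' := by
  classical
  -- the new box, as a function of `(g, f)`
  have hch : ∀ t : (Fin m → Fin m → ℝ) × (Fin m → ℝ),
      ∃ r : Equiv.Perm (Fin m) × ((Fin m → Fin m → ℝ) × (Fin m → ℕ)),
      (Fr z.o t.1 ∧ (∀ l, |t.2 l| ≤ 2 ^ J) ∧
        ∃ v : Fin m → ℝ, (∀ i, |dot (t.1 i) v| ≤ 1 / 2 ^ z.q i) ∧ 2 ^ h ≤ |dot t.2 v|) →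
      Fr r.1 r.2.1 ∧ Monotone r.2.2 ∧ ∑ i, z.q i + h ≤ ∑ i, r.2.2 i + cC m ∧
      (∀ v : Fin m → ℝ, (∀ i, |dot (t.1 i) v| ≤ 1 / 2 ^ z.q i) → |dot t.2 v| ≤ 1 →
        ∀ i, |dot (r.2.1 i) v| ≤ 2 ^ cC m / 2 ^ r.2.2 i) ∧
      (∀ v : Fin m → ℝ, (∀ i, |dot (r.2.1 i) v| ≤ 1 / 2 ^ r.2.2 i) →
        ∀ i, |dot (t.1 i) v| ≤ 2 ^ cC m / 2 ^ z.q i) ∧ ∀ i, r.2.2 i ≤ J + cC m := by
    intro t
    by_cases ht : Fr z.o t.1 ∧ (∀ l, |t.2 l| ≤ 2 ^ J) ∧
        ∃ v : Fin m → ℝ, (∀ i, |dot (t.1 i) v| ≤ 1 / 2 ^ z.q i) ∧ 2 ^ h ≤ |dot t.2 v|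
    · obtain ⟨o', g', q', k1, k2, -, k3, k4, k5, k6⟩ := cut ht.1 hO.mono t.2 hO.leJ ht.2.1
      obtain ⟨v, hv1, hv2⟩ := ht.2.2
      exact ⟨(o', (g', q')), fun _ => ⟨k1, k2, k3 h v hv1 hv2, k4, fun v hv => (k5 v hv).1, k6⟩⟩
    · exact ⟨(Equiv.refl _, (fun _ _ => 0, fun _ => 0)), fun h => absurd h ht⟩
  choose Φ hΦ using hch
  obtain ⟨t, ht⟩ : ∃ t : F.Ω → (Fin m → Fin m → ℝ) × (Fin m → ℝ),
      t = fun ω => (z.g ω, f ω) := ⟨_, rfl⟩
  have hadm : ∀ ω, On F E ω → Fr z.o (t ω).1 ∧ (∀ l, |(t ω).2 l| ≤ 2 ^ J) ∧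
      ∃ v : Fin m → ℝ, (∀ i, |dot ((t ω).1 i) v| ≤ 1 / 2 ^ z.q i) ∧
        2 ^ h ≤ |dot (t ω).2 v| := by
    intro ω hω
    rw [ht]
    exact ⟨hO.fr ω hω, hb ω hω, hh ω hω⟩
  obtain ⟨k, hk⟩ : ∃ k : F.Ω → Equiv.Perm (Fin m) × (Fin m → Fin (J + 1)), k = fun ω =>
      ((Φ (t ω)).1, fun i => ⟨min ((Φ (t ω)).2.2 i) J, by omega⟩) := ⟨_, rfl⟩
  obtain ⟨k₀, hk₀⟩ := Pool.PC.pe_pigeon67 (p := F.p) k E
  obtain ⟨E', hE'⟩ : ∃ E' : F.Ω → Prop, E' = fun ω => E ω ∧ k ω = k₀ := ⟨_, rfl⟩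
  have hcard : (Fintype.card (Equiv.Perm (Fin m) × (Fin m → Fin (J + 1))) : ℝ) = nPig m J := by
    unfold nPig
    rw [Fintype.card_prod, Fintype.card_perm, Fintype.card_fin, Fintype.card_fun,
      Fintype.card_fin, Fintype.card_fin]
    push_cast
    ring
  rw [hcard, ← hE'] at hk₀
  have hpos : 0 < Pe F.p E' := lt_of_lt_of_le (div_pos hE (nPig_pos m J)) hk₀
  have hon : ∀ ω, On F E' ω → On F E ω := by
    intro ω hω
    rw [hE'] at hω
    exact ⟨hω.1, hω.2.1⟩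
  have hval : ∀ ω, On F E' ω → (Φ (t ω)).1 = k₀.1 ∧ ∀ i, min ((Φ (t ω)).2.2 i) J = k₀.2 i := by
    intro ω hω
    have h5 : k ω = k₀ := by
      rw [hE'] at hω
      exact hω.2.2
    rw [← h5, hk]
    exact ⟨rfl, fun i => rfl⟩
  obtain ⟨z', hz'⟩ : ∃ z' : Bx F, z' = ⟨k₀.1, fun ω => (Φ (t ω)).2.1, fun i => k₀.2 i⟩ :=
    ⟨_, rfl⟩
  have hBo : z'.o = k₀.1 := by rw [hz']
  have hBg : ∀ ω, z'.g ω = (Φ (t ω)).2.1 := fun ω => by rw [hz']
  have hBq : ∀ i, z'.q i = (k₀.2 i : ℕ) := fun i => by rw [hz']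
  obtain ⟨ω₁, hω₁⟩ := Pool.PC.exists_on hpos
  refine ⟨E', z', fun ω h => ?_, hk₀, ⟨?_, ?_, fun ω hω => ?_⟩, ?_, ?_, ?_,
    fun ω hω v hv hf1 i => ?_, fun ω hω v hv => ?_⟩
  · rw [hE'] at h
    exact h.1
  · intro i j hij
    rw [hBq, hBq, ← (hval ω₁ hω₁).2 i, ← (hval ω₁ hω₁).2 j]
    exact min_le_min_right _ ((hΦ (t ω₁) (hadm ω₁ (hon ω₁ hω₁))).2.1 hij)
  · intro i
    rw [hBq]
    have := (k₀.2 i).2
    omega
  · rw [hBo, hBg, ← (hval ω hω).1]
    exact (hΦ (t ω) (hadm ω (hon ω hω))).1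
  · intro ω ω' h3 h4 e
    have e2 : z.g ω = z.g ω' := hz ω ω' (hon ω h3) (hon ω' h4) e
    have e3 : f ω = f ω' := hf ω ω' (hon ω h3) (hon ω' h4) e
    have e4 : t ω = t ω' := by
      rw [ht]
      show (z.g ω, f ω) = (z.g ω', f ω')
      rw [e2, e3]
    rw [hBg, hBg, e4]
  · intro hc ω ω' h3 h4 e
    have e2 : z.g ω = z.g ω' := hzc hc ω ω' (hon ω h3) (hon ω' h4) e
    have e3 : f ω = f ω' := hf' hc ω ω' (hon ω h3) (hon ω' h4) e
    have e4 : t ω = t ω' := by
      rw [ht]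
      show (z.g ω, f ω) = (z.g ω', f ω')
      rw [e2, e3]
    rw [hBg, hBg, e4]
  · obtain ⟨-, -, f3, -, -, f6⟩ := hΦ (t ω₁) (hadm ω₁ (hon ω₁ hω₁))
    have e1 : ∑ i, (Φ (t ω₁)).2.2 i ≤ ∑ i, (z'.q i + cC m) := by
      refine Finset.sum_le_sum fun i _ => ?_
      rw [hBq, ← (hval ω₁ hω₁).2 i]
      have := f6 i
      omega
    rw [Finset.sum_add_distrib, Finset.sum_const, card_univ, Fintype.card_fin, smul_eq_mul] at e1
    unfold Bx.vol cW
    have e2 : (m + 1) * cC m = m * cC m + cC m := by ring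
    omega
  · obtain ⟨-, -, -, f4, -, -⟩ := hΦ (t ω) (hadm ω (hon ω hω))
    have e1 : (t ω).1 = z.g ω := by rw [ht]
    have e2 : (t ω).2 = f ω := by rw [ht]
    rw [e1, e2] at f4
    have e3 := f4 v hv hf1 i
    rw [hBg, hBq, ← (hval ω hω).2 i]
    refine e3.trans (div_le_div_of_nonneg_left (by positivity) (by positivity) ?_)
    exact pow_le_pow_right₀ (by norm_num) (min_le_left _ _)
  · obtain ⟨-, -, -, -, f5, f6⟩ := hΦ (t ω) (hadm ω (hon ω hω))
    intro i
    have e1 : (0 : ℝ) < 2 ^ cC m := by positivity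
    have hsc : ∀ a : Fin m → ℝ, dot a (fun l => (2 ^ cC m)⁻¹ * v l) = (2 ^ cC m)⁻¹ * dot a v := by
      intro a
      unfold dot
      rw [Finset.mul_sum]
      exact Finset.sum_congr rfl fun l _ => by ring
    have e2 := f5 (fun l => (2 ^ cC m)⁻¹ * v l) (fun j => by
      rw [hsc, abs_mul, abs_inv, abs_of_pos e1, inv_mul_le_iff₀ e1]
      have e4 := hv j
      rw [hBg, hBq, ← (hval ω hω).2 j] at e4
      refine e4.trans ?_
      rw [mul_one_div, div_le_div_iff₀ (by positivity) (by positivity), one_mul, ← pow_add]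
      refine pow_le_pow_right₀ (by norm_num) ?_
      have := f6 j
      omega) i
    rw [hsc, abs_mul, abs_inv, abs_of_pos e1, inv_mul_le_iff₀ e1] at e2
    have e5 : (t ω).1 i = z.g ω i := by rw [ht]
    rw [e5] at e2
    refine e2.trans (le_of_eq ?_)
    rw [two_mul, pow_add]
    ring

/-! ### The labels -/

/-- The window of a rational number. -/
noncomputable def win (J : ℕ) (w : ℚ) : ℕ := ⌊(w : ℝ) * J⌋₊

/-- The cumulative labels determine the previous ones. -/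
theorem ptk_anti {F : Fam m J} {B : ℕ → Bx F} {k k' : ℕ} (hk : k ≤ k') {ω ω' : F.Ω}
    (h : ptk B k' ω = ptk B k' ω') : ptk B k ω = ptk B k ω' := by
  have h1 : pt F ω = pt F ω' := congrArg Prod.fst h
  have h2 : clab B k' ω = clab B k' ω' := congrArg Prod.snd h
  show (pt F ω, clab B k ω) = (pt F ω', clab B k ω')
  rw [h1, clab_ext fun i hi => clab_det (hi.trans hk) h2]

/-- **Closed boxes** for all levels and rational windows: `true` for the visible ones. -/
@[reducible] noncomputable def CL (m M : ℕ) : Lbs m M where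
  T F := Bool → ℕ → ℚ → Bx F
  Val {J} F A g e B N z := ∀ b : Bool, ∀ k < M, ∀ w : ℚ, (z b k w).Ok A ∧
    DetA F A (slam F (win J w)) (z b k w).g ∧ (b = true → DetA F A (ptk B k) (z b k w).g) ∧
    (B k).Sub (e + m) (z b k w) A
  sub hA h b k hk w := ⟨(h b k hk w).1.sub hA, (h b k hk w).2.1.sub hA,
    fun hb => ((h b k hk w).2.2.1 hb).sub hA, (h b k hk w).2.2.2.sub hA⟩
  triv {J F A g e B N} hC := by
    refine ⟨fun _ _ _ => Bx.one F, fun b k hk w => ⟨Bx.one_ok, fun _ _ _ _ _ => rfl,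
      fun _ _ _ _ _ _ => rfl, fun ω hω v hv i => ?_⟩⟩
    rw [dot_one]
    have h1 := ((hC.ok k hk).fr ω hω).coord zero_le_one (fun j => (hv j).trans (by
      rw [div_le_one (by positivity)]
      exact one_le_pow₀ (by norm_num))) i
    rw [mul_one] at h1
    show |v i| ≤ 2 ^ (e + m) / 2 ^ 0
    rw [pow_zero, div_one]
    exact h1.trans (pow_le_pow_right₀ (by norm_num) (Nat.le_add_left m e))
  emono he h b k hk w := ⟨(h b k hk w).1, (h b k hk w).2.1, (h b k hk w).2.2.1,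
    (h b k hk w).2.2.2.mono (Nat.add_le_add_right he m)⟩

section prod

variable {M : ℕ}

/-- Two kinds of labels. -/
@[reducible] def Lbs.prod (Λ Λ' : Lbs m M) : Lbs m M where
  T F := Λ.T F × Λ'.T F
  Val F A g e B N t := Λ.Val F A g e B N t.1 ∧ Λ'.Val F A g e B N t.2
  sub hA h := ⟨Λ.sub hA h.1, Λ'.sub hA h.2⟩
  triv hC := by
    obtain ⟨t, ht⟩ := Λ.triv hC
    obtain ⟨t', ht'⟩ := Λ'.triv hC
    exact ⟨(t, t'), ht, ht'⟩
  emono he h := ⟨Λ.emono he h.1, Λ'.emono he h.2⟩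

/-- A coordinate of the first kind of labels. -/
def Crd.lft {Λ : Lbs m M} (c : Crd Λ) (Λ' : Lbs m M) : Crd (Λ.prod Λ') where
  At F A g e B N t s := c.At F A g e B N t.1 s
  lo := c.lo
  up := c.up
  J₀ := c.J₀
  lo_le := c.lo_le
  sub hA h := c.sub hA h
  anti hs h := c.anti hs h
  low hC hV hJ := c.low hC hV.1 hJ
  high hC hV hJ hA h := c.high hC hV.1 hJ hA h
  emono he h := c.emono he h

/-- A coordinate of the second kind of labels. -/
def Crd.rgt {Λ' : Lbs m M} (c : Crd Λ') (Λ : Lbs m M) : Crd (Λ.prod Λ') where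
  At F A g e B N t s := c.At F A g e B N t.2 s
  lo := c.lo
  up := c.up
  J₀ := c.J₀
  lo_le := c.lo_le
  sub hA h := c.sub hA h
  anti hs h := c.anti hs h
  low hC hV hJ := c.low hC hV.2 hJ
  high hC hV hJ hA h := c.high hC hV.2 hJ hA h
  emono he h := c.emono he h

/-- The total precision of the closed box. -/
noncomputable def cvol (m M : ℕ) (b : Bool) (k : ℕ) (w : ℚ) : Crd (CL m M) where
  At {J} F A g e B N (z : Bool → ℕ → ℚ → Bx F) s :=
    if k < M then s * J ≤ (z b k w).vol else s ≤ 0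
  lo := 0
  up := m
  J₀ := 0
  lo_le := Nat.cast_nonneg m
  sub _ h := h
  anti {J F A g e B N t s s'} hs h := by
    by_cases hk : k < M
    · rw [if_pos hk] at h ⊢
      exact (mul_le_mul_of_nonneg_right hs (Nat.cast_nonneg J)).trans h
    · rw [if_neg hk] at h ⊢
      exact hs.trans h
  low {J F A g e B N t} _ _ _ := by
    by_cases hk : k < M
    · rw [if_pos hk, zero_mul]
      exact Nat.cast_nonneg _
    · rw [if_neg hk]
  high {J F A g e B N t s} _ hV hJ _ h := by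
    by_cases hk : k < M
    · rw [if_pos hk] at h
      have h1 : ((Bx.vol (t b k w) : ℕ) : ℝ) ≤ m * J := by
        exact_mod_cast (hV b k hk w).1.vol_le
      exact le_of_mul_le_mul_right (h.trans h1) (Nat.cast_pos.2 hJ)
    · rw [if_neg hk] at h
      exact h.trans (Nat.cast_nonneg m)
  emono _ h := h

/-- A precision of the closed box. -/
noncomputable def cprec (m M : ℕ) (b : Bool) (k : ℕ) (w : ℚ) (i : Fin m) : Crd (CL m M) where
  At {J} F A g e B N (z : Bool → ℕ → ℚ → Bx F) s :=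
    if k < M then s * J ≤ (z b k w).q i else s ≤ 0
  lo := 0
  up := 1
  J₀ := 0
  lo_le := zero_le_one
  sub _ h := h
  anti {J F A g e B N t s s'} hs h := by
    by_cases hk : k < M
    · rw [if_pos hk] at h ⊢
      exact (mul_le_mul_of_nonneg_right hs (Nat.cast_nonneg J)).trans h
    · rw [if_neg hk] at h ⊢
      exact hs.trans h
  low {J F A g e B N t} _ _ _ := by
    by_cases hk : k < M
    · rw [if_pos hk, zero_mul]
      exact Nat.cast_nonneg _
    · rw [if_neg hk]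
  high {J F A g e B N t s} _ hV hJ _ h := by
    by_cases hk : k < M
    · rw [if_pos hk] at h
      have h1 : ((Bx.q (t b k w) i : ℕ) : ℝ) ≤ 1 * J := by
        rw [one_mul]
        exact_mod_cast (hV b k hk w).1.leJ i
      exact le_of_mul_le_mul_right (h.trans h1) (Nat.cast_pos.2 hJ)
    · rw [if_neg hk] at h
      exact h.trans zero_le_one
  emono _ h := h

/-- A precision of the box of the level. -/
noncomputable def cqq (Λ : Lbs m M) (k : ℕ) (i : Fin m) : Crd Λ where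
  At {J} F A g e B N _ s := if k < M then s * J ≤ (B k).q i else s ≤ 0
  lo := 0
  up := 1
  J₀ := 0
  lo_le := zero_le_one
  sub _ h := h
  anti {J F A g e B N t s s'} hs h := by
    by_cases hk : k < M
    · rw [if_pos hk] at h ⊢
      exact (mul_le_mul_of_nonneg_right hs (Nat.cast_nonneg J)).trans h
    · rw [if_neg hk] at h ⊢
      exact hs.trans h
  low {J F A g e B N t} _ _ _ := by
    by_cases hk : k < M
    · rw [if_pos hk, zero_mul]
      exact Nat.cast_nonneg _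
    · rw [if_neg hk]
  high {J F A g e B N t s} hC _ hJ _ h := by
    by_cases hk : k < M
    · rw [if_pos hk] at h
      have h1 : (((B k).q i : ℕ) : ℝ) ≤ 1 * J := by
        rw [one_mul]
        exact_mod_cast (hC.ok k hk).leJ i
      exact le_of_mul_le_mul_right (h.trans h1) (Nat.cast_pos.2 hJ)
    · rw [if_neg hk] at h
      exact h.trans zero_le_one
  emono _ h := h

/-- The codes of the coordinates: total precisions and precisions of closed boxes, precisions of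
boxes, the other coordinates. -/
abbrev Cod (m : ℕ) : Type :=
  (Bool × ℕ × ℚ) ⊕ ((Bool × ℕ × ℚ × Fin m) ⊕ ((ℕ × Fin m) ⊕ ℕ))

/-- The coordinate with the given code. -/
noncomputable def cod {Λ' : Lbs m M} (c' : ℕ → Crd Λ') : Cod m → Crd ((CL m M).prod Λ')
  | .inl (b, k, w) => (cvol m M b k w).lft Λ'
  | .inr (.inl (b, k, w, i)) => (cprec m M b k w i).lft Λ'
  | .inr (.inr (.inl (k, i))) => cqq _ k i
  | .inr (.inr (.inr j)) => (c' j).rgt (CL m M)

/-- The sequence of the coordinates. -/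
noncomputable def cseq {Λ' : Lbs m M} (c' : ℕ → Crd Λ') (j : ℕ) : Crd ((CL m M).prod Λ') :=
  cod c' (((Encodable.decode j : Option (Cod m))).getD (.inl (true, 0, 0)))

/-- The index of a code. -/
noncomputable def idx (M : ℕ) {m : ℕ} (x : Cod m) : ℕ := M + 1 + Encodable.encode x

theorem knd_idx {Λ' : Lbs m M} (c' : ℕ → Crd Λ') (x : Cod m) :
    knd (cseq c') (idx M x) = .ad (cod c' x) := by
  unfold idx
  rw [knd_ad]
  unfold cseq
  rw [Encodable.encodek]
  rfl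

/-- All indices. -/
theorem knd_cod {Λ' : Lbs m M} (c' : ℕ → Crd Λ') (i : ℕ) :
    i = 0 ∨ (∃ k < M, i = k + 1) ∨ ∃ x : Cod m, knd (cseq c') i = .ad (cod c' x) := by
  rcases knd_cases (cseq c') i with h | h | ⟨j, h⟩
  · exact Or.inl h
  · exact Or.inr (Or.inl h)
  · refine Or.inr (Or.inr ⟨((Encodable.decode j : Option (Cod m))).getD (.inl (true, 0, 0)), ?_⟩)
    rw [h, knd_ad]
    rfl

end prod

/-- The closed box of the level `k` at the window `w` is replaced. -/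
noncomputable def updz {F : Fam m J} (z : Bool → ℕ → ℚ → Bx F) (b : Bool) (k : ℕ) (w : ℚ)
    (z' : Bx F) : Bool → ℕ → ℚ → Bx F :=
  Function.update z b (Function.update (z b) k (Function.update (z b k) w z'))

theorem updz_self {F : Fam m J} (z : Bool → ℕ → ℚ → Bx F) (b : Bool) (k : ℕ) (w : ℚ)
    (z' : Bx F) : updz z b k w z' b k w = z' := by
  unfold updz
  rw [Function.update_self, Function.update_self, Function.update_self]

theorem updz_ne {F : Fam m J} (z : Bool → ℕ → ℚ → Bx F) {b b' : Bool} {k k' : ℕ} {w w' : ℚ}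
    (z' : Bx F) (h : ¬ (b' = b ∧ k' = k ∧ w' = w)) : updz z b k w z' b' k' w' = z b' k' w' := by
  unfold updz
  by_cases hb : b' = b
  · rw [hb, Function.update_self]
    by_cases hk : k' = k
    · rw [hk, Function.update_self, Function.update_of_ne fun hw => h ⟨hb, hk, hw⟩]
    · rw [Function.update_of_ne hk]
  · rw [Function.update_of_ne hb]

/-- **(CLO)** No closed functional which is bounded on the box of the level is large on the closed
box, on any large event. -/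
theorem clo {M : ℕ} {Λ' : Lbs m M} {c' : ℕ → Crd Λ'} {δ γ : ℝ} {S : PCl m} {s : ℕ → ℝ}
    (hs0 : s 0 = 0) (b : Bool) {k : ℕ} (hk : k < M) {w : ℚ}
    (hb : Bar S (bdec δ γ (cseq c')) (idx M (.inl (b, k, w) : Cod m)) s)
    (hpos : ∀ (τ : ℝ) (J : ℕ) (F : Fam m J) (A : F.Ω → Prop), S.St τ J F A → 0 < Pe F.p A) :
    ∀ h : ℝ, 0 < h → ∃ ψ > 0, ∃ J₁ : ℕ, ∀ J ≥ J₁,
    ∀ (F : Fam m J) (A : F.Ω → Prop), S.St ψ J F A → ∀ (e : ℕ) (B : ℕ → Bx F) (N : ℕ → ℝ)
      (t : ((CL m M).prod Λ').T F), Dat δ γ (cseq c') s ψ F A e B N t →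
      ∀ E : F.Ω → Prop, Evt F A ψ E → ∀ (f : F.Ω → Fin m → ℝ) (r h' : ℕ),
        DetA F E (slam F (win J w)) f → (b = true → DetA F E (ptk B k) f) →
        (∀ ω, On F E ω → ∀ l, |f ω l| ≤ 2 ^ J) → (r : ℝ) ≤ ψ * J →
        (∀ ω, On F E ω → ∀ v, (B k).In ω 1 v → |dot (f ω) v| ≤ 2 ^ r) → h * J ≤ h' →
        ¬ ∀ ω, On F E ω → ∃ v, (t.1 b k w).In ω 1 v ∧ 2 ^ h' ≤ |dot (f ω) v| := by
  intro h hh
  obtain ⟨ψ₀, hψ₀, J₁, h1⟩ := hb (h / 2) (half_pos hh)
  obtain ⟨i₀, hi₀⟩ : ∃ i₀, i₀ = idx M (.inl (b, k, w) : Cod m) := ⟨_, rfl⟩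
  obtain ⟨J₂, hJ₂⟩ := nPig_le_exp m (half_pos hψ₀)
  obtain ⟨ψ, hψ, e1, e2, e3⟩ : ∃ ψ > 0, ψ ≤ ψ₀ / 4 ∧ ψ ≤ h / 8 ∧ ((i₀ : ℝ) + 2) * ψ ≤ 1 := by
    refine ⟨min (min (ψ₀ / 4) (h / 8)) (1 / ((i₀ : ℝ) + 2)),
      lt_min (lt_min (by positivity) (by positivity)) (by positivity),
      (min_le_left _ _).trans (min_le_left _ _), (min_le_left _ _).trans (min_le_right _ _), ?_⟩
    have h5 := mul_le_mul_of_nonneg_left (min_le_right (min (ψ₀ / 4) (h / 8))
      (1 / ((i₀ : ℝ) + 2))) (show (0 : ℝ) ≤ (i₀ : ℝ) + 2 by positivity)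
    refine h5.trans (le_of_eq ?_)
    field_simp
  obtain ⟨J₃, hJ₃⟩ := exists_nat_gt ((2 * cC m + 2 * m + cW m : ℕ) / ψ)
  refine ⟨ψ, hψ, max (max J₁ J₂) J₃, fun J hJ F A hA e B N t hD E hE f r h' hf hfv hfb hr hB
    hh' hcon => ?_⟩
  have hJ1 : J₁ ≤ J := (le_max_left _ _).trans ((le_max_left _ _).trans hJ)
  have hJ2 : J₂ ≤ J := (le_max_right _ _).trans ((le_max_left _ _).trans hJ)
  have hJ3 : J₃ ≤ J := (le_max_right _ _).trans hJ
  have hJr : (0 : ℝ) ≤ J := Nat.cast_nonneg J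
  have hK : ((2 * cC m + 2 * m + cW m : ℕ) : ℝ) ≤ ψ * J := by
    have h5 := hJ₃.trans_le (Nat.cast_le.2 hJ3 : (J₃ : ℝ) ≤ J)
    rw [div_lt_iff₀ hψ] at h5
    linarith only [h5]
  have hK1 : ((cC m : ℕ) : ℝ) ≤ ψ * J := by
    refine le_trans ?_ hK
    exact_mod_cast (show cC m ≤ 2 * cC m + 2 * m + cW m by omega)
  have hK2 : ((2 * cC m + 2 * m : ℕ) : ℝ) ≤ ψ * J := by
    refine le_trans ?_ hK
    exact_mod_cast (show 2 * cC m + 2 * m ≤ 2 * cC m + 2 * m + cW m by omega)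
  have hK3 : ((cW m : ℕ) : ℝ) ≤ ψ * J := by
    refine le_trans ?_ hK
    exact_mod_cast (show cW m ≤ 2 * cC m + 2 * m + cW m by omega)
  have hψJ : ψ * (J : ℝ) ≤ h / 8 * J := mul_le_mul_of_nonneg_right e2 hJr
  have hψJ0 : ψ * (J : ℝ) ≤ ψ₀ / 4 * J := mul_le_mul_of_nonneg_right e1 hJr
  have hrh : r ≤ h' := by
    have : (r : ℝ) ≤ h' := by
      have : 0 ≤ h * (J : ℝ) := by positivity
      linarith only [hr, hh', hψJ]
    exact_mod_cast this
  have hpA := hpos _ J F A hA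
  have hpE : 0 < Pe F.p E := lt_of_lt_of_le (mul_pos (Real.exp_pos _) hpA) hE.2
  obtain ⟨hC, hV, hat⟩ := hD
  obtain ⟨hO, hcl, hvi, hsub⟩ := hV.1 b k hk w
  -- the scaled functional
  have h2r : (0 : ℝ) < 2 ^ r := by positivity
  have hdf : ∀ ω v, dot (fun l => (2 ^ r)⁻¹ * f ω l) v = (2 ^ r)⁻¹ * dot (f ω) v :=
    fun ω v => dot_smul _ _ _
  obtain ⟨E', z', hE', hPE', hO', hdet', hvis', hgain, hin, hsub'⟩ := cutF (z := t.1 b k w)
    (P := slam F (win J w)) (P' := fun ω => ptk B k ω) (c := b = true)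
    (f := fun ω l => (2 ^ r)⁻¹ * f ω l) (h := h' - r) (hO.sub hE.1)
    (hcl.sub hE.1) (fun hb' => (hvi hb').sub hE.1) (fun ω ω' a b c => by
      show (fun l => (2 ^ r)⁻¹ * f ω l) = fun l => (2 ^ r)⁻¹ * f ω' l
      rw [hf ω ω' a b c])
    (fun hb' ω ω' a b c => by
      show (fun l => (2 ^ r)⁻¹ * f ω l) = fun l => (2 ^ r)⁻¹ * f ω' l
      rw [hfv hb' ω ω' a b c])
    (fun ω hω l => by
      rw [abs_mul, abs_inv, abs_of_pos h2r, inv_mul_le_iff₀ h2r]
      have h5 := hfb ω hω l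
      have h6 : (1 : ℝ) ≤ 2 ^ r := one_le_pow₀ (by norm_num)
      have h7 : (0 : ℝ) < 2 ^ J := by positivity
      nlinarith only [h5, h6, h7])
    (fun ω hω => by
      obtain ⟨v, hv1, hv2⟩ := hcon ω hω
      refine ⟨v, hv1, ?_⟩
      rw [hdf, abs_mul, abs_inv, abs_of_pos h2r, le_inv_mul_iff₀ h2r, ← pow_add]
      rwa [Nat.add_sub_cancel' hrh]) hpE
  have hEA : ∀ ω, E' ω → A ω := fun ω hω => hE.1 ω (hE' ω hω)
  have hEvt : Real.exp (-(ψ₀ * J)) * Pe F.p A ≤ Pe F.p E' := by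
    refine le_trans ?_ hPE'
    rw [le_div_iff₀ (nPig_pos m J)]
    have k1 := hJ₂ J hJ2
    have k2 : Real.exp (-(ψ₀ * J)) * nPig m J ≤ Real.exp (-(ψ * J)) := by
      refine (mul_le_mul_of_nonneg_left k1 (Real.exp_pos _).le).trans ?_
      rw [← Real.exp_add]
      refine Real.exp_le_exp.2 ?_
      nlinarith only [hr, hψJ0]
    calc Real.exp (-(ψ₀ * J)) * Pe F.p A * nPig m J
        = Real.exp (-(ψ₀ * J)) * nPig m J * Pe F.p A := by ring
      _ ≤ Real.exp (-(ψ * J)) * Pe F.p A := mul_le_mul_of_nonneg_right k2 hpA.le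
      _ ≤ _ := hE.2
  -- the new labels
  obtain ⟨t', ht'⟩ : ∃ t' : ((CL m M).prod Λ').T F, t' = (updz t.1 b k w z', t.2) := ⟨_, rfl⟩
  have hee : e ≤ e + cC m := Nat.le_add_right _ _
  have hC' : Chn F E' M (gp γ J) (e + cC m) B N := (hC.sub hEA).mono hee
  have hV' : ((CL m M).prod Λ').Val F E' (gp γ J) (e + cC m) B N t' := by
    rw [ht']
    have hV2 := ((CL m M).prod Λ').emono hee (((CL m M).prod Λ').sub hEA hV)
    refine ⟨fun b' k' hk' w' => ?_, hV2.2⟩
    by_cases hkw : b' = b ∧ k' = k ∧ w' = w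
    · obtain ⟨rfl, rfl, rfl⟩ := hkw
      show (updz t.1 b' k' w' z' b' k' w').Ok E' ∧ DetA F E' (slam F (win J w'))
        (updz t.1 b' k' w' z' b' k' w').g ∧ (b' = true → DetA F E' (ptk B k')
        (updz t.1 b' k' w' z' b' k' w').g) ∧
        (B k').Sub (e + cC m + m) (updz t.1 b' k' w' z' b' k' w') E'
      rw [updz_self]
      refine ⟨hO', hdet', hvis', fun ω hω v hv => ?_⟩
      have hωE : On F E ω := ⟨hω.1, hE' ω hω.2⟩
      have h5 := hsub ω ⟨hω.1, hEA ω hω.2⟩ v hv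
      obtain ⟨K, hK⟩ : ∃ K : ℝ, K = 2 ^ (e + m) := ⟨_, rfl⟩
      have hK0 : 0 < K := by rw [hK]; positivity
      have hK1 : 1 ≤ K := by rw [hK]; exact one_le_pow₀ (by norm_num)
      have h6 : (t.1 b' k' w').In ω 1 (fun l => K⁻¹ * v l) := by
        rw [Bx.In.scale (inv_pos.2 hK0), div_inv_eq_mul, one_mul, hK]
        exact h5
      have h7 : |dot (fun l => (2 ^ r)⁻¹ * f ω l) (fun l => K⁻¹ * v l)| ≤ 1 := by
        have h8 : dot (fun l => (2 ^ r)⁻¹ * f ω l) (fun l => K⁻¹ * v l) =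
            (2 ^ r)⁻¹ * (K⁻¹ * dot (f ω) v) := by
          rw [hdf]
          congr 1
          unfold dot
          rw [Finset.mul_sum]
          exact Finset.sum_congr rfl fun l _ => by ring
        rw [h8, abs_mul, abs_mul, abs_inv, abs_inv, abs_of_pos h2r, abs_of_pos hK0,
          inv_mul_le_iff₀ h2r, mul_one, inv_mul_le_iff₀ hK0]
        have h9 := hB ω hωE v hv
        nlinarith only [h9, h2r, hK1]
      have h8 := hin ω hω _ h6 h7
      rw [Bx.In.scale (inv_pos.2 hK0), div_inv_eq_mul] at h8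
      refine h8.mono (le_of_eq ?_)
      rw [hK, ← pow_add]
      congr 1
      omega
    · have := hV2.1 b' k' hk' w'
      show (updz t.1 b k w z' b' k' w').Ok E' ∧ DetA F E' (slam F (win J w'))
        (updz t.1 b k w z' b' k' w').g ∧ (b' = true → DetA F E' (ptk B k')
        (updz t.1 b k w z' b' k' w').g) ∧
        (B k').Sub (e + cC m + m) (updz t.1 b k w z' b' k' w') E'
      rw [updz_ne t.1 z' hkw]
      exact this
  have hvol : ((t.1 b k w).vol : ℝ) + h / 2 * J + ψ * J ≤ z'.vol := by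
    have h5 : ((t.1 b k w).vol : ℝ) + (h' - r : ℕ) ≤ z'.vol + cW m := by exact_mod_cast hgain
    rw [Nat.cast_sub hrh] at h5
    linarith only [hr, hh', hK3, hψJ, h5]
  refine h1 J hJ1 F A (S.mono (by linarith only [hψ, e1]) hA) E' hEA hEvt
    (fun i => if i < i₀ then s i - ψ₀ else if i = i₀ then s i₀ + h / 2 else
      (knd (cseq c') i).lo) (fun j hj => ?_) (le_of_eq ?_)
      ⟨e + cC m, B, N, t', hC', hV', fun i => ?_⟩
  · show s j - ψ₀ ≤ if j < i₀ then s j - ψ₀ else _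
    rw [if_pos (by rw [hi₀]; exact hj)]
  · show _ = if idx M (.inl (b, k, w) : Cod m) < i₀ then _ else
      if idx M (.inl (b, k, w) : Cod m) = i₀ then s i₀ + h / 2 else _
    rw [← hi₀, if_neg (lt_irrefl i₀), if_pos rfl]
  · show (if i < i₀ then s i - ψ₀ else if i = i₀ then s i₀ + h / 2 else
      (knd (cseq c') i).lo) ≤ _ ∨ (knd (cseq c') i).at δ (gp γ J) F E' (e + cC m) B N t'
      (if i < i₀ then s i - ψ₀ else if i = i₀ then s i₀ + h / 2 else (knd (cseq c') i).lo)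
    rcases lt_trichotomy i i₀ with hi | hi | hi
    · -- the coordinates before
      rw [if_pos hi]
      refine Or.inr ?_
      have hi' : (i : ℝ) + 1 ≤ (i₀ : ℝ) + 2 := by
        have : (i : ℝ) ≤ i₀ := Nat.cast_le.2 hi.le
        linarith only [this]
      have hold := hat i ((mul_le_mul_of_nonneg_right hi' hψ.le).trans e3)
      rcases knd_cod c' i with h5 | ⟨k', hk', h5⟩ | ⟨x, h5⟩
      · rw [h5, knd_zero] at hold ⊢
        have h6 : (e : ℝ) ≤ -((s 0 - ψ) * J) := hold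
        show ((e + cC m : ℕ) : ℝ) ≤ -((s 0 - ψ₀) * J)
        rw [hs0] at h6 ⊢
        push_cast
        nlinarith only [hr, hK1, hψJ0, h6]
      · rw [h5, knd_sc _ hk'] at hold ⊢
        have h6 : (s (k' + 1) - ψ) * J ≤ nsc δ (gp γ J) B N k' := hold
        show (s (k' + 1) - ψ₀) * J ≤ nsc δ (gp γ J) B N k'
        refine le_trans (mul_le_mul_of_nonneg_right (by linarith only [hψ, e1]) hJr) h6
      · rw [h5] at hold ⊢
        have hold' : (cod c' x).At F A (gp γ J) e B N t (s i - ψ) := hold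
        show (cod c' x).At F E' (gp γ J) (e + cC m) B N t' (s i - ψ₀)
        have hψψ : s i - ψ₀ ≤ s i - ψ := by linarith only [hψ, e1]
        rcases x with ⟨b', k', w'⟩ | ⟨b', k', w', i'⟩ | ⟨k', i'⟩ | j'
        · have h6 : if k' < M then (s i - ψ) * J ≤ ((t.1 b' k' w').vol : ℝ) else
            s i - ψ ≤ 0 := hold'
          show if k' < M then (s i - ψ₀) * J ≤ ((t'.1 b' k' w').vol : ℝ) else s i - ψ₀ ≤ 0
          by_cases hk' : k' < M
          · rw [if_pos hk'] at h6 ⊢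
            have h7 : (s i - ψ₀) * (J : ℝ) ≤ (s i - ψ) * J :=
              mul_le_mul_of_nonneg_right hψψ hJr
            rw [ht']
            show (s i - ψ₀) * J ≤ ((updz t.1 b k w z' b' k' w').vol : ℝ)
            by_cases hkw : b' = b ∧ k' = k ∧ w' = w
            · obtain ⟨rfl, rfl, rfl⟩ := hkw
              rw [updz_self]
              have h8 : (0 : ℝ) ≤ h / 2 * J := by positivity
              have h9 : (0 : ℝ) ≤ ψ * J := by positivity
              linarith only [hr, hψJ, hψJ0, h6, hvol]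
            · rw [updz_ne t.1 z' hkw]
              linarith only [hr, hψJ0, h6]
          · rw [if_neg hk'] at h6 ⊢
            linarith only [hψ, e1, h6]
        · have h6 : if k' < M then (s i - ψ) * J ≤ ((t.1 b' k' w').q i' : ℝ) else
            s i - ψ ≤ 0 := hold'
          show if k' < M then (s i - ψ₀) * J ≤ ((t'.1 b' k' w').q i' : ℝ) else s i - ψ₀ ≤ 0
          by_cases hk' : k' < M
          · rw [if_pos hk'] at h6 ⊢
            have h7 : (s i - ψ₀) * (J : ℝ) ≤ (s i - ψ) * J - ψ * J := by nlinarith only [hr, hψJ0]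
            have h9 : (0 : ℝ) ≤ ψ * J := by positivity
            rw [ht']
            show (s i - ψ₀) * J ≤ ((updz t.1 b k w z' b' k' w').q i' : ℝ)
            by_cases hkw : b' = b ∧ k' = k ∧ w' = w
            · obtain ⟨rfl, rfl, rfl⟩ := hkw
              rw [updz_self]
              obtain ⟨ω₁, hω₁⟩ := Pool.PC.exists_on (lt_of_lt_of_le
                (mul_pos (Real.exp_pos _) hpA) hEvt)
              have h10 := prec_mono (hO.fr ω₁ ⟨hω₁.1, hEA _ hω₁.2⟩) (hO'.fr ω₁ hω₁) hO.mono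
                hO'.mono (c := 2 * cC m) (fun v hv => hsub' ω₁ hω₁ v hv) i'
              have h11 : ((t.1 b' k' w').q i' : ℝ) ≤ z'.q i' + (2 * cC m + 2 * m : ℕ) := by
                exact_mod_cast h10
              linarith only [hr, hK2, hψJ0, h6, h11]
            · rw [updz_ne t.1 z' hkw]
              linarith only [hr, hψJ0, h6]
          · rw [if_neg hk'] at h6 ⊢
            linarith only [hψ, e1, h6]
        · have h6 : if k' < M then (s i - ψ) * J ≤ ((B k').q i' : ℝ) else s i - ψ ≤ 0 := hold'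
          show if k' < M then (s i - ψ₀) * J ≤ ((B k').q i' : ℝ) else s i - ψ₀ ≤ 0
          by_cases hk' : k' < M
          · rw [if_pos hk'] at h6 ⊢
            exact (mul_le_mul_of_nonneg_right hψψ hJr).trans h6
          · rw [if_neg hk'] at h6 ⊢
            linarith only [hψ, e1, h6]
        · have h6 : (c' j').At F A (gp γ J) e B N t.2 (s i - ψ) := hold'
          show (c' j').At F E' (gp γ J) (e + cC m) B N t'.2 (s i - ψ₀)
          rw [ht']
          exact (c' j').anti hψψ ((c' j').emono hee ((c' j').sub hEA h6))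
    · -- the coordinate itself
      rw [if_neg (by omega), if_pos hi]
      refine Or.inr ?_
      have h5 : knd (cseq c') i = .ad (cod c' (.inl (b, k, w) : Cod m)) := by
        rw [hi, hi₀, knd_idx]
      have hi' : (i₀ : ℝ) + 1 ≤ (i₀ : ℝ) + 2 := by linarith only
      have hold := hat i₀ ((mul_le_mul_of_nonneg_right hi' hψ.le).trans e3)
      rw [hi] at h5
      rw [h5] at hold
      rw [hi, h5]
      have h6 : if k < M then (s i₀ - ψ) * J ≤ ((t.1 b k w).vol : ℝ) else s i₀ - ψ ≤ 0 := hold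
      show if k < M then (s i₀ + h / 2) * J ≤ ((t'.1 b k w).vol : ℝ) else s i₀ + h / 2 ≤ 0
      rw [if_pos hk] at h6 ⊢
      rw [ht']
      show (s i₀ + h / 2) * J ≤ ((updz t.1 b k w z' b k w).vol : ℝ)
      rw [updz_self]
      nlinarith only [hvol, h6]
    · rw [if_neg (by omega), if_neg (by omega)]
      exact Or.inl le_rfl

end Pool.NB
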