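import Pool.Agent.H69.NB.Chain

/-!
# Cutting a box by a functional; comparison of the precisions of two boxes
-/

set_option autoImplicit false

namespace Pool.NB

open Finset Real
open Pool.Agent.H49.Ent Pool.Agent.H32.Dense Pool.STK Pool.KA Pool.K2S
open Pool.PC (On Cnt DetA pt)

/-- The expansion of a functional in a frame. -/
theorem Fr.expand {m : ℕ} {o : Equiv.Perm (Fin m)} {g : Fin m → Fin m → ℝ} (h : Fr o g)
    (f : Fin m → ℝ) {c : ℝ} (hf : ∀ l, |f l| ≤ c) :
    ∃ a : Fin m → ℝ, (∀ v, dot f v = ∑ i, a i * dot (g i) v) ∧ ∀ i, |a i| ≤ 2 ^ m * c := by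
  have hdet : (Matrix.of g).det ≠ 0 := by
    intro h0
    have := h.det
    rw [h0, abs_zero] at this
    exact zero_ne_one this
  obtain ⟨a, ha⟩ : ∃ a : Fin m → ℝ, ∀ l, f l = ∑ i, a i * g i l := by
    refine ⟨Matrix.vecMul f (Matrix.of g)⁻¹, fun l => ?_⟩
    have h1 : Matrix.vecMul (Matrix.vecMul f (Matrix.of g)⁻¹) (Matrix.of g) = f := by
      rw [Matrix.vecMul_vecMul, Matrix.nonsing_inv_mul _ (isUnit_iff_ne_zero.2 hdet),
        Matrix.vecMul_one]
    have h2 := congrFun h1 l
    exact h2.symm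
  refine ⟨a, fun v => ?_, ?_⟩
  · unfold dot
    have e : ∀ l, f l * v l = ∑ i, a i * g i l * v l := fun l => by
      rw [ha l, Finset.sum_mul]
    rw [Finset.sum_congr rfl fun l _ => e l, Finset.sum_comm]
    refine Finset.sum_congr rfl fun i _ => ?_
    rw [Finset.mul_sum]
    exact Finset.sum_congr rfl fun l _ => by ring
  · have key : ∀ n : ℕ, ∀ i : Fin m, m - 1 - (i : ℕ) = n → |a i| ≤ 2 ^ n * c := by
      intro n
      induction n using Nat.strong_induction_on with
      | _ n ih =>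
      intro i hi
      have hc : 0 ≤ c := (abs_nonneg _).trans (hf (o i))
      have h1 : f (o i) = a i + ∑ j ∈ univ.filter (i < ·), a j * g j (o i) := by
        rw [ha (o i), ← Finset.sum_filter_add_sum_filter_not univ (i < ·), add_comm]
        congr 1
        rw [Finset.sum_eq_single i]
        · rw [h.one, mul_one]
        · intro j hj hji
          rw [mem_filter] at hj
          rw [h.zer j i (lt_of_le_of_ne (not_lt.1 hj.2) hji), mul_zero]
        · intro hcon
          rw [mem_filter] at hcon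
          exact absurd ⟨mem_univ _, lt_irrefl i⟩ hcon
      have h3 : |∑ j ∈ univ.filter (i < ·), a j * g j (o i)| ≤
          ∑ j ∈ univ.filter (i < ·), 2 ^ (m - 1 - (j : ℕ)) * c := by
        refine (Finset.abs_sum_le_sum_abs _ _).trans (Finset.sum_le_sum fun j hj => ?_)
        rw [mem_filter] at hj
        have hj2 : (i : ℕ) < j := hj.2
        have hjm := j.2
        rw [abs_mul]
        have h4 := ih (m - 1 - (j : ℕ)) (by omega) j rfl
        have := mul_le_mul h4 (h.bd j (o i)) (abs_nonneg _) (by positivity)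
        linarith
      have h5 : ∑ j ∈ univ.filter (i < ·), (2 : ℝ) ^ (m - 1 - (j : ℕ)) * c =
          (2 ^ n - 1) * c := by
        rw [← Finset.sum_mul]
        congr 1
        have e : ∑ j ∈ univ.filter (i < ·), (2 : ℝ) ^ (m - 1 - (j : ℕ)) =
            ∑ k ∈ range n, (2 : ℝ) ^ k := by
          refine Finset.sum_bij (fun j _ => m - 1 - (j : ℕ)) (fun j hj => ?_)
            (fun j hj j' hj' e => ?_) (fun k hk => ?_) (fun _ _ => rfl)
          · rw [mem_filter] at hj
            have hj2 : (i : ℕ) < j := hj.2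
            rw [mem_range]
            have := j.2
            omega
          · have h6 := j.2
            have h7 := j'.2
            exact Fin.ext (by omega)
          · rw [mem_range] at hk
            have h6 := i.2
            refine ⟨⟨m - 1 - k, by omega⟩, mem_filter.2 ⟨mem_univ _, ?_⟩, ?_⟩
            · show (i : ℕ) < m - 1 - k
              omega
            · show m - 1 - (m - 1 - k) = k
              omega
        rw [e, geom_sum_eq (by norm_num)]
        norm_num
      have h6 : a i = f (o i) - ∑ j ∈ univ.filter (i < ·), a j * g j (o i) := by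
        rw [h1]; ring
      rw [h6]
      refine (abs_sub _ _).trans ?_
      rw [h5] at h3
      have := hf (o i)
      linarith
    intro i
    have hc : 0 ≤ c := (abs_nonneg _).trans (hf (o i))
    refine (key _ i rfl).trans (mul_le_mul_of_nonneg_right ?_ hc)
    exact pow_le_pow_right₀ (by norm_num) (by omega)

/-- The constant of the cut. -/
def cC (m : ℕ) : ℕ := cM m + 2 * m + 2

/-- **Cutting a box by a functional.** -/
theorem cut {m : ℕ} {o : Equiv.Perm (Fin m)} {g : Fin m → Fin m → ℝ} (hg : Fr o g)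
    {q : Fin m → ℕ} (hm : Monotone q) (f : Fin m → ℝ) {N : ℕ} (hq : ∀ i, q i ≤ N)
    (hf : ∀ l, |f l| ≤ 2 ^ N) :
    ∃ (o' : Equiv.Perm (Fin m)) (g' : Fin m → Fin m → ℝ) (q' : Fin m → ℕ), Fr o' g' ∧
      Monotone q' ∧ ∑ i, q i ≤ ∑ i, q' i + cC m ∧
      (∀ (h : ℕ) (v : Fin m → ℝ), (∀ i, |dot (g i) v| ≤ 1 / 2 ^ q i) → 2 ^ h ≤ |dot f v| →
        ∑ i, q i + h ≤ ∑ i, q' i + cC m) ∧
      (∀ v : Fin m → ℝ, (∀ i, |dot (g i) v| ≤ 1 / 2 ^ q i) → |dot f v| ≤ 1 →
        ∀ i, |dot (g' i) v| ≤ 2 ^ cC m / 2 ^ q' i) ∧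
      (∀ v : Fin m → ℝ, (∀ i, |dot (g' i) v| ≤ 1 / 2 ^ q' i) →
        (∀ i, |dot (g i) v| ≤ 2 ^ cC m / 2 ^ q i) ∧ |dot f v| ≤ 2 ^ cC m) ∧
      ∀ i, q' i ≤ N + cC m := by
  obtain ⟨a, ha, hab⟩ := hg.expand f hf
  have hmr := nat_le_two_pow m
  obtain ⟨μ, hμ⟩ : ∃ μ : Fin m → ℝ, ∀ i, μ i = a i / 2 ^ q i := ⟨_, fun _ => rfl⟩
  have haμ : ∀ i, a i = μ i * 2 ^ q i := fun i => by
    rw [hμ, div_mul_cancel₀ _ (by positivity)]
  -- the value of the functional on the box
  have hval : ∀ (t : ℝ), 0 ≤ t → (∀ i, |μ i| ≤ t) → ∀ v : Fin m → ℝ,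
      (∀ i, |dot (g i) v| ≤ 1 / 2 ^ q i) → |dot f v| ≤ m * t := by
    intro t ht0 ht v hv
    rw [ha]
    refine (Finset.abs_sum_le_sum_abs _ _).trans ?_
    have h1 : ∀ i ∈ (univ : Finset (Fin m)), |a i * dot (g i) v| ≤ t := by
      intro i _
      rw [abs_mul, haμ, abs_mul, abs_of_pos (show (0 : ℝ) < 2 ^ q i by positivity)]
      have h2 := hv i
      rw [le_div_iff₀ (by positivity)] at h2
      have h3 := mul_le_mul (ht i) h2 (by positivity) ht0
      linarith
    refine (Finset.sum_le_card_nsmul _ _ _ h1).trans ?_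
    rw [card_univ, Fintype.card_fin, nsmul_eq_mul]
  have hin : ∀ i, ∀ x : ℝ, |x| ≤ 1 / 2 ^ q i → |x| ≤ 2 ^ cC m / 2 ^ q i := fun i x hx =>
    hx.trans (div_le_div_of_nonneg_right (one_le_pow₀ (by norm_num)) (by positivity))
  by_cases hsm : ∀ i, |μ i| ≤ 1
  · refine ⟨o, g, q, hg, hm, Nat.le_add_right _ _, fun h v hv hh => ?_,
      fun v hv _ i => hin i _ (hv i), fun v hv => ⟨fun i => hin i _ (hv i), ?_⟩,
      fun i => (hq i).trans (Nat.le_add_right _ _)⟩
    · have h1 := hval 1 zero_le_one hsm v hv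
      rw [mul_one] at h1
      have h2 : (2 : ℝ) ^ h ≤ 2 ^ m := hh.trans (h1.trans hmr)
      have h3 : h ≤ m := (pow_le_pow_iff_right₀ (by norm_num)).1 h2
      unfold cC
      omega
    · have h1 := hval 1 zero_le_one hsm v hv
      rw [mul_one] at h1
      refine h1.trans (hmr.trans (pow_le_pow_right₀ (by norm_num) ?_))
      unfold cC
      omega
  · push Not at hsm
    obtain ⟨i₁, hi₁⟩ := hsm
    obtain ⟨k, -, hk⟩ := Finset.exists_max_image (univ : Finset (Fin m)) (fun i => |μ i|)
      ⟨i₁, mem_univ _⟩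
    obtain ⟨t, ht⟩ : ∃ t, t = |μ k| := ⟨_, rfl⟩
    have hmax : ∀ i, |μ i| ≤ t := fun i => by rw [ht]; exact hk i (mem_univ _)
    have ht1 : 1 < t := lt_of_lt_of_le hi₁ (hmax i₁)
    have ht0 : 0 < t := by linarith
    obtain ⟨h₀, hh₀⟩ : ∃ h₀, h₀ = Nat.log 2 ⌊t⌋₊ := ⟨_, rfl⟩
    have h1 : (2 : ℝ) ^ h₀ ≤ t := by
      rw [hh₀]
      exact pow_log_le ht1.le
    have h2 : t < 2 ^ (h₀ + 1) := by
      rw [hh₀]
      exact lt_pow_log ht0
    have hlam : ∀ v, ∑ i, μ i / t * (2 ^ q i * dot (g i) v) = dot f v / t := by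
      intro v
      rw [ha, Finset.sum_div]
      refine Finset.sum_congr rfl fun i _ => ?_
      rw [haμ]
      ring
    obtain ⟨o', g', q', k1, k2, k3, k4, k5, k6⟩ := geo hg q (lam := fun i => μ i / t)
      (fun i => by
        rw [abs_div, abs_of_pos ht0, div_le_one ht0]
        exact hmax i)
      ⟨k, by rw [abs_div, abs_of_pos ht0, ← ht, div_self ht0.ne']⟩ h₀
    have hcM : cM m ≤ cC m := by unfold cC; omega
    refine ⟨o', g', q', k1, k2, by omega, fun h v hv hh => ?_, fun v hv hf1 i => ?_,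
      fun v hv => ?_, fun i => ?_⟩
    · have h3 := hval t ht0.le hmax v hv
      have h4 : (2 : ℝ) ^ h < 2 ^ (m + (h₀ + 1)) := by
        refine lt_of_le_of_lt (hh.trans h3) ?_
        rw [pow_add]
        calc (m : ℝ) * t ≤ 2 ^ m * t := mul_le_mul_of_nonneg_right hmr ht0.le
          _ < 2 ^ m * 2 ^ (h₀ + 1) := mul_lt_mul_of_pos_left h2 (by positivity)
      have h5 : h < m + (h₀ + 1) := (pow_lt_pow_iff_right₀ (by norm_num)).1 h4
      unfold cC
      omega
    · refine (k4 v hv ?_ i).trans (div_le_div_of_nonneg_right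
        (pow_le_pow_right₀ (by norm_num) hcM) (by positivity))
      rw [hlam, abs_div, abs_of_pos ht0]
      refine (div_le_div_of_nonneg_right hf1 ht0.le).trans ?_
      exact one_div_le_one_div_of_le (by positivity) h1
    · obtain ⟨k7, k8⟩ := k5 v hv
      refine ⟨fun i => (k7 i).trans (div_le_div_of_nonneg_right
        (pow_le_pow_right₀ (by norm_num) hcM) (by positivity)), ?_⟩
      rw [hlam, abs_div, abs_of_pos ht0, div_le_iff₀ ht0] at k8
      refine k8.trans ?_
      have h3 : (2 : ℝ) ^ cM m / 2 ^ h₀ * t ≤ 2 ^ cM m / 2 ^ h₀ * 2 ^ (h₀ + 1) :=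
        mul_le_mul_of_nonneg_left h2.le (by positivity)
      refine h3.trans ?_
      have h4 : (2 : ℝ) ^ cM m / 2 ^ h₀ * 2 ^ (h₀ + 1) = 2 ^ (cM m + 1) := by
        rw [pow_succ 2 h₀, pow_succ 2 (cM m)]
        field_simp
      rw [h4]
      refine pow_le_pow_right₀ (by norm_num) ?_
      unfold cC
      omega
    · have h3 := k6 (N + m) (fun j => (hq j).trans (Nat.le_add_right _ _)) (fun j => by
        rw [abs_div, abs_of_pos ht0]
        have h4 : |μ j| * 2 ^ q j = |a j| := by
          rw [haμ, abs_mul, abs_of_pos (show (0 : ℝ) < 2 ^ q j by positivity)]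
        calc |μ j| / t * 2 ^ (q j + h₀) = |μ j| * 2 ^ q j * (2 ^ h₀ / t) := by
              rw [pow_add]; ring
          _ ≤ |μ j| * 2 ^ q j * 1 := mul_le_mul_of_nonneg_left
              ((div_le_one ht0).2 h1) (by positivity)
          _ = |a j| := by rw [mul_one, h4]
          _ ≤ 2 ^ m * 2 ^ N := hab j
          _ = 2 ^ (N + m) := by rw [← pow_add, add_comm]) i
      unfold cC
      omega

/-! ### The precisions of two boxes -/

/-- **Monotonicity of the precisions**: a box inside a multiple of another one has larger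
precisions. -/
theorem prec_mono {m : ℕ} {o o' : Equiv.Perm (Fin m)} {g g' : Fin m → Fin m → ℝ} (hg : Fr o g)
    (hg' : Fr o' g') {q q' : Fin m → ℕ} (hm : Monotone q) (hm' : Monotone q') {c : ℕ}
    (h : ∀ v : Fin m → ℝ, (∀ i, |dot (g' i) v| ≤ 1 / 2 ^ q' i) →
      ∀ i, |dot (g i) v| ≤ 2 ^ c / 2 ^ q i) (i : Fin m) : q i ≤ q' i + (c + 2 * m) := by
  -- a vector which is zero at the functionals `g j`, `j < i`, and `g' j`, `j > i`
  obtain ⟨v, hv0, hv1, hv2⟩ : ∃ v : Fin m → ℝ, v ≠ 0 ∧ (∀ j < i, dot (g j) v = 0) ∧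
      ∀ j > i, dot (g' j) v = 0 := by
    obtain ⟨A, hA⟩ : ∃ A : Matrix (Fin m) (Fin m) ℝ,
        A = fun j l => if j < i then g j l else if i < j then g' j l else 0 := ⟨_, rfl⟩
    have hdet : A.det = 0 := by
      refine Matrix.det_eq_zero_of_row_eq_zero i fun l => ?_
      rw [hA]
      show (if i < i then g i l else if i < i then g' i l else 0) = 0
      rw [if_neg (lt_irrefl i), if_neg (lt_irrefl i)]
    obtain ⟨v, hv, hv'⟩ := Matrix.exists_mulVec_eq_zero_iff.2 hdet
    have hrow : ∀ j, dot (A j) v = 0 := fun j => congrFun hv' j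
    refine ⟨v, hv, fun j hj => ?_, fun j hj => ?_⟩
    · have h1 := hrow j
      have h2 : A j = g j := by
        rw [hA]
        funext l
        exact if_pos hj
      rwa [h2] at h1
    · have h1 := hrow j
      have h2 : A j = g' j := by
        rw [hA]
        funext l
        show (if j < i then g j l else if i < j then g' j l else 0) = _
        rw [if_neg (not_lt.2 (le_of_lt hj)), if_pos hj]
      rwa [h2] at h1
  -- the largest coordinate
  obtain ⟨l₀, -, hl₀⟩ := Finset.exists_max_image (univ : Finset (Fin m)) (fun l => |v l|)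
    ⟨i, mem_univ _⟩
  obtain ⟨r, hr⟩ : ∃ r, r = |v l₀| := ⟨_, rfl⟩
  have hmax : ∀ l, |v l| ≤ r := fun l => by rw [hr]; exact hl₀ l (mem_univ _)
  have hr0 : 0 < r := by
    by_contra hcon
    push Not at hcon
    refine hv0 (funext fun l => ?_)
    exact abs_eq_zero.1 (le_antisymm ((hmax l).trans hcon) (abs_nonneg _))
  have hm1 : 1 ≤ m := by
    have := i.2
    omega
  have hmr0 : (0 : ℝ) < m := by exact_mod_cast hm1
  -- scaling
  obtain ⟨s, hs⟩ : ∃ s : ℝ, s = 1 / (m * r * 2 ^ q' i) := ⟨_, rfl⟩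
  have hs0 : 0 < s := by rw [hs]; positivity
  have hdots : ∀ (a : Fin m → ℝ), dot a (fun l => s * v l) = s * dot a v := by
    intro a
    unfold dot
    rw [Finset.mul_sum]
    exact Finset.sum_congr rfl fun l _ => by ring
  have h1 : ∀ j, |dot (g' j) (fun l => s * v l)| ≤ 1 / 2 ^ q' j := by
    intro j
    rw [hdots]
    rcases lt_or_ge i j with hj | hj
    · rw [hv2 j hj, mul_zero, abs_zero]
      positivity
    · have h2 := abs_dot_le zero_le_one (hg'.bd j) hmax
      rw [one_mul] at h2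
      rw [abs_mul, abs_of_pos hs0]
      have h3 : s * |dot (g' j) v| ≤ s * (m * r) := mul_le_mul_of_nonneg_left h2 hs0.le
      refine h3.trans ?_
      have h4 : s * (m * r) = 1 / 2 ^ q' i := by
        rw [hs]
        field_simp
      rw [h4]
      exact one_div_le_one_div_of_le (by positivity) (pow_le_pow_right₀ (by norm_num) (hm' hj))
  have h2 := h _ h1
  -- the size of the vector
  have h3 : ∀ j, |dot (g j) (fun l => s * v l)| ≤ 2 ^ c / 2 ^ q i := by
    intro j
    rcases lt_or_ge j i with hj | hj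
    · rw [hdots, hv1 j hj, mul_zero, abs_zero]
      positivity
    · refine (h2 j).trans ?_
      exact div_le_div_of_nonneg_left (by positivity) (by positivity)
        (pow_le_pow_right₀ (by norm_num) (hm hj))
  have h4 := hg.coord (by positivity) h3 l₀
  have h5 : |s * v l₀| = 1 / (m * 2 ^ q' i) := by
    rw [abs_mul, abs_of_pos hs0, ← hr, hs]
    field_simp
  rw [h5] at h4
  have hmr := nat_le_two_pow m
  have h6 : (2 : ℝ) ^ q i ≤ 2 ^ (q' i + (c + 2 * m)) := by
    rw [← mul_div_assoc, div_le_div_iff₀ (by positivity) (by positivity), one_mul] at h4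
    refine h4.trans ?_
    have e : (2 : ℝ) ^ (q' i + (c + 2 * m)) = 2 ^ m * 2 ^ c * (2 ^ m * 2 ^ q' i) := by
      rw [pow_add, pow_add, two_mul, pow_add]
      ring
    rw [e]
    refine mul_le_mul_of_nonneg_left ?_ (by positivity)
    exact mul_le_mul_of_nonneg_right hmr (by positivity)
  exact (pow_le_pow_iff_right₀ (by norm_num)).1 h6

end Pool.NB
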