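import Pool.Agent.H69.NB.Fal

/-!
# The transversality of two times of one line

The laws of two conditionally independent copies, given the line and the window, of a family
conditioned on an event: the normals (the long directions) of the closed boxes are different.
-/

set_option autoImplicit false

namespace Pool.NB

open Finset Real
open Pool.Agent.H49.Ent Pool.Agent.H32.Dense Pool.STK Pool.KA Pool.K2S Pool.PB Pool.KSAT
open Pool.PC (On Cnt DetA pt Dec Bar Evt lex)
open Pool.XF (crs Chg)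

variable {m J : ℕ}

/-- Events of the conditional law. -/
theorem pe_cond {Ω : Type} [Fintype Ω] (p : Ω → ℝ) (A B : Ω → Prop) :
    Pe (Pool.Agent.H49.Ent.cond p A True) B = Pe p (fun ω => A ω ∧ B ω) / Pe p A := by
  classical
  rw [pe_sum, pe_sum, Finset.sum_div]
  refine Finset.sum_congr rfl fun ω _ => ?_
  unfold Pool.Agent.H49.Ent.cond
  by_cases hA : A ω
  · rw [if_pos (eq_true hA)]
    by_cases hB : B ω
    · rw [if_pos hB, if_pos ⟨hA, hB⟩]
    · rw [if_neg hB, if_neg (fun h => hB h.2), zero_div]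
  · rw [if_neg (show ¬ A ω = True by simpa using hA),
      if_neg (show ¬ (A ω ∧ B ω) from fun h => hA h.1), zero_div]
    split_ifs <;> rfl

/-- Two copies on an event. -/
theorem dbl_res {F : Fam m J} {A : F.Ω → Prop} (hA : 0 < Pe F.p A) {T Λ : Type} {Z : F.Ω → T}
    {ψ : ℝ} {R : Λ → F.Ω → Prop}
    (h : ∀ E, Evt F A ψ E → ∀ lam : T → Λ, ¬ ∀ ω, On F E ω → R (lam (Z ω)) ω) (l : F.Ω → Λ) :
    Pe (dbl (Pool.Agent.H49.Ent.cond F.p A True) Z) (fun u => R (l u.1) u.2) ≤
      Real.exp (-(ψ * J)) := by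
  refine pe_dbl (cond_nonneg F.isLaw.nonneg A True) (Real.exp_pos _).le (fun lam => ?_) l
  rw [pe_cond, div_le_iff₀ hA]
  exact (small_of_not fun E hE => h E hE lam).le

/-- The products of the three-dimensional vector product. -/
theorem crs_le {a b : Fin 3 → ℝ} {c : ℝ} (hc : 0 ≤ c) (h : ∀ j, |crs a b j| ≤ c) :
    ∀ j l, |a j * b l - a l * b j| ≤ c := by
  have h0 : |a 1 * b 2 - a 2 * b 1| ≤ c := h 0
  have h1 : |a 2 * b 0 - a 0 * b 2| ≤ c := h 1
  have h2 : |a 0 * b 1 - a 1 * b 0| ≤ c := h 2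
  have e0 : |a 2 * b 1 - a 1 * b 2| ≤ c := by rw [abs_sub_comm]; exact h0
  have e1 : |a 0 * b 2 - a 2 * b 0| ≤ c := by rw [abs_sub_comm]; exact h1
  have e2 : |a 1 * b 0 - a 0 * b 1| ≤ c := by rw [abs_sub_comm]; exact h2
  have hz : ∀ j, |a j * b j - a j * b j| ≤ c := by
    intro j
    rw [sub_self, abs_zero]
    exact hc
  intro j l
  fin_cases j <;> fin_cases l
  exacts [hz 0, h2, e1, e2, hz 1, h0, h1, e0, hz 2]

section

variable {M : ℕ} {Λ' : Lbs m M} {c' : ℕ → Crd Λ'} {δ γ : ℝ} {S : PCl m} {s : ℕ → ℝ}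

/-- **(dbl)** The normals of two times of one line are different. -/
theorem dbl_N (H : Hyp S δ γ c' s) (b : Bool) {k : ℕ} (hk : k < M) (w w' : ℚ) :
    ∀ h : ℝ, 0 < h → ∃ ψ > 0, ∃ J₁ : ℕ, ∀ J ≥ J₁,
    ∀ (F : Fam m J) (A : F.Ω → Prop), S.St ψ J F A → ∀ (e : ℕ) (B : ℕ → Bx F) (N : ℕ → ℝ)
      (z : Bool → ℕ → ℚ → Bx F) (u : Λ'.T F), Dat2 δ γ c' s ψ F A e B N z u →
      ∀ (i : Fin m) (x : ℕ), h * J ≤ x →
        (∀ ω, On F A ω → 2 ^ x ≤ (z b k w).fs (z b k w') ω i) →
        Pe (dbl (Pool.Agent.H49.Ent.cond F.p A True) (slam F (win J w))) (fun u =>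
          ∀ j l, |(z b k w).fA (z b k w') u.1 i j * (z b k w).fA (z b k w') u.2 i l -
            (z b k w).fA (z b k w') u.1 i l * (z b k w).fA (z b k w') u.2 i j| ≤ 1 / 2 ^ x) ≤
          Real.exp (-(ψ * J)) := by
  intro h hh
  obtain ⟨ψ, hψ, J₁, h1⟩ := nst_N H b hk w w' h hh
  refine ⟨ψ, hψ, J₁, fun J hJ F A hA e B N z u hD i x hx hσ => ?_⟩
  have hpA := H.pos _ J F A hA
  obtain ⟨hO, -, -, -⟩ := hD.clo b hk w
  obtain ⟨hO', -, -, -⟩ := hD.clo b hk w'
  have h2 := dbl_res (F := F) (A := A) hpA (Z := slam F (win J w)) (ψ := ψ)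
    (Λ := F.Ω) (R := fun ω₁ ω => On F A ω₁ ∧
      ∀ j l, |(z b k w).fA (z b k w') ω₁ i j * (z b k w).fA (z b k w') ω i l -
        (z b k w).fA (z b k w') ω₁ i l * (z b k w).fA (z b k w') ω i j| ≤ 1 / 2 ^ x)
    (fun E hE lam hcon => h1 J hJ F A hA e B N z u hD E hE i
      (fun ω => (z b k w).fA (z b k w') (lam (slam F (win J w) ω)) i) x
      (fun ω ω' _ _ e1 => by
        show (z b k w).fA (z b k w') (lam (slam F (win J w) ω)) i =
          (z b k w).fA (z b k w') (lam (slam F (win J w) ω')) i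
        rw [e1]) hx fun ω hω => by
          obtain ⟨k1, k2⟩ := hcon ω hω
          have hR := (z b k w).rel hO hO' k1
          exact ⟨hσ ω (hω.mono hE.1), hR.one i, hR.bd i, k2⟩) id
  refine le_trans ?_ h2
  rw [pe_sum, pe_sum]
  refine Finset.sum_le_sum fun v _ => ?_
  have hv0 := dbl_nonneg (b := slam F (win J w)) (cond_nonneg F.isLaw.nonneg A True) v
  by_cases h3 : ∀ j l, |(z b k w).fA (z b k w') v.1 i j * (z b k w).fA (z b k w') v.2 i l -
      (z b k w).fA (z b k w') v.1 i l * (z b k w).fA (z b k w') v.2 i j| ≤ 1 / 2 ^ x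
  · rw [if_pos h3]
    rcases hv0.eq_or_lt with h4 | h4
    · rw [← h4]
      split_ifs <;> exact le_rfl
    · have h5 : 0 < Pool.Agent.H49.Ent.cond F.p A True v.1 :=
        ((glue_pos_iff (cond_nonneg F.isLaw.nonneg A True)
          (cond_nonneg F.isLaw.nonneg A True) v).1 h4).1
      have h6 : On F A v.1 := by
        unfold Pool.Agent.H49.Ent.cond at h5
        by_cases h7 : A v.1 = True
        · rw [if_pos h7] at h5
          refine ⟨?_, of_eq_true h7⟩
          by_contra hcon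
          have h8 : F.p v.1 = 0 := le_antisymm (not_lt.1 hcon) (F.isLaw.nonneg _)
          rw [h8, zero_div] at h5
          exact lt_irrefl _ h5
        · rw [if_neg h7] at h5
          exact absurd h5 (lt_irrefl _)
      rw [if_pos ⟨h6, h3⟩]
  · rw [if_neg h3]
    split_ifs
    exacts [hv0, le_rfl]

/-- **(dbe)** The long directions of two times of one line are different. -/
theorem dbl_V (H : Hyp S δ γ c' s) (b : Bool) {k : ℕ} (hk : k < M) (w w' : ℚ) (hm : 2 ≤ m) :
    ∀ h : ℝ, 0 < h → ∃ ψ > 0, ∃ J₁ : ℕ, ∀ J ≥ J₁,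
    ∀ (F : Fam m J) (A : F.Ω → Prop), S.St ψ J F A → ∀ (e : ℕ) (B : ℕ → Bx F) (N : ℕ → ℝ)
      (z : Bool → ℕ → ℚ → Bx F) (u : Λ'.T F), Dat2 δ γ c' s ψ F A e B N z u →
      ∀ (i : Fin m) (x : ℕ), h * J ≤ x →
        (∀ ω, On F A ω → ∀ j, j ≠ i → 2 ^ x ≤ (z b k w).fs (z b k w') ω j) →
        Pe (dbl (Pool.Agent.H49.Ent.cond F.p A True) (slam F (win J w))) (fun u =>
          ∀ j l, |(z b k w).fA' (z b k w') u.1 j i * (z b k w).fA' (z b k w') u.2 l i -
            (z b k w).fA' (z b k w') u.1 l i * (z b k w).fA' (z b k w') u.2 j i| ≤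
              1 / 2 ^ x) ≤ Real.exp (-(ψ * J)) := by
  intro h hh
  obtain ⟨ψ, hψ, J₁, h1⟩ := nst_V H b hk w w' hm h hh
  refine ⟨ψ, hψ, J₁, fun J hJ F A hA e B N z u hD i x hx hσ => ?_⟩
  have hpA := H.pos _ J F A hA
  obtain ⟨hO, -, -, -⟩ := hD.clo b hk w
  obtain ⟨hO', -, -, -⟩ := hD.clo b hk w'
  have h2 := dbl_res (F := F) (A := A) hpA (Z := slam F (win J w)) (ψ := ψ)
    (Λ := F.Ω) (R := fun ω₁ ω => On F A ω₁ ∧
      ∀ j l, |(z b k w).fA' (z b k w') ω₁ j i * (z b k w).fA' (z b k w') ω l i -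
        (z b k w).fA' (z b k w') ω₁ l i * (z b k w).fA' (z b k w') ω j i| ≤ 1 / 2 ^ x)
    (fun E hE lam hcon => h1 J hJ F A hA e B N z u hD E hE i
      (fun ω j => (z b k w).fA' (z b k w') (lam (slam F (win J w) ω)) j i) x
      (fun ω ω' _ _ e1 => by
        funext j
        show (z b k w).fA' (z b k w') (lam (slam F (win J w) ω)) j i =
          (z b k w).fA' (z b k w') (lam (slam F (win J w) ω')) j i
        rw [e1]) hx fun ω hω => by
          obtain ⟨k1, k2⟩ := hcon ω hω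
          have hR := (z b k w).rel hO hO' k1
          exact ⟨hσ ω (hω.mono hE.1), hR.one' i, k2⟩) id
  refine le_trans ?_ h2
  rw [pe_sum, pe_sum]
  refine Finset.sum_le_sum fun v _ => ?_
  have hv0 := dbl_nonneg (b := slam F (win J w)) (cond_nonneg F.isLaw.nonneg A True) v
  by_cases h3 : ∀ j l, |(z b k w).fA' (z b k w') v.1 j i * (z b k w).fA' (z b k w') v.2 l i -
      (z b k w).fA' (z b k w') v.1 l i * (z b k w).fA' (z b k w') v.2 j i| ≤ 1 / 2 ^ x
  · rw [if_pos h3]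
    rcases hv0.eq_or_lt with h4 | h4
    · rw [← h4]
      split_ifs <;> exact le_rfl
    · have h5 : 0 < Pool.Agent.H49.Ent.cond F.p A True v.1 :=
        ((glue_pos_iff (cond_nonneg F.isLaw.nonneg A True)
          (cond_nonneg F.isLaw.nonneg A True) v).1 h4).1
      have h6 : On F A v.1 := by
        unfold Pool.Agent.H49.Ent.cond at h5
        by_cases h7 : A v.1 = True
        · rw [if_pos h7] at h5
          refine ⟨?_, of_eq_true h7⟩
          by_contra hcon
          have h8 : F.p v.1 = 0 := le_antisymm (not_lt.1 hcon) (F.isLaw.nonneg _)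
          rw [h8, zero_div] at h5
          exact lt_irrefl _ h5
        · rw [if_neg h7] at h5
          exact absurd h5 (lt_irrefl _)
      rw [if_pos ⟨h6, h3⟩]
  · rw [if_neg h3]
    split_ifs
    exacts [hv0, le_rfl]

end

end Pool.NB
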