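import Pool.Agent.H69.NB.Chain
import Pool.Agent.H54.PC.Box

/-!
# Chains of boxes with additional labels as decorations of a class

The coordinates: the error of the chain, then the normalised scores of the levels, then a sequence
of abstract coordinates of the chain and of additional labels.
-/

set_option autoImplicit false

namespace Pool.NB

open Finset Real
open Pool.Agent.H49.Ent Pool.Agent.H32.Dense Pool.STK Pool.KA Pool.K2S Pool.PB
open Pool.PC (On Cnt DetA pt Dec Bar Evt lex)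

variable {m : ℕ}

/-- Additional labels for chains of `M` boxes. -/
structure Lbs (m M : ℕ) where
  /-- the type of the labels -/
  T : ∀ {J : ℕ}, Fam m J → Type
  /-- the labels are admissible -/
  Val : ∀ {J : ℕ} (F : Fam m J) (_ : F.Ω → Prop) (_ _ : ℕ) (_ : ℕ → Bx F) (_ : ℕ → ℝ),
    T F → Prop
  sub : ∀ {J : ℕ} {F : Fam m J} {A A' : F.Ω → Prop} {g e : ℕ} {B : ℕ → Bx F} {N : ℕ → ℝ}
    {t : T F}, (∀ ω, A' ω → A ω) → Val F A g e B N t → Val F A' g e B N t
  triv : ∀ {J : ℕ} {F : Fam m J} {A : F.Ω → Prop} {g e : ℕ} {B : ℕ → Bx F} {N : ℕ → ℝ},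
    Chn F A M g e B N → ∃ t, Val F A g e B N t
  emono : ∀ {J : ℕ} {F : Fam m J} {A : F.Ω → Prop} {g e e' : ℕ} {B : ℕ → Bx F} {N : ℕ → ℝ}
    {t : T F}, e ≤ e' → Val F A g e B N t → Val F A g e' B N t

/-- A coordinate of a chain of boxes with additional labels. -/
structure Crd {m M : ℕ} (Λ : Lbs m M) where
  /-- the coordinate is at least `s` -/
  At : ∀ {J : ℕ} (F : Fam m J) (_ : F.Ω → Prop) (_ _ : ℕ) (_ : ℕ → Bx F) (_ : ℕ → ℝ),
    Λ.T F → ℝ → Prop
  /-- the lower bound -/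
  lo : ℝ
  /-- the upper bound -/
  up : ℝ
  /-- the lower bound holds from here on -/
  J₀ : ℕ
  lo_le : lo ≤ up
  sub : ∀ {J : ℕ} {F : Fam m J} {A A' : F.Ω → Prop} {g e : ℕ} {B : ℕ → Bx F} {N : ℕ → ℝ}
    {t : Λ.T F} {s : ℝ}, (∀ ω, A' ω → A ω) → At F A g e B N t s → At F A' g e B N t s
  anti : ∀ {J : ℕ} {F : Fam m J} {A : F.Ω → Prop} {g e : ℕ} {B : ℕ → Bx F} {N : ℕ → ℝ}
    {t : Λ.T F} {s s' : ℝ}, s' ≤ s → At F A g e B N t s → At F A g e B N t s'
  low : ∀ {J : ℕ} {F : Fam m J} {A : F.Ω → Prop} {g e : ℕ} {B : ℕ → Bx F} {N : ℕ → ℝ}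
    {t : Λ.T F}, Chn F A M g e B N → Λ.Val F A g e B N t → J₀ ≤ J → At F A g e B N t lo
  high : ∀ {J : ℕ} {F : Fam m J} {A : F.Ω → Prop} {g e : ℕ} {B : ℕ → Bx F} {N : ℕ → ℝ}
    {t : Λ.T F} {s : ℝ}, Chn F A M g e B N → Λ.Val F A g e B N t → 0 < J →
    (∃ ω, On F A ω) → At F A g e B N t s → s ≤ up
  emono : ∀ {J : ℕ} {F : Fam m J} {A : F.Ω → Prop} {g e e' : ℕ} {B : ℕ → Bx F} {N : ℕ → ℝ}
    {t : Λ.T F} {s : ℝ}, e ≤ e' → At F A g e B N t s → At F A g e' B N t s

/-- The normalised score: shrinking does not decrease it. -/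
noncomputable def nsc {J : ℕ} {F : Fam m J} (δ : ℝ) (g : ℕ) (B : ℕ → Bx F) (N : ℕ → ℝ)
    (k : ℕ) : ℝ :=
  ((B k).vol : ℝ) * Real.log 2 - N k / δ + k * (m * g * Real.log 2) / δ

/-- The kinds of coordinates. -/
inductive Knd {m M : ℕ} (Λ : Lbs m M)
  | er
  | sc (k : ℕ)
  | ad (c : Crd Λ)

section knd

variable {M : ℕ} {Λ : Lbs m M}

/-- The coordinate of the given kind is at least `s`. -/
def Knd.at {J : ℕ} (x : Knd Λ) (δ : ℝ) (g : ℕ) (F : Fam m J) (A : F.Ω → Prop) (e : ℕ)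
    (B : ℕ → Bx F) (N : ℕ → ℝ) (t : Λ.T F) (s : ℝ) : Prop :=
  match x with
  | .er => (e : ℝ) ≤ -(s * J)
  | .sc k => s * J ≤ nsc δ g B N k
  | .ad c => c.At F A g e B N t s

/-- Lower bounds. -/
noncomputable def Knd.lo : Knd Λ → ℝ
  | .er => -1
  | .sc _ => -1
  | .ad c => c.lo

/-- Upper bounds. -/
noncomputable def Knd.up (δ γ : ℝ) : Knd Λ → ℝ
  | .er => 0
  | .sc k => m * Real.log 2 + k * (m * γ * Real.log 2) / δ
  | .ad c => c.up

/-- The kind of the coordinate `i`. -/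
noncomputable def knd (c : ℕ → Crd Λ) (i : ℕ) : Knd Λ :=
  if i = 0 then .er else if i ≤ M then .sc (i - 1) else .ad (c (i - M - 1))

theorem knd_zero (c : ℕ → Crd Λ) : knd c 0 = .er := if_pos rfl

theorem knd_sc (c : ℕ → Crd Λ) {k : ℕ} (hk : k < M) : knd c (k + 1) = .sc k := by
  unfold knd
  rw [if_neg (by omega), if_pos (by omega)]
  rfl

theorem knd_ad (c : ℕ → Crd Λ) (j : ℕ) : knd c (M + 1 + j) = .ad (c j) := by
  unfold knd
  rw [if_neg (by omega), if_neg (by omega)]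
  congr 2
  omega

/-- The three cases. -/
theorem knd_cases (c : ℕ → Crd Λ) (i : ℕ) :
    i = 0 ∨ (∃ k < M, i = k + 1) ∨ ∃ j, i = M + 1 + j := by
  rcases Nat.eq_zero_or_pos i with h | h
  · exact Or.inl h
  · rcases Nat.lt_or_ge M i with h1 | h1
    · exact Or.inr (Or.inr ⟨i - M - 1, by omega⟩)
    · exact Or.inr (Or.inl ⟨i - 1, by omega, by omega⟩)

section

variable {J : ℕ} {F : Fam m J} {A A' : F.Ω → Prop} {δ : ℝ} {g e : ℕ} {B : ℕ → Bx F}
  {N : ℕ → ℝ} {t : Λ.T F}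

theorem Knd.at.anti {x : Knd Λ} {s s' : ℝ} (h : x.at δ g F A e B N t s) (hs : s' ≤ s) :
    x.at δ g F A e B N t s' := by
  have hJ : s' * (J : ℝ) ≤ s * J := mul_le_mul_of_nonneg_right hs (Nat.cast_nonneg J)
  cases x with
  | er =>
    have h1 : (e : ℝ) ≤ -(s * J) := h
    exact h1.trans (neg_le_neg hJ)
  | sc k => exact hJ.trans h
  | ad c => exact c.anti hs h

theorem Knd.at.sub {x : Knd Λ} {s : ℝ} (h : x.at δ g F A e B N t s)
    (hA : ∀ ω, A' ω → A ω) : x.at δ g F A' e B N t s := by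
  cases x with
  | er => exact h
  | sc k => exact h
  | ad c => exact c.sub hA h

end

end knd

/-! ### The decoration -/

/-- The gap. -/
noncomputable def gp (γ : ℝ) (J : ℕ) : ℕ := ⌊γ * J⌋₊

theorem gp_le {γ : ℝ} (hγ : 0 ≤ γ) (J : ℕ) : (gp γ J : ℝ) ≤ γ * J :=
  Nat.floor_le (by positivity)

section dec

variable {M : ℕ} {Λ : Lbs m M}

/-- **The decoration: a chain of `M` boxes with gaps `γ J` and additional labels.** -/
noncomputable def bdec (δ γ : ℝ) (c : ℕ → Crd Λ) : Dec m where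
  Q v J F A := ∃ (e : ℕ) (B : ℕ → Bx F) (N : ℕ → ℝ) (t : Λ.T F),
    Chn F A M (gp γ J) e B N ∧ Λ.Val F A (gp γ J) e B N t ∧
    ∀ i, v i ≤ (knd c i).lo ∨ (knd c i).at δ (gp γ J) F A e B N t (v i)
  lo i := (knd c i).lo
  up i := (knd c i).up δ γ
  her := by
    rintro v J F A A' hA ⟨e, B, N, t, h1, h0, h2⟩
    exact ⟨e, B, N, t, h1.sub hA, Λ.sub hA h0, fun i => (h2 i).imp id fun h => h.sub hA⟩
  anti := by
    rintro v v' J F A hv ⟨e, B, N, t, h1, h0, h2⟩
    exact ⟨e, B, N, t, h1, h0, fun i => (h2 i).imp (fun h => (hv i).trans h)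
      fun h => h.anti (hv i)⟩
  bnd := by
    rintro v J F A ⟨e, B, N, t, h1, h0, h2⟩
    refine ⟨e, B, N, t, h1, h0, fun i => ?_⟩
    show max (v i) (knd c i).lo ≤ (knd c i).lo ∨
      (knd c i).at δ (gp γ J) F A e B N t (max (v i) (knd c i).lo)
    rcases le_total (v i) (knd c i).lo with h | h
    · rw [max_eq_right h]
      exact Or.inl le_rfl
    · rw [max_eq_left h]
      exact h2 i

/-- **The thresholds of the chains of boxes.** -/
theorem box_lex {δ γ : ℝ} (hδ : 0 < δ) (hγ : 0 < γ) (c : ℕ → Crd Λ) {S : PCl m} (hS : S.Ne)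
    (hpos : ∀ (τ : ℝ) (J : ℕ) (F : Fam m J) (A : F.Ω → Prop), S.St τ J F A → 0 < Pe F.p A) :
    ∃ s : ℕ → ℝ, (∀ i, (knd c i).lo ≤ s i ∧ s i ≤ (knd c i).up δ γ) ∧
      (S.sl ((bdec δ γ c).sld s)).Ne ∧ ∀ i, Bar S (bdec δ γ c) i s := by
  refine lex S (bdec δ γ c) hS ?_ ?_
  · refine Clp.of one_pos 0 fun J _ F A _ => ⟨fun i => (knd c i).lo, ?_⟩
    have h1 := Chn.triv F A (M := M) (gp γ J) 0
    obtain ⟨t, ht⟩ := Λ.triv h1
    exact ⟨_, _, _, t, h1, ht, fun i => Or.inl le_rfl⟩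
  · intro i
    refine Clp.of one_pos 1 fun J hJ F A hA v hv => ?_
    have hl2 : 0 < Real.log 2 := Real.log_pos (by norm_num)
    have hon : ∃ ω, On F A ω := Pool.PC.exists_on (hpos _ J F A hA)
    have hJ' : (0 : ℝ) < J := Nat.cast_pos.2 hJ
    have hm0 : (0 : ℝ) ≤ m := Nat.cast_nonneg m
    obtain ⟨e, B, N, t, h1, h0, h2⟩ := hv
    rcases h2 i with h | h
    · refine h.trans ?_
      show (knd c i).lo ≤ (knd c i).up δ γ
      rcases (knd c i) with _ | k | a
      · show (-1 : ℝ) ≤ 0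
        norm_num
      · show (-1 : ℝ) ≤ m * Real.log 2 + k * (m * γ * Real.log 2) / δ
        have k1 : 0 ≤ (k : ℝ) * (m * γ * Real.log 2) / δ := by positivity
        have k2 : 0 ≤ m * Real.log 2 := by positivity
        linarith
      · exact a.lo_le
    · show v i ≤ (knd c i).up δ γ
      rcases knd_cases c i with hi | ⟨k, hk, hi⟩ | ⟨j, hi⟩
      · rw [hi, knd_zero] at h ⊢
        have h3 : (e : ℝ) ≤ -(v 0 * J) := h
        have h4 : (0 : ℝ) ≤ e := Nat.cast_nonneg e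
        show v 0 ≤ 0
        by_contra hcon
        push Not at hcon
        have := mul_pos hcon hJ'
        linarith
      · rw [hi, knd_sc c hk] at h ⊢
        have h3 : v (k + 1) * J ≤ nsc δ (gp γ J) B N k := h
        have h4 : ((B k).vol : ℝ) ≤ m * J := by exact_mod_cast (h1.ok k hk).vol_le
        have h5 := h1.nn k hk
        unfold nsc at h3
        have h6 : 0 ≤ N k / δ := div_nonneg h5 hδ.le
        have h7 : (k : ℝ) * (m * (gp γ J : ℝ) * Real.log 2) / δ ≤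
            k * (m * γ * Real.log 2) / δ * J := by
          rw [div_mul_eq_mul_div]
          refine div_le_div_of_nonneg_right ?_ hδ.le
          have h8 : (m : ℝ) * (gp γ J : ℝ) * Real.log 2 ≤ m * (γ * J) * Real.log 2 :=
            mul_le_mul_of_nonneg_right (mul_le_mul_of_nonneg_left (gp_le hγ.le J) hm0) hl2.le
          calc (k : ℝ) * (m * (gp γ J : ℝ) * Real.log 2) ≤ k * (m * (γ * J) * Real.log 2) :=
                mul_le_mul_of_nonneg_left h8 (Nat.cast_nonneg k)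
            _ = _ := by ring
        have h9 : ((B k).vol : ℝ) * Real.log 2 ≤ m * J * Real.log 2 :=
          mul_le_mul_of_nonneg_right h4 hl2.le
        have h10 : v (k + 1) * J ≤ (m * Real.log 2 + k * (m * γ * Real.log 2) / δ) * J := by
          rw [add_mul]
          linarith
        exact le_of_mul_le_mul_right h10 hJ'
      · rw [hi, knd_ad c j] at h ⊢
        exact (c j).high h1 h0 hJ hon h

/-! ### Consequences of the maximality of the scores -/

/-- A chain with small error and with scores at least `s - ψ` up to the level `k`. -/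
def Scs {J : ℕ} (δ γ : ℝ) (s : ℕ → ℝ) (ψ : ℝ) (k : ℕ) {F : Fam m J} (e : ℕ) (B : ℕ → Bx F)
    (N : ℕ → ℝ) : Prop :=
  (e : ℝ) ≤ ψ * J ∧ ∀ j ≤ k, (s (j + 1) - ψ) * J ≤ nsc δ (gp γ J) B N j

/-- **No finer box**: a box inside the box of level `k`, on an event of cost `ψ`, with `exp L`
values given the exact point with the labels, has no larger score. -/
theorem no_better {δ γ : ℝ} (hδ : 0 < δ) {c : ℕ → Crd Λ} {S : PCl m} {s : ℕ → ℝ} (hs0 : s 0 ≤ 0) {k : ℕ}
    (hk : k < M) (hb : Bar S (bdec δ γ c) (k + 1) s) : ∀ h > 0, ∃ ψ > 0, ∃ J₁ : ℕ, ∀ J ≥ J₁,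
    ∀ (F : Fam m J) (A : F.Ω → Prop), S.St ψ J F A → ∀ (e : ℕ) (B : ℕ → Bx F) (N : ℕ → ℝ),
      Chn F A M (gp γ J) e B N → Scs δ γ s ψ k e B N →
      ∀ E : F.Ω → Prop, Evt F A ψ E →
      ∀ (B' : Bx F) (r : ℕ) (L : ℝ), B'.Ok E → B'.Sub r (B k) E → (r : ℝ) ≤ ψ * J → 0 ≤ L →
        Cnt F E (ptk B k) B'.lab (Real.exp L) →
        ((B'.vol : ℝ) - (B k).vol) * (δ * Real.log 2) ≤ L + h * J := by
  intro h hh
  obtain ⟨h', hh', hh''⟩ : ∃ h' > 0, δ * h' = h / 2 := ⟨h / (2 * δ), by positivity, by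
    field_simp⟩
  obtain ⟨ψ₀, hψ₀, J₁, h1⟩ := hb h' hh'
  obtain ⟨ψ, hψ, e1, e2⟩ : ∃ ψ > 0, ψ ≤ ψ₀ / 2 ∧ ψ ≤ h' :=
    ⟨min (ψ₀ / 2) h', lt_min (half_pos hψ₀) hh', min_le_left _ _, min_le_right _ _⟩
  have e3 : ψ ≤ ψ₀ := by linarith
  refine ⟨ψ, hψ, J₁, fun J hJ F A hA e B N hC hsc E hE B' r L hO hS hr hL hc => ?_⟩
  have hJr : (0 : ℝ) ≤ J := Nat.cast_nonneg J
  have e4 : ψ * (J : ℝ) ≤ ψ₀ / 2 * J := mul_le_mul_of_nonneg_right e1 hJr
  have e5 : ψ * (J : ℝ) ≤ h' * J := mul_le_mul_of_nonneg_right e2 hJr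
  have key : ((B'.vol : ℝ)) * Real.log 2 - (N k + L) / δ +
      k * (m * (gp γ J : ℝ) * Real.log 2) / δ < (s (k + 1) + h') * J := by
    by_contra hcon
    push Not at hcon
    have hEA : Sub E A := hE.1
    have hCh := (hC.sub hEA).fin hk hO hS hL hc
    obtain ⟨t, ht⟩ := Λ.triv hCh
    refine h1 J hJ F A (S.mono e3 hA) E hE.1 (hE.mono e3).2
      (fun i => if i ≤ k then s i - ψ₀ else if i = k + 1 then s (k + 1) + h' else
      (knd c i).lo) (fun j hj => ?_) ?_ ⟨_, _, _, t, hCh, ht, fun i => ?_⟩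
    · show s j - ψ₀ ≤ if j ≤ k then s j - ψ₀ else _
      rw [if_pos (by omega)]
    · show s (k + 1) + h' ≤ if k + 1 ≤ k then _ else if k + 1 = k + 1 then s (k + 1) + h'
        else _
      rw [if_neg (by omega), if_pos rfl]
    · show (if i ≤ k then s i - ψ₀ else if i = k + 1 then s (k + 1) + h' else
        (knd c i).lo) ≤ _ ∨ (knd c i).at δ (gp γ J) F E _ _ _ _
        (if i ≤ k then s i - ψ₀ else if i = k + 1 then s (k + 1) + h' else (knd c i).lo)
      rcases Nat.eq_zero_or_pos i with hi0 | hi0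
      · subst hi0
        rw [if_pos (Nat.zero_le k), knd_zero]
        refine Or.inr ?_
        show ((e + r : ℕ) : ℝ) ≤ -((s 0 - ψ₀) * J)
        have k1 : s 0 * (J : ℝ) ≤ 0 := mul_nonpos_of_nonpos_of_nonneg hs0 hJr
        have k2 := hsc.1
        push_cast
        linarith
      · obtain ⟨i, rfl⟩ : ∃ i', i = i' + 1 := ⟨i - 1, by omega⟩
        rcases lt_trichotomy i k with hi | hi | hi
        · rw [if_pos (by omega), knd_sc c (hi.trans hk)]
          refine Or.inr ?_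
          show (s (i + 1) - ψ₀) * J ≤ nsc δ (gp γ J) _ _ i
          have k1 := hsc.2 i hi.le
          unfold nsc at k1 ⊢
          rw [rep_lt hi, repN_lt hi]
          refine le_trans (mul_le_mul_of_nonneg_right (by linarith) hJr) k1
        · subst hi
          rw [if_neg (by omega), if_pos rfl, knd_sc c hk]
          refine Or.inr ?_
          show (s (i + 1) + h') * J ≤ nsc δ (gp γ J) _ _ i
          unfold nsc
          rw [rep_self, repN_self]
          exact hcon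
        · rw [if_neg (by omega), if_neg (by omega)]
          exact Or.inl le_rfl
  have hk0 := hsc.2 k le_rfl
  unfold nsc at hk0
  have k4 : (N k + L) / δ = N k / δ + L / δ := add_div _ _ _
  rw [k4] at key
  have k5 : ((B'.vol : ℝ) - (B k).vol) * Real.log 2 ≤ L / δ + 2 * h' * J := by
    have e6 : (s (k + 1) + h') * (J : ℝ) = (s (k + 1) - ψ) * J + h' * J + ψ * J := by ring
    rw [sub_mul]
    linarith
  have k6 := mul_le_mul_of_nonneg_left k5 hδ.le
  have k7 : δ * (L / δ + 2 * h' * J) = L + h * J := by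
    rw [mul_add, mul_div_cancel₀ _ hδ.ne']
    have : δ * (2 * h' * J) = 2 * (δ * h') * J := by ring
    rw [this, hh'']
    ring
  rw [k7] at k6
  have k8 : ((B'.vol : ℝ) - (B k).vol) * (δ * Real.log 2) =
      δ * (((B'.vol : ℝ) - (B k).vol) * Real.log 2) := by ring
  rw [k8]
  exact k6

end dec

end Pool.NB
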