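import Pool.Agent.H69.NB.Lex2

/-!
# The falls of closed boxes are class numbers
-/

set_option autoImplicit false

namespace Pool.NB

open Finset Real
open Pool.Agent.H49.Ent Pool.Agent.H32.Dense Pool.STK Pool.KA Pool.K2S Pool.PB Pool.KSAT
open Pool.PC (On Cnt DetA pt Dec Bar Evt lex)

variable {m J : ℕ}

/-- A vector with given natural coordinates. -/
theorem Fr.vecs {o : Equiv.Perm (Fin m)} {g : Fin m → Fin m → ℝ} (h : Fr o g)
    (q : Fin m → ℕ) (a : Fin m → ℝ) :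
    ∃ v : Fin m → ℝ, ∀ j, 2 ^ q j * dot (g j) v = a j := by
  have hdet : (Matrix.of g).det ≠ 0 := by
    intro h0
    have := h.det
    rw [h0, abs_zero] at this
    exact zero_ne_one this
  refine ⟨Matrix.mulVec (Matrix.of g)⁻¹ (fun j => (2 ^ q j)⁻¹ * a j), fun j => ?_⟩
  have h1 : Matrix.mulVec (Matrix.of g) (Matrix.mulVec (Matrix.of g)⁻¹
      (fun j => (2 ^ q j)⁻¹ * a j)) = fun j => (2 ^ q j)⁻¹ * a j := by
    rw [Matrix.mulVec_mulVec, Matrix.mul_nonsing_inv _ (isUnit_iff_ne_zero.2 hdet),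
      Matrix.one_mulVec]
  have h2 : dot (g j) (Matrix.mulVec (Matrix.of g)⁻¹ (fun j => (2 ^ q j)⁻¹ * a j)) =
      (2 ^ q j)⁻¹ * a j := congrFun h1 j
  rw [h2, mul_inv_cancel_left₀ (by positivity)]

/-- The falls are not very small. -/
theorem Rel.low {q q' : Fin m → ℕ} {g g' A A' : Fin m → Fin m → ℝ} {σ : Fin m → ℝ}
    (h : Rel q q' g g' A A' σ) {o o' : Equiv.Perm (Fin m)} (hg : Fr o g) (hg' : Fr o' g')
    {K : ℕ} (hq : ∀ i, q i ≤ K) (i : Fin m) : 1 ≤ σ i * 2 ^ (K + 4 * m) := by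
  obtain ⟨v, hv⟩ := hg.vecs q (fun j => A' j i)
  have hm : 0 < m := lt_of_le_of_lt (Nat.zero_le _) i.2
  have hmr : (0 : ℝ) < m := Nat.cast_pos.2 hm
  have h1 := h.out v (σ i) (h.pos i).le (fun j => by
    have e1 : ∑ l, A j l * (2 ^ q l * dot (g l) v) = if j = i then 1 else 0 := by
      rw [← h.inv' j i]
      exact Finset.sum_congr rfl fun l _ => by rw [hv l]
    rw [e1]
    by_cases hj : j = i
    · rw [if_pos hj, abs_one, mul_one, hj]
    · rw [if_neg hj, abs_zero, mul_zero]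
      exact (h.pos i).le)
  have h2 : ∀ j, |dot (g' j) v| ≤ m * σ i := by
    intro j
    have h3 := h1 j
    have h4 : (1 : ℝ) ≤ 2 ^ q' j := one_le_pow₀ (by norm_num)
    have h5 := mul_le_mul_of_nonneg_right h4 (abs_nonneg (dot (g' j) v))
    linarith
  have hσ := h.pos i
  have h3 := fun l => hg'.coord (by positivity) h2 l
  obtain ⟨l, hl⟩ := h.one' i
  have h4 := abs_dot_le zero_le_one (hg.bd l) h3
  have h5 : |A' l i| ≤ 2 ^ K * (m * (1 * (2 ^ m * (m * σ i)))) := by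
    rw [← hv l, abs_mul, abs_of_pos (by positivity)]
    exact mul_le_mul (pow_le_pow_right₀ (by norm_num) (hq l)) h4 (abs_nonneg _) (by positivity)
  have hm2 := nat_le_two_pow m
  calc (1 : ℝ) ≤ m * |A' l i| := hl
    _ ≤ m * (2 ^ K * (m * (1 * (2 ^ m * (m * σ i))))) := mul_le_mul_of_nonneg_left h5 hmr.le
    _ = (m * m * m) * (2 ^ m * 2 ^ K * σ i) := by ring
    _ ≤ (2 ^ m * 2 ^ m * 2 ^ m) * (2 ^ m * 2 ^ K * σ i) := by
        refine mul_le_mul_of_nonneg_right ?_ (by positivity)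
        exact mul_le_mul (mul_le_mul hm2 hm2 hmr.le (by positivity)) hm2 hmr.le (by positivity)
    _ = σ i * 2 ^ (K + 4 * m) := by
        rw [show K + 4 * m = m + m + m + m + K by ring, pow_add, pow_add, pow_add, pow_add]
        ring

/-- The falls are not very large. -/
theorem Rel.high {q q' : Fin m → ℕ} {g g' A A' : Fin m → Fin m → ℝ} {σ : Fin m → ℝ}
    (h : Rel q q' g g' A A' σ) {o o' : Equiv.Perm (Fin m)} (hg : Fr o g) (hg' : Fr o' g')
    {K : ℕ} (hq : ∀ i, q' i ≤ K) (i : Fin m) : σ i ≤ 2 ^ (K + 3 * m) := by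
  obtain ⟨j₀, hj₀⟩ := h.one i
  obtain ⟨v, hv⟩ := hg.vecs q (fun j => if j = j₀ then 1 else 0)
  have hm : 0 < m := lt_of_le_of_lt (Nat.zero_le _) i.2
  have hmr : (0 : ℝ) < m := Nat.cast_pos.2 hm
  have hm2 := nat_le_two_pow m
  have h1 : ∀ j, |dot (g j) v| ≤ 1 := by
    intro j
    have h2 : |2 ^ q j * dot (g j) v| ≤ 1 := by
      rw [hv j]
      split_ifs
      · rw [abs_one]
      · rw [abs_zero]; exact zero_le_one
    rw [abs_mul, abs_of_pos (by positivity)] at h2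
    have h4 : (1 : ℝ) ≤ 2 ^ q j := one_le_pow₀ (by norm_num)
    have h5 := mul_le_mul_of_nonneg_right h4 (abs_nonneg (dot (g j) v))
    linarith
  have h2 := fun l => hg.coord zero_le_one h1 l
  have h3 : ∀ j, 2 ^ q' j * |dot (g' j) v| ≤ 2 ^ K * (m * (1 * (2 ^ m * 1))) := by
    intro j
    exact mul_le_mul (pow_le_pow_right₀ (by norm_num) (hq j))
      (abs_dot_le zero_le_one (hg'.bd j) h2) (abs_nonneg _) (by positivity)
  have h4 := h.inn v _ (by positivity) h3 i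
  have e1 : |∑ j, A i j * (2 ^ q j * dot (g j) v)| = 1 := by
    have e2 : ∑ j, A i j * (2 ^ q j * dot (g j) v) = A i j₀ := by
      rw [Finset.sum_eq_single j₀]
      · rw [hv, if_pos rfl, mul_one]
      · intro j _ hj
        rw [hv, if_neg hj, mul_zero]
      · intro hcon
        exact absurd (mem_univ _) hcon
    rw [e2, hj₀]
  rw [e1, mul_one] at h4
  refine h4.trans ?_
  calc (2 : ℝ) ^ m * (2 ^ K * (m * (1 * (2 ^ m * 1)))) = m * (2 ^ m * 2 ^ K * 2 ^ m) := by ring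
    _ ≤ 2 ^ m * (2 ^ m * 2 ^ K * 2 ^ m) := mul_le_mul_of_nonneg_right hm2 (by positivity)
    _ = 2 ^ (K + 3 * m) := by
        rw [← pow_add, ← pow_add, ← pow_add]
        congr 1
        ring

/-- **The fall** of the closed box of the window `w'` in the natural units of the closed box of the
window `w`. -/
noncomputable def cfal (m M : ℕ) (b : Bool) (k : ℕ) (w w' : ℚ) (i : Fin m) : Crd (CL m M) where
  At {J} F A g e B N (z : Bool → ℕ → ℚ → Bx F) s :=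
    if k < M then ∀ ω, On F A ω → s * J ≤ Real.logb 2 ((z b k w).fs (z b k w') ω i) else s ≤ 0
  lo := -2
  up := 1 + 3 * m
  J₀ := 4 * m
  lo_le := by
    have : (0 : ℝ) ≤ m := Nat.cast_nonneg m
    linarith
  sub hA h := by
    split_ifs at h ⊢
    · exact fun ω hω => h ω (hω.mono hA)
    · exact h
  anti {J F A g e B N t s s'} hs h := by
    by_cases hk : k < M
    · rw [if_pos hk] at h ⊢
      exact fun ω hω => (mul_le_mul_of_nonneg_right hs (Nat.cast_nonneg J)).trans (h ω hω)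
    · rw [if_neg hk] at h ⊢
      exact hs.trans h
  low {J F A g e B N t} _ hV hJ := by
    by_cases hk : k < M
    · rw [if_pos hk]
      intro ω hω
      have h1 := (Bx.rel (hV b k hk w).1 (hV b k hk w').1 hω)
      have h2 := h1.low ((hV b k hk w).1.fr ω hω) ((hV b k hk w').1.fr ω hω)
        (hV b k hk w).1.leJ i
      have hσ := h1.pos i
      rw [Real.le_logb_iff_rpow_le (by norm_num) hσ]
      have h3 : (2 : ℝ) ^ (J + 4 * m) ≤ 2 ^ (2 * J) := pow_le_pow_right₀ (by norm_num) (by omega)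
      have h4 : (2 : ℝ) ^ ((-2 : ℝ) * J) = (2 ^ (2 * J))⁻¹ := by
        rw [show (-2 : ℝ) * J = -((2 * J : ℕ) : ℝ) by push_cast; ring, Real.rpow_neg (by norm_num),
          Real.rpow_natCast]
      rw [h4, inv_le_iff_one_le_mul₀ (by positivity)]
      exact h2.trans (mul_le_mul_of_nonneg_left h3 hσ.le)
    · rw [if_neg hk]
      norm_num
  high {J F A g e B N t s} _ hV hJ hA h := by
    have hm0 : (0 : ℝ) ≤ m := Nat.cast_nonneg m
    by_cases hk : k < M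
    · rw [if_pos hk] at h
      obtain ⟨ω, hω⟩ := hA
      have h1 := (Bx.rel (hV b k hk w).1 (hV b k hk w').1 hω)
      have h2 := h1.high ((hV b k hk w).1.fr ω hω) ((hV b k hk w').1.fr ω hω)
        (hV b k hk w').1.leJ i
      have hσ := h1.pos i
      have h3 := h ω hω
      rw [Real.le_logb_iff_rpow_le (by norm_num) hσ] at h3
      have h4 : (2 : ℝ) ^ (s * J) ≤ 2 ^ ((J + 3 * m : ℕ) : ℝ) := by
        rw [Real.rpow_natCast]
        exact h3.trans h2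
      rw [Real.rpow_le_rpow_left_iff (by norm_num)] at h4
      push_cast at h4
      have hJ' : (1 : ℝ) ≤ J := by exact_mod_cast hJ
      by_contra hcon
      push Not at hcon
      nlinarith
    · rw [if_neg hk] at h
      linarith
  emono _ h := h

/-- The codes of the second stage. -/
abbrev Cod2 (m : ℕ) : Type := (Bool × ℕ × ℚ × ℚ × Fin m) ⊕ ℕ

section

variable {M : ℕ} {Λ' : Lbs m M}

/-- The coordinate of the second stage with the given code. -/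
noncomputable def cod2 (c₂' : ℕ → Crd ((CL m M).prod Λ')) : Cod2 m → Crd ((CL m M).prod Λ')
  | .inl (b, k, w, w', i) => (cfal m M b k w w' i).lft Λ'
  | .inr j => c₂' j

/-- The sequence of the coordinates of the second stage. -/
noncomputable def cseq2 (c₂' : ℕ → Crd ((CL m M).prod Λ')) (j : ℕ) : Crd ((CL m M).prod Λ') :=
  cod2 c₂' ((Encodable.decode j : Option (Cod2 m)).getD (.inr 0))

/-- The index of a code of the second stage. -/
noncomputable def idx2 {m : ℕ} (x : Cod2 m) : ℕ := Encodable.encode x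

theorem cseq2_idx (c₂' : ℕ → Crd ((CL m M).prod Λ')) (x : Cod2 m) :
    cseq2 c₂' (idx2 x) = cod2 c₂' x := by
  unfold cseq2 idx2
  rw [Encodable.encodek]
  rfl

variable {c' : ℕ → Crd Λ'} {c₂' : ℕ → Crd ((CL m M).prod Λ')} {δ γ : ℝ} {S : PCl m}
  {s s₂ : ℕ → ℝ}

/-- The data of the second stage. -/
def Dat3 (δ γ : ℝ) (c' : ℕ → Crd Λ') (s : ℕ → ℝ) (c₂' : ℕ → Crd ((CL m M).prod Λ'))
    (s₂ : ℕ → ℝ) (ψ : ℝ) (F : Fam m J) (A : F.Ω → Prop) (e : ℕ) (B : ℕ → Bx F) (N : ℕ → ℝ)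
    (z : Bool → ℕ → ℚ → Bx F) (u : Λ'.T F) : Prop :=
  Dt2 (Λ := (CL m M).prod Λ') δ γ (cseq c') s (cseq2 c₂') s₂ ψ F A e B N (z, u)

theorem Dat3.one {ψ : ℝ} {F : Fam m J} {A : F.Ω → Prop} {e : ℕ} {B : ℕ → Bx F} {N : ℕ → ℝ}
    {z : Bool → ℕ → ℚ → Bx F} {u : Λ'.T F} (h : Dat3 δ γ c' s c₂' s₂ ψ F A e B N z u) :
    Dat2 δ γ c' s ψ F A e B N z u := h.1

theorem Dat3.mono {ψ ψ' : ℝ} {F : Fam m J} {A : F.Ω → Prop} {e : ℕ} {B : ℕ → Bx F}
    {N : ℕ → ℝ} {z : Bool → ℕ → ℚ → Bx F} {u : Λ'.T F}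
    (h : Dat3 δ γ c' s c₂' s₂ ψ F A e B N z u) (hψ : ψ ≤ ψ') :
    Dat3 δ γ c' s c₂' s₂ ψ' F A e B N z u := Dt2.mono h hψ

theorem Dat3.sub {ψ : ℝ} {F : Fam m J} {A E : F.Ω → Prop} {e : ℕ} {B : ℕ → Bx F}
    {N : ℕ → ℝ} {z : Bool → ℕ → ℚ → Bx F} {u : Λ'.T F}
    (h : Dat3 δ γ c' s c₂' s₂ ψ F A e B N z u) (hE : ∀ ω, E ω → A ω) :
    Dat3 δ γ c' s c₂' s₂ ψ F E e B N z u := Dt2.sub h hE

/-- **The class number of the fall.** -/
noncomputable def nf (s₂ : ℕ → ℝ) (b : Bool) (k : ℕ) (w w' : ℚ) (i : Fin m) : ℝ :=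
  s₂ (idx2 (.inl (b, k, w, w', i) : Cod2 m) + 1)

/-- The falls are the class numbers, outside small events. -/
theorem nf_eq (h0 : s₂ 0 = 0)
    (hb : ∀ i, Bar S (bdec2 δ γ (cseq c') s (cseq2 c₂')) i s₂) (b : Bool) {k : ℕ} (hk : k < M)
    (w w' : ℚ) (i : Fin m) : ∀ h : ℝ, 0 < h → ∃ ψ > 0, ∃ J₁ : ℕ, ∀ J ≥ J₁,
    ∀ (F : Fam m J) (A : F.Ω → Prop), S.St ψ J F A → ∀ (e : ℕ) (B : ℕ → Bx F) (N : ℕ → ℝ)
      (z : Bool → ℕ → ℚ → Bx F) (u : Λ'.T F), Dat3 δ γ c' s c₂' s₂ ψ F A e B N z u →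
      (∀ ω, On F A ω → (nf s₂ b k w w' i - h) * J ≤
        Real.logb 2 ((z b k w).fs (z b k w') ω i)) ∧
      ∀ E, Evt F A ψ E → ¬ ∀ ω, On F E ω → (nf s₂ b k w w' i + h) * J ≤
        Real.logb 2 ((z b k w).fs (z b k w') ω i) := by
  intro h hh
  obtain ⟨ψ₀, hψ₀, J₁, h1⟩ := bar2_at h0 (hb (idx2 (.inl (b, k, w, w', i) : Cod2 m) + 1)) h hh
  have hI : (0 : ℝ) < ((idx2 (.inl (b, k, w, w', i) : Cod2 m) : ℕ) + 2 : ℝ) := by positivity
  refine ⟨min (min ψ₀ h) (1 / ((idx2 (.inl (b, k, w, w', i) : Cod2 m) : ℕ) + 2 : ℝ)),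
    lt_min (lt_min hψ₀ hh) (by positivity), J₁, fun J hJ F A hA e B N z u hD => ?_⟩
  have hJr : (0 : ℝ) ≤ J := Nat.cast_nonneg J
  obtain ⟨ψ, hψd⟩ : ∃ ψ, ψ = min (min ψ₀ h)
    (1 / ((idx2 (.inl (b, k, w, w', i) : Cod2 m) : ℕ) + 2 : ℝ)) := ⟨_, rfl⟩
  rw [← hψd] at hA hD
  have e1 : ψ ≤ ψ₀ := by rw [hψd]; exact (min_le_left _ _).trans (min_le_left _ _)
  have e2 : ψ ≤ h := by rw [hψd]; exact (min_le_left _ _).trans (min_le_right _ _)
  have e3 : ((idx2 (.inl (b, k, w, w', i) : Cod2 m) : ℕ) + 2 : ℝ) * ψ ≤ 1 := by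
    have h5 := mul_le_mul_of_nonneg_left (show ψ ≤ 1 /
      ((idx2 (.inl (b, k, w, w', i) : Cod2 m) : ℕ) + 2 : ℝ) by
        rw [hψd]; exact min_le_right _ _) hI.le
    rwa [mul_one_div, div_self hI.ne'] at h5
  refine ⟨?_, fun E hE hcon => ?_⟩
  · have h2 := hD.2 _ e3
    rw [cseq2_idx] at h2
    have h3 : if k < M then ∀ ω, On F A ω → (nf s₂ b k w w' i - ψ) * J ≤
      Real.logb 2 ((z b k w).fs (z b k w') ω i) else nf s₂ b k w w' i - ψ ≤ 0 := h2
    rw [if_pos hk] at h3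
    intro ω hω
    refine le_trans (mul_le_mul_of_nonneg_right (by linarith) hJr) (h3 ω hω)
  · rw [← hψd] at hE
    have h3 := h1 J hJ F A (S.mono e1 hA) e B N (z, u) (Dt2.mono hD e1) E (hE.mono e1)
    rw [cseq2_idx] at h3
    have h4 : ¬ (if k < M then ∀ ω, On F E ω → (nf s₂ b k w w' i + h) * J ≤
      Real.logb 2 ((z b k w).fs (z b k w') ω i) else nf s₂ b k w w' i + h ≤ 0) := h3
    rw [if_pos hk] at h4
    exact h4 hcon

end

end Pool.NB
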