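import Pool.Agent.H69.NB.Nums
import Pool.Agent.H8.KS6.Box

/-!
# Frames with codes, relative frames, labels

A frame is multiplied by a number in `[1, 2]` which encodes a variable; then the frame determines
the variable. The relative frame of two boxes. Labels of boxes are compared.
-/

set_option autoImplicit false

namespace Pool.NB

open Finset Real
open Pool.Agent.H49.Ent Pool.Agent.H32.Dense Pool.STK Pool.KA Pool.K2S Pool.PB Pool.KSAT
open Pool.PC (On Cnt DetA pt Dec Bar Evt lex)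

variable {m J : ℕ}

/-! ### Codes -/

/-- Factors in `[1, 2]` which make the products different. -/
theorem code_fac {α : Type} (t : Finset α) (ν : α → ℝ) (hν : ∀ a ∈ t, 0 < ν a) :
    ∃ c : α → ℝ, (∀ a, 1 ≤ c a ∧ c a ≤ 2) ∧
      ∀ a ∈ t, ∀ b ∈ t, c a * ν a = c b * ν b → a = b := by
  classical
  induction t using Finset.induction_on with
  | empty =>
    exact ⟨fun _ => 1, fun _ => ⟨le_rfl, one_le_two⟩, fun a ha => absurd ha (Finset.notMem_empty a)⟩
  | insert a t ha ih =>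
    obtain ⟨c, hc1, hc2⟩ := ih fun b hb => hν b (Finset.mem_insert_of_mem hb)
    obtain ⟨x, hx1, hx2⟩ := (Set.Icc_infinite (show (1 : ℝ) < 2 by norm_num)).exists_notMem_finset
      (t.image fun b => c b * ν b / ν a)
    have hνa := hν a (Finset.mem_insert_self a t)
    have hbad : ∀ b ∈ t, x * ν a ≠ c b * ν b := by
      intro b hb h
      refine hx2 (Finset.mem_image.2 ⟨b, hb, ?_⟩)
      rw [← h]
      field_simp
    refine ⟨fun b => if b = a then x else c b, fun b => ?_, fun b hb b' hb' h => ?_⟩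
    · show 1 ≤ (if b = a then x else c b) ∧ (if b = a then x else c b) ≤ 2
      split_ifs
      · exact ⟨hx1.1, hx1.2⟩
      · exact hc1 b
    · have h' : (if b = a then x else c b) * ν b = (if b' = a then x else c b') * ν b' := h
      rcases Finset.mem_insert.1 hb with h1 | h1 <;> rcases Finset.mem_insert.1 hb' with h2 | h2
      · rw [h1, h2]
      · have n2 : b' ≠ a := fun h3 => ha (h3 ▸ h2)
        rw [if_pos h1, if_neg n2, h1] at h'
        exact absurd h' (hbad b' h2)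
      · have n1 : b ≠ a := fun h3 => ha (h3 ▸ h1)
        rw [if_neg n1, if_pos h2, h2] at h'
        exact absurd h'.symm (hbad b h1)
      · have n1 : b ≠ a := fun h3 => ha (h3 ▸ h1)
        have n2 : b' ≠ a := fun h3 => ha (h3 ▸ h2)
        rw [if_neg n1, if_neg n2] at h'
        exact hc2 b h1 b' h2 h'

open Classical in
/-- A function of `K` which is not zero is multiplied by a code of `K`. -/
theorem code_fr {Ω α E : Type} [Fintype Ω] [NormedAddCommGroup E] [NormedSpace ℝ E]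
    (A : Ω → Prop) (K : Ω → α) (M : Ω → E) (hM : ∀ ω, A ω → M ω ≠ 0)
    (hK : ∀ ω ω', A ω → A ω' → K ω = K ω' → M ω = M ω') :
    ∃ c : Ω → ℝ, (∀ ω, 1 ≤ c ω ∧ c ω ≤ 2) ∧ (∀ ω ω', K ω = K ω' → c ω = c ω') ∧
      ∀ ω ω', A ω → A ω' → c ω • M ω = c ω' • M ω' → K ω = K ω' := by
  obtain ⟨ν, hν⟩ : ∃ ν : α → ℝ, ν = fun a => if h : ∃ ω, A ω ∧ K ω = a then ‖M h.choose‖ else 1 :=
    ⟨_, rfl⟩
  have hνK : ∀ ω, A ω → ν (K ω) = ‖M ω‖ := by
    intro ω hω
    have h : ∃ ω', A ω' ∧ K ω' = K ω := ⟨ω, hω, rfl⟩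
    rw [hν]
    simp only
    rw [dif_pos h, hK _ ω h.choose_spec.1 hω h.choose_spec.2]
  obtain ⟨c, hc1, hc2⟩ := code_fac ((univ.filter fun ω => A ω).image K) ν (by
    intro a ha
    obtain ⟨ω, hω, rfl⟩ := Finset.mem_image.1 ha
    have h1 := (Finset.mem_filter.1 hω).2
    rw [hνK ω h1]
    exact norm_pos_iff.2 (hM ω h1))
  refine ⟨fun ω => c (K ω), fun ω => hc1 _, fun ω ω' h => congrArg c h, fun ω ω' hω hω' h => ?_⟩
  have hpos : ∀ a, |c a| = c a := fun a => abs_of_nonneg (zero_le_one.trans (hc1 a).1)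
  refine hc2 _ (Finset.mem_image.2 ⟨ω, Finset.mem_filter.2 ⟨mem_univ _, hω⟩, rfl⟩) _
    (Finset.mem_image.2 ⟨ω', Finset.mem_filter.2 ⟨mem_univ _, hω'⟩, rfl⟩) ?_
  rw [hνK ω hω, hνK ω' hω']
  have h1 := congrArg (fun x => ‖x‖) h
  simp only [norm_smul, Real.norm_eq_abs, hpos] at h1
  exact h1

/-! ### The relative frame -/

section rf

variable {F : Fam m J}

/-- The frame of the box `z'` with respect to the box `z`; the rows are normalized so that the
natural coordinates of `z` have sizes about `1`. -/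
noncomputable def Bx.rf (z z' : Bx F) (ω : F.Ω) : Fin m → Fin m → ℝ :=
  fun i l => ∑ j, z.fA z' ω i j * (2 ^ z.q j / 2 ^ z.q i) * z.g ω j l

theorem Bx.rf_mco (z z' : Bx F) (ω : F.Ω) (x : Fin m → ℝ) (i : Fin m) :
    2 ^ z.q i * mco (z.rf z' ω) x i =
      ∑ j, z.fA z' ω i j * (2 ^ z.q j * mco (z.g ω) x j) := by
  unfold mco Bx.rf
  rw [Finset.mul_sum]
  have e1 : ∀ l ∈ (univ : Finset (Fin m)),
      2 ^ z.q i * ((∑ j, z.fA z' ω i j * (2 ^ z.q j / 2 ^ z.q i) * z.g ω j l) * x l) =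
      ∑ j, z.fA z' ω i j * (2 ^ z.q j * (z.g ω j l * x l)) := by
    intro l _
    rw [Finset.sum_mul, Finset.mul_sum]
    refine Finset.sum_congr rfl fun j _ => ?_
    have : (2 : ℝ) ^ z.q i ≠ 0 := by positivity
    field_simp
  rw [Finset.sum_congr rfl e1, Finset.sum_comm]
  refine Finset.sum_congr rfl fun j _ => ?_
  rw [Finset.mul_sum, Finset.mul_sum]

theorem Bx.rf_det {z z' : Bx F} {A : F.Ω → Prop} {α : Type} {P : F.Ω → α}
    (h : DetA F A P z.g) (h' : DetA F A P z'.g) : DetA F A P (z.rf z') := by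
  intro ω ω' a b c
  unfold Bx.rf
  rw [(Bx.fA_det h h').1 ω ω' a b c, h ω ω' a b c]

variable {z z' : Bx F} {A : F.Ω → Prop} {ω : F.Ω}

theorem Bx.rf_ne (hz : z.Ok A) (hz' : z'.Ok A) (hω : On F A ω) (i : Fin m) :
    z.rf z' ω ≠ 0 := by
  intro h
  have hr := Bx.rel hz hz' hω
  obtain ⟨v, hv⟩ := (hz.fr ω hω).vecs z.q fun j => z.fA' z' ω j i
  have h1 := Bx.rf_mco z z' ω v i
  rw [h] at h1
  have e1 : mco (0 : Fin m → Fin m → ℝ) v i = 0 := by
    unfold mco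
    simp
  rw [e1, mul_zero] at h1
  have e2 : ∑ j, z.fA z' ω i j * (2 ^ z.q j * mco (z.g ω) v j) = 1 := by
    have h2 := hr.inv' i i
    rw [if_pos rfl] at h2
    rw [← h2]
    exact Finset.sum_congr rfl fun j _ => by
      have := hv j
      unfold dot at this
      unfold mco
      rw [this]
  rw [e2] at h1
  exact one_ne_zero h1.symm

/-- From the box to the relative frame. -/
theorem Bx.rf_low (hz : z.Ok A) (hz' : z'.Ok A) (hω : On F A ω) {c : Fin m → ℕ} {E : ℕ}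
    (hc : ∀ i, (2 : ℝ) ^ c i ≤ z.fs z' ω i * 2 ^ z.q i * 2 ^ E) {C : ℝ} (hC : 0 ≤ C) {a : ℕ}
    {v : Fin m → ℝ} (hv : ∀ i, |mco (z'.g ω) v i| ≤ C / 2 ^ (z'.q i + a)) (i : Fin m) :
    |mco (z.rf z' ω) v i| ≤ 2 ^ m * 2 ^ E * C / 2 ^ (c i + a) := by
  have hr := Bx.rel hz hz' hω
  have h1 := hr.inn v (C / 2 ^ a) (by positivity) (fun i => by
    have h2 := hv i
    rw [pow_add, ← div_div, div_right_comm, le_div_iff₀ (by positivity)] at h2
    rw [mul_comm]
    exact h2) i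
  have h2 := Bx.rf_mco z z' ω v i
  unfold mco at h2
  unfold dot at h1
  rw [← h2, abs_mul, abs_of_pos (show (0 : ℝ) < 2 ^ z.q i by positivity)] at h1
  show |∑ j, z.rf z' ω i j * v j| ≤ _
  rw [pow_add, le_div_iff₀ (by positivity)]
  have h3 : 0 ≤ |∑ j, z.rf z' ω i j * v j| := abs_nonneg _
  rw [mul_div_assoc', le_div_iff₀ (by positivity)] at h1
  calc |∑ j, z.rf z' ω i j * v j| * (2 ^ c i * 2 ^ a)
      ≤ |∑ j, z.rf z' ω i j * v j| * ((z.fs z' ω i * 2 ^ z.q i * 2 ^ E) * 2 ^ a) := by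
        refine mul_le_mul_of_nonneg_left ?_ h3
        exact mul_le_mul_of_nonneg_right (hc i) (by positivity)
    _ = 2 ^ E * (z.fs z' ω i * (2 ^ z.q i * |∑ j, z.rf z' ω i j * v j|) * 2 ^ a) := by ring
    _ ≤ 2 ^ E * (2 ^ m * C) := mul_le_mul_of_nonneg_left h1 (by positivity)
    _ = 2 ^ m * 2 ^ E * C := by ring

/-- From the relative frame to the box. -/
theorem Bx.rf_up (hz : z.Ok A) (hz' : z'.Ok A) (hω : On F A ω) {c : Fin m → ℕ} {E : ℕ}
    (hc : ∀ i, z.fs z' ω i * 2 ^ z.q i ≤ 2 ^ c i * 2 ^ E) {C : ℝ} (hC : 0 ≤ C) {a : ℕ}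
    {v : Fin m → ℝ} (hv : ∀ i, |mco (z.rf z' ω) v i| ≤ C / 2 ^ (c i + a)) (i : Fin m) :
    |mco (z'.g ω) v i| ≤ m * 2 ^ E * C / 2 ^ (z'.q i + a) := by
  have hr := Bx.rel hz hz' hω
  have h1 := hr.out v (2 ^ E * C / 2 ^ a) (by positivity) (fun i => by
    have h2 := Bx.rf_mco z z' ω v i
    unfold mco at h2
    have h3 := hv i
    unfold dot
    rw [← h2, abs_mul, abs_of_pos (show (0 : ℝ) < 2 ^ z.q i by positivity), ← mul_assoc,
      le_div_iff₀ (by positivity)]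
    unfold mco at h3
    rw [le_div_iff₀ (by positivity), pow_add] at h3
    calc z.fs z' ω i * 2 ^ z.q i * |∑ j, z.rf z' ω i j * v j| * 2 ^ a
        ≤ (2 ^ c i * 2 ^ E) * |∑ j, z.rf z' ω i j * v j| * 2 ^ a := by
          refine mul_le_mul_of_nonneg_right ?_ (by positivity)
          exact mul_le_mul_of_nonneg_right (hc i) (abs_nonneg _)
      _ = 2 ^ E * (|∑ j, z.rf z' ω i j * v j| * (2 ^ c i * 2 ^ a)) := by ring
      _ ≤ 2 ^ E * C := mul_le_mul_of_nonneg_left h3 (by positivity)) i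
  unfold dot at h1
  show |∑ j, z'.g ω i j * v j| ≤ _
  rw [le_div_iff₀ (by positivity), pow_add]
  rw [mul_div_assoc', le_div_iff₀ (by positivity)] at h1
  calc |∑ j, z'.g ω i j * v j| * (2 ^ z'.q i * 2 ^ a) =
      2 ^ z'.q i * |∑ j, z'.g ω i j * v j| * 2 ^ a := by ring
    _ ≤ m * (2 ^ E * C) := h1
    _ = m * 2 ^ E * C := by ring

end rf

/-! ### Labels -/

section lab

variable {F : Fam m J} {p : F.Ω → ℝ}

/-- Two labels of the same window. -/
theorem ch_lab (hp : IsLaw p) {v : ℕ} {k c k' c' : Fin m → ℕ} {M M' : F.Ω → Fin m → Fin m → ℝ}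
    {D : ℝ} (hk : ∀ ω, 0 < p ω → ∀ x, (∀ i, |mco (M ω) x i| ≤ 1 / 2 ^ k i) →
      ∀ i, |mco (M' ω) x i| ≤ D / 2 ^ k' i)
    (hc : ∀ ω, 0 < p ω → ∀ x, (∀ i, |mco (M ω) x i| ≤ 1 / 2 ^ c i) →
      ∀ i, |mco (M' ω) x i| ≤ D / 2 ^ c' i)
    (hM : Det p M M') : CH p (F.mlb v k' c' M') (F.mlb v k c M) ≤ 2 * (m * Real.log (2 * D + 3)) := by
  refine Box.CH_of_nr hp _ fun ω ω' hω hω' h => ?_
  obtain ⟨h1, h2, h3, h4, h5⟩ := Box.mlb_ext h
  have n := Box.nr_of_mlb h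
  refine ⟨⟨fun i => ?_, fun i => ?_⟩, h1, hM ω ω' hω hω' h2, h5⟩
  · rw [← Box.mco_sub]
    exact hk ω hω _ (fun i => by rw [Box.mco_sub]; exact n.1 i) i
  · rw [← Box.mco_sub]
    exact hc ω hω _ (fun i => by rw [Box.mco_sub]; exact n.2 i) i

theorem T1_mono (F : Fam m J) {v v' : ℕ} (hvv : v ≤ v') (hv' : v' ≤ J) {ω ω' : F.Ω}
    (h : F.T1 v' ω = F.T1 v' ω') : F.T1 v ω = F.T1 v ω' := by
  obtain ⟨x, rfl⟩ := Nat.exists_eq_add_of_le hvv
  rw [T1_div F hv' ω, T1_div F hv' ω', h]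

/-- A label of a window and a label of a shorter window. -/
theorem ch_lab_win (hp : IsLaw p) {v v' : ℕ} (hvv : v ≤ v') (hv' : v' ≤ J)
    {k c k' c' : Fin m → ℕ} {M M' : F.Ω → Fin m → Fin m → ℝ} {D : ℝ} (hD : 0 ≤ D)
    (hk : ∀ ω, 0 < p ω → ∀ x, (∀ i, |mco (M ω) x i| ≤ 1 / 2 ^ k i) →
      ∀ i, |mco (M' ω) x i| ≤ D / 2 ^ k' i)
    (hc : ∀ ω, 0 < p ω → ∀ x, (∀ i, |mco (M ω) x i| ≤ 1 / 2 ^ c i) →
      ∀ i, |mco (M' ω) x i| ≤ D / 2 ^ c' i) (hkc : ∀ i, k' i ≤ c' i + v)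
    (hM : Det p M M') :
    CH p (F.mlb v k' c' M') (F.mlb v' k c M) ≤ 2 * (m * Real.log (4 * D + 3)) := by
  have key := Box.CH_of_nr (F := F) (g := v) (k := k') (c := c') (M := M') (C := 2 * D) hp
    (F.mlb v' k c M) (by
      intro ω ω' hω hω' h
      obtain ⟨h1, h2, h3, h4, h5⟩ := Box.mlb_ext h
      have n := Box.nr_of_mlb h
      have n2 : Nr F (M' ω) ((F.T1 v' ω : ℝ) / 2 ^ v') k' c' D ω ω' := by
        refine ⟨fun i => ?_, fun i => ?_⟩
        · rw [← Box.mco_sub]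
          exact hk ω hω _ (fun i => by rw [Box.mco_sub]; exact n.1 i) i
        · rw [← Box.mco_sub]
          exact hc ω hω _ (fun i => by rw [Box.mco_sub]; exact n.2 i) i
      have hs := Lab.time_near F hv' (hvv.trans hv') (min_eq_right hvv).symm ω
      exact ⟨n2.time hD hs (fun i => le_rfl) hkc, T1_mono F hvv hv' h1,
        hM ω ω' hω hω' h2, h5⟩)
  refine key.trans (le_of_eq ?_)
  congr 3
  ring

end lab

end Pool.NB
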