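import Pool.Agent.H69.NB.Dbl

/-!
# Good families

For a finite set of windows, all statements on the boxes hold at all points of one family of the
class, conditioned on a large event.
-/

set_option autoImplicit false

namespace Pool.NB

open Finset Real
open Pool.Agent.H49.Ent Pool.Agent.H32.Dense Pool.STK Pool.KA Pool.K2S Pool.PB Pool.KSAT
open Pool.PC (On Cnt DetA pt Dec Bar Evt lex)

variable {m J : ℕ}

section

variable {M : ℕ} {Λ' : Lbs m M} {c' : ℕ → Crd Λ'} {δ γ : ℝ} {S : PCl m} {s : ℕ → ℝ}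

/-- The hidden closed box is in the visible one. -/
theorem nest_hid (H : Hyp S δ γ c' s) {k : ℕ} (hk : k < M) (w : ℚ) :
    ∀ h : ℝ, 0 < h → ∃ ψ > 0, ∃ J₁ : ℕ, ∀ J ≥ J₁,
    ∀ (F : Fam m J) (A : F.Ω → Prop), S.St ψ J F A → ∀ (e : ℕ) (B : ℕ → Bx F) (N : ℕ → ℝ)
      (z : Bool → ℕ → ℚ → Bx F) (u : Λ'.T F), Dat2 δ γ c' s ψ F A e B N z u →
      ∀ E : F.Ω → Prop, Evt F A ψ E → ∀ h' : ℕ, h * J ≤ h' →
        ¬ ∀ ω, On F E ω → ∃ v, (z false k w).In ω 1 v ∧ ¬ (z true k w).In ω (2 ^ h') v := by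
  intro h hh
  obtain ⟨ψ₀, hψ₀, J₁, h1⟩ := clo_body H false hk w m h hh
  obtain ⟨J₂, hJ₂⟩ := exists_nat_gt ((m : ℝ) / (ψ₀ / 2))
  refine ⟨min (ψ₀ / 2) 1, lt_min (half_pos hψ₀) one_pos, max J₁ J₂,
    fun J hJ F A hA e B N z u hD E hE h' hh' hcon => ?_⟩
  have hJr : (0 : ℝ) ≤ J := Nat.cast_nonneg J
  have hψψ : min (ψ₀ / 2) 1 ≤ ψ₀ := (min_le_left _ _).trans (by linarith)
  obtain ⟨hO, hcl, hvi, hsub⟩ := (hD.sub hE.1).clo true hk w
  have he : (e : ℝ) ≤ ψ₀ / 2 * J :=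
    (hD.err H.s0 (min_le_right _ _)).trans (mul_le_mul_of_nonneg_right (min_le_left _ _) hJr)
  have hm : (m : ℝ) ≤ ψ₀ / 2 * J := by
    have h5 := hJ₂.trans_le (Nat.cast_le.2 ((le_max_right _ _).trans hJ) : (J₂ : ℝ) ≤ J)
    rw [div_lt_iff₀ (by positivity)] at h5
    linarith
  refine h1 J ((le_max_left _ _).trans hJ) F A (S.mono hψψ hA) e B N z u (hD.mono hψψ) E
    (hE.mono hψψ) (fun ω i l => 2 ^ (z true k w).q i * (z true k w).g ω i l) (e + m) h'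
    ?_ (fun h => absurd h Bool.false_ne_true) ?_ ?_ ?_ hh' ?_
  · intro ω ω' a a' c
    have h6 := hcl ω ω' a a' c
    funext i l
    show 2 ^ (z true k w).q i * (z true k w).g ω i l =
      2 ^ (z true k w).q i * (z true k w).g ω' i l
    rw [h6]
  · intro ω hω i l
    rw [abs_mul, abs_of_pos (show (0 : ℝ) < 2 ^ (z true k w).q i by positivity)]
    have h5 : (2 : ℝ) ^ (z true k w).q i ≤ 2 ^ J := pow_le_pow_right₀ (by norm_num) (hO.leJ i)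
    have h6 := mul_le_mul h5 ((hO.fr ω hω).bd i l) (abs_nonneg _) (by positivity)
    rwa [mul_one] at h6
  · push_cast
    linarith
  · intro ω hω i v hv
    rw [dot_smul, abs_mul, abs_of_pos (show (0 : ℝ) < 2 ^ (z true k w).q i by positivity)]
    have h5 := hsub ω hω v hv i
    rw [le_div_iff₀ (by positivity), mul_comm] at h5
    exact h5
  · intro ω hω
    obtain ⟨v, hv1, hv2⟩ := hcon ω hω
    refine ⟨v, hv1, ?_⟩
    unfold Bx.In at hv2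
    push Not at hv2
    obtain ⟨i, hi⟩ := hv2
    refine ⟨i, ?_⟩
    rw [dot_smul, abs_mul, abs_of_pos (show (0 : ℝ) < 2 ^ (z true k w).q i by positivity)]
    rw [div_lt_iff₀ (by positivity), mul_comm] at hi
    exact hi.le

end

/-! ### Finitely many statements -/

/-- Statements which hold for all large `J` and small defects, for finitely many indices. -/
theorem com_finset {ι : Type} (t : Finset ι) {P : ι → ℝ → ℕ → Prop}
    (hm : ∀ k ψ ψ' J, ψ' ≤ ψ → P k ψ J → P k ψ' J)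
    (h : ∀ k ∈ t, ∃ ψ > 0, ∃ J₁ : ℕ, ∀ J ≥ J₁, P k ψ J) :
    ∃ ψ > 0, ∃ J₁ : ℕ, ∀ J ≥ J₁, ∀ k ∈ t, P k ψ J := by
  classical
  induction t using Finset.induction_on with
  | empty => exact ⟨1, one_pos, 0, fun J _ k hk => absurd hk (Finset.notMem_empty k)⟩
  | insert a t _ ih =>
    obtain ⟨ψ₁, hψ₁, J₁, h1⟩ := ih fun k hk => h k (Finset.mem_insert_of_mem hk)
    obtain ⟨ψ₂, hψ₂, J₂, h2⟩ := h a (Finset.mem_insert_self a t)
    refine ⟨min ψ₁ ψ₂, lt_min hψ₁ hψ₂, max J₁ J₂, fun J hJ k hk => ?_⟩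
    rcases Finset.mem_insert.1 hk with h3 | h3
    · rw [h3]
      exact hm _ _ _ _ (min_le_right _ _) (h2 J ((le_max_right _ _).trans hJ))
    · exact hm _ _ _ _ (min_le_left _ _) (h1 J ((le_max_left _ _).trans hJ) k h3)

/-- Two statements. -/
theorem com_two {P Q : ℝ → ℕ → Prop} (hP : ∀ ψ ψ' J, ψ' ≤ ψ → P ψ J → P ψ' J)
    (hQ : ∀ ψ ψ' J, ψ' ≤ ψ → Q ψ J → Q ψ' J) (h1 : ∃ ψ > 0, ∃ J₁ : ℕ, ∀ J ≥ J₁, P ψ J)
    (h2 : ∃ ψ > 0, ∃ J₁ : ℕ, ∀ J ≥ J₁, Q ψ J) :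
    ∃ ψ > 0, ∃ J₁ : ℕ, ∀ J ≥ J₁, P ψ J ∧ Q ψ J := by
  obtain ⟨ψ₁, hψ₁, J₁, h1⟩ := h1
  obtain ⟨ψ₂, hψ₂, J₂, h2⟩ := h2
  exact ⟨min ψ₁ ψ₂, lt_min hψ₁ hψ₂, max J₁ J₂, fun J hJ =>
    ⟨hP _ _ _ (min_le_left _ _) (h1 J ((le_max_left _ _).trans hJ)),
      hQ _ _ _ (min_le_right _ _) (h2 J ((le_max_right _ _).trans hJ))⟩⟩

/-- The union bound. -/
theorem pe_union {F : Fam m J} {ι : Type} (t : Finset ι) (A : F.Ω → Prop)
    (bad : ι → F.Ω → Prop) :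
    Pe F.p (fun ω => A ω ∧ ∃ x ∈ t, bad x ω) ≤ ∑ x ∈ t, Pe F.p (fun ω => A ω ∧ bad x ω) := by
  classical
  induction t using Finset.induction_on with
  | empty =>
    rw [Finset.sum_empty, pe_sum]
    refine le_of_eq (Finset.sum_eq_zero fun ω _ => if_neg ?_)
    rintro ⟨-, x, hx, -⟩
    exact absurd hx (Finset.notMem_empty x)
  | insert a t ha ih =>
    rw [Finset.sum_insert ha]
    refine (Pe_or F.isLaw (B₀ := fun ω => A ω ∧ bad a ω)
      (B₁ := fun ω => A ω ∧ ∃ x ∈ t, bad x ω) ?_).trans (by linarith)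
    rintro ω ⟨h1, x, hx, h2⟩
    rcases Finset.mem_insert.1 hx with h3 | h3
    · rw [h3] at h2
      exact Or.inl ⟨h1, h2⟩
    · exact Or.inr ⟨h1, x, h3, h2⟩

/-- **The good event**: finitely many bad events of small probability are removed. -/
theorem good_evt {ι : Type} (t : Finset ι) {ψ : ℝ} (hψ : 0 < ψ) : ∃ J₁ : ℕ, ∀ J ≥ J₁,
    ∀ (F : Fam m J) (A : F.Ω → Prop) (bad : ι → F.Ω → Prop), 0 < Pe F.p A →
      (∀ x ∈ t, Pe F.p (fun ω => A ω ∧ bad x ω) < Real.exp (-(ψ * J)) * Pe F.p A) →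
      ∃ A₁ : F.Ω → Prop, (∀ ω, A₁ ω ↔ A ω ∧ ∀ x ∈ t, ¬ bad x ω) ∧
        Pe F.p (fun ω => A ω ∧ ¬ A₁ ω) ≤ Real.exp (-(ψ / 2 * J)) * Pe F.p A ∧
        Pe F.p A ≤ 2 * Pe F.p A₁ := by
  classical
  obtain ⟨J₁, hJ₁⟩ := exists_nat_gt (((t.card : ℝ) + 1) / (ψ / 2))
  obtain ⟨J₂, hJ₂⟩ := exists_nat_gt (1 / (ψ / 2))
  refine ⟨max J₁ J₂, fun J hJ F A bad hA h => ?_⟩
  obtain ⟨A₁, hA₁⟩ : ∃ A₁ : F.Ω → Prop, A₁ = fun ω => A ω ∧ ∀ x ∈ t, ¬ bad x ω := ⟨_, rfl⟩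
  have hiff : ∀ ω, A₁ ω ↔ A ω ∧ ∀ x ∈ t, ¬ bad x ω := fun ω => by rw [hA₁]
  have hJ1 : (t.card : ℝ) + 1 < ψ / 2 * J := by
    have h5 := hJ₁.trans_le (Nat.cast_le.2 ((le_max_left _ _).trans hJ) : (J₁ : ℝ) ≤ J)
    rw [div_lt_iff₀ (by positivity)] at h5
    linarith
  have hJ2 : 1 < ψ / 2 * J := by
    have h5 := hJ₂.trans_le (Nat.cast_le.2 ((le_max_right _ _).trans hJ) : (J₂ : ℝ) ≤ J)
    rw [div_lt_iff₀ (by positivity)] at h5
    linarith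
  have h1 : Pe F.p (fun ω => A ω ∧ ¬ A₁ ω) ≤ Pe F.p (fun ω => A ω ∧ ∃ x ∈ t, bad x ω) := by
    refine Pe_mono F.isLaw fun ω hω => ?_
    obtain ⟨a1, a2⟩ := hω
    refine ⟨a1, ?_⟩
    by_contra hcon
    push Not at hcon
    exact a2 ((hiff ω).2 ⟨a1, hcon⟩)
  have h2 := (h1.trans (pe_union t A bad)).trans (Finset.sum_le_sum fun x hx => (h x hx).le)
  rw [Finset.sum_const, nsmul_eq_mul] at h2
  have h3 : (t.card : ℝ) * (Real.exp (-(ψ * J)) * Pe F.p A) ≤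
      Real.exp (-(ψ / 2 * J)) * Pe F.p A := by
    rw [← mul_assoc]
    refine mul_le_mul_of_nonneg_right ?_ hA.le
    have e1 : (t.card : ℝ) ≤ Real.exp (ψ / 2 * J) := by
      have := Real.add_one_le_exp (ψ / 2 * J)
      linarith
    calc (t.card : ℝ) * Real.exp (-(ψ * J)) ≤ Real.exp (ψ / 2 * J) * Real.exp (-(ψ * J)) :=
          mul_le_mul_of_nonneg_right e1 (Real.exp_pos _).le
      _ = Real.exp (-(ψ / 2 * J)) := by
          rw [← Real.exp_add]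
          congr 1
          ring
  have h4 := h2.trans h3
  refine ⟨A₁, hiff, h4, ?_⟩
  have h5 : Real.exp (-(ψ / 2 * J)) ≤ 1 / 2 := by
    have e1 : (2 : ℝ) ≤ Real.exp (ψ / 2 * J) := by
      have := Real.add_one_le_exp (ψ / 2 * J)
      linarith
    rw [Real.exp_neg, ← one_div]
    exact div_le_div_of_nonneg_left zero_le_one (by norm_num) e1
  have h6 : Pe F.p A ≤ Pe F.p A₁ + Pe F.p (fun ω => A ω ∧ ¬ A₁ ω) := by
    refine Pe_or F.isLaw fun ω hω => ?_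
    by_cases h7 : A₁ ω
    · exact Or.inl h7
    · exact Or.inr ⟨hω, h7⟩
  have h7 : Real.exp (-(ψ / 2 * J)) * Pe F.p A ≤ 1 / 2 * Pe F.p A :=
    mul_le_mul_of_nonneg_right h5 hA.le
  linarith

/-! ### The structure -/

/-- **A good family**: closed boxes at the windows in `W`, up to `h J` digits, and events of cost
`ψ J`. -/
structure Good {M : ℕ} {Λ' : Lbs m M} (δ γ : ℝ) (s s₂ : ℕ → ℝ) (W : Finset ℚ) (h ψ : ℝ)
    (F : Fam m J) (A : F.Ω → Prop) (e : ℕ) (B : ℕ → Bx F) (N : ℕ → ℝ)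
    (z : Bool → ℕ → ℚ → Bx F) (u : Λ'.T F) : Prop where
  /-- the chain -/
  chn : Chn F A M (gp γ J) e B N
  /-- the additional labels -/
  val : Λ'.Val F A (gp γ J) e B N u
  /-- the error of the inclusions -/
  err : ((e + m : ℕ) : ℝ) ≤ h * J
  /-- the price of the labels -/
  pri : ∀ k < M, N k ≤ (m * δ + m * M * γ + h) * J
  /-- all functionals of the zoomed direction are active on large events -/
  act : ∀ k < M, ∀ E, Evt F A ψ E → ∀ (x : ℕ) (L : ℝ) (lam : F.Ω → Fin m → ℝ),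
    DetA F E (ptk B k) lam → Adm (B k) E lam x → 0 ≤ L →
    Cnt F E (ptk B k) (fun ω => ⌊(2 : ℝ) ^ x * ∑ i, lam ω i * (B k).om ω i⌋) (Real.exp L) →
    δ * x * Real.log 2 - h * J ≤ L
  /-- the fans are not near hyperplanes on large events -/
  exa : ∀ k < M, ∀ E, Evt F A ψ E → ∀ x : ℕ, h * J ≤ x → ¬ NearPl (B k) E (ptk B k) x
  /-- the closed boxes are boxes -/
  ok : ∀ b, ∀ k < M, ∀ w, (z b k w).Ok A
  /-- they are functions of the line and the window -/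
  clo : ∀ b, ∀ k < M, ∀ w, DetA F A (slam F (win J w)) (z b k w).g
  /-- the visible ones are functions of the point -/
  vis : ∀ k < M, ∀ w, DetA F A (ptk B k) (z true k w).g
  /-- they contain the box of the level -/
  sup : ∀ b, ∀ k < M, ∀ w, (B k).Sub (e + m) (z b k w) A
  /-- the precisions of the closed boxes are the class numbers -/
  num : ∀ b, ∀ k < M, ∀ w ∈ W, ∀ i, |((z b k w).q i : ℝ) - nz M s b k w i * J| ≤ h * J
  /-- the precisions of the boxes are the class numbers -/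
  nuB : ∀ k < M, ∀ i, |((B k).q i : ℝ) - nb M s k i * J| ≤ h * J
  /-- nested in the windows -/
  win : ∀ b, ∀ k < M, ∀ w ∈ W, ∀ w' ∈ W, w ≤ w' → (z b k w').Sub ⌊h * J⌋₊ (z b k w) A
  /-- nested in the levels -/
  lev : ∀ b, ∀ k, k + 1 < M → ∀ w ∈ W, (z b (k + 1) w).Sub ⌊h * J⌋₊
    ((z b k w).sh (gp γ J)) A
  /-- the hidden one is in the visible one -/
  hid : ∀ k < M, ∀ w ∈ W, (z false k w).Sub ⌊h * J⌋₊ (z true k w) A
  /-- the falls are the class numbers -/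
  fal : ∀ b, ∀ k < M, ∀ w ∈ W, ∀ w' ∈ W, ∀ i, ∀ ω, On F A ω →
    |Real.logb 2 ((z b k w).fs (z b k w') ω i) - nf s₂ b k w w' i * J| ≤ h * J
  /-- maximality: no closed functional which is bounded on the box of the level is large on the
  closed box -/
  max : ∀ b, ∀ k < M, ∀ w ∈ W, ∀ E, Evt F A ψ E → ∀ (f : F.Ω → Fin m → ℝ) (r h' : ℕ),
    DetA F E (slam F (Pool.NB.win J w)) f → (b = true → DetA F E (ptk B k) f) →
    (∀ ω, On F E ω → ∀ l, |f ω l| ≤ 2 ^ J) → (r : ℝ) ≤ ψ * J →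
    (∀ ω, On F E ω → ∀ v, (B k).In ω 1 v → |dot (f ω) v| ≤ 2 ^ r) → h * J ≤ h' →
    ¬ ∀ ω, On F E ω → ∃ v, (z b k w).In ω 1 v ∧ 2 ^ h' ≤ |dot (f ω) v|
  /-- the normals of two times of one line are different -/
  dbN : ∀ b, ∀ k < M, ∀ w ∈ W, ∀ w' ∈ W, ∀ (i : Fin m) (x : ℕ), h * J ≤ x →
    (x : ℝ) ≤ (nf s₂ b k w w' i - h) * J →
    Pe (dbl (Pool.Agent.H49.Ent.cond F.p A True) (slam F (Pool.NB.win J w))) (fun u =>
      ∀ j l, |(z b k w).fA (z b k w') u.1 i j * (z b k w).fA (z b k w') u.2 i l -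
        (z b k w).fA (z b k w') u.1 i l * (z b k w).fA (z b k w') u.2 i j| ≤ 1 / 2 ^ x) ≤
      Real.exp (-(ψ * J))
  /-- the long directions of two times of one line are different -/
  dbV : ∀ b, ∀ k < M, ∀ w ∈ W, ∀ w' ∈ W, ∀ (i : Fin m) (x : ℕ), 2 ≤ m → h * J ≤ x →
    (∀ j, j ≠ i → (x : ℝ) ≤ (nf s₂ b k w w' j - h) * J) →
    Pe (dbl (Pool.Agent.H49.Ent.cond F.p A True) (slam F (Pool.NB.win J w))) (fun u =>
      ∀ j l, |(z b k w).fA' (z b k w') u.1 j i * (z b k w).fA' (z b k w') u.2 l i -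
        (z b k w).fA' (z b k w') u.1 l i * (z b k w).fA' (z b k w') u.2 j i| ≤ 1 / 2 ^ x) ≤
      Real.exp (-(ψ * J))

end Pool.NB
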