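import Pool.Agent.H69.NB.Good

/-!
# The families of the class are good
-/

set_option autoImplicit false

namespace Pool.NB

open Finset Real
open Pool.Agent.H49.Ent Pool.Agent.H32.Dense Pool.STK Pool.KA Pool.K2S Pool.PB Pool.KSAT
open Pool.PC (On Cnt DetA pt Dec Bar Evt lex)

variable {m J : ℕ}

/-- The indices of the bad events. -/
abbrev BIx (m : ℕ) : Type :=
  (Bool × ℕ × ℚ × ℚ) ⊕ ((Bool × ℕ × ℚ) ⊕ ((ℕ × ℚ) ⊕ (Bool × ℕ × ℚ × ℚ × Fin m)))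

/-- The bad events. -/
def badI (M : ℕ) (γ : ℝ) (s₂ : ℕ → ℝ) (h : ℝ) {J : ℕ} (F : Fam m J)
    (z : Bool → ℕ → ℚ → Bx F) : BIx m → F.Ω → Prop
  | .inl (b, k, w, w'), ω => w ≤ w' ∧
      ∃ v, (z b k w').In ω 1 v ∧ ¬ (z b k w).In ω (2 ^ ⌊h * J⌋₊) v
  | .inr (.inl (b, k, w)), ω => k + 1 < M ∧
      ∃ v, (z b (k + 1) w).In ω 1 v ∧ ¬ ((z b k w).sh (gp γ J)).In ω (2 ^ ⌊h * J⌋₊) v
  | .inr (.inr (.inl (k, w))), ω =>
      ∃ v, (z false k w).In ω 1 v ∧ ¬ (z true k w).In ω (2 ^ ⌊h * J⌋₊) v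
  | .inr (.inr (.inr (b, k, w, w', i))), ω =>
      (nf s₂ b k w w' i + h) * J ≤ Real.logb 2 ((z b k w).fs (z b k w') ω i)

/-- The indices for the windows in `W`. -/
noncomputable def badT (m M : ℕ) (W : Finset ℚ) : Finset (BIx m) :=
  (Finset.univ ×ˢ (range M ×ˢ (W ×ˢ W))).disjSum
    ((Finset.univ ×ˢ (range M ×ˢ W)).disjSum
      ((range M ×ˢ W).disjSum (Finset.univ ×ˢ (range M ×ˢ (W ×ˢ (W ×ˢ Finset.univ))))))

section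

variable {M : ℕ} {Λ' : Lbs m M} {c' : ℕ → Crd Λ'} {c₂' : ℕ → Crd ((CL m M).prod Λ')} {δ γ : ℝ}
  {S : PCl m} {s s₂ : ℕ → ℝ}

/-- The hypotheses on the class, both stages. -/
structure Hyp2 (S : PCl m) (δ γ : ℝ) (c' : ℕ → Crd Λ') (s : ℕ → ℝ)
    (c₂' : ℕ → Crd ((CL m M).prod Λ')) (s₂ : ℕ → ℝ) : Prop where
  hδ : 0 < δ
  hγ : 0 < γ
  one : Hyp S δ γ c' s
  sc : ∀ k < M, 0 ≤ s (k + 1)
  s0 : s₂ 0 = 0
  bar : ∀ i, Bar S (bdec2 δ γ (cseq c') s (cseq2 c₂')) i s₂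

/-- A statement for all families with data. -/
def ForD (S : PCl m) (δ γ : ℝ) (c' : ℕ → Crd Λ') (s : ℕ → ℝ)
    (c₂' : ℕ → Crd ((CL m M).prod Λ')) (s₂ : ℕ → ℝ)
    (Φ : ℝ → ∀ {J : ℕ} (F : Fam m J), (F.Ω → Prop) → ℕ → (ℕ → Bx F) → (ℕ → ℝ) →
      (Bool → ℕ → ℚ → Bx F) → Prop) (ψ : ℝ) (J : ℕ) : Prop :=
  ∀ (F : Fam m J) (A : F.Ω → Prop), S.St ψ J F A → ∀ (e : ℕ) (B : ℕ → Bx F) (N : ℕ → ℝ)
    (z : Bool → ℕ → ℚ → Bx F) (u : Λ'.T F), Dat3 δ γ c' s c₂' s₂ ψ F A e B N z u →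
    Φ ψ F A e B N z

theorem ForD.anti {Φ : ℝ → ∀ {J : ℕ} (F : Fam m J), (F.Ω → Prop) → ℕ → (ℕ → Bx F) →
      (ℕ → ℝ) → (Bool → ℕ → ℚ → Bx F) → Prop}
    (hΦ : ∀ ψ ψ' : ℝ, ψ' ≤ ψ → ∀ {J : ℕ} (F : Fam m J) (A : F.Ω → Prop) (e : ℕ)
      (B : ℕ → Bx F) (N : ℕ → ℝ) (z : Bool → ℕ → ℚ → Bx F), Φ ψ F A e B N z →
        Φ ψ' F A e B N z)
    (ψ ψ' : ℝ) (J : ℕ) (hψ : ψ' ≤ ψ) (h : ForD S δ γ c' s c₂' s₂ Φ ψ J) :
    ForD S δ γ c' s c₂' s₂ Φ ψ' J :=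
  fun F A hA e B N z u hD => hΦ ψ ψ' hψ F A e B N z
    (h F A (S.mono hψ hA) e B N z u (hD.mono hψ))

/-- **The bad events are small.** -/
theorem bad_small (H : Hyp2 S δ γ c' s c₂' s₂) {W : Finset ℚ} (hW : ∀ w ∈ W, w ≤ 1) {h : ℝ}
    (hh : 0 < h) : ∃ ψ > 0, ∃ J₁ : ℕ, ∀ J ≥ J₁, ∀ x ∈ badT m M W,
      ForD S δ γ c' s c₂' s₂ (fun ψ _ F A _ _ _ z => ∀ E, Evt F A ψ E →
        ¬ ∀ ω, On F E ω → badI M γ s₂ h F z x ω) ψ J := by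
  refine com_finset (badT m M W) (P := fun x ψ J => ForD S δ γ c' s c₂' s₂
    (fun ψ _ F A _ _ _ z => ∀ E, Evt F A ψ E →
      ¬ ∀ ω, On F E ω → badI M γ s₂ h F z x ω) ψ J)
    (fun x ψ ψ' J hψ => ForD.anti (fun ψ ψ' hψ J F A e B N z h5 E hE => h5 E (hE.mono hψ))
      ψ ψ' J hψ) fun x hx => ?_
  obtain ⟨J₀, hJ₀⟩ := exists_nat_gt (2 / h)
  have hfl : ∀ J ≥ J₀, h / 2 * (J : ℝ) ≤ (⌊h * J⌋₊ : ℕ) := by
    intro J hJ
    have h5 := hJ₀.trans_le (Nat.cast_le.2 hJ : (J₀ : ℝ) ≤ J)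
    rw [div_lt_iff₀ hh] at h5
    have h6 := Nat.lt_floor_add_one (h * (J : ℝ))
    nlinarith
  have hpo : ∀ {ψ : ℝ}, 0 < ψ → ∀ {J : ℕ} (F : Fam m J) (A : F.Ω → Prop), S.St ψ J F A →
      ∀ E, Evt F A ψ E → ∃ ω, On F E ω := by
    intro ψ hψ J F A hA E hE
    refine Pool.PC.exists_on (lt_of_lt_of_le ?_ hE.2)
    exact mul_pos (Real.exp_pos _) (H.one.pos _ J F A hA)
  unfold badT at hx
  rcases x with ⟨b, k, w, w'⟩ | ⟨b, k, w⟩ | ⟨k, w⟩ | ⟨b, k, w, w', i⟩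
  · have hx' : k < M ∧ w ∈ W ∧ w' ∈ W := by simpa using hx
    by_cases hw : w ≤ w'
    · obtain ⟨ψ, hψ, J₁, h1⟩ := nest_win H.one b hx'.1 hw (hW w' hx'.2.2) (h / 2) (half_pos hh)
      exact ⟨ψ, hψ, max J₀ J₁, fun J hJ F A hA e B N z u hD E hE hcon =>
        h1 J ((le_max_right _ _).trans hJ) F A hA e B N z u hD.one E hE _
          (hfl J ((le_max_left _ _).trans hJ)) fun ω hω => (hcon ω hω).2⟩
    · refine ⟨1, one_pos, 0, fun J _ F A hA e B N z u hD E hE hcon => ?_⟩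
      obtain ⟨ω, hω⟩ := hpo one_pos F A hA E hE
      exact hw (hcon ω hω).1
  · have hx' : k < M ∧ w ∈ W := by simpa using hx
    by_cases hk : k + 1 < M
    · obtain ⟨ψ, hψ, J₁, h1⟩ := nest_lev H.one b hk w (h / 2) (half_pos hh)
      exact ⟨ψ, hψ, max J₀ J₁, fun J hJ F A hA e B N z u hD E hE hcon =>
        h1 J ((le_max_right _ _).trans hJ) F A hA e B N z u hD.one E hE _
          (hfl J ((le_max_left _ _).trans hJ)) fun ω hω => (hcon ω hω).2⟩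
    · refine ⟨1, one_pos, 0, fun J _ F A hA e B N z u hD E hE hcon => ?_⟩
      obtain ⟨ω, hω⟩ := hpo one_pos F A hA E hE
      exact hk (hcon ω hω).1
  · have hx' : k < M ∧ w ∈ W := by simpa using hx
    obtain ⟨ψ, hψ, J₁, h1⟩ := nest_hid H.one hx'.1 w (h / 2) (half_pos hh)
    exact ⟨ψ, hψ, max J₀ J₁, fun J hJ F A hA e B N z u hD E hE hcon =>
      h1 J ((le_max_right _ _).trans hJ) F A hA e B N z u hD.one E hE _
        (hfl J ((le_max_left _ _).trans hJ)) hcon⟩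
  · have hx' : k < M ∧ w ∈ W ∧ w' ∈ W := by simpa using hx
    obtain ⟨ψ, hψ, J₁, h1⟩ := nf_eq H.s0 H.bar b hx'.1 w w' i h hh
    exact ⟨ψ, hψ, J₁, fun J hJ F A hA e B N z u hD E hE hcon =>
      (h1 J hJ F A hA e B N z u hD).2 E hE hcon⟩

/-- The pointwise numbers. -/
theorem num_all (H : Hyp2 S δ γ c' s c₂' s₂) (W : Finset ℚ) {h : ℝ} (hh : 0 < h) :
    ∃ ψ > 0, ∃ J₁ : ℕ, ∀ J ≥ J₁, ForD S δ γ c' s c₂' s₂ (fun _ {J} F A e B N z =>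
      (∀ b, ∀ k < M, ∀ w ∈ W, ∀ i, |((z b k w).q i : ℝ) - nz M s b k w i * J| ≤ h * J) ∧
      (∀ k < M, ∀ i, |((B k).q i : ℝ) - nb M s k i * J| ≤ h * J) ∧
      (∀ b, ∀ k < M, ∀ w ∈ W, ∀ w' ∈ W, ∀ i, ∀ ω, On F A ω →
        (nf s₂ b k w w' i - h) * J ≤ Real.logb 2 ((z b k w).fs (z b k w') ω i)) ∧
      ((e + m : ℕ) : ℝ) ≤ h * J ∧ ∀ k < M, N k ≤ (m * δ + m * M * γ + h) * J) ψ J := by
  classical
  -- the five statements
  obtain ⟨ψ₁, hψ₁, J₁, k1⟩ := com_finset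
    (Finset.univ ×ˢ (range M ×ˢ (W ×ˢ (Finset.univ : Finset (Fin m)))))
    (P := fun (x : Bool × ℕ × ℚ × Fin m) ψ J => ForD S δ γ c' s c₂' s₂
      (fun _ {J} F A e B N z => |((z x.1 x.2.1 x.2.2.1).q x.2.2.2 : ℝ) -
        nz M s x.1 x.2.1 x.2.2.1 x.2.2.2 * J| ≤ h * J) ψ J)
    (fun x ψ ψ' J hψ => ForD.anti (fun _ _ _ J F A e B N z h5 => h5) ψ ψ' J hψ)
    (fun x hx => by
      obtain ⟨b, k, w, i⟩ := x
      have hx' : k < M ∧ w ∈ W := by simpa using hx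
      obtain ⟨ψ, hψ, J₁, h1⟩ := nz_eq H.one b hx'.1 w i h hh
      exact ⟨ψ, hψ, J₁, fun J hJ F A hA e B N z u hD => h1 J hJ F A hA e B N z u hD.one⟩)
  obtain ⟨ψ₂, hψ₂, J₂, k2⟩ := com_finset (range M ×ˢ (Finset.univ : Finset (Fin m)))
    (P := fun (x : ℕ × Fin m) ψ J => ForD S δ γ c' s c₂' s₂
      (fun _ {J} F A e B N z => |((B x.1).q x.2 : ℝ) - nb M s x.1 x.2 * J| ≤ h * J) ψ J)
    (fun x ψ ψ' J hψ => ForD.anti (fun _ _ _ J F A e B N z h5 => h5) ψ ψ' J hψ)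
    (fun x hx => by
      obtain ⟨k, i⟩ := x
      have hx' : k < M := by simpa using hx
      obtain ⟨ψ, hψ, J₁, h1⟩ := nb_eq H.one hx' i h hh
      exact ⟨ψ, hψ, J₁, fun J hJ F A hA e B N z u hD => h1 J hJ F A hA e B N z u hD.one⟩)
  obtain ⟨ψ₃, hψ₃, J₃, k3⟩ := com_finset
    (Finset.univ ×ˢ (range M ×ˢ (W ×ˢ (W ×ˢ (Finset.univ : Finset (Fin m))))))
    (P := fun (x : Bool × ℕ × ℚ × ℚ × Fin m) ψ J => ForD S δ γ c' s c₂' s₂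
      (fun _ {J} F A e B N z => ∀ ω, On F A ω →
        (nf s₂ x.1 x.2.1 x.2.2.1 x.2.2.2.1 x.2.2.2.2 - h) * J ≤
          Real.logb 2 ((z x.1 x.2.1 x.2.2.1).fs (z x.1 x.2.1 x.2.2.2.1) ω x.2.2.2.2)) ψ J)
    (fun x ψ ψ' J hψ => ForD.anti (fun _ _ _ J F A e B N z h5 => h5) ψ ψ' J hψ)
    (fun x hx => by
      obtain ⟨b, k, w, w', i⟩ := x
      have hx' : k < M ∧ w ∈ W ∧ w' ∈ W := by simpa using hx
      obtain ⟨ψ, hψ, J₁, h1⟩ := nf_eq H.s0 H.bar b hx'.1 w w' i h hh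
      exact ⟨ψ, hψ, J₁, fun J hJ F A hA e B N z u hD =>
        (h1 J hJ F A hA e B N z u hD).1⟩)
  obtain ⟨ψ, hψ, p1, p2, p3, p4, p5, p6, p7⟩ : ∃ ψ > 0, ψ ≤ ψ₁ ∧ ψ ≤ ψ₂ ∧ ψ ≤ ψ₃ ∧
      ψ ≤ h / 2 ∧ ψ ≤ 1 ∧ δ * ψ ≤ h ∧ ((M : ℝ) + 1) * ψ ≤ 1 := by
    have hδ := H.hδ
    refine ⟨min (min (min ψ₁ ψ₂) (min ψ₃ (h / 2))) (min (min 1 (h / δ)) (1 / ((M : ℝ) + 1))),
      ?_, ?_⟩
    · refine lt_min (lt_min (lt_min hψ₁ hψ₂) (lt_min hψ₃ (by positivity))) (lt_min (lt_min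
        one_pos (by positivity)) (by positivity))
    · refine ⟨?_, ?_, ?_, ?_, ?_, ?_, ?_⟩
      · exact (min_le_left _ _).trans ((min_le_left _ _).trans (min_le_left _ _))
      · exact (min_le_left _ _).trans ((min_le_left _ _).trans (min_le_right _ _))
      · exact (min_le_left _ _).trans ((min_le_right _ _).trans (min_le_left _ _))
      · exact (min_le_left _ _).trans ((min_le_right _ _).trans (min_le_right _ _))
      · exact (min_le_right _ _).trans ((min_le_left _ _).trans (min_le_left _ _))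
      · have h5 := mul_le_mul_of_nonneg_left ((min_le_right (min (min ψ₁ ψ₂)
          (min ψ₃ (h / 2))) (min (min 1 (h / δ)) (1 / ((M : ℝ) + 1)))).trans
            ((min_le_left _ _).trans (min_le_right _ _))) hδ.le
        rwa [mul_div_cancel₀ _ hδ.ne'] at h5
      · have h5 := mul_le_mul_of_nonneg_left ((min_le_right (min (min ψ₁ ψ₂)
          (min ψ₃ (h / 2))) (min (min 1 (h / δ)) (1 / ((M : ℝ) + 1)))).trans
            (min_le_right _ _)) (show (0 : ℝ) ≤ (M : ℝ) + 1 by positivity)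
        refine h5.trans (le_of_eq ?_)
        field_simp
  obtain ⟨J₄, hJ₄⟩ := exists_nat_gt ((m : ℝ) / (h / 2))
  refine ⟨ψ, hψ, J₁ + J₂ + J₃ + J₄, fun J hJ F A hA e B N z u hD => ?_⟩
  have hJr : (0 : ℝ) ≤ J := Nat.cast_nonneg J
  refine ⟨fun b k hk w hw i => ?_, fun k hk i => ?_, fun b k hk w hw w' hw' i => ?_, ?_,
    fun k hk => ?_⟩
  · exact k1 J (by omega) (b, k, w, i) (by simp [hk, hw]) F A (S.mono p1 hA) e B N z u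
      (hD.mono p1)
  · exact k2 J (by omega) (k, i) (by simp [hk]) F A (S.mono p2 hA) e B N z u (hD.mono p2)
  · exact k3 J (by omega) (b, k, w, w', i) (by simp [hk, hw, hw']) F A (S.mono p3 hA) e B N z u
      (hD.mono p3)
  · have h5 := hD.one.err H.one.s0 p5
    have h6 : ψ * (J : ℝ) ≤ h / 2 * J := mul_le_mul_of_nonneg_right p4 hJr
    have h7 : (m : ℝ) ≤ h / 2 * J := by
      have h8 := hJ₄.trans_le (Nat.cast_le.2 (show J₄ ≤ J by omega) : (J₄ : ℝ) ≤ J)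
      rw [div_lt_iff₀ (by positivity)] at h8
      linarith
    push_cast
    linarith
  · have h5 := hD.one.2.2 (k + 1) (by
      have : ((k + 1 : ℕ) : ℝ) + 1 ≤ (M : ℝ) + 1 := by
        have : ((k + 1 : ℕ) : ℝ) ≤ M := Nat.cast_le.2 hk
        linarith
      exact (mul_le_mul_of_nonneg_right this hψ.le).trans p7)
    rw [knd_sc _ hk] at h5
    have h6 : (s (k + 1) - ψ) * J ≤ nsc δ (gp γ J) B N k := h5
    have h7 := price H.hδ H.hγ.le hk (H.sc k hk) hD.one.chn h6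
    refine h7.trans (mul_le_mul_of_nonneg_right (by linarith) hJr)

end

end Pool.NB
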