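import Pool.Agent.H69.NB.GoodT

/-!
# The families of the class are good: the statements on events and the conclusion
-/

set_option autoImplicit false

namespace Pool.NB

open Finset Real
open Pool.Agent.H49.Ent Pool.Agent.H32.Dense Pool.STK Pool.KA Pool.K2S Pool.PB Pool.KSAT
open Pool.PC (On Cnt DetA pt Dec Bar Evt lex)

variable {m J : ℕ}

section

variable {M : ℕ} {Λ' : Lbs m M} {c' : ℕ → Crd Λ'} {c₂' : ℕ → Crd ((CL m M).prod Λ')} {δ γ : ℝ}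
  {S : PCl m} {s s₂ : ℕ → ℝ}

/-- The scores are attained. -/
theorem scs_of {ψ ψ' : ℝ} (hs0 : s 0 = 0) {F : Fam m J} {A : F.Ω → Prop} {e : ℕ}
    {B : ℕ → Bx F} {N : ℕ → ℝ} {z : Bool → ℕ → ℚ → Bx F} {u : Λ'.T F}
    (hD : Dat2 δ γ c' s ψ F A e B N z u) (hψ : 0 < ψ) (hM : ((M : ℝ) + 1) * ψ ≤ 1)
    (hψψ : ψ ≤ ψ') {k : ℕ} (hk : k < M) : Scs δ γ s ψ' k e B N := by
  have hJr : (0 : ℝ) ≤ J := Nat.cast_nonneg J
  refine ⟨(hD.err hs0 ?_).trans (mul_le_mul_of_nonneg_right hψψ hJr), fun j hj => ?_⟩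
  · have : (0 : ℝ) ≤ M := Nat.cast_nonneg M
    nlinarith
  · have h5 := hD.2.2 (j + 1) (by
      have : ((j + 1 : ℕ) : ℝ) + 1 ≤ (M : ℝ) + 1 := by
        have : ((j + 1 : ℕ) : ℝ) ≤ M := Nat.cast_le.2 (by omega)
        linarith
      exact (mul_le_mul_of_nonneg_right this hψ.le).trans hM)
    rw [knd_sc _ (show j < M by omega)] at h5
    have h6 : (s (j + 1) - ψ) * J ≤ nsc δ (gp γ J) B N j := h5
    exact le_trans (mul_le_mul_of_nonneg_right (by linarith) hJr) h6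

theorem exp_anti {ψ ψ' : ℝ} (h : ψ' ≤ ψ) (J : ℕ) :
    Real.exp (-(ψ * J)) ≤ Real.exp (-(ψ' * J)) := by
  refine Real.exp_le_exp.2 ?_
  have : ψ' * (J : ℝ) ≤ ψ * J := mul_le_mul_of_nonneg_right h (Nat.cast_nonneg J)
  linarith

/-- Activity on events. -/
theorem evt_act (H : Hyp2 S δ γ c' s c₂' s₂) {h : ℝ} (hh : 0 < h) :
    ∃ ψ > 0, ∃ J₁ : ℕ, ∀ J ≥ J₁, ForD S δ γ c' s c₂' s₂ (fun ψ {J} F A _ B _ _ =>
      ∀ k < M, ∀ E, Evt F A ψ E → ∀ (x : ℕ) (L : ℝ) (lam : F.Ω → Fin m → ℝ),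
        DetA F E (ptk B k) lam → Adm (B k) E lam x → 0 ≤ L →
        Cnt F E (ptk B k) (fun ω => ⌊(2 : ℝ) ^ x * ∑ i, lam ω i * (B k).om ω i⌋)
          (Real.exp L) → δ * x * Real.log 2 - h * J ≤ L) ψ J := by
  obtain ⟨ψ₁, hψ₁, J₁, k1⟩ := com_finset (range M)
    (P := fun k ψ J => ForD S δ γ c' s c₂' s₂
      (fun ψ {J} F A _ B _ _ => ∀ E, Evt F A ψ E → ∀ (x : ℕ) (L : ℝ)
        (lam : F.Ω → Fin m → ℝ), DetA F E (ptk B k) lam → Adm (B k) E lam x → 0 ≤ L →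
        Cnt F E (ptk B k) (fun ω => ⌊(2 : ℝ) ^ x * ∑ i, lam ω i * (B k).om ω i⌋)
          (Real.exp L) → δ * x * Real.log 2 - h * J ≤ L) ψ J)
    (fun k ψ ψ' J hψ => ForD.anti (fun _ _ hψ J F A e B N z h5 E hE => h5 E (hE.mono hψ))
      ψ ψ' J hψ)
    (fun k hk => by
      have hk' : k < M := Finset.mem_range.1 hk
      obtain ⟨ψ₀, hψ₀, J₁, h1⟩ := act H.hδ H.one.s0.le hk' (H.one.bar (k + 1)) H.one.pos h hh
      refine ⟨min ψ₀ (1 / ((M : ℝ) + 1)), lt_min hψ₀ (by positivity), J₁,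
        fun J hJ F A hA e B N z u hD E hE => ?_⟩
      refine h1 J hJ F A (S.mono (min_le_left _ _) hA) e B N hD.one.chn
        (scs_of H.one.s0 hD.one (lt_min hψ₀ (by positivity)) ?_ (min_le_left _ _) hk') E
        (hE.mono (min_le_left _ _))
      have h5 := mul_le_mul_of_nonneg_left (min_le_right ψ₀ (1 / ((M : ℝ) + 1)))
        (show (0 : ℝ) ≤ (M : ℝ) + 1 by positivity)
      refine h5.trans (le_of_eq ?_)
      field_simp)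
  exact ⟨ψ₁, hψ₁, J₁, fun J hJ F A hA e B N z u hD k hk =>
    k1 J hJ k (Finset.mem_range.2 hk) F A hA e B N z u hD⟩

/-- Exactness on events. -/
theorem evt_exa (H : Hyp2 S δ γ c' s c₂' s₂) {h : ℝ} (hh : 0 < h) :
    ∃ ψ > 0, ∃ J₁ : ℕ, ∀ J ≥ J₁, ForD S δ γ c' s c₂' s₂ (fun ψ {J} F A _ B _ _ =>
      ∀ k < M, ∀ E, Evt F A ψ E → ∀ x : ℕ, h * J ≤ x → ¬ NearPl (B k) E (ptk B k) x)
      ψ J := by
  obtain ⟨ψ₁, hψ₁, J₁, k1⟩ := com_finset (range M)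
    (P := fun k ψ J => ForD S δ γ c' s c₂' s₂
      (fun ψ {J} F A _ B _ _ => ∀ E, Evt F A ψ E → ∀ x : ℕ, h * J ≤ x →
        ¬ NearPl (B k) E (ptk B k) x) ψ J)
    (fun k ψ ψ' J hψ => ForD.anti (fun _ _ hψ J F A e B N z h5 E hE => h5 E (hE.mono hψ))
      ψ ψ' J hψ)
    (fun k hk => by
      have hk' : k < M := Finset.mem_range.1 hk
      obtain ⟨ψ₀, hψ₀, J₁, h1⟩ := exa H.hδ H.one.s0.le hk' (H.one.bar (k + 1)) H.one.pos h hh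
      refine ⟨min ψ₀ (1 / ((M : ℝ) + 1)), lt_min hψ₀ (by positivity), J₁,
        fun J hJ F A hA e B N z u hD E hE => ?_⟩
      refine h1 J hJ F A (S.mono (min_le_left _ _) hA) e B N hD.one.chn
        (scs_of H.one.s0 hD.one (lt_min hψ₀ (by positivity)) ?_ (min_le_left _ _) hk') E
        (hE.mono (min_le_left _ _))
      have h5 := mul_le_mul_of_nonneg_left (min_le_right ψ₀ (1 / ((M : ℝ) + 1)))
        (show (0 : ℝ) ≤ (M : ℝ) + 1 by positivity)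
      refine h5.trans (le_of_eq ?_)
      field_simp)
  exact ⟨ψ₁, hψ₁, J₁, fun J hJ F A hA e B N z u hD k hk =>
    k1 J hJ k (Finset.mem_range.2 hk) F A hA e B N z u hD⟩

/-- Maximality on events. -/
theorem evt_max (H : Hyp2 S δ γ c' s c₂' s₂) (W : Finset ℚ) {h : ℝ} (hh : 0 < h) :
    ∃ ψ > 0, ∃ J₁ : ℕ, ∀ J ≥ J₁, ForD S δ γ c' s c₂' s₂ (fun ψ {J} F A _ B _ z =>
      ∀ b, ∀ k < M, ∀ w ∈ W, ∀ E, Evt F A ψ E → ∀ (f : F.Ω → Fin m → ℝ) (r h' : ℕ),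
        DetA F E (slam F (win J w)) f → (b = true → DetA F E (ptk B k) f) →
        (∀ ω, On F E ω → ∀ l, |f ω l| ≤ 2 ^ J) → (r : ℝ) ≤ ψ * J →
        (∀ ω, On F E ω → ∀ v, (B k).In ω 1 v → |dot (f ω) v| ≤ 2 ^ r) → h * J ≤ h' →
        ¬ ∀ ω, On F E ω → ∃ v, (z b k w).In ω 1 v ∧ 2 ^ h' ≤ |dot (f ω) v|) ψ J := by
  classical
  obtain ⟨ψ₁, hψ₁, J₁, k1⟩ := com_finset (Finset.univ ×ˢ (range M ×ˢ W))
    (P := fun (y : Bool × ℕ × ℚ) ψ J => ForD S δ γ c' s c₂' s₂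
      (fun ψ {J} F A _ B _ z => ∀ E, Evt F A ψ E → ∀ (f : F.Ω → Fin m → ℝ) (r h' : ℕ),
        DetA F E (slam F (win J y.2.2)) f → (y.1 = true → DetA F E (ptk B y.2.1) f) →
        (∀ ω, On F E ω → ∀ l, |f ω l| ≤ 2 ^ J) → (r : ℝ) ≤ ψ * J →
        (∀ ω, On F E ω → ∀ v, (B y.2.1).In ω 1 v → |dot (f ω) v| ≤ 2 ^ r) → h * J ≤ h' →
        ¬ ∀ ω, On F E ω → ∃ v, (z y.1 y.2.1 y.2.2).In ω 1 v ∧ 2 ^ h' ≤ |dot (f ω) v|) ψ J)
    (fun y ψ ψ' J hψ => ForD.anti (fun _ _ hψ J F A e B N z h5 E hE f r h' a1 a2 a3 a4 =>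
      h5 E (hE.mono hψ) f r h' a1 a2 a3
        (a4.trans (mul_le_mul_of_nonneg_right hψ (Nat.cast_nonneg J)))) ψ ψ' J hψ)
    (fun y hy => by
      obtain ⟨b, k, w⟩ := y
      have hy' : k < M ∧ w ∈ W := by simpa using hy
      obtain ⟨ψ, hψ, J₁, h1⟩ := clo (w := w) H.one.s0 b hy'.1 (H.one.bar _) H.one.pos h hh
      exact ⟨ψ, hψ, J₁, fun J hJ F A hA e B N z u hD E hE f r h' a1 a2 a3 a4 a5 a6 =>
        h1 J hJ F A hA e B N (z, u) hD.one E hE f r h' a1 a2 a3 a4 a5 a6⟩)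
  exact ⟨ψ₁, hψ₁, J₁, fun J hJ F A hA e B N z u hD b k hk w hw =>
    k1 J hJ (b, k, w) (by simp [hk, hw]) F A hA e B N z u hD⟩

/-- Normals of two times. -/
theorem evt_N (H : Hyp2 S δ γ c' s c₂' s₂) (W : Finset ℚ) {h : ℝ} (hh : 0 < h) :
    ∃ ψ > 0, ∃ J₁ : ℕ, ∀ J ≥ J₁, ForD S δ γ c' s c₂' s₂ (fun ψ {J} F A _ _ _ z =>
      ∀ b, ∀ k < M, ∀ w ∈ W, ∀ w' ∈ W, ∀ (i : Fin m) (x : ℕ), h * J ≤ x →
        (∀ ω, On F A ω → 2 ^ x ≤ (z b k w).fs (z b k w') ω i) →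
        Pe (dbl (Pool.Agent.H49.Ent.cond F.p A True) (slam F (win J w))) (fun u =>
          ∀ j l, |(z b k w).fA (z b k w') u.1 i j * (z b k w).fA (z b k w') u.2 i l -
            (z b k w).fA (z b k w') u.1 i l * (z b k w).fA (z b k w') u.2 i j| ≤ 1 / 2 ^ x) ≤
          Real.exp (-(ψ * J))) ψ J := by
  classical
  obtain ⟨ψ₁, hψ₁, J₁, k1⟩ := com_finset (Finset.univ ×ˢ (range M ×ˢ (W ×ˢ W)))
    (P := fun (y : Bool × ℕ × ℚ × ℚ) ψ J => ForD S δ γ c' s c₂' s₂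
      (fun ψ {J} F A _ _ _ z => ∀ (i : Fin m) (x : ℕ), h * J ≤ x →
        (∀ ω, On F A ω → 2 ^ x ≤
          (z y.1 y.2.1 y.2.2.1).fs (z y.1 y.2.1 y.2.2.2) ω i) →
        Pe (dbl (Pool.Agent.H49.Ent.cond F.p A True) (slam F (win J y.2.2.1))) (fun u =>
          ∀ j l, |(z y.1 y.2.1 y.2.2.1).fA (z y.1 y.2.1 y.2.2.2) u.1 i j *
            (z y.1 y.2.1 y.2.2.1).fA (z y.1 y.2.1 y.2.2.2) u.2 i l -
            (z y.1 y.2.1 y.2.2.1).fA (z y.1 y.2.1 y.2.2.2) u.1 i l *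
            (z y.1 y.2.1 y.2.2.1).fA (z y.1 y.2.1 y.2.2.2) u.2 i j| ≤ 1 / 2 ^ x) ≤
          Real.exp (-(ψ * J))) ψ J)
    (fun y ψ ψ' J hψ => ForD.anti (fun _ _ hψ J F A e B N z h5 i x a1 a2 =>
      (h5 i x a1 a2).trans (exp_anti hψ J)) ψ ψ' J hψ)
    (fun y hy => by
      obtain ⟨b, k, w, w'⟩ := y
      have hy' : k < M ∧ w ∈ W ∧ w' ∈ W := by simpa using hy
      obtain ⟨ψ, hψ, J₁, h1⟩ := dbl_N H.one b hy'.1 w w' h hh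
      exact ⟨ψ, hψ, J₁, fun J hJ F A hA e B N z u hD i x a1 a2 =>
        h1 J hJ F A hA e B N z u hD.one i x a1 a2⟩)
  exact ⟨ψ₁, hψ₁, J₁, fun J hJ F A hA e B N z u hD b k hk w hw w' hw' =>
    k1 J hJ (b, k, w, w') (by simp [hk, hw, hw']) F A hA e B N z u hD⟩

/-- Long directions of two times. -/
theorem evt_V (H : Hyp2 S δ γ c' s c₂' s₂) (W : Finset ℚ) (hm : 2 ≤ m) {h : ℝ} (hh : 0 < h) :
    ∃ ψ > 0, ∃ J₁ : ℕ, ∀ J ≥ J₁, ForD S δ γ c' s c₂' s₂ (fun ψ {J} F A _ _ _ z =>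
      ∀ b, ∀ k < M, ∀ w ∈ W, ∀ w' ∈ W, ∀ (i : Fin m) (x : ℕ), h * J ≤ x →
        (∀ ω, On F A ω → ∀ j, j ≠ i → 2 ^ x ≤ (z b k w).fs (z b k w') ω j) →
        Pe (dbl (Pool.Agent.H49.Ent.cond F.p A True) (slam F (win J w))) (fun u =>
          ∀ j l, |(z b k w).fA' (z b k w') u.1 j i * (z b k w).fA' (z b k w') u.2 l i -
            (z b k w).fA' (z b k w') u.1 l i * (z b k w).fA' (z b k w') u.2 j i| ≤
              1 / 2 ^ x) ≤ Real.exp (-(ψ * J))) ψ J := by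
  classical
  obtain ⟨ψ₁, hψ₁, J₁, k1⟩ := com_finset (Finset.univ ×ˢ (range M ×ˢ (W ×ˢ W)))
    (P := fun (y : Bool × ℕ × ℚ × ℚ) ψ J => ForD S δ γ c' s c₂' s₂
      (fun ψ {J} F A _ _ _ z => ∀ (i : Fin m) (x : ℕ), h * J ≤ x →
        (∀ ω, On F A ω → ∀ j, j ≠ i → 2 ^ x ≤
          (z y.1 y.2.1 y.2.2.1).fs (z y.1 y.2.1 y.2.2.2) ω j) →
        Pe (dbl (Pool.Agent.H49.Ent.cond F.p A True) (slam F (win J y.2.2.1))) (fun u =>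
          ∀ j l, |(z y.1 y.2.1 y.2.2.1).fA' (z y.1 y.2.1 y.2.2.2) u.1 j i *
            (z y.1 y.2.1 y.2.2.1).fA' (z y.1 y.2.1 y.2.2.2) u.2 l i -
            (z y.1 y.2.1 y.2.2.1).fA' (z y.1 y.2.1 y.2.2.2) u.1 l i *
            (z y.1 y.2.1 y.2.2.1).fA' (z y.1 y.2.1 y.2.2.2) u.2 j i| ≤ 1 / 2 ^ x) ≤
          Real.exp (-(ψ * J))) ψ J)
    (fun y ψ ψ' J hψ => ForD.anti (fun _ _ hψ J F A e B N z h5 i x a1 a2 =>
      (h5 i x a1 a2).trans (exp_anti hψ J)) ψ ψ' J hψ)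
    (fun y hy => by
      obtain ⟨b, k, w, w'⟩ := y
      have hy' : k < M ∧ w ∈ W ∧ w' ∈ W := by simpa using hy
      obtain ⟨ψ, hψ, J₁, h1⟩ := dbl_V H.one b hy'.1 w w' hm h hh
      exact ⟨ψ, hψ, J₁, fun J hJ F A hA e B N z u hD i x a1 a2 =>
        h1 J hJ F A hA e B N z u hD.one i x a1 a2⟩)
  exact ⟨ψ₁, hψ₁, J₁, fun J hJ F A hA e B N z u hD b k hk w hw w' hw' =>
    k1 J hJ (b, k, w, w') (by simp [hk, hw, hw']) F A hA e B N z u hD⟩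

end

end Pool.NB
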