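import Pool.Agent.H69.NB.GoodU

/-!
# The families of the class are good: the conclusion
-/

set_option autoImplicit false

namespace Pool.NB

open Finset Real
open Pool.Agent.H49.Ent Pool.Agent.H32.Dense Pool.STK Pool.KA Pool.K2S Pool.PB Pool.KSAT
open Pool.PC (On Cnt DetA pt Dec Bar Evt lex)

variable {m J : ℕ}

section

variable {M : ℕ} {Λ' : Lbs m M} {c' : ℕ → Crd Λ'} {c₂' : ℕ → Crd ((CL m M).prod Λ')} {δ γ : ℝ}
  {S : PCl m} {s s₂ : ℕ → ℝ}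

/-- **Good families.** -/
theorem good_of (H : Hyp2 S δ γ c' s c₂' s₂) (W : Finset ℚ) (hW : ∀ w ∈ W, w ≤ 1) :
    ∀ h : ℝ, 0 < h → ∃ ψ > 0, ψ < 1 ∧ ∃ J₁ : ℕ, ∀ J ≥ J₁,
    ∀ (F : Fam m J) (A : F.Ω → Prop), S.St ψ J F A → ∀ (e : ℕ) (B : ℕ → Bx F) (N : ℕ → ℝ)
      (z : Bool → ℕ → ℚ → Bx F) (u : Λ'.T F), Dat3 δ γ c' s c₂' s₂ ψ F A e B N z u →
      ∃ A₁ : F.Ω → Prop, (∀ ω, A₁ ω → A ω) ∧ S.St (ψ + ψ) J F A₁ ∧
        Pe F.p (fun ω => A ω ∧ ¬ A₁ ω) ≤ Real.exp (-(ψ * J)) * Pe F.p A ∧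
        Good (M := M) δ γ s s₂ W h ψ F A₁ e B N z u := by
  intro h hh
  obtain ⟨ψa, hψa, Ja, ka⟩ := bad_small H hW hh
  obtain ⟨ψb, hψb, Jb, kb⟩ := num_all H W hh
  obtain ⟨ψc, hψc, Jc, kc⟩ := evt_act H hh
  obtain ⟨ψd, hψd, Jd, kd⟩ := evt_exa H hh
  obtain ⟨ψe, hψe, Je, ke⟩ := evt_max H W hh
  obtain ⟨ψf, hψf, Jf, kf⟩ := evt_N H W hh
  obtain ⟨ψg, hψg, Jg, kg⟩ : ∃ ψ > 0, ∃ J₁ : ℕ, ∀ J ≥ J₁, 2 ≤ m →
      ForD S δ γ c' s c₂' s₂ (fun ψ {J} F A _ _ _ z =>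
      ∀ b, ∀ k < M, ∀ w ∈ W, ∀ w' ∈ W, ∀ (i : Fin m) (x : ℕ), h * J ≤ x →
        (∀ ω, On F A ω → ∀ j, j ≠ i → 2 ^ x ≤ (z b k w).fs (z b k w') ω j) →
        Pe (dbl (Pool.Agent.H49.Ent.cond F.p A True) (slam F (win J w))) (fun u =>
          ∀ j l, |(z b k w).fA' (z b k w') u.1 j i * (z b k w).fA' (z b k w') u.2 l i -
            (z b k w).fA' (z b k w') u.1 l i * (z b k w).fA' (z b k w') u.2 j i| ≤
              1 / 2 ^ x) ≤ Real.exp (-(ψ * J))) ψ J := by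
    by_cases hm : 2 ≤ m
    · obtain ⟨ψ, hψ, J₁, h1⟩ := evt_V H W hm hh
      exact ⟨ψ, hψ, J₁, fun J hJ _ => h1 J hJ⟩
    · exact ⟨1, one_pos, 0, fun _ _ h => absurd h hm⟩
  obtain ⟨J₀, hJ₀⟩ := good_evt (m := m) (badT m M W) hψa
  obtain ⟨ψ, hψ, q1, qa, qb, qc, qd, qe, qf, qg⟩ : ∃ ψ > 0, ψ < 1 ∧ ψ + ψ ≤ ψa ∧
      ψ + ψ ≤ ψb ∧ ψ + ψ ≤ ψc ∧ ψ + ψ ≤ ψd ∧ ψ + ψ ≤ ψe ∧ ψ + ψ ≤ ψf ∧ ψ + ψ ≤ ψg := by
    obtain ⟨x, hx⟩ : ∃ x, x = min (min (min ψa ψb) (min ψc ψd))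
      (min (min ψe ψf) (min ψg 1)) := ⟨_, rfl⟩
    have hx0 : 0 < x := by
      rw [hx]
      exact lt_min (lt_min (lt_min hψa hψb) (lt_min hψc hψd))
        (lt_min (lt_min hψe hψf) (lt_min hψg one_pos))
    have hx1 : x ≤ 1 := by
      rw [hx]
      exact (min_le_right _ _).trans ((min_le_right _ _).trans (min_le_right _ _))
    refine ⟨x / 2, half_pos hx0, by linarith, ?_⟩
    rw [add_halves]
    refine ⟨?_, ?_, ?_, ?_, ?_, ?_, ?_⟩ <;> rw [hx]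
    · exact (min_le_left _ _).trans ((min_le_left _ _).trans (min_le_left _ _))
    · exact (min_le_left _ _).trans ((min_le_left _ _).trans (min_le_right _ _))
    · exact (min_le_left _ _).trans ((min_le_right _ _).trans (min_le_left _ _))
    · exact (min_le_left _ _).trans ((min_le_right _ _).trans (min_le_right _ _))
    · exact (min_le_right _ _).trans ((min_le_left _ _).trans (min_le_left _ _))
    · exact (min_le_right _ _).trans ((min_le_left _ _).trans (min_le_right _ _))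
    · exact (min_le_right _ _).trans ((min_le_right _ _).trans (min_le_left _ _))
  obtain ⟨J₂, hJ₂⟩ := exists_nat_gt (1 / ψ)
  refine ⟨ψ, hψ, q1, Ja + Jb + Jc + Jd + Je + Jf + Jg + J₀ + J₂,
    fun J hJ F A hA e B N z u hD => ?_⟩
  have hJr : (0 : ℝ) ≤ J := Nat.cast_nonneg J
  have hpA := H.one.pos _ J F A hA
  obtain ⟨A₁, hiff, hsm, hhalf⟩ := hJ₀ J (by omega) F A (badI M γ s₂ h F z) hpA
    (fun x hx => small_of_not fun E hE =>
      ka J (by omega) x hx F A (S.mono (by linarith) hA) e B N z u (hD.mono (by linarith)) E hE)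
  have hsub : ∀ ω, A₁ ω → A ω := fun ω hω => ((hiff ω).1 hω).1
  have hbad : ∀ x ∈ badT m M W, ∀ ω, A₁ ω → ¬ badI M γ s₂ h F z x ω :=
    fun x hx ω hω => ((hiff ω).1 hω).2 x hx
  have hSt : S.St (ψ + ψ) J F A₁ := by
    refine S.res hψ.le hA (fun ω hω => hsub ω hω) ?_
    have e1 : 1 ≤ ψ * J := by
      have h5 := hJ₂.trans_le (Nat.cast_le.2 (show J₂ ≤ J by omega) : (J₂ : ℝ) ≤ J)
      rw [div_lt_iff₀ hψ] at h5
      linarith
    have e2 : Real.exp (-(ψ * J)) ≤ 1 / 2 := by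
      have h6 := Real.add_one_le_exp (ψ * J)
      rw [Real.exp_neg, ← one_div]
      exact div_le_div_of_nonneg_left zero_le_one (by norm_num) (by linarith)
    have e3 := mul_le_mul_of_nonneg_right e2 hpA.le
    linarith
  have hD1 := (hD.mono (show ψ ≤ ψ + ψ by linarith)).sub hsub
  have hmo : ∀ {x : ℝ}, ψ + ψ ≤ x → S.St x J F A₁ ∧ Dat3 δ γ c' s c₂' s₂ x F A₁ e B N z u :=
    fun hx => ⟨S.mono hx hSt, hD1.mono hx⟩
  obtain ⟨b1, b2, b3, b4, b5⟩ := kb J (by omega) F A₁ (hmo qb).1 e B N z u (hmo qb).2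
  have hev : ∀ {x : ℝ}, ψ + ψ ≤ x → ∀ E, Evt F A₁ ψ E → Evt F A₁ x E := fun hx E hE =>
    hE.mono (by linarith)
  refine ⟨A₁, hsub, hSt, hsm.trans (mul_le_mul_of_nonneg_right (exp_anti (by linarith) J)
    hpA.le), ?_⟩
  have hclo := fun b k (hk : k < M) w => hD1.one.clo b hk w
  have hlow : ∀ b, ∀ k < M, ∀ w ∈ W, ∀ w' ∈ W, ∀ (i : Fin m) (x : ℕ),
      (x : ℝ) ≤ (nf s₂ b k w w' i - h) * J → ∀ ω, On F A₁ ω →
        2 ^ x ≤ (z b k w).fs (z b k w') ω i := by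
    intro b k hk w hw w' hw' i x hx ω hω
    have h5 := b3 b k hk w hw w' hw' i ω hω
    have hσ := ((z b k w).rel (hclo b k hk w).1 (hclo b k hk w').1 hω).pos i
    have h6 := hx.trans h5
    rw [Real.le_logb_iff_rpow_le (by norm_num) hσ, Real.rpow_natCast] at h6
    exact h6
  refine
    { chn := hD1.one.chn
      val := hD1.one.val
      err := b4
      pri := b5
      act := fun k hk E hE => kc J (by omega) F A₁ (hmo qc).1 e B N z u (hmo qc).2 k hk E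
        (hev qc E hE)
      exa := fun k hk E hE => kd J (by omega) F A₁ (hmo qd).1 e B N z u (hmo qd).2 k hk E
        (hev qd E hE)
      ok := fun b k hk w => (hclo b k hk w).1
      clo := fun b k hk w => (hclo b k hk w).2.1
      vis := fun k hk w => (hclo true k hk w).2.2.1 rfl
      sup := fun b k hk w => (hclo b k hk w).2.2.2
      num := b1
      nuB := b2
      win := ?_
      lev := ?_
      hid := ?_
      fal := ?_
      max := fun b k hk w hw E hE f r h' a1 a2 a3 a4 a5 a6 =>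
        ke J (by omega) F A₁ (hmo qe).1 e B N z u (hmo qe).2 b k hk w hw E (hev qe E hE) f r h'
          a1 a2 a3 (a4.trans (mul_le_mul_of_nonneg_right (by linarith) hJr)) a5 a6
      dbN := fun b k hk w hw w' hw' i x a1 a2 =>
        (kf J (by omega) F A₁ (hmo qf).1 e B N z u (hmo qf).2 b k hk w hw w' hw' i x a1
          (hlow b k hk w hw w' hw' i x a2)).trans (exp_anti (by linarith) J)
      dbV := fun b k hk w hw w' hw' i x hm a1 a2 =>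
        (kg J (by omega) hm F A₁ (hmo qg).1 e B N z u (hmo qg).2 b k hk w hw w' hw' i x a1
          (fun ω hω j hj => hlow b k hk w hw w' hw' j x (a2 j hj) ω hω)).trans
            (exp_anti (by linarith) J) }
  · intro b k hk w hw w' hw' hww ω hω v hv
    have h5 := hbad (.inl (b, k, w, w')) (by unfold badT; simp [hk, hw, hw']) ω hω.2
    by_contra hcon
    exact h5 ⟨hww, v, hv, hcon⟩
  · intro b k hk w hw ω hω v hv
    have h5 := hbad (.inr (.inl (b, k, w))) (by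
      unfold badT
      simp [show k < M by omega, hw]) ω hω.2
    by_contra hcon
    exact h5 ⟨hk, v, hv, hcon⟩
  · intro k hk w hw ω hω v hv
    have h5 := hbad (.inr (.inr (.inl (k, w)))) (by unfold badT; simp [hk, hw]) ω hω.2
    by_contra hcon
    exact h5 ⟨v, hv, hcon⟩
  · intro b k hk w hw w' hw' i ω hω
    have h5 := hbad (.inr (.inr (.inr (b, k, w, w', i)))) (by
      unfold badT
      simp [hk, hw, hw']) ω hω.2
    have h6 : ¬ (nf s₂ b k w w' i + h) * J ≤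
      Real.logb 2 ((z b k w).fs (z b k w') ω i) := h5
    push Not at h6
    have h7 := b3 b k hk w hw w' hw' i ω hω
    rw [abs_le]
    constructor
    · nlinarith only [h7]
    · nlinarith only [h6]

/-- **The class.** -/
theorem good_thm {δ γ : ℝ} (hδ : 0 < δ) (hγ : 0 < γ) (c' : ℕ → Crd Λ')
    (c₂' : ℕ → Crd ((CL m M).prod Λ')) {S : PCl m} (hS : S.Ne)
    (hpos : ∀ (τ : ℝ) (J : ℕ) (F : Fam m J) (A : F.Ω → Prop), S.St τ J F A → 0 < Pe F.p A) :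
    ∃ (s s₂ : ℕ → ℝ) (S₁ : PCl m), S₁.Ne ∧
      (∀ (τ : ℝ) (J : ℕ) (F : Fam m J) (A : F.Ω → Prop), S₁.St τ J F A → S.St τ J F A) ∧
      Hyp2 S₁ δ γ c' s c₂' s₂ ∧
      ∀ τ : ℝ, 0 < τ → τ < 1 → ∃ J₁ : ℕ, ∀ J ≥ J₁, ∀ (F : Fam m J) (A : F.Ω → Prop),
        S₁.St τ J F A → ∃ e B N z u, Dat3 δ γ c' s c₂' s₂ τ F A e B N z u := by
  obtain ⟨s, h1, h0, h4, h2, h3, -⟩ := box_thm (Λ := (CL m M).prod Λ') hδ hγ (cseq c') hS hpos
  obtain ⟨s₂, k1, k0, k2, k3⟩ := lex2 (cseq2 c₂') h0 h4 h2 hpos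
  refine ⟨s, s₂, _, k2, fun τ J F A hA => hA.1.1, ⟨hδ, hγ, ⟨h0, fun i => ?_, fun τ J F A hA =>
    hpos τ J F A hA.1.1⟩, h4, k0, fun i => ?_⟩, fun τ hτ hτ1 => ?_⟩
  · intro h hh
    obtain ⟨ψ, hψ, J₁, k⟩ := h3 i h hh
    exact ⟨ψ, hψ, J₁, fun J hJ F A hA => k J hJ F A hA.1.1⟩
  · intro h hh
    obtain ⟨ψ, hψ, J₁, k⟩ := k3 i h hh
    exact ⟨ψ, hψ, J₁, fun J hJ F A hA => k J hJ F A hA.1⟩
  · obtain ⟨J₁, k⟩ := dt2_of (S := S) (δ := δ) (γ := γ) (c := cseq c') (s := s)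
      (c₂ := cseq2 c₂') k0 hτ hτ1
    refine ⟨J₁, fun J hJ F A hA => ?_⟩
    obtain ⟨e, B, N, ⟨z, u⟩, hD⟩ := k J hJ F A hA
    exact ⟨e, B, N, z, u, hD⟩

end

end Pool.NB
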