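import Pool.Agent.H69.NB.NstD

/-!
# The second stage of the lexicographic thresholds

The data of the first stage are fixed up to their defect, which is the coordinate `0` of the second
decoration; then come further coordinates of the same chain and labels.
-/

set_option autoImplicit false

namespace Pool.NB

open Finset Real
open Pool.Agent.H49.Ent Pool.Agent.H32.Dense Pool.STK Pool.KA Pool.K2S Pool.PB Pool.KSAT
open Pool.PC (On Cnt DetA pt Dec Bar Evt lex)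

variable {m : ℕ}

section

variable {M : ℕ} {Λ : Lbs m M}

/-- Lower bounds of the second stage. -/
noncomputable def lo2 (c₂ : ℕ → Crd Λ) (i : ℕ) : ℝ := if i = 0 then -1 else (c₂ (i - 1)).lo

/-- Upper bounds of the second stage. -/
noncomputable def up2 (c₂ : ℕ → Crd Λ) (i : ℕ) : ℝ := if i = 0 then 0 else (c₂ (i - 1)).up

theorem lo2_succ (c₂ : ℕ → Crd Λ) (i : ℕ) : lo2 c₂ (i + 1) = (c₂ i).lo := by
  unfold lo2
  rw [if_neg (Nat.succ_ne_zero i)]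
  rfl

theorem up2_succ (c₂ : ℕ → Crd Λ) (i : ℕ) : up2 c₂ (i + 1) = (c₂ i).up := by
  unfold up2
  rw [if_neg (Nat.succ_ne_zero i)]
  rfl

/-- **The second decoration.** -/
noncomputable def bdec2 (δ γ : ℝ) (c : ℕ → Crd Λ) (s : ℕ → ℝ) (c₂ : ℕ → Crd Λ) : Dec m where
  Q v J F A := ∃ (e : ℕ) (B : ℕ → Bx F) (N : ℕ → ℝ) (t : Λ.T F),
    Chn F A M (gp γ J) e B N ∧ Λ.Val F A (gp γ J) e B N t ∧
    (v 0 ≤ -1 ∨ Dat δ γ c s (-(v 0)) F A e B N t) ∧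
    ∀ i, v (i + 1) ≤ (c₂ i).lo ∨ (c₂ i).At F A (gp γ J) e B N t (v (i + 1))
  lo i := lo2 c₂ i
  up i := up2 c₂ i
  her := by
    rintro v J F A A' hA ⟨e, B, N, t, h1, h0, h3, h2⟩
    exact ⟨e, B, N, t, h1.sub hA, Λ.sub hA h0, h3.imp id fun h => h.sub hA,
      fun i => (h2 i).imp id fun h => (c₂ i).sub hA h⟩
  anti := by
    rintro v v' J F A hv ⟨e, B, N, t, h1, h0, h3, h2⟩
    exact ⟨e, B, N, t, h1, h0, h3.imp (fun h => (hv 0).trans h) fun h => h.mono (neg_le_neg (hv 0)),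
      fun i => (h2 i).imp (fun h => (hv _).trans h) fun h => (c₂ i).anti (hv _) h⟩
  bnd := by
    rintro v J F A ⟨e, B, N, t, h1, h0, h3, h2⟩
    refine ⟨e, B, N, t, h1, h0, ?_, fun i => ?_⟩
    · show max (v 0) (lo2 c₂ 0) ≤ -1 ∨ Dat δ γ c s (-(max (v 0) (lo2 c₂ 0))) F A e B N t
      have e1 : lo2 c₂ 0 = -1 := if_pos rfl
      rw [e1]
      rcases le_total (v 0) (-1) with h | h
      · rw [max_eq_right h]
        exact Or.inl le_rfl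
      · rw [max_eq_left h]
        exact h3
    · show max (v (i + 1)) (lo2 c₂ (i + 1)) ≤ (c₂ i).lo ∨ (c₂ i).At F A (gp γ J) e B N t
        (max (v (i + 1)) (lo2 c₂ (i + 1)))
      rw [lo2_succ]
      rcases le_total (v (i + 1)) (c₂ i).lo with h | h
      · rw [max_eq_right h]
        exact Or.inl le_rfl
      · rw [max_eq_left h]
        exact h2 i

/-- The data of one family in the second stage. -/
def Dt2 {J : ℕ} (δ γ : ℝ) (c : ℕ → Crd Λ) (s : ℕ → ℝ) (c₂ : ℕ → Crd Λ) (s₂ : ℕ → ℝ) (ψ : ℝ)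
    (F : Fam m J) (A : F.Ω → Prop) (e : ℕ) (B : ℕ → Bx F) (N : ℕ → ℝ) (t : Λ.T F) : Prop :=
  Dat δ γ c s ψ F A e B N t ∧
    ∀ i : ℕ, ((i : ℝ) + 2) * ψ ≤ 1 → (c₂ i).At F A (gp γ J) e B N t (s₂ (i + 1) - ψ)

theorem Dt2.mono {J : ℕ} {δ γ : ℝ} {c : ℕ → Crd Λ} {s : ℕ → ℝ} {c₂ : ℕ → Crd Λ}
    {s₂ : ℕ → ℝ} {ψ ψ' : ℝ} {F : Fam m J} {A : F.Ω → Prop} {e : ℕ} {B : ℕ → Bx F} {N : ℕ → ℝ}
    {t : Λ.T F} (h : Dt2 δ γ c s c₂ s₂ ψ F A e B N t) (hψ : ψ ≤ ψ') :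
    Dt2 δ γ c s c₂ s₂ ψ' F A e B N t :=
  ⟨h.1.mono hψ, fun i hi => (c₂ i).anti (by linarith)
    (h.2 i (le_trans (mul_le_mul_of_nonneg_left hψ (by positivity)) hi))⟩

theorem Dt2.sub {J : ℕ} {δ γ : ℝ} {c : ℕ → Crd Λ} {s : ℕ → ℝ} {c₂ : ℕ → Crd Λ}
    {s₂ : ℕ → ℝ} {ψ : ℝ} {F : Fam m J} {A E : F.Ω → Prop} {e : ℕ} {B : ℕ → Bx F} {N : ℕ → ℝ}
    {t : Λ.T F} (h : Dt2 δ γ c s c₂ s₂ ψ F A e B N t) (hE : ∀ ω, E ω → A ω) :
    Dt2 δ γ c s c₂ s₂ ψ F E e B N t :=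
  ⟨h.1.sub hE, fun i hi => (c₂ i).sub hE (h.2 i hi)⟩

/-- **The thresholds of the second stage.** -/
theorem lex2 {δ γ : ℝ} {c : ℕ → Crd Λ} {s : ℕ → ℝ} (c₂ : ℕ → Crd Λ) {S : PCl m}
    (hs0 : s 0 = 0) (hs : ∀ k < M, 0 ≤ s (k + 1))
    (hne : (S.sl ((bdec δ γ c).sld s)).Ne)
    (hpos : ∀ (τ : ℝ) (J : ℕ) (F : Fam m J) (A : F.Ω → Prop), S.St τ J F A → 0 < Pe F.p A) :
    ∃ s₂ : ℕ → ℝ, (∀ i, (c₂ i).lo ≤ s₂ (i + 1) ∧ s₂ (i + 1) ≤ (c₂ i).up) ∧ s₂ 0 = 0 ∧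
      ((S.sl ((bdec δ γ c).sld s)).sl ((bdec2 δ γ c s c₂).sld s₂)).Ne ∧
      ∀ i, Bar (S.sl ((bdec δ γ c).sld s)) (bdec2 δ γ c s c₂) i s₂ := by
  obtain ⟨s₂, h1, h2, h3⟩ := lex (S.sl ((bdec δ γ c).sld s)) (bdec2 δ γ c s c₂) hne (by
    refine Clp.of one_pos 0 fun J _ F A _ => ⟨lo2 c₂, ?_⟩
    have h1 := Chn.triv F A (M := M) (gp γ J) 0
    obtain ⟨t, ht⟩ := Λ.triv h1
    exact ⟨_, _, _, t, h1, ht, Or.inl (le_of_eq (if_pos rfl)),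
      fun i => Or.inl (le_of_eq (lo2_succ c₂ i))⟩) (by
    intro i
    refine Clp.of one_pos 1 fun J hJ F A hA v hv => ?_
    have hon : ∃ ω, On F A ω := Pool.PC.exists_on (hpos _ J F A hA.1)
    have hJ' : (0 : ℝ) < J := Nat.cast_pos.2 hJ
    obtain ⟨e, B, N, t, h1, h0, h3, h2⟩ := hv
    show v i ≤ up2 c₂ i
    rcases Nat.eq_zero_or_pos i with hi | hi
    · rw [hi, show up2 c₂ 0 = 0 from if_pos rfl]
      rcases h3 with h3 | h3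
      · linarith
      · by_contra hcon
        push Not at hcon
        have h4 := h3.2.2 0 (by
          rw [Nat.cast_zero]
          linarith)
        rw [knd_zero] at h4
        have h5 : (e : ℝ) ≤ -((s 0 - -(v 0)) * J) := h4
        rw [hs0] at h5
        have h6 : (0 : ℝ) ≤ e := Nat.cast_nonneg e
        have h7 := mul_pos hcon hJ'
        linarith
    · obtain ⟨i, rfl⟩ : ∃ i', i = i' + 1 := ⟨i - 1, by omega⟩
      rw [up2_succ]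
      rcases h2 i with h | h
      · exact h.trans (c₂ i).lo_le
      · exact (c₂ i).high h1 h0 hJ hon h)
  have h4 : ∀ i, lo2 c₂ i ≤ s₂ i ∧ s₂ i ≤ up2 c₂ i := h1
  refine ⟨s₂, fun i => ?_, ?_, h2, h3⟩
  · have := h4 (i + 1)
    rwa [lo2_succ, up2_succ] at this
  · have h5 := h4 0
    rw [show lo2 c₂ 0 = -1 from if_pos rfl, show up2 c₂ 0 = 0 from if_pos rfl] at h5
    by_contra hcon
    have h6 : s₂ 0 < 0 := lt_of_le_of_ne h5.2 hcon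
    obtain ⟨ψ, hψ, J₁, k1⟩ := h3 0 (-(s₂ 0) / 2) (by linarith)
    obtain ⟨J₂, k2⟩ := dat_of (S := S) (δ := δ) (γ := γ) (c := c) hs0 hs
      (show 0 < -(s₂ 0) / 2 by linarith) (show -(s₂ 0) / 2 < 1 by linarith)
    obtain ⟨J, hJ, F, A, hA⟩ := hne (min ψ (-(s₂ 0) / 2)) (lt_min hψ (by linarith))
      (max J₁ J₂)
    obtain ⟨e, B, N, t, hD⟩ := k2 J ((le_max_right _ _).trans hJ) F A
      ((S.sl ((bdec δ γ c).sld s)).mono (min_le_right _ _) hA)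
    refine k1 J ((le_max_left _ _).trans hJ) F A
      ((S.sl ((bdec δ γ c).sld s)).mono (min_le_left _ _) hA) A (fun _ h => h)
      (Evt.refl hψ.le).2
      (fun i => if i = 0 then s₂ 0 / 2 else lo2 c₂ i)
      (fun j hj => absurd hj (Nat.not_lt_zero j)) ?_
      ⟨e, B, N, t, hD.1, hD.2.1, Or.inr ?_, fun i => Or.inl ?_⟩
    · show s₂ 0 + -(s₂ 0) / 2 ≤ if (0 : ℕ) = 0 then s₂ 0 / 2 else lo2 c₂ 0
      rw [if_pos rfl]
      linarith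
    · show Dat δ γ c s (-(if (0 : ℕ) = 0 then s₂ 0 / 2 else lo2 c₂ 0)) F A e B N t
      rw [if_pos rfl]
      have e1 : -(s₂ 0 / 2) = -(s₂ 0) / 2 := by ring
      rw [e1]
      exact hD
    · show (if i + 1 = 0 then s₂ 0 / 2 else lo2 c₂ (i + 1)) ≤ (c₂ i).lo
      rw [if_neg (Nat.succ_ne_zero i), lo2_succ]

/-- The families of the second subclass have such data. -/
theorem dt2_of {δ γ : ℝ} {c : ℕ → Crd Λ} {s : ℕ → ℝ} {c₂ : ℕ → Crd Λ} {s₂ : ℕ → ℝ}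
    {S : PCl m} (h0 : s₂ 0 = 0) {τ : ℝ} (hτ : 0 < τ) (hτ1 : τ < 1) : ∃ J₁ : ℕ, ∀ J ≥ J₁,
    ∀ (F : Fam m J) (A : F.Ω → Prop),
      ((S.sl ((bdec δ γ c).sld s)).sl ((bdec2 δ γ c s c₂).sld s₂)).St τ J F A →
      ∃ e B N t, Dt2 δ γ c s c₂ s₂ τ F A e B N t := by
  obtain ⟨J₁, hJ₁⟩ : ∃ J₁ : ℕ, ∀ j : ℕ, j ≤ ⌊1 / τ⌋₊ → (c₂ j).J₀ ≤ J₁ := by
    refine ⟨∑ j ∈ range (⌊1 / τ⌋₊ + 1), (c₂ j).J₀, fun j hj => ?_⟩
    exact Finset.single_le_sum (f := fun j => (c₂ j).J₀) (fun _ _ => Nat.zero_le _)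
      (Finset.mem_range.2 (by omega))
  refine ⟨J₁, fun J hJ F A hA => ?_⟩
  obtain ⟨-, v, ⟨e, B, N, t, hC, hV, h3, h1⟩, h2⟩ := hA
  have k1 := h2 0 (by rw [Nat.cast_zero]; linarith)
  rw [h0] at k1
  refine ⟨e, B, N, t, ?_, fun i hi => ?_⟩
  · rcases h3 with h3 | h3
    · linarith
    · exact h3.mono (by linarith)
  · have h4 := h2 (i + 1) (by push_cast; linarith)
    rcases h1 i with h5 | h5
    · have hj : i ≤ ⌊1 / τ⌋₊ := by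
        refine Nat.le_floor ?_
        rw [le_div_iff₀ hτ]
        nlinarith
      exact (c₂ i).anti (h4.trans h5) ((c₂ i).low hC hV ((hJ₁ i hj).trans hJ))
    · exact (c₂ i).anti h4 h5

/-- **The coordinates of the second stage are not exceeded** on large events. -/
theorem bar2_at {δ γ : ℝ} {c : ℕ → Crd Λ} {s : ℕ → ℝ} {c₂ : ℕ → Crd Λ} {s₂ : ℕ → ℝ}
    {S : PCl m} (h0 : s₂ 0 = 0) {i : ℕ} (hb : Bar S (bdec2 δ γ c s c₂) (i + 1) s₂) :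
    ∀ h > 0, ∃ ψ > 0, ∃ J₁ : ℕ, ∀ J ≥ J₁,
    ∀ (F : Fam m J) (A : F.Ω → Prop), S.St ψ J F A → ∀ (e : ℕ) (B : ℕ → Bx F) (N : ℕ → ℝ)
      (t : Λ.T F), Dt2 δ γ c s c₂ s₂ ψ F A e B N t → ∀ E : F.Ω → Prop, Evt F A ψ E →
        ¬ (c₂ i).At F E (gp γ J) e B N t (s₂ (i + 1) + h) := by
  intro h hh
  obtain ⟨ψ₀, hψ₀, J₁, h1⟩ := hb h hh
  have hi0 : (0 : ℝ) < (i : ℝ) + 2 := by positivity
  refine ⟨min ψ₀ (1 / ((i : ℝ) + 2)), lt_min hψ₀ (by positivity), J₁,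
    fun J hJ F A hA e B N t hD E hE hcon => ?_⟩
  obtain ⟨ψ, hψd⟩ : ∃ ψ, ψ = min ψ₀ (1 / ((i : ℝ) + 2)) := ⟨_, rfl⟩
  rw [← hψd] at hA hD hE
  have p1 : ψ ≤ ψ₀ := by rw [hψd]; exact min_le_left _ _
  have p2 : ψ ≤ 1 / ((i : ℝ) + 2) := by rw [hψd]; exact min_le_right _ _
  have p0 : 0 < ψ := by rw [hψd]; exact lt_min hψ₀ (by positivity)
  refine h1 J hJ F A (S.mono p1 hA) E hE.1 (hE.mono p1).2
    (fun j => if j = 0 then -ψ else if j < i + 1 then s₂ j - ψ else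
      if j = i + 1 then s₂ (i + 1) + h else lo2 c₂ j)
    (fun j hj => ?_) ?_ ⟨e, B, N, t, hD.1.1.sub hE.1, Λ.sub hE.1 hD.1.2.1, Or.inr ?_,
      fun j => ?_⟩
  · show s₂ j - ψ₀ ≤ if j = 0 then -ψ else if j < i + 1 then s₂ j - ψ else _
    by_cases hj0 : j = 0
    · rw [if_pos hj0, hj0, h0]
      linarith
    · rw [if_neg hj0, if_pos hj]
      linarith
  · show _ ≤ if i + 1 = 0 then -ψ else if i + 1 < i + 1 then _ else
      if i + 1 = i + 1 then s₂ (i + 1) + h else _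
    rw [if_neg (Nat.succ_ne_zero i), if_neg (lt_irrefl _), if_pos rfl]
  · show Dat δ γ c s (-(if (0 : ℕ) = 0 then -ψ else _)) F E e B N t
    rw [if_pos rfl, neg_neg]
    exact hD.1.sub hE.1
  · show (if j + 1 = 0 then -ψ else if j + 1 < i + 1 then s₂ (j + 1) - ψ else
      if j + 1 = i + 1 then s₂ (i + 1) + h else lo2 c₂ (j + 1)) ≤ (c₂ j).lo ∨
      (c₂ j).At F E (gp γ J) e B N t (if j + 1 = 0 then -ψ else if j + 1 < i + 1 then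
        s₂ (j + 1) - ψ else if j + 1 = i + 1 then s₂ (i + 1) + h else lo2 c₂ (j + 1))
    rw [if_neg (Nat.succ_ne_zero j)]
    rcases lt_trichotomy j i with hj | hj | hj
    · rw [if_pos (by omega)]
      refine Or.inr ((c₂ j).sub hE.1 (hD.2 j ?_))
      have e2 : (j : ℝ) ≤ i := Nat.cast_le.2 hj.le
      have e3 : ((j : ℝ) + 2) * ψ ≤ ((i : ℝ) + 2) * (1 / ((i : ℝ) + 2)) :=
        mul_le_mul (by linarith) p2 p0.le (by positivity)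
      refine e3.trans (le_of_eq ?_)
      field_simp
    · subst hj
      rw [if_neg (lt_irrefl _), if_pos rfl]
      exact Or.inr hcon
    · rw [if_neg (by omega), if_neg (by omega), lo2_succ]
      exact Or.inl le_rfl

end

end Pool.NB
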