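import Pool.Agent.H69.NB.Nes

/-!
# No strips in the natural units of a closed box; the class numbers
-/

set_option autoImplicit false

namespace Pool.NB

open Finset Real
open Pool.Agent.H49.Ent Pool.Agent.H32.Dense Pool.STK Pool.KA Pool.K2S Pool.PB Pool.KSAT
open Pool.PC (On Cnt DetA pt Dec Bar Evt lex)

variable {m J : ℕ}

/-- What does not hold on events of cost `ψ` holds only on a small event. -/
theorem small_of_not {F : Fam m J} {A : F.Ω → Prop} {ψ : ℝ} {bad : F.Ω → Prop}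
    (h : ∀ E, Evt F A ψ E → ¬ ∀ ω, On F E ω → bad ω) :
    Pe F.p (fun ω => A ω ∧ bad ω) < Real.exp (-(ψ * J)) * Pe F.p A := by
  by_contra hcon
  push Not at hcon
  exact h _ ⟨fun ω hω => hω.1, hcon⟩ fun ω hω => hω.2.2

/-- A vector with given natural coordinates. -/
theorem Fr.vec {m : ℕ} {o : Equiv.Perm (Fin m)} {g : Fin m → Fin m → ℝ} (h : Fr o g)
    (q : Fin m → ℕ) (i : Fin m) :
    ∃ v : Fin m → ℝ, ∀ j, 2 ^ q j * dot (g j) v = if j = i then 1 else 0 := by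
  obtain ⟨u, hu⟩ := h.dual i
  refine ⟨fun l => (2 ^ q i)⁻¹ * u l, fun j => ?_⟩
  have e : dot (g j) (fun l => (2 ^ q i)⁻¹ * u l) = (2 ^ q i)⁻¹ * dot (g j) u := by
    unfold dot
    rw [Finset.mul_sum]
    exact Finset.sum_congr rfl fun l _ => by ring
  rw [e, hu j]
  by_cases hj : j = i
  · rw [if_pos hj, hj, mul_one, mul_inv_cancel₀ (by positivity)]
  · rw [if_neg hj, mul_zero, mul_zero]

/-- Small vectors are in every box. -/
theorem Bx.Ok.tiny {F : Fam m J} {A : F.Ω → Prop} {B : Bx F} (h : B.Ok A) {ω : F.Ω}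
    (hω : On F A ω) {v : Fin m → ℝ} (hv : ∀ l, |v l| ≤ 1 / 2 ^ (J + m)) : B.In ω 1 v := by
  intro i
  have h1 := abs_dot_le zero_le_one ((h.fr ω hω).bd i) hv
  refine h1.trans ?_
  rw [one_mul, mul_one_div, div_le_div_iff₀ (by positivity) (by positivity), one_mul]
  have h2 := nat_le_two_pow m
  have h3 : (2 : ℝ) ^ B.q i ≤ 2 ^ J := pow_le_pow_right₀ (by norm_num) (h.leJ i)
  calc (m : ℝ) * 2 ^ B.q i ≤ 2 ^ m * 2 ^ J := mul_le_mul h2 h3 (by positivity) (by positivity)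
    _ = 2 ^ (J + m) := by rw [pow_add, mul_comm]

section

variable {M : ℕ} {Λ' : Lbs m M} {c' : ℕ → Crd Λ'} {δ γ : ℝ} {S : PCl m} {s : ℕ → ℝ}

/-- **No strips**: the box of the level is not in a closed strip, in the natural units of the closed
box. -/
theorem ncl (H : Hyp S δ γ c' s) (b : Bool) {k : ℕ} (hk : k < M) (w : ℚ) :
    ∀ h : ℝ, 0 < h → ∃ ψ > 0, ∃ J₁ : ℕ, ∀ J ≥ J₁,
    ∀ (F : Fam m J) (A : F.Ω → Prop), S.St ψ J F A → ∀ (e : ℕ) (B : ℕ → Bx F) (N : ℕ → ℝ)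
      (z : Bool → ℕ → ℚ → Bx F) (u : Λ'.T F), Dat2 δ γ c' s ψ F A e B N z u →
      ∀ E : F.Ω → Prop, Evt F A ψ E → ∀ (lam : F.Ω → Fin m → ℝ) (r x : ℕ),
        DetA F E (slam F (win J w)) lam → (b = true → DetA F E (ptk B k) lam) →
        (∀ ω, On F E ω → ∃ i, |lam ω i| = 1) → (r : ℝ) ≤ ψ * J → h * J ≤ x →
        ¬ ∀ ω, On F E ω → ∀ v, (B k).In ω 1 v →
          |∑ i, lam ω i * (2 ^ (z b k w).q i * dot ((z b k w).g ω i) v)| ≤ 2 ^ r / 2 ^ x := by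
  intro h hh
  obtain ⟨ψ₀, hψ₀, J₁, h1⟩ := clo (w := w) H.s0 b hk (H.bar _) H.pos (h / 2) (half_pos hh)
  obtain ⟨J₂, hJ₂⟩ := exists_nat_gt ((m : ℝ) / (h / 4))
  refine ⟨min ψ₀ (h / 4), lt_min hψ₀ (by positivity), max J₁ J₂,
    fun J hJ F A hA e B N z u hD E hE lam r x hl hlv hl1 hr hx hcon => ?_⟩
  have hJr : (0 : ℝ) ≤ J := Nat.cast_nonneg J
  have hψψ : min ψ₀ (h / 4) ≤ ψ₀ := min_le_left _ _
  obtain ⟨hO, hcl, hvi, hsub⟩ := (hD.sub hE.1).clo b hk w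
  have hC := hD.chn
  have hm : (m : ℝ) ≤ h / 4 * J := by
    have h5 := hJ₂.trans_le (Nat.cast_le.2 ((le_max_right _ _).trans hJ) : (J₂ : ℝ) ≤ J)
    rw [div_lt_iff₀ (by positivity)] at h5
    linarith
  have hr' : (r : ℝ) ≤ h / 4 * J := hr.trans (mul_le_mul_of_nonneg_right (min_le_right _ _) hJr)
  have hrx : r + m ≤ x := by
    have : ((r + m : ℕ) : ℝ) ≤ x := by
      push_cast
      have : 0 ≤ h * (J : ℝ) := by positivity
      linarith
    exact_mod_cast this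
  -- the functional
  obtain ⟨f, hf⟩ : ∃ f : F.Ω → Fin m → ℝ, f = fun ω l =>
      2 ^ (x - (r + m)) * ∑ i, lam ω i * (2 ^ (z b k w).q i * (z b k w).g ω i l) := ⟨_, rfl⟩
  have hfd : ∀ ω v, dot (f ω) v = 2 ^ (x - (r + m)) *
      ∑ i, lam ω i * (2 ^ (z b k w).q i * dot ((z b k w).g ω i) v) := by
    intro ω v
    rw [hf]
    unfold dot
    have e1 : ∀ l, 2 ^ (x - (r + m)) * (∑ i, lam ω i * (2 ^ (z b k w).q i * (z b k w).g ω i l)) *
        v l = ∑ i, 2 ^ (x - (r + m)) * (lam ω i * (2 ^ (z b k w).q i *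
          ((z b k w).g ω i l * v l))) := by
      intro l
      rw [Finset.mul_sum, Finset.sum_mul]
      exact Finset.sum_congr rfl fun i _ => by ring
    rw [Finset.sum_congr rfl fun l _ => e1 l, Finset.sum_comm, Finset.mul_sum]
    refine Finset.sum_congr rfl fun i _ => ?_
    rw [← Finset.mul_sum, ← Finset.mul_sum, ← Finset.mul_sum]
  have hfb : ∀ ω, On F E ω → ∀ v, (B k).In ω 1 v → |dot (f ω) v| ≤ 1 / 2 ^ m := by
    intro ω hω v hv
    rw [hfd, abs_mul, abs_of_pos (by positivity)]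
    refine (mul_le_mul_of_nonneg_left (hcon ω hω v hv) (by positivity)).trans ?_
    rw [mul_div_assoc', div_le_div_iff₀ (by positivity) (by positivity), one_mul, ← pow_add,
      ← pow_add]
    exact pow_le_pow_right₀ (by norm_num) (by omega)
  refine h1 J ((le_max_left _ _).trans hJ) F A (S.mono hψψ hA) e B N (z, u)
    (Dat.mono hD hψψ) E (hE.mono hψψ) f 0 (x - (r + m)) ?_ ?_ ?_ ?_ ?_ ?_ ?_
  · intro ω ω' a a' c
    rw [hf]
    show (fun l => 2 ^ (x - (r + m)) * ∑ i, lam ω i * (2 ^ (z b k w).q i * (z b k w).g ω i l)) =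
      fun l => 2 ^ (x - (r + m)) * ∑ i, lam ω' i * (2 ^ (z b k w).q i * (z b k w).g ω' i l)
    rw [hl ω ω' a a' c, hcl ω ω' a a' c]
  · intro hb' ω ω' a a' c
    rw [hf]
    show (fun l => 2 ^ (x - (r + m)) * ∑ i, lam ω i * (2 ^ (z b k w).q i * (z b k w).g ω i l)) =
      fun l => 2 ^ (x - (r + m)) * ∑ i, lam ω' i * (2 ^ (z b k w).q i * (z b k w).g ω' i l)
    rw [hlv hb' ω ω' a a' c, hvi hb' ω ω' a a' c]
  · intro ω hω l
    have h5 : (B k).In ω 1 (fun l' => if l' = l then 1 / 2 ^ (J + m) else 0) := by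
      refine (hC.ok k hk).tiny ⟨hω.1, hE.1 ω hω.2⟩ fun l' => ?_
      by_cases hl' : l' = l
      · rw [if_pos hl', abs_of_pos (by positivity)]
      · rw [if_neg hl', abs_zero]
        positivity
    have h6 := hfb ω hω _ h5
    have h7 : dot (f ω) (fun l' => if l' = l then 1 / 2 ^ (J + m) else 0) =
        f ω l * (1 / 2 ^ (J + m)) := by
      unfold dot
      rw [Finset.sum_eq_single l]
      · show f ω l * (if l = l then 1 / 2 ^ (J + m) else 0) = _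
        rw [if_pos rfl]
      · intro j _ hj
        show f ω j * (if j = l then 1 / 2 ^ (J + m) else 0) = _
        rw [if_neg hj, mul_zero]
      · intro hcon
        exact absurd (mem_univ _) hcon
    rw [h7, abs_mul, abs_of_pos (show (0 : ℝ) < 1 / 2 ^ (J + m) by positivity),
      mul_one_div, div_le_div_iff₀ (by positivity) (by positivity), one_mul, pow_add] at h6
    exact le_of_mul_le_mul_right h6 (by positivity)
  · rw [Nat.cast_zero]
    positivity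
  · intro ω hω v hv
    rw [pow_zero]
    refine (hfb ω hω v hv).trans ?_
    rw [div_le_one (by positivity)]
    exact one_le_pow₀ (by norm_num)
  · rw [Nat.cast_sub hrx]
    push_cast
    linarith
  · intro ω hω
    obtain ⟨i, hi⟩ := hl1 ω hω
    obtain ⟨v, hv⟩ := (hO.fr ω hω).vec (z b k w).q i
    refine ⟨v, fun j => ?_, ?_⟩
    · show |dot ((z b k w).g ω j) v| ≤ 1 / 2 ^ (z b k w).q j
      rw [le_div_iff₀ (by positivity), mul_comm,
        ← abs_of_pos (show (0 : ℝ) < 2 ^ (z b k w).q j by positivity), ← abs_mul, hv j]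
      by_cases hj : j = i
      · rw [if_pos hj, abs_one]
      · rw [if_neg hj, abs_zero]
        exact zero_le_one
    · show 2 ^ (x - (r + m)) ≤ |dot (f ω) v|
      rw [hfd, Finset.sum_eq_single i]
      · rw [hv i, if_pos rfl, mul_one, abs_mul, hi, mul_one, abs_of_pos (by positivity)]
      · intro j _ hj
        rw [hv j, if_neg hj, mul_zero]
      · intro hcon
        exact absurd (mem_univ _) hcon

/-! ### The class numbers of the precisions -/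

/-- The class number of the precision `i` of the closed box of level `k` at the window `w`. -/
noncomputable def nz (M : ℕ) (s : ℕ → ℝ) (b : Bool) (k : ℕ) (w : ℚ) (i : Fin m) : ℝ :=
  s (idx M (.inr (.inl (b, k, w, i)) : Cod m))

/-- The class number of the precision `i` of the box of level `k`. -/
noncomputable def nb (M : ℕ) (s : ℕ → ℝ) (k : ℕ) (i : Fin m) : ℝ :=
  s (idx M (.inr (.inr (.inl (k, i))) : Cod m))

theorem nz_ge {b : Bool} {ψ : ℝ} {F : Fam m J} {A : F.Ω → Prop} {e : ℕ} {B : ℕ → Bx F} {N : ℕ → ℝ}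
    {z : Bool → ℕ → ℚ → Bx F} {u : Λ'.T F} (h : Dat2 δ γ c' s ψ F A e B N z u) {k : ℕ} (hk : k < M)
    {w : ℚ} {i : Fin m}
    (hi : ((idx M (.inr (.inl (b, k, w, i)) : Cod m) : ℕ) + 1 : ℝ) * ψ ≤ 1) :
    (nz M s b k w i - ψ) * J ≤ (z b k w).q i := by
  have h1 := h.2.2 _ hi
  rw [knd_idx] at h1
  have h2 : if k < M then (nz M s b k w i - ψ) * J ≤ ((z b k w).q i : ℝ) else
    nz M s b k w i - ψ ≤ 0 := h1
  rwa [if_pos hk] at h2

theorem nb_ge {ψ : ℝ} {F : Fam m J} {A : F.Ω → Prop} {e : ℕ} {B : ℕ → Bx F} {N : ℕ → ℝ}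
    {z : Bool → ℕ → ℚ → Bx F} {u : Λ'.T F} (h : Dat2 δ γ c' s ψ F A e B N z u) {k : ℕ} (hk : k < M)
    {i : Fin m} (hi : ((idx M (.inr (.inr (.inl (k, i))) : Cod m) : ℕ) + 1 : ℝ) * ψ ≤ 1) :
    (nb M s k i - ψ) * J ≤ (B k).q i := by
  have h1 := h.2.2 _ hi
  rw [knd_idx] at h1
  have h2 : if k < M then (nb M s k i - ψ) * J ≤ ((B k).q i : ℝ) else
    nb M s k i - ψ ≤ 0 := h1
  rwa [if_pos hk] at h2

/-- **The precisions are the class numbers.** -/
theorem nz_eq (H : Hyp S δ γ c' s) (b : Bool) {k : ℕ} (hk : k < M) (w : ℚ) (i : Fin m) :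
    ∀ h : ℝ, 0 < h → ∃ ψ > 0, ∃ J₁ : ℕ, ∀ J ≥ J₁,
    ∀ (F : Fam m J) (A : F.Ω → Prop), S.St ψ J F A → ∀ (e : ℕ) (B : ℕ → Bx F) (N : ℕ → ℝ)
      (z : Bool → ℕ → ℚ → Bx F) (u : Λ'.T F), Dat2 δ γ c' s ψ F A e B N z u →
      |((z b k w).q i : ℝ) - nz M s b k w i * J| ≤ h * J := by
  intro h hh
  obtain ⟨ψ₀, hψ₀, J₁, h1⟩ := bar_at (H.bar (idx M (.inr (.inl (b, k, w, i)) : Cod m))) h hh
  have hI : (0 : ℝ) < ((idx M (.inr (.inl (b, k, w, i)) : Cod m) : ℕ) + 1 : ℝ) := by positivity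
  refine ⟨min (min ψ₀ h) (1 / ((idx M (.inr (.inl (b, k, w, i)) : Cod m) : ℕ) + 1 : ℝ)),
    lt_min (lt_min hψ₀ hh) (by positivity), J₁, fun J hJ F A hA e B N z u hD => ?_⟩
  have hJr : (0 : ℝ) ≤ J := Nat.cast_nonneg J
  obtain ⟨ψ, hψd⟩ : ∃ ψ, ψ = min (min ψ₀ h)
    (1 / ((idx M (.inr (.inl (b, k, w, i)) : Cod m) : ℕ) + 1 : ℝ)) := ⟨_, rfl⟩
  rw [← hψd] at hA hD
  have e1 : ψ ≤ ψ₀ := by rw [hψd]; exact (min_le_left _ _).trans (min_le_left _ _)
  have e2 : ψ ≤ h := by rw [hψd]; exact (min_le_left _ _).trans (min_le_right _ _)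
  have e3 : ((idx M (.inr (.inl (b, k, w, i)) : Cod m) : ℕ) + 1 : ℝ) * ψ ≤ 1 := by
    have h5 := mul_le_mul_of_nonneg_left (show ψ ≤ 1 /
      ((idx M (.inr (.inl (b, k, w, i)) : Cod m) : ℕ) + 1 : ℝ) by
        rw [hψd]; exact min_le_right _ _) hI.le
    rwa [mul_one_div, div_self hI.ne'] at h5
  have h2 := nz_ge hD hk e3
  have h3 := h1 J hJ F A (S.mono e1 hA) e B N (z, u) (Dat.mono hD e1) A
    (Evt.refl hψ₀.le)
  rw [knd_idx] at h3
  have h4 : ¬ (if k < M then (nz M s b k w i + h) * J ≤ ((z b k w).q i : ℝ) else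
    nz M s b k w i + h ≤ 0) := h3
  rw [if_pos hk] at h4
  push Not at h4
  rw [abs_le]
  constructor
  · nlinarith only [h2, mul_le_mul_of_nonneg_right e2 hJr]
  · nlinarith only [h4]

theorem nb_eq (H : Hyp S δ γ c' s) {k : ℕ} (hk : k < M) (i : Fin m) :
    ∀ h : ℝ, 0 < h → ∃ ψ > 0, ∃ J₁ : ℕ, ∀ J ≥ J₁,
    ∀ (F : Fam m J) (A : F.Ω → Prop), S.St ψ J F A → ∀ (e : ℕ) (B : ℕ → Bx F) (N : ℕ → ℝ)
      (z : Bool → ℕ → ℚ → Bx F) (u : Λ'.T F), Dat2 δ γ c' s ψ F A e B N z u →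
      |((B k).q i : ℝ) - nb M s k i * J| ≤ h * J := by
  intro h hh
  obtain ⟨ψ₀, hψ₀, J₁, h1⟩ := bar_at (H.bar (idx M (.inr (.inr (.inl (k, i))) : Cod m))) h hh
  have hI : (0 : ℝ) < ((idx M (.inr (.inr (.inl (k, i))) : Cod m) : ℕ) + 1 : ℝ) := by positivity
  refine ⟨min (min ψ₀ h) (1 / ((idx M (.inr (.inr (.inl (k, i))) : Cod m) : ℕ) + 1 : ℝ)),
    lt_min (lt_min hψ₀ hh) (by positivity), J₁, fun J hJ F A hA e B N z u hD => ?_⟩
  have hJr : (0 : ℝ) ≤ J := Nat.cast_nonneg J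
  obtain ⟨ψ, hψd⟩ : ∃ ψ, ψ = min (min ψ₀ h)
    (1 / ((idx M (.inr (.inr (.inl (k, i))) : Cod m) : ℕ) + 1 : ℝ)) := ⟨_, rfl⟩
  rw [← hψd] at hA hD
  have e1 : ψ ≤ ψ₀ := by rw [hψd]; exact (min_le_left _ _).trans (min_le_left _ _)
  have e2 : ψ ≤ h := by rw [hψd]; exact (min_le_left _ _).trans (min_le_right _ _)
  have e3 : ((idx M (.inr (.inr (.inl (k, i))) : Cod m) : ℕ) + 1 : ℝ) * ψ ≤ 1 := by
    have h5 := mul_le_mul_of_nonneg_left (show ψ ≤ 1 /
      ((idx M (.inr (.inr (.inl (k, i))) : Cod m) : ℕ) + 1 : ℝ) by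
        rw [hψd]; exact min_le_right _ _) hI.le
    rwa [mul_one_div, div_self hI.ne'] at h5
  have h2 := nb_ge hD hk e3
  have h3 := h1 J hJ F A (S.mono e1 hA) e B N (z, u) (Dat.mono hD e1) A
    (Evt.refl hψ₀.le)
  rw [knd_idx] at h3
  have h4 : ¬ (if k < M then (nb M s k i + h) * J ≤ ((B k).q i : ℝ) else
    nb M s k i + h ≤ 0) := h3
  rw [if_pos hk] at h4
  push Not at h4
  rw [abs_le]
  constructor
  · nlinarith only [h2, mul_le_mul_of_nonneg_right e2 hJr]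
  · nlinarith only [h4]

end

end Pool.NB
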