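import Pool.Agent.H69.NB.Clo

/-!
# Closed boxes are nested in the windows and in the levels
-/

set_option autoImplicit false

namespace Pool.NB

open Finset Real
open Pool.Agent.H49.Ent Pool.Agent.H32.Dense Pool.STK Pool.KA Pool.K2S Pool.PB Pool.KSAT
open Pool.PC (On Cnt DetA pt Dec Bar Evt lex)

variable {m J : ℕ}

/-- The dual vectors of a frame. -/
theorem Fr.dual {m : ℕ} {o : Equiv.Perm (Fin m)} {g : Fin m → Fin m → ℝ} (h : Fr o g)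
    (i : Fin m) : ∃ v : Fin m → ℝ, ∀ j, dot (g j) v = if j = i then 1 else 0 := by
  have hdet : (Matrix.of g).det ≠ 0 := by
    intro h0
    have := h.det
    rw [h0, abs_zero] at this
    exact zero_ne_one this
  refine ⟨Matrix.mulVec (Matrix.of g)⁻¹ (fun j => if j = i then 1 else 0), fun j => ?_⟩
  have h1 : Matrix.mulVec (Matrix.of g) (Matrix.mulVec (Matrix.of g)⁻¹
      (fun j => if j = i then (1 : ℝ) else 0)) = fun j => if j = i then 1 else 0 := by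
    rw [Matrix.mulVec_mulVec, Matrix.mul_nonsing_inv _ (isUnit_iff_ne_zero.2 hdet),
      Matrix.one_mulVec]
  exact congrFun h1 j

/-- A functional which is bounded on a box is small on the shrunk box. -/
theorem sh_bound {F : Fam m J} {B : Bx F} {ω : F.Ω} (hF : Fr B.o (B.g ω)) {f : Fin m → ℝ}
    {K c : ℝ} (hf : ∀ l, |f l| ≤ c) (hK : ∀ v, B.In ω 1 v → |dot f v| ≤ K)
    {g : ℕ} {C : ℝ} (hC : 0 ≤ C) {v : Fin m → ℝ} (hv : (B.sh g).In ω C v) :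
    |dot f v| ≤ m * (C * (K / 2 ^ g + 2 ^ m * c / 2 ^ J)) := by
  obtain ⟨a, ha, hab⟩ := hF.expand f hf
  have h1 : ∀ i, |a i| ≤ K * 2 ^ B.q i := by
    intro i
    obtain ⟨u, hu⟩ := hF.dual i
    have e : ∀ j, dot (B.g ω j) (fun l => (2 ^ B.q i)⁻¹ * u l) =
        (2 ^ B.q i)⁻¹ * dot (B.g ω j) u := by
      intro j
      unfold dot
      rw [Finset.mul_sum]
      exact Finset.sum_congr rfl fun l _ => by ring
    have h2 : B.In ω 1 (fun l => (2 ^ B.q i)⁻¹ * u l) := by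
      intro j
      rw [e, hu j]
      by_cases hj : j = i
      · rw [if_pos hj, mul_one, hj, abs_of_pos (by positivity), one_div]
      · rw [if_neg hj, mul_zero, abs_zero]
        positivity
    have h3 := hK _ h2
    rw [ha] at h3
    have h4 : ∑ j, a j * dot (B.g ω j) (fun l => (2 ^ B.q i)⁻¹ * u l) =
        a i * (2 ^ B.q i)⁻¹ := by
      rw [Finset.sum_eq_single i]
      · rw [e, hu i, if_pos rfl, mul_one]
      · intro j _ hj
        rw [e, hu j, if_neg hj, mul_zero, mul_zero]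
      · intro hcon
        exact absurd (mem_univ _) hcon
    rw [h4, abs_mul, abs_of_pos (show (0 : ℝ) < (2 ^ B.q i)⁻¹ by positivity),
      ← div_eq_mul_inv, div_le_iff₀ (by positivity)] at h3
    exact h3
  rw [ha]
  refine (Finset.abs_sum_le_sum_abs _ _).trans ?_
  have h2 : ∀ i ∈ (univ : Finset (Fin m)), |a i * dot (B.g ω i) v| ≤
      C * (K / 2 ^ g + 2 ^ m * c / 2 ^ J) := by
    intro i _
    rw [abs_mul]
    have h3 := hv i
    have h4 : C / (2 : ℝ) ^ (B.sh g).q i ≤ C * (1 / (2 ^ B.q i * 2 ^ g) + 1 / 2 ^ J) := by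
      rw [div_eq_mul_one_div]
      refine mul_le_mul_of_nonneg_left ?_ hC
      show 1 / (2 : ℝ) ^ (min (B.q i + g) J) ≤ _
      rcases min_choice (B.q i + g) J with h5 | h5
      · rw [h5, pow_add]
        have : (0 : ℝ) ≤ 1 / 2 ^ J := by positivity
        linarith
      · rw [h5]
        have : (0 : ℝ) ≤ 1 / (2 ^ B.q i * 2 ^ g) := by positivity
        linarith
    have h5 : |a i| * |dot (B.g ω i) v| ≤
        |a i| * (C * (1 / (2 ^ B.q i * 2 ^ g) + 1 / 2 ^ J)) :=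
      mul_le_mul_of_nonneg_left (h3.trans h4) (abs_nonneg _)
    refine h5.trans ?_
    have h6 : |a i| * (1 / (2 ^ B.q i * 2 ^ g)) ≤ K / 2 ^ g := by
      have h7 := mul_le_mul_of_nonneg_right (h1 i)
        (show (0 : ℝ) ≤ 1 / (2 ^ B.q i * 2 ^ g) by positivity)
      refine h7.trans (le_of_eq ?_)
      field_simp
    have h7 : |a i| * (1 / 2 ^ J) ≤ 2 ^ m * c / 2 ^ J := by
      rw [mul_one_div]
      exact div_le_div_of_nonneg_right (hab i) (by positivity)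
    calc |a i| * (C * (1 / (2 ^ B.q i * 2 ^ g) + 1 / 2 ^ J))
        = C * (|a i| * (1 / (2 ^ B.q i * 2 ^ g)) + |a i| * (1 / 2 ^ J)) := by ring
      _ ≤ _ := mul_le_mul_of_nonneg_left (add_le_add h6 h7) hC
  refine (Finset.sum_le_card_nsmul _ _ _ h2).trans ?_
  rw [card_univ, Fintype.card_fin, nsmul_eq_mul]

section

variable {M : ℕ} {Λ' : Lbs m M} {c' : ℕ → Crd Λ'} {δ γ : ℝ} {S : PCl m} {s : ℕ → ℝ}

/-- The data of a family with closed boxes `z` and other labels `u`. -/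
def Dat2 (δ γ : ℝ) (c' : ℕ → Crd Λ') (s : ℕ → ℝ) (ψ : ℝ) (F : Fam m J) (A : F.Ω → Prop)
    (e : ℕ) (B : ℕ → Bx F) (N : ℕ → ℝ) (z : Bool → ℕ → ℚ → Bx F) (u : Λ'.T F) : Prop :=
  Dat (Λ := (CL m M).prod Λ') δ γ (cseq c') s ψ F A e B N (z, u)

theorem Dat2.chn {ψ : ℝ} {F : Fam m J} {A : F.Ω → Prop} {e : ℕ} {B : ℕ → Bx F} {N : ℕ → ℝ}
    {z : Bool → ℕ → ℚ → Bx F} {u : Λ'.T F} (h : Dat2 δ γ c' s ψ F A e B N z u) :
    Chn F A M (gp γ J) e B N := h.1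

theorem Dat2.clo {ψ : ℝ} {F : Fam m J} {A : F.Ω → Prop} {e : ℕ} {B : ℕ → Bx F} {N : ℕ → ℝ}
    {z : Bool → ℕ → ℚ → Bx F} {u : Λ'.T F} (h : Dat2 δ γ c' s ψ F A e B N z u) (b : Bool) {k : ℕ}
    (hk : k < M) (w : ℚ) : (z b k w).Ok A ∧ DetA F A (slam F (win J w)) (z b k w).g ∧
      (b = true → DetA F A (ptk B k) (z b k w).g) ∧
      (B k).Sub (e + m) (z b k w) A := h.2.1.1 b k hk w

theorem Dat2.val {ψ : ℝ} {F : Fam m J} {A : F.Ω → Prop} {e : ℕ} {B : ℕ → Bx F} {N : ℕ → ℝ}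
    {z : Bool → ℕ → ℚ → Bx F} {u : Λ'.T F} (h : Dat2 δ γ c' s ψ F A e B N z u) :
    Λ'.Val F A (gp γ J) e B N u := h.2.1.2

theorem Dat2.mono {ψ ψ' : ℝ} {F : Fam m J} {A : F.Ω → Prop} {e : ℕ} {B : ℕ → Bx F}
    {N : ℕ → ℝ} {z : Bool → ℕ → ℚ → Bx F} {u : Λ'.T F} (h : Dat2 δ γ c' s ψ F A e B N z u)
    (hψ : ψ ≤ ψ') : Dat2 δ γ c' s ψ' F A e B N z u := Dat.mono h hψ

theorem Dat2.sub {ψ : ℝ} {F : Fam m J} {A E : F.Ω → Prop} {e : ℕ} {B : ℕ → Bx F}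
    {N : ℕ → ℝ} {z : Bool → ℕ → ℚ → Bx F} {u : Λ'.T F} (h : Dat2 δ γ c' s ψ F A e B N z u)
    (hE : ∀ ω, E ω → A ω) : Dat2 δ γ c' s ψ F E e B N z u := Dat.sub h hE

theorem Dat2.err {ψ : ℝ} {F : Fam m J} {A : F.Ω → Prop} {e : ℕ} {B : ℕ → Bx F} {N : ℕ → ℝ}
    {z : Bool → ℕ → ℚ → Bx F} {u : Λ'.T F} (h : Dat2 δ γ c' s ψ F A e B N z u) (hs0 : s 0 = 0)
    (hψ : ψ ≤ 1) : (e : ℝ) ≤ ψ * J := by
  have := h.2.2 0 (by rw [Nat.cast_zero]; linarith)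
  rw [knd_zero] at this
  have h6 : (e : ℝ) ≤ -((s 0 - ψ) * J) := this
  rw [hs0] at h6
  linarith

/-- The hypotheses on the class. -/
structure Hyp (S : PCl m) (δ γ : ℝ) (c' : ℕ → Crd Λ') (s : ℕ → ℝ) : Prop where
  s0 : s 0 = 0
  bar : ∀ i, Bar S (bdec δ γ (cseq c')) i s
  pos : ∀ (τ : ℝ) (J : ℕ) (F : Fam m J) (A : F.Ω → Prop), S.St τ J F A → 0 < Pe F.p A

/-- **A closed box is inside every closed body**: the functionals `f i`, closed at the window `w`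
and bounded on the box of the level, are bounded by `2 ^ (h J)` on the closed box, outside small
events. -/
theorem clo_body (H : Hyp S δ γ c' s) (b : Bool) {k : ℕ} (hk : k < M) (w : ℚ) (n : ℕ) :
    ∀ h : ℝ, 0 < h → ∃ ψ > 0, ∃ J₁ : ℕ, ∀ J ≥ J₁,
    ∀ (F : Fam m J) (A : F.Ω → Prop), S.St ψ J F A → ∀ (e : ℕ) (B : ℕ → Bx F) (N : ℕ → ℝ)
      (z : Bool → ℕ → ℚ → Bx F) (u : Λ'.T F), Dat2 δ γ c' s ψ F A e B N z u →
      ∀ E : F.Ω → Prop, Evt F A ψ E → ∀ (f : F.Ω → Fin n → Fin m → ℝ) (r h' : ℕ),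
        DetA F E (slam F (win J w)) f → (b = true → DetA F E (ptk B k) f) →
        (∀ ω, On F E ω → ∀ i l, |f ω i l| ≤ 2 ^ J) → (r : ℝ) ≤ ψ * J →
        (∀ ω, On F E ω → ∀ i v, (B k).In ω 1 v → |dot (f ω i) v| ≤ 2 ^ r) → h * J ≤ h' →
        ¬ ∀ ω, On F E ω → ∃ v, (z b k w).In ω 1 v ∧ ∃ i, 2 ^ h' ≤ |dot (f ω i) v| := by
  classical
  intro h hh
  obtain ⟨ψ₀, hψ₀, J₁, h1⟩ := clo H.s0 b hk (H.bar _) H.pos h hh (w := w)
  obtain ⟨J₂, hJ₂⟩ : ∃ J₂ : ℕ, ∀ J ≥ J₂, (n : ℝ) ≤ Real.exp (ψ₀ / 2 * J) := by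
    obtain ⟨J₂, hJ₂⟩ := exists_nat_gt ((n : ℝ) / (ψ₀ / 2))
    refine ⟨J₂, fun J hJ => ?_⟩
    have h5 := hJ₂.trans_le (Nat.cast_le.2 hJ : (J₂ : ℝ) ≤ J)
    rw [div_lt_iff₀ (by positivity)] at h5
    have h6 := Real.add_one_le_exp (ψ₀ / 2 * J)
    linarith
  refine ⟨ψ₀ / 2, half_pos hψ₀, max J₁ J₂, fun J hJ F A hA e B N z u hD E hE f r h' hf hfv hb
    hr hB hh' hcon => ?_⟩
  have hJr : (0 : ℝ) ≤ J := Nat.cast_nonneg J
  have hψψ : ψ₀ / 2 ≤ ψ₀ := by linarith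
  have hpA := H.pos _ J F A hA
  have hpE : 0 < Pe F.p E := lt_of_lt_of_le (mul_pos (Real.exp_pos _) hpA) hE.2
  have hch : ∀ ω, ∃ i : ℕ, On F E ω → ∃ (hi : i < n) (v : Fin m → ℝ), (z b k w).In ω 1 v ∧
      2 ^ h' ≤ |dot (f ω ⟨i, hi⟩) v| := by
    intro ω
    by_cases hω : On F E ω
    · obtain ⟨v, hv, i, hi⟩ := hcon ω hω
      exact ⟨i, fun _ => ⟨i.2, v, hv, hi⟩⟩
    · exact ⟨0, fun h => absurd h hω⟩
  choose I hI using hch
  obtain ⟨ω₀, hω₀⟩ := Pool.PC.exists_on hpE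
  have hn : 0 < n := lt_of_le_of_lt (Nat.zero_le _) (hI ω₀ hω₀).choose
  have : Nonempty (Fin n) := ⟨⟨0, hn⟩⟩
  obtain ⟨i₀, hi₀⟩ := Pool.PC.pe_pigeon67 (p := F.p)
    (fun ω => (⟨I ω % n, Nat.mod_lt _ hn⟩ : Fin n)) E
  rw [Fintype.card_fin] at hi₀
  obtain ⟨E', hE'⟩ : ∃ E' : F.Ω → Prop, E' = fun ω => E ω ∧
      (⟨I ω % n, Nat.mod_lt _ hn⟩ : Fin n) = i₀ := ⟨_, rfl⟩
  rw [← hE'] at hi₀
  have hsub : ∀ ω, E' ω → E ω := fun ω hω => by rw [hE'] at hω; exact hω.1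
  have hnr : (0 : ℝ) < n := Nat.cast_pos.2 hn
  refine h1 J ((le_max_left _ _).trans hJ) F A (S.mono hψψ hA) e B N (z, u) (Dat.mono hD hψψ) E'
    ⟨fun ω hω => hE.1 ω (hsub ω hω), ?_⟩ (fun ω => f ω i₀) r h'
    (fun ω ω' a b c => congrFun (hf ω ω' (a.mono hsub) (b.mono hsub) c) i₀)
    (fun hb' ω ω' a b c => congrFun (hfv hb' ω ω' (a.mono hsub) (b.mono hsub) c) i₀)
    (fun ω hω l => hb ω (hω.mono hsub) i₀ l)
    (hr.trans (mul_le_mul_of_nonneg_right hψψ hJr))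
    (fun ω hω v hv => hB ω (hω.mono hsub) i₀ v hv) hh' fun ω hω => ?_
  · refine le_trans ?_ hi₀
    rw [le_div_iff₀ hnr]
    have k2 : Real.exp (-(ψ₀ * J)) * n ≤ Real.exp (-(ψ₀ / 2 * J)) := by
      refine (mul_le_mul_of_nonneg_left (hJ₂ J ((le_max_right _ _).trans hJ))
        (Real.exp_pos _).le).trans (le_of_eq ?_)
      rw [← Real.exp_add]
      congr 1
      ring
    calc Real.exp (-(ψ₀ * J)) * Pe F.p A * n = Real.exp (-(ψ₀ * J)) * n * Pe F.p A := by ring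
      _ ≤ Real.exp (-(ψ₀ / 2 * J)) * Pe F.p A := mul_le_mul_of_nonneg_right k2 hpA.le
      _ ≤ _ := hE.2
  · obtain ⟨hi, v, hv1, hv2⟩ := hI ω (hω.mono hsub)
    refine ⟨v, hv1, ?_⟩
    have e1 : i₀ = ⟨I ω, hi⟩ := by
      have hω2 := hω.2
      rw [hE'] at hω2
      rw [← hω2.2]
      exact Fin.ext (Nat.mod_eq_of_lt hi)
    rw [e1]
    exact hv2

/-- **Nested in the windows.** -/
theorem nest_win (H : Hyp S δ γ c' s) (b : Bool) {k : ℕ} (hk : k < M) {w w' : ℚ} (hw : w ≤ w')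
    (hw1 : w' ≤ 1) : ∀ h : ℝ, 0 < h → ∃ ψ > 0, ∃ J₁ : ℕ, ∀ J ≥ J₁,
    ∀ (F : Fam m J) (A : F.Ω → Prop), S.St ψ J F A → ∀ (e : ℕ) (B : ℕ → Bx F) (N : ℕ → ℝ)
      (z : Bool → ℕ → ℚ → Bx F) (u : Λ'.T F), Dat2 δ γ c' s ψ F A e B N z u →
      ∀ E : F.Ω → Prop, Evt F A ψ E → ∀ h' : ℕ, h * J ≤ h' →
        ¬ ∀ ω, On F E ω → ∃ v, (z b k w').In ω 1 v ∧ ¬ (z b k w).In ω (2 ^ h') v := by
  intro h hh
  obtain ⟨ψ₀, hψ₀, J₁, h1⟩ := clo_body H b hk w' m h hh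
  obtain ⟨J₂, hJ₂⟩ := exists_nat_gt ((m : ℝ) / (ψ₀ / 2))
  refine ⟨min (ψ₀ / 2) 1, lt_min (half_pos hψ₀) one_pos, max J₁ J₂,
    fun J hJ F A hA e B N z u hD E hE h' hh' hcon => ?_⟩
  have hJr : (0 : ℝ) ≤ J := Nat.cast_nonneg J
  have hψψ : min (ψ₀ / 2) 1 ≤ ψ₀ := (min_le_left _ _).trans (by linarith)
  obtain ⟨hO, hcl, hvi, hsub⟩ := (hD.sub hE.1).clo b hk w
  have he : (e : ℝ) ≤ ψ₀ / 2 * J :=
    (hD.err H.s0 (min_le_right _ _)).trans (mul_le_mul_of_nonneg_right (min_le_left _ _) hJr)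
  have hm : (m : ℝ) ≤ ψ₀ / 2 * J := by
    have h5 := hJ₂.trans_le (Nat.cast_le.2 ((le_max_right _ _).trans hJ) : (J₂ : ℝ) ≤ J)
    rw [div_lt_iff₀ (by positivity)] at h5
    linarith
  have hww : win J w ≤ win J w' := by
    unfold win
    refine Nat.floor_mono (mul_le_mul_of_nonneg_right ?_ hJr)
    exact_mod_cast hw
  have hwJ : win J w' ≤ J := by
    unfold win
    refine (Nat.floor_mono (show (w' : ℝ) * J ≤ J from ?_)).trans (le_of_eq (Nat.floor_natCast J))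
    have : (w' : ℝ) ≤ 1 := by exact_mod_cast hw1
    nlinarith
  refine h1 J ((le_max_left _ _).trans hJ) F A (S.mono hψψ hA) e B N z u (hD.mono hψψ) E
    (hE.mono hψψ) (fun ω i l => 2 ^ (z b k w).q i * (z b k w).g ω i l) (e + m) h'
    ?_ ?_ ?_ ?_ ?_ hh' ?_
  · intro ω ω' a a' c
    have h5 := Pool.KA.Join.slam_mono F hww hwJ ω ω' a.1 a'.1 c
    have h6 := hcl ω ω' a a' h5
    funext i l
    show 2 ^ (z b k w).q i * (z b k w).g ω i l = 2 ^ (z b k w).q i * (z b k w).g ω' i l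
    rw [h6]
  · intro hb' ω ω' a a' c
    have h6 := hvi hb' ω ω' a a' c
    funext i l
    show 2 ^ (z b k w).q i * (z b k w).g ω i l = 2 ^ (z b k w).q i * (z b k w).g ω' i l
    rw [h6]
  · intro ω hω i l
    rw [abs_mul, abs_of_pos (show (0 : ℝ) < 2 ^ (z b k w).q i by positivity)]
    have h5 : (2 : ℝ) ^ (z b k w).q i ≤ 2 ^ J := pow_le_pow_right₀ (by norm_num) (hO.leJ i)
    have h6 := mul_le_mul h5 ((hO.fr ω hω).bd i l) (abs_nonneg _) (by positivity)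
    rwa [mul_one] at h6
  · push_cast
    linarith
  · intro ω hω i v hv
    rw [dot_smul, abs_mul, abs_of_pos (show (0 : ℝ) < 2 ^ (z b k w).q i by positivity)]
    have h5 := hsub ω hω v hv i
    rw [le_div_iff₀ (by positivity), mul_comm] at h5
    exact h5
  · intro ω hω
    obtain ⟨v, hv1, hv2⟩ := hcon ω hω
    refine ⟨v, hv1, ?_⟩
    unfold Bx.In at hv2
    push Not at hv2
    obtain ⟨i, hi⟩ := hv2
    refine ⟨i, ?_⟩
    rw [dot_smul, abs_mul, abs_of_pos (show (0 : ℝ) < 2 ^ (z b k w).q i by positivity)]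
    rw [div_lt_iff₀ (by positivity), mul_comm] at hi
    exact hi.le

/-- **Nested in the levels.** -/
theorem nest_lev (H : Hyp S δ γ c' s) (b : Bool) {k : ℕ} (hk : k + 1 < M) (w : ℚ) :
    ∀ h : ℝ, 0 < h → ∃ ψ > 0, ∃ J₁ : ℕ, ∀ J ≥ J₁,
    ∀ (F : Fam m J) (A : F.Ω → Prop), S.St ψ J F A → ∀ (e : ℕ) (B : ℕ → Bx F) (N : ℕ → ℝ)
      (z : Bool → ℕ → ℚ → Bx F) (u : Λ'.T F), Dat2 δ γ c' s ψ F A e B N z u →
      ∀ E : F.Ω → Prop, Evt F A ψ E → ∀ h' : ℕ, h * J ≤ h' →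
        ¬ ∀ ω, On F E ω → ∃ v, (z b (k + 1) w).In ω 1 v ∧
          ¬ ((z b k w).sh (gp γ J)).In ω (2 ^ h') v := by
  intro h hh
  obtain ⟨ψ₀, hψ₀, J₁, h1⟩ := clo_body H b hk w m h hh
  obtain ⟨J₂, hJ₂⟩ := exists_nat_gt (((3 * m + 1 : ℕ) : ℝ) / (ψ₀ / 2))
  refine ⟨min (ψ₀ / 4) 1, lt_min (by positivity) one_pos, max J₁ J₂,
    fun J hJ F A hA e B N z u hD E hE h' hh' hcon => ?_⟩
  have hJr : (0 : ℝ) ≤ J := Nat.cast_nonneg J
  have hψψ : min (ψ₀ / 4) 1 ≤ ψ₀ := (min_le_left _ _).trans (by linarith)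
  obtain ⟨hO, hcl, hvi, hsub⟩ := (hD.sub hE.1).clo b (by omega : k < M) w
  have hC := hD.chn
  have he : (e : ℝ) ≤ ψ₀ / 4 * J :=
    (hD.err H.s0 (min_le_right _ _)).trans (mul_le_mul_of_nonneg_right (min_le_left _ _) hJr)
  have hm : ((3 * m + 1 : ℕ) : ℝ) ≤ ψ₀ / 2 * J := by
    have h5 := hJ₂.trans_le (Nat.cast_le.2 ((le_max_right _ _).trans hJ) : (J₂ : ℝ) ≤ J)
    rw [div_lt_iff₀ (by positivity)] at h5
    linarith
  refine h1 J ((le_max_left _ _).trans hJ) F A (S.mono hψψ hA) e B N z u (hD.mono hψψ) E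
    (hE.mono hψψ) (fun ω i l => 2 ^ ((z b k w).sh (gp γ J)).q i * (z b k w).g ω i l)
    (2 * e + (3 * m + 1)) h' ?_ ?_ ?_ ?_ ?_ hh' ?_
  · intro ω ω' a a' c
    have h6 := hcl ω ω' a a' c
    funext i l
    show 2 ^ ((z b k w).sh (gp γ J)).q i * (z b k w).g ω i l =
      2 ^ ((z b k w).sh (gp γ J)).q i * (z b k w).g ω' i l
    rw [h6]
  · intro hb' ω ω' a a' c
    have h6 := hvi hb' ω ω' a a' (ptk_anti (Nat.le_succ k) c)
    funext i l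
    show 2 ^ ((z b k w).sh (gp γ J)).q i * (z b k w).g ω i l =
      2 ^ ((z b k w).sh (gp γ J)).q i * (z b k w).g ω' i l
    rw [h6]
  · intro ω hω i l
    rw [abs_mul, abs_of_pos (by positivity)]
    have h5 : (2 : ℝ) ^ ((z b k w).sh (gp γ J)).q i ≤ 2 ^ J :=
      pow_le_pow_right₀ (by norm_num) (min_le_right _ _)
    have h6 := mul_le_mul h5 ((hO.fr ω hω).bd i l) (abs_nonneg _) (by positivity)
    rwa [mul_one] at h6
  · push_cast at hm ⊢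
    linarith
  · intro ω hω i v hv
    have hωA : On F A ω := ⟨hω.1, hE.1 ω hω.2⟩
    have h4 : ((B k).sh (gp γ J)).In ω (2 ^ e) v := hC.ins k hk ω hωA v hv
    have h5 := sh_bound ((hC.ok k (by omega)).fr ω hωA) (f := (z b k w).g ω i)
      (K := 2 ^ (e + m) / 2 ^ (z b k w).q i) (c := 1) ((hO.fr ω hω).bd i)
      (fun v hv => hsub ω hω v hv i) (show (0 : ℝ) ≤ 2 ^ e by positivity) h4
    rw [dot_smul, abs_mul, abs_of_pos (show (0 : ℝ) < 2 ^ ((z b k w).sh (gp γ J)).q i by positivity)]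
    have hQ : (2 : ℝ) ^ ((z b k w).sh (gp γ J)).q i ≤ 2 ^ (z b k w).q i * 2 ^ gp γ J := by
      rw [← pow_add]
      exact pow_le_pow_right₀ (by norm_num) (min_le_left _ _)
    have hQ' : (2 : ℝ) ^ ((z b k w).sh (gp γ J)).q i ≤ 2 ^ J :=
      pow_le_pow_right₀ (by norm_num) (min_le_right _ _)
    obtain ⟨Q, hQd⟩ : ∃ Q : ℝ, Q = 2 ^ ((z b k w).sh (gp γ J)).q i := ⟨_, rfl⟩
    have hQ0 : 0 < Q := by rw [hQd]; positivity
    rw [← hQd] at hQ hQ' ⊢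
    have h6 := mul_le_mul_of_nonneg_left h5 hQ0.le
    refine h6.trans ?_
    have h7 : Q * (2 ^ (e + m) / 2 ^ (z b k w).q i / 2 ^ gp γ J) ≤ 2 ^ (e + m) := by
      rw [div_div, mul_div_assoc', div_le_iff₀ (by positivity), mul_comm]
      exact mul_le_mul_of_nonneg_left hQ (by positivity)
    have h8 : Q * (2 ^ m * 1 / 2 ^ J) ≤ 2 ^ m := by
      rw [mul_one, mul_div_assoc', div_le_iff₀ (by positivity), mul_comm]
      exact mul_le_mul_of_nonneg_left hQ' (by positivity)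
    have hmr := nat_le_two_pow m
    have h9 : (2 : ℝ) ^ m ≤ 2 ^ (e + m) := pow_le_pow_right₀ (by norm_num) (Nat.le_add_left _ _)
    calc Q * (m * (2 ^ e * (2 ^ (e + m) / 2 ^ (z b k w).q i / 2 ^ gp γ J + 2 ^ m * 1 / 2 ^ J)))
        = m * (2 ^ e * (Q * (2 ^ (e + m) / 2 ^ (z b k w).q i / 2 ^ gp γ J) +
            Q * (2 ^ m * 1 / 2 ^ J))) := by ring
      _ ≤ 2 ^ m * (2 ^ e * (2 ^ (e + m) + 2 ^ (e + m))) := by
          refine mul_le_mul hmr ?_ (by positivity) (by positivity)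
          refine mul_le_mul_of_nonneg_left ?_ (by positivity)
          linarith
      _ = 2 ^ (2 * e + (2 * m + 1)) := by
          have e1 : (2 : ℝ) ^ (e + m) + 2 ^ (e + m) = 2 ^ (e + m + 1) := by
            rw [pow_succ]; ring
          rw [e1, ← pow_add, ← pow_add]
          congr 1
          ring
      _ ≤ 2 ^ (2 * e + (3 * m + 1)) := pow_le_pow_right₀ (by norm_num) (by omega)
  · intro ω hω
    obtain ⟨v, hv1, hv2⟩ := hcon ω hω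
    refine ⟨v, hv1, ?_⟩
    unfold Bx.In at hv2
    push Not at hv2
    obtain ⟨i, hi⟩ := hv2
    refine ⟨i, ?_⟩
    have hi' : 2 ^ h' / 2 ^ ((z b k w).sh (gp γ J)).q i < |dot ((z b k w).g ω i) v| := hi
    rw [dot_smul, abs_mul, abs_of_pos (show (0 : ℝ) < 2 ^ ((z b k w).sh (gp γ J)).q i by positivity)]
    rw [div_lt_iff₀ (by positivity), mul_comm] at hi'
    exact hi'.le

end

end Pool.NB
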