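import Pool.Agent.H69.NB.Rel

/-!
# The long direction and the normals of closed boxes are not closed

In the natural units of the closed box of the window `w`: if the closed box of another window is a
neighbourhood of a line, then the direction of this line is not closed at the window `w`; if it is
thin in some direction, then the normal is not closed at the window `w`.
-/

set_option autoImplicit false

namespace Pool.NB

open Finset Real
open Pool.Agent.H49.Ent Pool.Agent.H32.Dense Pool.STK Pool.KA Pool.K2S Pool.PB Pool.KSAT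
open Pool.PC (On Cnt DetA pt Dec Bar Evt lex)

variable {m J : ℕ}

/-- The floors of near numbers. -/
theorem floor_near {a b : ℝ} (h : |a - b| ≤ 1) : ∃ k : Fin 3, ⌊a⌋ = ⌊b⌋ + ((k : ℕ) : ℤ) - 1 := by
  obtain ⟨h1, h2⟩ := abs_le.1 h
  have a1 := Int.floor_le a
  have a2 := Int.lt_floor_add_one a
  have b1 := Int.floor_le b
  have b2 := Int.lt_floor_add_one b
  have c1 : ⌊a⌋ < ⌊b⌋ + 2 := by
    have : (⌊a⌋ : ℝ) < ((⌊b⌋ + 2 : ℤ) : ℝ) := by push_cast; linarith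
    exact_mod_cast this
  have c2 : ⌊b⌋ < ⌊a⌋ + 2 := by
    have : (⌊b⌋ : ℝ) < ((⌊a⌋ + 2 : ℤ) : ℝ) := by push_cast; linarith
    exact_mod_cast this
  rcases (by omega : ⌊a⌋ = ⌊b⌋ - 1 ∨ ⌊a⌋ = ⌊b⌋ ∨ ⌊a⌋ = ⌊b⌋ + 1) with h | h | h
  · exact ⟨0, by rw [h]; simp⟩
  · exact ⟨1, by rw [h]; simp⟩
  · exact ⟨2, by rw [h]; simp; ring⟩

/-- A sub-event of a large event with few alternatives. -/
theorem evt_pig {F : Fam m J} {A E : F.Ω → Prop} {ψ ψ' n : ℝ} (hE : Evt F A ψ E)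
    {E' : F.Ω → Prop} (h' : ∀ ω, E' ω → E ω) (hn : 0 < n) (hc : Pe F.p E / n ≤ Pe F.p E')
    (hJ : n * Real.exp (ψ * J) ≤ Real.exp (ψ' * J)) : Evt F A ψ' E' := by
  have hA := Pe_nonneg F.isLaw A
  refine ⟨fun ω hω => hE.1 ω (h' ω hω), le_trans ?_ hc⟩
  rw [le_div_iff₀ hn]
  have h1 : Real.exp (-(ψ' * J)) * n ≤ Real.exp (-(ψ * J)) := by
    have e1 : Real.exp (-(ψ' * J)) * (n * Real.exp (ψ * J)) ≤ 1 := by
      refine (mul_le_mul_of_nonneg_left hJ (Real.exp_pos _).le).trans (le_of_eq ?_)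
      rw [← Real.exp_add]
      simp
    have e2 : Real.exp (-(ψ * J)) * Real.exp (ψ * J) = 1 := by
      rw [← Real.exp_add]
      simp
    have e3 : 0 < Real.exp (ψ * J) := Real.exp_pos _
    refine le_of_mul_le_mul_right ?_ e3
    rw [e2, mul_assoc]
    exact e1
  calc Real.exp (-(ψ' * J)) * Pe F.p A * n = Real.exp (-(ψ' * J)) * n * Pe F.p A := by ring
    _ ≤ Real.exp (-(ψ * J)) * Pe F.p A := mul_le_mul_of_nonneg_right h1 hA
    _ ≤ _ := hE.2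

/-- A constant is at most an exponential. -/
theorem const_le_exp (n : ℝ) {ψ : ℝ} (hψ : 0 < ψ) : ∃ J₁ : ℕ, ∀ J ≥ J₁,
    n * Real.exp (ψ / 2 * (J : ℕ)) ≤ Real.exp (ψ * J) := by
  obtain ⟨J₁, hJ₁⟩ := exists_nat_gt (n / (ψ / 2))
  refine ⟨J₁, fun J hJ => ?_⟩
  have h5 := hJ₁.trans_le (Nat.cast_le.2 hJ : (J₁ : ℝ) ≤ J)
  rw [div_lt_iff₀ (by positivity)] at h5
  have h6 := Real.add_one_le_exp (ψ / 2 * J)
  have h7 : n ≤ Real.exp (ψ / 2 * J) := by linarith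
  calc n * Real.exp (ψ / 2 * (J : ℕ)) ≤ Real.exp (ψ / 2 * J) * Real.exp (ψ / 2 * J) :=
        mul_le_mul_of_nonneg_right h7 (Real.exp_pos _).le
    _ = _ := by
      rw [← Real.exp_add]
      congr 1
      ring

section

variable {M : ℕ} {Λ' : Lbs m M} {c' : ℕ → Crd Λ'} {δ γ : ℝ} {S : PCl m} {s : ℕ → ℝ}

open Classical in
/-- **No strips**, for functionals which are nearly closed. -/
theorem ncl2 (H : Hyp S δ γ c' s) (b : Bool) {k : ℕ} (hk : k < M) (w : ℚ) :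
    ∀ h : ℝ, 0 < h → ∃ ψ > 0, ∃ J₁ : ℕ, ∀ J ≥ J₁,
    ∀ (F : Fam m J) (A : F.Ω → Prop), S.St ψ J F A → ∀ (e : ℕ) (B : ℕ → Bx F) (N : ℕ → ℝ)
      (z : Bool → ℕ → ℚ → Bx F) (u : Λ'.T F), Dat2 δ γ c' s ψ F A e B N z u →
      ∀ E : F.Ω → Prop, Evt F A ψ E → ∀ (W c : F.Ω → Fin m → ℝ) (r x : ℕ),
        DetA F E (slam F (win J w)) c → (b = true → DetA F E (ptk B k) W) →
        (∀ ω, On F E ω → (∃ i, 1 ≤ |W ω i|) ∧ ∀ i, |W ω i - c ω i| ≤ 2 ^ r / 2 ^ x) →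
        (r : ℝ) ≤ ψ * J → h * J ≤ x →
        ¬ ∀ ω, On F E ω → ∀ v, (B k).In ω 1 v →
          |∑ i, W ω i * (2 ^ (z b k w).q i * dot ((z b k w).g ω i) v)| ≤ 2 ^ r / 2 ^ x := by
  intro h hh
  obtain ⟨ψ₀, hψ₀, J₁, h1⟩ := ncl H b hk w h hh
  obtain ⟨J₂, hJ₂⟩ := const_le_exp ((3 : ℝ) ^ m) hψ₀
  obtain ⟨J₃, hJ₃⟩ := exists_nat_gt (((2 * m + 2 : ℕ) : ℝ) / (min (ψ₀ / 4) (h / 4)))
  have hmin : 0 < min (ψ₀ / 4) (h / 4) := lt_min (by positivity) (by positivity)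
  refine ⟨min (min (ψ₀ / 4) (h / 4)) 1, lt_min hmin one_pos, max (max J₁ J₂) J₃,
    fun J hJ F A hA e B N z u hD E hE W c r x hc hW hWc hr hx hcon => ?_⟩
  have hJ1 : J₁ ≤ J := (le_max_left _ _).trans ((le_max_left _ _).trans hJ)
  have hJ2 : J₂ ≤ J := (le_max_right _ _).trans ((le_max_left _ _).trans hJ)
  have hJ3 : J₃ ≤ J := (le_max_right _ _).trans hJ
  have hJr : (0 : ℝ) ≤ J := Nat.cast_nonneg J
  obtain ⟨ψ, hψd⟩ : ∃ ψ, ψ = min (min (ψ₀ / 4) (h / 4)) 1 := ⟨_, rfl⟩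
  rw [← hψd] at hA hD hE hr
  have p1 : ψ ≤ ψ₀ / 4 := by
    rw [hψd]; exact (min_le_left _ _).trans (min_le_left _ _)
  have p2 : ψ ≤ h / 4 := by rw [hψd]; exact (min_le_left _ _).trans (min_le_right _ _)
  have p3 : ψ ≤ 1 := by rw [hψd]; exact min_le_right _ _
  have hψψ : ψ ≤ ψ₀ := by linarith
  have he : (e : ℝ) ≤ ψ * J := hD.err H.s0 p3
  have hm0 : ((2 * m + 2 : ℕ) : ℝ) ≤ min (ψ₀ / 4) (h / 4) * J := by
    have h5 := hJ₃.trans_le (Nat.cast_le.2 hJ3 : (J₃ : ℝ) ≤ J)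
    rw [div_lt_iff₀ hmin] at h5
    linarith
  have hm1 : ((2 * m + 2 : ℕ) : ℝ) ≤ ψ₀ / 4 * J :=
    hm0.trans (mul_le_mul_of_nonneg_right (min_le_left _ _) hJr)
  have hm2 : ((2 * m + 2 : ℕ) : ℝ) ≤ h / 4 * J :=
    hm0.trans (mul_le_mul_of_nonneg_right (min_le_right _ _) hJr)
  have q1 : ψ * (J : ℝ) ≤ ψ₀ / 4 * J := mul_le_mul_of_nonneg_right p1 hJr
  have q2 : ψ * (J : ℝ) ≤ h / 4 * J := mul_le_mul_of_nonneg_right p2 hJr
  -- the digits
  have hrx : r + 1 ≤ x := by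
    have h5 : ((r + 1 : ℕ) : ℝ) ≤ x := by
      push_cast at hm2 ⊢
      have : (0 : ℝ) ≤ m := Nat.cast_nonneg m
      have : 0 ≤ h / 4 * (J : ℝ) := by positivity
      linarith
    exact_mod_cast h5
  obtain ⟨y, hy⟩ : ∃ y, y = x - r := ⟨_, rfl⟩
  have hxy : x = r + y := by omega
  have hy1 : 1 ≤ y := by omega
  have hdiv : (2 : ℝ) ^ r / 2 ^ x = 1 / 2 ^ y := by
    rw [hxy, pow_add]
    field_simp
  have hch : ∀ ω, ∃ κ : Fin m → Fin 3, On F E ω → ∀ i,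
      ⌊2 ^ y * W ω i⌋ = ⌊2 ^ y * c ω i⌋ + ((κ i : ℕ) : ℤ) - 1 := by
    intro ω
    by_cases hω : On F E ω
    · have h5 : ∀ i, ∃ k : Fin 3, ⌊2 ^ y * W ω i⌋ = ⌊2 ^ y * c ω i⌋ + ((k : ℕ) : ℤ) - 1 := by
        intro i
        refine floor_near ?_
        have h6 := (hWc ω hω).2 i
        rw [hdiv] at h6
        rw [← mul_sub, abs_mul, abs_of_pos (show (0 : ℝ) < 2 ^ y by positivity)]
        calc (2 : ℝ) ^ y * |W ω i - c ω i| ≤ 2 ^ y * (1 / 2 ^ y) :=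
              mul_le_mul_of_nonneg_left h6 (by positivity)
          _ = 1 := by field_simp
      choose κ hκ using h5
      exact ⟨κ, fun _ => hκ⟩
    · exact ⟨fun _ => 0, fun h => absurd h hω⟩
  choose κ hκ using hch
  obtain ⟨κ₀, hκ₀⟩ := Pool.PC.pe_pigeon67 (p := F.p) κ E
  obtain ⟨E', hE'⟩ : ∃ E' : F.Ω → Prop, E' = fun ω => E ω ∧ κ ω = κ₀ := ⟨_, rfl⟩
  have hcard : (Fintype.card (Fin m → Fin 3) : ℝ) = 3 ^ m := by
    rw [Fintype.card_fun, Fintype.card_fin, Fintype.card_fin]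
    push_cast
    rfl
  rw [hcard, ← hE'] at hκ₀
  have hsub : ∀ ω, E' ω → E ω := fun ω hω => by rw [hE'] at hω; exact hω.1
  have hon : ∀ ω, On F E' ω → On F E ω := fun ω hω => hω.mono hsub
  have hEvt : Evt F A ψ₀ E' := by
    refine evt_pig (hE.mono (show ψ ≤ ψ₀ / 2 by linarith)) hsub (by positivity) hκ₀ ?_
    exact hJ₂ J hJ2
  obtain ⟨hO, hcl, hvi, hsu⟩ := (hD.sub hEvt.1).clo b hk w
  -- the rounded functional
  obtain ⟨R, hR⟩ : ∃ R : F.Ω → Fin m → ℝ, R = fun ω i => (⌊2 ^ y * W ω i⌋ : ℝ) / 2 ^ y := ⟨_, rfl⟩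
  have hRi : ∀ ω i, R ω i = (⌊2 ^ y * W ω i⌋ : ℝ) / 2 ^ y := fun ω i => by rw [hR]
  have hRW : ∀ ω i, |R ω i - W ω i| ≤ 1 / 2 ^ y := by
    intro ω i
    have a1 := Int.floor_le (2 ^ y * W ω i)
    have a2 := Int.lt_floor_add_one (2 ^ y * W ω i)
    have e1 : R ω i - W ω i = ((⌊2 ^ y * W ω i⌋ : ℝ) - 2 ^ y * W ω i) / 2 ^ y := by
      rw [hRi]
      field_simp
    rw [e1, abs_div, abs_of_pos (show (0 : ℝ) < 2 ^ y by positivity)]
    refine div_le_div_of_nonneg_right ?_ (by positivity)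
    rw [abs_le]
    constructor <;> linarith
  obtain ⟨nn, hnn⟩ : ∃ nn : F.Ω → ℝ, nn = fun ω => ⨆ i, |R ω i| := ⟨_, rfl⟩
  have hmax : ∀ ω, On F E' ω → (∃ i, |R ω i| = nn ω) ∧ 1 / 2 ≤ nn ω := by
    intro ω hω
    obtain ⟨i₀, hi₀⟩ := (hWc ω (hon ω hω)).1
    have : Nonempty (Fin m) := ⟨i₀⟩
    have e1 : nn ω = ⨆ i, |R ω i| := by rw [hnn]
    have e2 := hRW ω i₀
    have e3 : (1 : ℝ) / 2 ^ y ≤ 1 / 2 := by
      have : (2 : ℝ) ^ 1 ≤ 2 ^ y := pow_le_pow_right₀ (by norm_num) hy1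
      rw [div_le_div_iff₀ (by positivity) (by norm_num)]
      linarith
    have e4 : 1 / 2 ≤ |R ω i₀| := by
      have := abs_sub_abs_le_abs_sub (W ω i₀) (R ω i₀)
      rw [abs_sub_comm] at this
      linarith
    refine ⟨?_, e4.trans ?_⟩
    · obtain ⟨i, hi⟩ := exists_eq_ciSup_of_finite (f := fun i => |R ω i|)
      exact ⟨i, by rw [e1]; exact hi⟩
    · rw [e1]
      exact le_ciSup (f := fun i => |R ω i|) (Set.finite_range _).bddAbove i₀
  have hclR : DetA F E' (slam F (win J w)) R := by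
    intro ω ω' a a' e1
    have e2 := hc ω ω' (hon ω a) (hon ω' a') e1
    funext i
    have e3 := hκ ω (hon ω a) i
    have e4 := hκ ω' (hon ω' a') i
    have e5 : κ ω = κ ω' := by
      have k1 := a.2
      have k2 := a'.2
      rw [hE'] at k1 k2
      rw [k1.2, k2.2]
    rw [hRi, hRi, e3, e4, e2, e5]
  have hviR : b = true → DetA F E' (ptk B k) R := by
    intro hb ω ω' a a' e1
    have e2 := hW hb ω ω' (hon ω a) (hon ω' a') e1
    funext i
    rw [hRi, hRi, e2]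
  refine h1 J hJ1 F A (S.mono hψψ hA) e B N z u (hD.mono hψψ) E' hEvt
    (fun ω i => R ω i / nn ω) (r + e + (2 * m + 2)) x ?_ ?_ ?_ ?_ hx ?_
  · intro ω ω' a a' e1
    have e2 := hclR ω ω' a a' e1
    funext i
    show R ω i / nn ω = R ω' i / nn ω'
    have e3 : nn ω = nn ω' := by rw [hnn]; show (⨆ i, |R ω i|) = ⨆ i, |R ω' i|; rw [e2]
    rw [e2, e3]
  · intro hb ω ω' a a' e1
    have e2 := hviR hb ω ω' a a' e1
    funext i
    show R ω i / nn ω = R ω' i / nn ω'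
    have e3 : nn ω = nn ω' := by rw [hnn]; show (⨆ i, |R ω i|) = ⨆ i, |R ω' i|; rw [e2]
    rw [e2, e3]
  · intro ω hω
    obtain ⟨⟨i, hi⟩, h5⟩ := hmax ω hω
    refine ⟨i, ?_⟩
    have h6 : 0 < nn ω := by linarith
    rw [abs_div, hi, abs_of_pos h6, div_self h6.ne']
  · push_cast at hm1 ⊢
    linarith
  · intro ω hω v hv
    obtain ⟨-, h5⟩ := hmax ω hω
    have h6 : 0 < nn ω := by linarith
    obtain ⟨a, ha⟩ : ∃ a : Fin m → ℝ, a = fun i =>
      2 ^ (z b k w).q i * dot ((z b k w).g ω i) v := ⟨_, rfl⟩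
    have hai : ∀ i, 2 ^ (z b k w).q i * dot ((z b k w).g ω i) v = a i := fun i => by rw [ha]
    have hab : ∀ i, |a i| ≤ 2 ^ (e + m) := by
      intro i
      have h7 := hsu ω hω v hv i
      rw [le_div_iff₀ (by positivity), mul_comm] at h7
      rw [← hai, abs_mul, abs_of_pos (show (0 : ℝ) < 2 ^ (z b k w).q i by positivity)]
      exact h7
    have h8 := hcon ω (hon ω hω) v hv
    have e1 : ∀ i, R ω i / nn ω * (2 ^ (z b k w).q i * dot ((z b k w).g ω i) v) =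
        (nn ω)⁻¹ * (W ω i * a i + (R ω i - W ω i) * a i) := by
      intro i
      rw [hai]
      field_simp
      ring
    rw [Finset.sum_congr rfl fun i _ => e1 i, ← Finset.mul_sum, abs_mul, abs_inv,
      abs_of_pos h6, Finset.sum_add_distrib]
    have h9 : |∑ i, W ω i * a i| ≤ 1 / 2 ^ y := by
      rw [← hdiv]
      refine le_trans (le_of_eq ?_) h8
      congr 1
      exact Finset.sum_congr rfl fun i _ => by rw [hai]
    have h10 : |∑ i, (R ω i - W ω i) * a i| ≤ m * (1 / 2 ^ y * 2 ^ (e + m)) := by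
      refine (Finset.abs_sum_le_sum_abs _ _).trans ?_
      have h11 : ∀ i ∈ (univ : Finset (Fin m)), |(R ω i - W ω i) * a i| ≤
          1 / 2 ^ y * 2 ^ (e + m) := by
        intro i _
        rw [abs_mul]
        exact mul_le_mul (hRW ω i) (hab i) (abs_nonneg _) (by positivity)
      refine (Finset.sum_le_card_nsmul _ _ _ h11).trans ?_
      rw [card_univ, Fintype.card_fin, nsmul_eq_mul]
    have h12 : (nn ω)⁻¹ ≤ 2 := by
      rw [inv_le_comm₀ h6 (by norm_num)]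
      linarith
    have h13 := abs_add_le (∑ i, W ω i * a i) (∑ i, (R ω i - W ω i) * a i)
    have hmr := nat_le_two_pow m
    have h14 : (2 : ℝ) ^ (r + e + (2 * m + 2)) / 2 ^ x = 1 / 2 ^ y * 2 ^ (e + (2 * m + 2)) := by
      rw [hxy, show r + e + (2 * m + 2) = r + (e + (2 * m + 2)) by ring, pow_add, pow_add 2 r y]
      field_simp
    rw [h14]
    calc (nn ω)⁻¹ * |∑ i, W ω i * a i + ∑ i, (R ω i - W ω i) * a i|
        ≤ 2 * (1 / 2 ^ y + m * (1 / 2 ^ y * 2 ^ (e + m))) :=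
          mul_le_mul h12 (h13.trans (add_le_add h9 h10)) (abs_nonneg _) (by norm_num)
      _ = 1 / 2 ^ y * (2 * (1 + m * 2 ^ (e + m))) := by ring
      _ ≤ 1 / 2 ^ y * 2 ^ (e + (2 * m + 2)) := by
          refine mul_le_mul_of_nonneg_left ?_ (by positivity)
          have e2 : (1 : ℝ) ≤ 2 ^ (e + 2 * m) := one_le_pow₀ (by norm_num)
          have e3 : (m : ℝ) * 2 ^ (e + m) ≤ 2 ^ (e + 2 * m) := by
            have e4 : (2 : ℝ) ^ (e + 2 * m) = 2 ^ m * 2 ^ (e + m) := by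
              rw [← pow_add]; congr 1; ring
            rw [e4]
            exact mul_le_mul_of_nonneg_right hmr (by positivity)
          have e5 : (2 : ℝ) ^ (e + (2 * m + 2)) = 4 * 2 ^ (e + 2 * m) := by
            rw [show e + (2 * m + 2) = (e + 2 * m) + 2 by ring, pow_add]
            norm_num
            ring
          rw [e5]
          linarith

end

end Pool.NB
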