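import Pool.Agent.H69.NB.Nst

/-!
# Normals and long directions of closed boxes are not nearly closed
-/

set_option autoImplicit false

namespace Pool.NB

open Finset Real
open Pool.Agent.H49.Ent Pool.Agent.H32.Dense Pool.STK Pool.KA Pool.K2S Pool.PB Pool.KSAT
open Pool.PC (On Cnt DetA pt Dec Bar Evt lex)

variable {m J : ℕ}

section

variable {M : ℕ} {Λ' : Lbs m M} {c' : ℕ → Crd Λ'} {δ γ : ℝ} {S : PCl m} {s : ℕ → ℝ}

/-- The new coordinates of the vectors of the box of the level. -/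
theorem fA_small {F : Fam m J} {A : F.Ω → Prop} {B z z' : Bx F} {c : ℕ} (h : z.Ok A)
    (h' : z'.Ok A) (hs : B.Sub c z' A) {ω : F.Ω} (hω : On F A ω) {v : Fin m → ℝ}
    (hv : B.In ω 1 v) (i : Fin m) :
    z.fs z' ω i * |∑ j, z.fA z' ω i j * (2 ^ z.q j * dot (z.g ω j) v)| ≤ 2 ^ (c + m) := by
  have h1 := (z.rel h h' hω).inn v (2 ^ c) (by positivity) (fun i => by
    have h2 := hs ω hω v hv i
    rw [le_div_iff₀ (by positivity), mul_comm] at h2
    exact h2) i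
  refine h1.trans (le_of_eq ?_)
  rw [← pow_add]
  congr 1
  ring

open Classical in
/-- **The normals are not nearly closed.** -/
theorem nst_N (H : Hyp S δ γ c' s) (b : Bool) {k : ℕ} (hk : k < M) (w w' : ℚ) :
    ∀ h : ℝ, 0 < h → ∃ ψ > 0, ∃ J₁ : ℕ, ∀ J ≥ J₁,
    ∀ (F : Fam m J) (A : F.Ω → Prop), S.St ψ J F A → ∀ (e : ℕ) (B : ℕ → Bx F) (N : ℕ → ℝ)
      (z : Bool → ℕ → ℚ → Bx F) (u : Λ'.T F), Dat2 δ γ c' s ψ F A e B N z u →
      ∀ E : F.Ω → Prop, Evt F A ψ E → ∀ (i : Fin m) (v : F.Ω → Fin m → ℝ) (x : ℕ),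
        DetA F E (slam F (win J w)) v → h * J ≤ x →
        ¬ ∀ ω, On F E ω → 2 ^ x ≤ (z b k w).fs (z b k w') ω i ∧ (∃ j, |v ω j| = 1) ∧
          (∀ j, |v ω j| ≤ 1) ∧ ∀ j l, |v ω j * (z b k w).fA (z b k w') ω i l -
            v ω l * (z b k w).fA (z b k w') ω i j| ≤ 1 / 2 ^ x := by
  intro h hh
  obtain ⟨ψ₀, hψ₀, J₁, h1⟩ := ncl2 H b hk w h hh
  obtain ⟨J₂, hJ₂⟩ := const_le_exp (m : ℝ) hψ₀
  have hmin : 0 < min (ψ₀ / 4) (h / 4) := lt_min (by positivity) (by positivity)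
  obtain ⟨J₃, hJ₃⟩ := exists_nat_gt (((2 * m + 1 : ℕ) : ℝ) / (min (ψ₀ / 4) (h / 4)))
  refine ⟨min (ψ₀ / 4) 1, lt_min (by positivity) one_pos, max (max J₁ J₂) J₃,
    fun J hJ F A hA e B N z u hD E hE i v x hv hx hcon => ?_⟩
  have hJ1 : J₁ ≤ J := (le_max_left _ _).trans ((le_max_left _ _).trans hJ)
  have hJ2 : J₂ ≤ J := (le_max_right _ _).trans ((le_max_left _ _).trans hJ)
  have hJ3 : J₃ ≤ J := (le_max_right _ _).trans hJ
  have hJr : (0 : ℝ) ≤ J := Nat.cast_nonneg J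
  obtain ⟨ψ, hψd⟩ : ∃ ψ, ψ = min (ψ₀ / 4) 1 := ⟨_, rfl⟩
  rw [← hψd] at hA hD hE
  have p1 : ψ ≤ ψ₀ / 4 := by rw [hψd]; exact min_le_left _ _
  have p3 : ψ ≤ 1 := by rw [hψd]; exact min_le_right _ _
  have hψψ : ψ ≤ ψ₀ := by linarith
  have he : (e : ℝ) ≤ ψ * J := hD.err H.s0 p3
  have q1 : ψ * (J : ℝ) ≤ ψ₀ / 4 * J := mul_le_mul_of_nonneg_right p1 hJr
  have hm0 : ((2 * m + 1 : ℕ) : ℝ) ≤ min (ψ₀ / 4) (h / 4) * J := by
    have h5 := hJ₃.trans_le (Nat.cast_le.2 hJ3 : (J₃ : ℝ) ≤ J)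
    rw [div_lt_iff₀ hmin] at h5
    linarith
  have hm1 : ((2 * m + 1 : ℕ) : ℝ) ≤ ψ₀ / 4 * J :=
    hm0.trans (mul_le_mul_of_nonneg_right (min_le_left _ _) hJr)
  have hm2 : ((2 * m + 1 : ℕ) : ℝ) ≤ h / 4 * J :=
    hm0.trans (mul_le_mul_of_nonneg_right (min_le_right _ _) hJr)
  have hx1 : 1 ≤ x := by
    have : ((1 : ℕ) : ℝ) ≤ x := by
      push_cast at hm2 ⊢
      have : (0 : ℝ) ≤ m := Nat.cast_nonneg m
      have : 0 ≤ h / 4 * (J : ℝ) := by positivity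
      linarith
    exact_mod_cast this
  have h2x : (1 : ℝ) / 2 ^ x ≤ 1 / 2 := by
    have : (2 : ℝ) ^ 1 ≤ 2 ^ x := pow_le_pow_right₀ (by norm_num) hx1
    rw [div_le_div_iff₀ (by positivity) (by norm_num)]
    linarith
  have hm : 0 < m := lt_of_le_of_lt (Nat.zero_le _) i.2
  have hmr : (0 : ℝ) < m := Nat.cast_pos.2 hm
  obtain ⟨hO, hcl, hvi, hsu⟩ := hD.clo b hk w
  obtain ⟨hO', hcl', hvi', hsu'⟩ := hD.clo b hk w'
  have hrel : ∀ ω, On F E ω → Rel (z b k w).q (z b k w').q ((z b k w).g ω) ((z b k w').g ω)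
      ((z b k w).fA (z b k w') ω) ((z b k w).fA' (z b k w') ω) ((z b k w).fs (z b k w') ω) :=
    fun ω hω => (z b k w).rel hO hO' (hω.mono hE.1)
  obtain ⟨a, ha⟩ : ∃ a : F.Ω → Fin m → ℝ, a = fun ω => (z b k w).fA (z b k w') ω i := ⟨_, rfl⟩
  have hai : ∀ ω, (z b k w).fA (z b k w') ω i = a ω := fun ω => by rw [ha]
  have hch : ∀ ω, ∃ j : Fin m, On F E ω → |a ω j| = 1 := by
    intro ω
    by_cases hω : On F E ω
    · obtain ⟨j, hj⟩ := (hrel ω hω).one i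
      rw [hai] at hj
      exact ⟨j, fun _ => hj⟩
    · exact ⟨i, fun h => absurd h hω⟩
  choose ι hι using hch
  have : Nonempty (Fin m) := ⟨i⟩
  obtain ⟨ι₀, hι₀⟩ := Pool.PC.pe_pigeon67 (p := F.p) ι E
  obtain ⟨E', hE'⟩ : ∃ E' : F.Ω → Prop, E' = fun ω => E ω ∧ ι ω = ι₀ := ⟨_, rfl⟩
  rw [Fintype.card_fin, ← hE'] at hι₀
  have hsub : ∀ ω, E' ω → E ω := fun ω hω => by rw [hE'] at hω; exact hω.1
  have hon : ∀ ω, On F E' ω → On F E ω := fun ω hω => hω.mono hsub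
  have hEvt : Evt F A ψ₀ E' := by
    refine evt_pig (hE.mono (show ψ ≤ ψ₀ / 2 by linarith)) hsub hmr hι₀ ?_
    exact hJ₂ J hJ2
  have hone : ∀ ω, On F E' ω → |a ω ι₀| = 1 := by
    intro ω hω
    have h5 := hι ω (hon ω hω)
    have h6 : ι ω = ι₀ := by
      have := hω.2
      rw [hE'] at this
      exact this.2
    rwa [h6] at h5
  refine h1 J hJ1 F A (S.mono hψψ hA) e B N z u (hD.mono hψψ) E' hEvt
    (fun ω j => a ω j / a ω ι₀) (fun ω j => v ω j / v ω ι₀) (e + (2 * m + 1)) x ?_ ?_ ?_ ?_ hx ?_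
  · intro ω ω' a1 a2 e1
    have e2 := hv ω ω' (hon ω a1) (hon ω' a2) e1
    funext j
    show v ω j / v ω ι₀ = v ω' j / v ω' ι₀
    rw [e2]
  · intro hb ω ω' a1 a2 e1
    have e2 := (Bx.fA_det (hvi hb) (hvi' hb)).1 ω ω' (a1.mono hEvt.1) (a2.mono hEvt.1) e1
    have e3 : a ω = a ω' := by rw [← hai, ← hai, e2]
    funext j
    show a ω j / a ω ι₀ = a ω' j / a ω' ι₀
    rw [e3]
  · intro ω hω
    have h5 := hone ω hω
    have h6 : a ω ι₀ ≠ 0 := fun h0 => by rw [h0, abs_zero] at h5; exact zero_ne_one h5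
    obtain ⟨-, ⟨j', hj'⟩, hv1, hcr⟩ := hcon ω (hon ω hω)
    rw [hai] at hcr
    have hvι : 1 / 2 ≤ |v ω ι₀| := by
      have k1 := hcr j' ι₀
      have k2 : |v ω j' * a ω ι₀| = 1 := by rw [abs_mul, hj', h5, one_mul]
      have k3 : |v ω ι₀ * a ω j'| ≤ |v ω ι₀| := by
        have k4 := (hrel ω (hon ω hω)).bd i j'
        rw [hai] at k4
        rw [abs_mul]
        nlinarith [abs_nonneg (v ω ι₀)]
      have k5 := abs_sub_abs_le_abs_sub (v ω j' * a ω ι₀) (v ω ι₀ * a ω j')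
      linarith
    have hv0 : v ω ι₀ ≠ 0 := fun h0 => by rw [h0, abs_zero] at hvι; linarith
    refine ⟨⟨ι₀, ?_⟩, fun j => ?_⟩
    · show 1 ≤ |a ω ι₀ / a ω ι₀|
      rw [div_self h6, abs_one]
    · show |a ω j / a ω ι₀ - v ω j / v ω ι₀| ≤ 2 ^ (e + (2 * m + 1)) / 2 ^ x
      have e1 : a ω j / a ω ι₀ - v ω j / v ω ι₀ = -((v ω j * a ω ι₀ - v ω ι₀ * a ω j) /
          (a ω ι₀ * v ω ι₀)) := by
        field_simp
        ring
      rw [e1, abs_neg, abs_div, abs_mul, h5, one_mul, div_le_iff₀ (by linarith)]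
      refine (hcr j ι₀).trans ?_
      rw [div_mul_eq_mul_div]
      refine div_le_div_of_nonneg_right ?_ (by positivity)
      have e2 : (2 : ℝ) ≤ 2 ^ (e + (2 * m + 1)) := by
        calc (2 : ℝ) = 2 ^ 1 := by norm_num
          _ ≤ _ := pow_le_pow_right₀ (by norm_num) (by omega)
      nlinarith
  · push_cast at hm1 ⊢
    linarith
  · intro ω hω v' hv'
    have h5 := hone ω hω
    obtain ⟨hσ, -, -, -⟩ := hcon ω (hon ω hω)
    have h6 := fA_small hO hO' hsu' ((hon ω hω).mono hE.1) hv' i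
    rw [hai] at h6
    have e1 : ∑ j, a ω j / a ω ι₀ * (2 ^ (z b k w).q j * dot ((z b k w).g ω j) v') =
        (∑ j, a ω j * (2 ^ (z b k w).q j * dot ((z b k w).g ω j) v')) / a ω ι₀ := by
      rw [Finset.sum_div]
      exact Finset.sum_congr rfl fun j _ => by ring
    rw [e1, abs_div, h5, div_one, le_div_iff₀ (by positivity), mul_comm]
    have h7 := mul_le_mul_of_nonneg_right hσ (abs_nonneg
      (∑ j, a ω j * (2 ^ (z b k w).q j * dot ((z b k w).g ω j) v')))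
    refine (h7.trans h6).trans (pow_le_pow_right₀ (by norm_num) (by omega))

open Classical in
/-- **The long directions are not nearly closed.** -/
theorem nst_V (H : Hyp S δ γ c' s) (b : Bool) {k : ℕ} (hk : k < M) (w w' : ℚ) (hm2 : 2 ≤ m) :
    ∀ h : ℝ, 0 < h → ∃ ψ > 0, ∃ J₁ : ℕ, ∀ J ≥ J₁,
    ∀ (F : Fam m J) (A : F.Ω → Prop), S.St ψ J F A → ∀ (e : ℕ) (B : ℕ → Bx F) (N : ℕ → ℝ)
      (z : Bool → ℕ → ℚ → Bx F) (u : Λ'.T F), Dat2 δ γ c' s ψ F A e B N z u →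
      ∀ E : F.Ω → Prop, Evt F A ψ E → ∀ (i : Fin m) (v : F.Ω → Fin m → ℝ) (x : ℕ),
        DetA F E (slam F (win J w)) v → h * J ≤ x →
        ¬ ∀ ω, On F E ω → (∀ j, j ≠ i → 2 ^ x ≤ (z b k w).fs (z b k w') ω j) ∧
          (∃ j, 1 ≤ m * |v ω j|) ∧
          ∀ j l, |v ω j * (z b k w).fA' (z b k w') ω l i -
            v ω l * (z b k w).fA' (z b k w') ω j i| ≤ 1 / 2 ^ x := by
  intro h hh
  obtain ⟨ψ₀, hψ₀, J₁, h1⟩ := ncl2 H b hk w h hh
  obtain ⟨J₂, hJ₂⟩ := const_le_exp (m : ℝ) hψ₀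
  have hmin : 0 < min (ψ₀ / 4) (h / 4) := lt_min (by positivity) (by positivity)
  obtain ⟨J₃, hJ₃⟩ := exists_nat_gt (((7 * m + 1 : ℕ) : ℝ) / (min (ψ₀ / 4) (h / 4)))
  refine ⟨min (ψ₀ / 4) 1, lt_min (by positivity) one_pos, max (max J₁ J₂) J₃,
    fun J hJ F A hA e B N z u hD E hE i v x hv hx hcon => ?_⟩
  have hJ1 : J₁ ≤ J := (le_max_left _ _).trans ((le_max_left _ _).trans hJ)
  have hJ2 : J₂ ≤ J := (le_max_right _ _).trans ((le_max_left _ _).trans hJ)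
  have hJ3 : J₃ ≤ J := (le_max_right _ _).trans hJ
  have hJr : (0 : ℝ) ≤ J := Nat.cast_nonneg J
  obtain ⟨ψ, hψd⟩ : ∃ ψ, ψ = min (ψ₀ / 4) 1 := ⟨_, rfl⟩
  rw [← hψd] at hA hD hE
  have p1 : ψ ≤ ψ₀ / 4 := by rw [hψd]; exact min_le_left _ _
  have p3 : ψ ≤ 1 := by rw [hψd]; exact min_le_right _ _
  have hψψ : ψ ≤ ψ₀ := by linarith
  have he : (e : ℝ) ≤ ψ * J := hD.err H.s0 p3
  have q1 : ψ * (J : ℝ) ≤ ψ₀ / 4 * J := mul_le_mul_of_nonneg_right p1 hJr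
  have hm0 : ((7 * m + 1 : ℕ) : ℝ) ≤ min (ψ₀ / 4) (h / 4) * J := by
    have h5 := hJ₃.trans_le (Nat.cast_le.2 hJ3 : (J₃ : ℝ) ≤ J)
    rw [div_lt_iff₀ hmin] at h5
    linarith
  have hm1 : ((7 * m + 1 : ℕ) : ℝ) ≤ ψ₀ / 4 * J :=
    hm0.trans (mul_le_mul_of_nonneg_right (min_le_left _ _) hJr)
  have hm3 : ((7 * m + 1 : ℕ) : ℝ) ≤ h / 4 * J :=
    hm0.trans (mul_le_mul_of_nonneg_right (min_le_right _ _) hJr)
  have hx1 : 2 * m + 1 ≤ x := by
    have : ((2 * m + 1 : ℕ) : ℝ) ≤ x := by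
      push_cast at hm3 ⊢
      have : (0 : ℝ) ≤ m := Nat.cast_nonneg m
      have : 0 ≤ h / 4 * (J : ℝ) := by positivity
      linarith
    exact_mod_cast this
  have hmr : (0 : ℝ) < m := Nat.cast_pos.2 (by omega)
  have hm2m := nat_le_two_pow m
  have h2x : (1 : ℝ) / 2 ^ x ≤ 1 / (2 * m ^ 2) := by
    refine div_le_div_of_nonneg_left zero_le_one (by positivity) ?_
    calc 2 * (m : ℝ) ^ 2 ≤ 2 * (2 ^ m) ^ 2 := by
          refine mul_le_mul_of_nonneg_left ?_ (by norm_num)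
          exact pow_le_pow_left₀ hmr.le hm2m 2
      _ = 2 ^ (2 * m + 1) := by rw [← pow_mul, pow_succ]; ring
      _ ≤ 2 ^ x := pow_le_pow_right₀ (by norm_num) hx1
  obtain ⟨hO, hcl, hvi, hsu⟩ := hD.clo b hk w
  obtain ⟨hO', hcl', hvi', hsu'⟩ := hD.clo b hk w'
  have hrel : ∀ ω, On F E ω → Rel (z b k w).q (z b k w').q ((z b k w).g ω) ((z b k w').g ω)
      ((z b k w).fA (z b k w') ω) ((z b k w).fA' (z b k w') ω) ((z b k w).fs (z b k w') ω) :=
    fun ω hω => (z b k w).rel hO hO' (hω.mono hE.1)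
  obtain ⟨a, ha⟩ : ∃ a : F.Ω → Fin m → Fin m → ℝ, a = fun ω => (z b k w).fA' (z b k w') ω :=
    ⟨_, rfl⟩
  have hai : ∀ ω, (z b k w).fA' (z b k w') ω = a ω := fun ω => by rw [ha]
  have hch : ∀ ω, ∃ j : Fin m, On F E ω → 1 ≤ m * |a ω j i| := by
    intro ω
    by_cases hω : On F E ω
    · obtain ⟨j, hj⟩ := (hrel ω hω).one' i
      rw [hai] at hj
      exact ⟨j, fun _ => hj⟩
    · exact ⟨i, fun h => absurd h hω⟩
  choose ι hι using hch
  have : Nonempty (Fin m) := ⟨i⟩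
  obtain ⟨ι₀, hι₀⟩ := Pool.PC.pe_pigeon67 (p := F.p) ι E
  obtain ⟨E', hE'⟩ : ∃ E' : F.Ω → Prop, E' = fun ω => E ω ∧ ι ω = ι₀ := ⟨_, rfl⟩
  rw [Fintype.card_fin, ← hE'] at hι₀
  have hsub : ∀ ω, E' ω → E ω := fun ω hω => by rw [hE'] at hω; exact hω.1
  have hon : ∀ ω, On F E' ω → On F E ω := fun ω hω => hω.mono hsub
  have hEvt : Evt F A ψ₀ E' := by
    refine evt_pig (hE.mono (show ψ ≤ ψ₀ / 2 by linarith)) hsub hmr hι₀ ?_
    exact hJ₂ J hJ2
  have hone : ∀ ω, On F E' ω → 1 ≤ m * |a ω ι₀ i| := by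
    intro ω hω
    have h5 := hι ω (hon ω hω)
    have h6 : ι ω = ι₀ := by
      have := hω.2
      rw [hE'] at this
      exact this.2
    rwa [h6] at h5
  obtain ⟨i₁, hi₁⟩ : ∃ i₁ : Fin m, i₁ ≠ ι₀ := by
    have : Nontrivial (Fin m) := Fin.nontrivial_iff_two_le.2 hm2
    exact exists_ne ι₀
  -- the functionals
  obtain ⟨W, hW⟩ : ∃ W : ℝ → Fin m → ℝ, W = fun t j =>
      (if j = i₁ then 1 else 0) - t * (if j = ι₀ then 1 else 0) := ⟨_, rfl⟩
  have hWi : ∀ t j, W t j = (if j = i₁ then 1 else 0) - t * (if j = ι₀ then 1 else 0) :=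
    fun t j => by rw [hW]
  have hWs : ∀ (t : ℝ) (f : Fin m → ℝ), ∑ j, W t j * f j = f i₁ - t * f ι₀ := by
    intro t f
    have e1 : ∀ j, W t j * f j = (if j = i₁ then f j else 0) -
        t * (if j = ι₀ then f j else 0) := by
      intro j
      rw [hWi]
      split_ifs <;> ring
    rw [Finset.sum_congr rfl fun j _ => e1 j, Finset.sum_sub_distrib, ← Finset.mul_sum]
    simp
  have ha0 : ∀ ω, On F E' ω → 0 < |a ω ι₀ i| := by
    intro ω hω
    have h5 := hone ω hω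
    by_contra hcon
    push Not at hcon
    have h6 : |a ω ι₀ i| = 0 := le_antisymm hcon (abs_nonneg _)
    rw [h6, mul_zero] at h5
    linarith
  have hbd : ∀ ω, On F E' ω → ∀ j l, |a ω j l| ≤ 2 ^ m := by
    intro ω hω j l
    have h5 := (hrel ω (hon ω hω)).bd' j l
    rwa [hai] at h5
  refine h1 J hJ1 F A (S.mono hψψ hA) e B N z u (hD.mono hψψ) E' hEvt
    (fun ω => W (a ω i₁ i / a ω ι₀ i)) (fun ω => W (v ω i₁ / v ω ι₀)) (e + (6 * m + 1)) x
    ?_ ?_ ?_ ?_ hx ?_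
  · intro ω ω' a1 a2 e1
    have e2 := hv ω ω' (hon ω a1) (hon ω' a2) e1
    show W (v ω i₁ / v ω ι₀) = W (v ω' i₁ / v ω' ι₀)
    rw [e2]
  · intro hb ω ω' a1 a2 e1
    have e2 := (Bx.fA_det (hvi hb) (hvi' hb)).2.1 ω ω' (a1.mono hEvt.1) (a2.mono hEvt.1) e1
    have e3 : a ω = a ω' := by rw [← hai, ← hai, e2]
    show W (a ω i₁ i / a ω ι₀ i) = W (a ω' i₁ i / a ω' ι₀ i)
    rw [e3]
  · intro ω hω
    have h5 := hone ω hω
    have h50 := ha0 ω hω
    have h6 : a ω ι₀ i ≠ 0 := fun h0 => by rw [h0, abs_zero] at h50; exact lt_irrefl _ h50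
    obtain ⟨-, ⟨j', hj'⟩, hcr⟩ := hcon ω (hon ω hω)
    rw [hai] at hcr
    have hvι : 1 ≤ 2 ^ (3 * m + 1) * |v ω ι₀| := by
      have k1 := hcr j' ι₀
      have k2 : 1 ≤ m ^ 2 * |v ω j' * a ω ι₀ i| := by
        rw [abs_mul]
        calc (1 : ℝ) = 1 * 1 := by ring
          _ ≤ (m * |v ω j'|) * (m * |a ω ι₀ i|) := mul_le_mul hj' h5 zero_le_one (by positivity)
          _ = _ := by ring
      have k3 : |v ω ι₀ * a ω j' i| ≤ |v ω ι₀| * 2 ^ m := by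
        rw [abs_mul]
        exact mul_le_mul_of_nonneg_left (hbd ω hω j' i) (abs_nonneg _)
      have k5 := abs_sub_abs_le_abs_sub (v ω j' * a ω ι₀ i) (v ω ι₀ * a ω j' i)
      have k6 : |v ω j' * a ω ι₀ i| ≤ |v ω ι₀| * 2 ^ m + 1 / (2 * m ^ 2) := by linarith
      have k7 : 1 ≤ m ^ 2 * (|v ω ι₀| * 2 ^ m) + 1 / 2 := by
        have k8 := mul_le_mul_of_nonneg_left k6 (show (0 : ℝ) ≤ m ^ 2 by positivity)
        have k9 : (m : ℝ) ^ 2 * (|v ω ι₀| * 2 ^ m + 1 / (2 * m ^ 2)) =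
            m ^ 2 * (|v ω ι₀| * 2 ^ m) + 1 / 2 := by
          field_simp
        linarith
      have k8 : (m : ℝ) ^ 2 * (|v ω ι₀| * 2 ^ m) ≤ (2 ^ m) ^ 2 * (|v ω ι₀| * 2 ^ m) :=
        mul_le_mul_of_nonneg_right (pow_le_pow_left₀ hmr.le hm2m 2) (by positivity)
      have k9 : (2 : ℝ) ^ (3 * m + 1) * |v ω ι₀| = 2 * ((2 ^ m) ^ 2 * (|v ω ι₀| * 2 ^ m)) := by
        rw [← pow_mul, pow_succ, show 3 * m = m * 2 + m by ring, pow_add]
        ring
      rw [k9]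
      linarith
    have hv0 : 0 < |v ω ι₀| := by
      by_contra hcon'
      push Not at hcon'
      have h7 : |v ω ι₀| = 0 := le_antisymm hcon' (abs_nonneg _)
      rw [h7, mul_zero] at hvι
      linarith
    have hv0' : v ω ι₀ ≠ 0 := fun h0 => by rw [h0, abs_zero] at hv0; exact lt_irrefl _ hv0
    refine ⟨⟨i₁, ?_⟩, fun j => ?_⟩
    · show 1 ≤ |W (a ω i₁ i / a ω ι₀ i) i₁|
      rw [hWi, if_pos rfl, if_neg hi₁, mul_zero, sub_zero, abs_one]
    · show |W (a ω i₁ i / a ω ι₀ i) j - W (v ω i₁ / v ω ι₀) j| ≤ _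
      have e1 : W (a ω i₁ i / a ω ι₀ i) j - W (v ω i₁ / v ω ι₀) j =
          ((v ω i₁ * a ω ι₀ i - v ω ι₀ * a ω i₁ i) / (a ω ι₀ i * v ω ι₀)) *
            (if j = ι₀ then 1 else 0) := by
        rw [hWi, hWi]
        field_simp
        ring
      rw [e1, abs_mul, abs_div, abs_mul]
      have e2 : |(if j = ι₀ then (1 : ℝ) else 0)| ≤ 1 := by
        split_ifs
        · rw [abs_one]
        · rw [abs_zero]; exact zero_le_one
      have e3 : |v ω i₁ * a ω ι₀ i - v ω ι₀ * a ω i₁ i| / (|a ω ι₀ i| * |v ω ι₀|) ≤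
          2 ^ (e + (6 * m + 1)) / 2 ^ x := by
        rw [div_le_div_iff₀ (by positivity) (by positivity)]
        have k1 := hcr i₁ ι₀
        rw [le_div_iff₀ (by positivity)] at k1
        refine k1.trans ?_
        have k2 : 1 ≤ (m * |a ω ι₀ i|) * (2 ^ (3 * m + 1) * |v ω ι₀|) := by
          calc (1 : ℝ) = 1 * 1 := by ring
            _ ≤ _ := mul_le_mul h5 hvι zero_le_one (by positivity)
        refine k2.trans ?_
        calc (m * |a ω ι₀ i|) * (2 ^ (3 * m + 1) * |v ω ι₀|)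
            = (m * 2 ^ (3 * m + 1)) * (|a ω ι₀ i| * |v ω ι₀|) := by ring
          _ ≤ 2 ^ (e + (6 * m + 1)) * (|a ω ι₀ i| * |v ω ι₀|) := by
              refine mul_le_mul_of_nonneg_right ?_ (by positivity)
              calc (m : ℝ) * 2 ^ (3 * m + 1) ≤ 2 ^ m * 2 ^ (3 * m + 1) :=
                    mul_le_mul_of_nonneg_right hm2m (by positivity)
                _ = 2 ^ (m + (3 * m + 1)) := by rw [← pow_add]
                _ ≤ _ := pow_le_pow_right₀ (by norm_num) (by omega)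
      calc _ ≤ 2 ^ (e + (6 * m + 1)) / 2 ^ x * 1 :=
            mul_le_mul e3 e2 (abs_nonneg _) (by positivity)
        _ = _ := mul_one _
  · push_cast at hm1 ⊢
    have : (0 : ℝ) ≤ m := Nat.cast_nonneg m
    linarith
  · intro ω hω v' hv'
    have h5 := hone ω hω
    have h50 := ha0 ω hω
    have h6 : a ω ι₀ i ≠ 0 := fun h0 => by rw [h0, abs_zero] at h50; exact lt_irrefl _ h50
    obtain ⟨hσ, -, -⟩ := hcon ω (hon ω hω)
    have hR := hrel ω (hon ω hω)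
    obtain ⟨t, ht⟩ : ∃ t, t = a ω i₁ i / a ω ι₀ i := ⟨_, rfl⟩
    obtain ⟨U, hU⟩ : ∃ U : Fin m → ℝ, U = fun j =>
      2 ^ (z b k w).q j * dot ((z b k w).g ω j) v' := ⟨_, rfl⟩
    have hUj : ∀ j, 2 ^ (z b k w).q j * dot ((z b k w).g ω j) v' = U j := fun j => by rw [hU]
    have e1 := hR.expand' (W t) U
    rw [hai] at e1
    have e2 : ∑ j, W t j * (2 ^ (z b k w).q j * dot ((z b k w).g ω j) v') =
        ∑ j, W t j * U j := Finset.sum_congr rfl fun j _ => by rw [hUj]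
    show |∑ j, W (a ω i₁ i / a ω ι₀ i) j *
      (2 ^ (z b k w).q j * dot ((z b k w).g ω j) v')| ≤ _
    rw [← ht, e2, e1]
    have htb : |t| ≤ m * 2 ^ m := by
      rw [ht, abs_div, div_le_iff₀ h50]
      have k1 := hbd ω hω i₁ i
      calc |a ω i₁ i| ≤ 2 ^ m * 1 := by rw [mul_one]; exact k1
        _ ≤ 2 ^ m * (m * |a ω ι₀ i|) := mul_le_mul_of_nonneg_left h5 (by positivity)
        _ = _ := by ring
    have e3 : ∀ j ∈ (univ : Finset (Fin m)),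
        |(∑ l, (z b k w).fA (z b k w') ω j l * U l) * ∑ l, W t l * a ω l j| ≤
        2 ^ (e + m + m) / 2 ^ x * 2 ^ (3 * m + 1) := by
      intro j _
      rw [hWs t (fun l => a ω l j), abs_mul]
      by_cases hj : j = i
      · have k1 : a ω i₁ j - t * a ω ι₀ j = 0 := by
          rw [hj, ht, div_mul_cancel₀ _ h6, sub_self]
        rw [k1, abs_zero, mul_zero]
        positivity
      · have k1 := fA_small hO hO' hsu' ((hon ω hω).mono hE.1) hv' j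
        have k2 : |∑ l, (z b k w).fA (z b k w') ω j l * U l| ≤ 2 ^ (e + m + m) / 2 ^ x := by
          rw [le_div_iff₀ (by positivity), mul_comm]
          have k3 := mul_le_mul_of_nonneg_right (hσ j hj) (abs_nonneg
            (∑ l, (z b k w).fA (z b k w') ω j l * U l))
          refine k3.trans (le_trans (le_of_eq ?_) k1)
          congr 2
          exact Finset.sum_congr rfl fun l _ => by rw [hUj]
        have k4 : |a ω i₁ j - t * a ω ι₀ j| ≤ 2 ^ (3 * m + 1) := by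
          refine (abs_sub _ _).trans ?_
          rw [abs_mul]
          have k5 := hbd ω hω i₁ j
          have k6 : |t| * |a ω ι₀ j| ≤ (m * 2 ^ m) * 2 ^ m :=
            mul_le_mul htb (hbd ω hω ι₀ j) (abs_nonneg _) (by positivity)
          have k7 : (m : ℝ) * 2 ^ m * 2 ^ m ≤ 2 ^ (3 * m) := by
            calc (m : ℝ) * 2 ^ m * 2 ^ m ≤ 2 ^ m * 2 ^ m * 2 ^ m := by
                  refine mul_le_mul_of_nonneg_right ?_ (by positivity)
                  exact mul_le_mul_of_nonneg_right hm2m (by positivity)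
              _ = 2 ^ (3 * m) := by rw [← pow_add, ← pow_add]; congr 1; ring
          have k8 : (2 : ℝ) ^ m ≤ 2 ^ (3 * m) := pow_le_pow_right₀ (by norm_num) (by omega)
          have k9 : (2 : ℝ) ^ (3 * m + 1) = 2 ^ (3 * m) + 2 ^ (3 * m) := by
            rw [pow_succ]; ring
          rw [k9]
          linarith
        exact mul_le_mul k2 k4 (abs_nonneg _) (by positivity)
    refine (Finset.abs_sum_le_sum_abs _ _).trans ?_
    refine (Finset.sum_le_card_nsmul _ _ _ e3).trans ?_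
    rw [card_univ, Fintype.card_fin, nsmul_eq_mul, div_mul_eq_mul_div, mul_div_assoc']
    refine div_le_div_of_nonneg_right ?_ (by positivity)
    calc (m : ℝ) * (2 ^ (e + m + m) * 2 ^ (3 * m + 1))
        ≤ 2 ^ m * (2 ^ (e + m + m) * 2 ^ (3 * m + 1)) :=
          mul_le_mul_of_nonneg_right hm2m (by positivity)
      _ = 2 ^ (e + (6 * m + 1)) := by rw [← pow_add, ← pow_add]; congr 1; ring

end

end Pool.NB
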