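import Pool.Agent.H69.NB.Deco
import Pool.Agent.H54.PC.Exa

/-!
# The thresholds of the chains of boxes: signs, data of one family, prices
-/

set_option autoImplicit false

namespace Pool.NB

open Finset Real
open Pool.Agent.H49.Ent Pool.Agent.H32.Dense Pool.STK Pool.KA Pool.K2S Pool.PB
open Pool.PC (On Cnt DetA pt Dec Bar Evt lex)

variable {m M : ℕ} {Λ : Lbs m M}

theorem evt_self {J : ℕ} {F : Fam m J} {A : F.Ω → Prop} {ψ : ℝ} (hψ : 0 ≤ ψ) :
    Real.exp (-(ψ * J)) * Pe F.p A ≤ Pe F.p A := (Evt.refl hψ).2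

/-- **The error threshold is zero.** -/
theorem er_zero {δ γ : ℝ} {c : ℕ → Crd Λ} {S : PCl m} {s : ℕ → ℝ}
    (hs : ∀ i, (knd c i).lo ≤ s i ∧ s i ≤ (knd c i).up δ γ)
    (hN : (S.sl ((bdec δ γ c).sld s)).Ne) (hb : ∀ i, Bar S (bdec δ γ c) i s) : s 0 = 0 := by
  have h0 : s 0 ≤ 0 := by
    have := (hs 0).2
    rw [knd_zero] at this
    exact this
  refine le_antisymm h0 ?_
  by_contra hcon
  push Not at hcon
  obtain ⟨ψ, hψ, J₁, h1⟩ := hb 0 (-s 0) (by linarith)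
  obtain ⟨J, hJ, F, A, hA, -⟩ := hN ψ hψ J₁
  have hC := Chn.triv F A (M := M) (gp γ J) 0
  obtain ⟨t, ht⟩ := Λ.triv hC
  refine h1 J hJ F A hA A (fun _ h => h) (evt_self hψ.le)
    (fun i => if i = 0 then 0 else (knd c i).lo) (fun j hj => absurd hj (Nat.not_lt_zero j))
    ?_ ⟨_, _, _, t, hC, ht, fun i => ?_⟩
  · show s 0 + -s 0 ≤ if 0 = 0 then 0 else _
    rw [if_pos rfl]
    linarith
  · show (if i = 0 then 0 else (knd c i).lo) ≤ _ ∨ (knd c i).at δ (gp γ J) F A _ _ _ _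
      (if i = 0 then 0 else (knd c i).lo)
    rcases Nat.eq_zero_or_pos i with hi | hi
    · subst hi
      rw [if_pos rfl, knd_zero]
      refine Or.inr ?_
      show ((0 : ℕ) : ℝ) ≤ -(0 * J)
      simp
    · rw [if_neg (by omega)]
      exact Or.inl le_rfl

/-- **The scores are not negative.** -/
theorem sc_nonneg {δ γ : ℝ} (hδ : 0 < δ) {c : ℕ → Crd Λ} {S : PCl m} {s : ℕ → ℝ}
    (hs : ∀ i, (knd c i).lo ≤ s i ∧ s i ≤ (knd c i).up δ γ)
    (hN : (S.sl ((bdec δ γ c).sld s)).Ne) (hb : ∀ i, Bar S (bdec δ γ c) i s) :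
    ∀ k < M, 0 ≤ s (k + 1) := by
  have hl2 : 0 < Real.log 2 := Real.log_pos (by norm_num)
  have hmr : (0 : ℝ) ≤ m := Nat.cast_nonneg m
  have hs0 := er_zero hs hN hb
  intro k
  induction k using Nat.strong_induction_on with
  | _ k ih =>
  intro hk
  by_contra hcon
  push Not at hcon
  obtain ⟨ψ, hψ, J₁, h1⟩ := hb (k + 1) (-s (k + 1) / 2) (by linarith)
  rcases Nat.eq_zero_or_pos k with hk0 | hk0
  · subst hk0
    obtain ⟨J₂, hJ₂⟩ := exists_nat_gt (m * Real.log 5 / δ / (-s 1 / 2))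
    obtain ⟨J, hJ, F, A, hA, -⟩ := hN ψ hψ (max J₁ J₂)
    have hJr : (0 : ℝ) ≤ J := Nat.cast_nonneg J
    have hC := Chn.triv F A (M := M) (gp γ J) 0
    obtain ⟨t, ht⟩ := Λ.triv hC
    refine h1 J ((le_max_left _ _).trans hJ) F A hA A (fun _ h => h) (evt_self hψ.le)
      (fun i => if i = 0 then 0 else if i = 1 then s 1 + -s 1 / 2 else (knd c i).lo)
      (fun j hj => ?_) (le_of_eq ?_) ⟨_, _, _, t, hC, ht, fun i => ?_⟩
    · obtain rfl : j = 0 := by omega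
      show s 0 - ψ ≤ if 0 = 0 then 0 else _
      rw [if_pos rfl, hs0]
      linarith
    · show s 1 + -s 1 / 2 = if 0 + 1 = 0 then 0 else if 0 + 1 = 1 then _ else _
      rw [if_neg (by omega), if_pos rfl]
    · show (if i = 0 then 0 else if i = 1 then s 1 + -s 1 / 2 else (knd c i).lo) ≤ _ ∨
        (knd c i).at δ (gp γ J) F A _ _ _ _
        (if i = 0 then 0 else if i = 1 then s 1 + -s 1 / 2 else (knd c i).lo)
      rcases Nat.eq_zero_or_pos i with hi | hi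
      · subst hi
        rw [if_pos rfl, knd_zero]
        refine Or.inr ?_
        show ((0 : ℕ) : ℝ) ≤ -(0 * J)
        simp
      · rcases Nat.lt_or_ge 1 i with h2 | h2
        · rw [if_neg (by omega), if_neg (by omega)]
          exact Or.inl le_rfl
        · obtain rfl : i = 1 := by omega
          rw [if_neg (by omega), if_pos rfl, knd_sc c hk]
          refine Or.inr ?_
          show (s 1 + -s 1 / 2) * J ≤ nsc δ (gp γ J) _ _ 0
          unfold nsc trN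
          have hJ3 : m * Real.log 5 / δ / (-s 1 / 2) < J :=
            hJ₂.trans_le (Nat.cast_le.2 ((le_max_right _ _).trans hJ))
          have hs1 : s 1 < 0 := hcon
          rw [div_lt_iff₀ (by linarith)] at hJ3
          have hv : (0 : ℝ) ≤ (((Bx.one F).its (gp γ J) 0).vol : ℝ) * Real.log 2 := by
            positivity
          rw [Nat.cast_zero]
          simp only [zero_mul, add_zero, zero_div]
          linarith
  · obtain ⟨k, rfl⟩ : ∃ k', k = k' + 1 := ⟨k - 1, by omega⟩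
    clear hk0
    obtain ⟨τ, hτ, hτ1, hτ2, hτ3⟩ : ∃ τ > 0, τ ≤ ψ ∧ ((k : ℝ) + 2) * τ ≤ 1 / 2 ∧
        τ ≤ -s (k + 1 + 1) / 2 := by
      refine ⟨min ψ (min (1 / (2 * ((k : ℝ) + 2))) (-s (k + 1 + 1) / 2)),
        lt_min hψ (lt_min (by positivity) (by linarith)), min_le_left _ _, ?_, ?_⟩
      · have h2 : min ψ (min (1 / (2 * ((k : ℝ) + 2))) (-s (k + 1 + 1) / 2)) ≤
            1 / (2 * ((k : ℝ) + 2)) := (min_le_right _ _).trans (min_le_left _ _)
        have h3 := mul_le_mul_of_nonneg_left h2 (show (0 : ℝ) ≤ (k : ℝ) + 2 by positivity)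
        refine h3.trans (le_of_eq ?_)
        field_simp
      · exact (min_le_right _ _).trans (min_le_right _ _)
    obtain ⟨J, hJ, F, A, hA, v, ⟨e, B, N, t, hC, hV, hv1⟩, hv2⟩ := hN τ hτ J₁
    have hJr : (0 : ℝ) ≤ J := Nat.cast_nonneg J
    have hk1 : (0 : ℝ) ≤ (k : ℝ) := Nat.cast_nonneg k
    have hτh : τ ≤ 1 / 2 := by nlinarith
    have he : (e : ℝ) ≤ ψ * J := by
      have h2 := hv2 0 (by rw [Nat.cast_zero]; linarith)
      rcases hv1 0 with h3 | h3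
      · rw [knd_zero] at h3
        have h4 : v 0 ≤ -1 := h3
        linarith
      · rw [knd_zero] at h3
        have h4 : (e : ℝ) ≤ -(v 0 * J) := h3
        have h5 : (s 0 - τ) * (J : ℝ) ≤ v 0 * J := mul_le_mul_of_nonneg_right h2 hJr
        have h6 : τ * (J : ℝ) ≤ ψ * J := mul_le_mul_of_nonneg_right hτ1 hJr
        rw [hs0] at h5
        linarith
    have hsc : ∀ j ≤ k, (s (j + 1) - τ) * J ≤ nsc δ (gp γ J) B N j := by
      intro j hj
      have hj0 : 0 ≤ s (j + 1) := ih j (by omega) (by omega)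
      have hj1 : (j : ℝ) ≤ k := Nat.cast_le.2 hj
      have h2 := hv2 (j + 1) (by push_cast; nlinarith)
      rcases hv1 (j + 1) with h3 | h3
      · rw [knd_sc c (show j < M by omega)] at h3
        have : v (j + 1) ≤ -1 := h3
        linarith
      · rw [knd_sc c (show j < M by omega)] at h3
        exact le_trans (mul_le_mul_of_nonneg_right h2 hJr) h3
    have hCs := hC.shr hk
    obtain ⟨t', ht'⟩ := Λ.triv hCs
    refine h1 J hJ F A (S.mono hτ1 hA) A (fun _ h => h) (evt_self hψ.le)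
      (fun i => if i ≤ k + 1 then s i - ψ else if i = k + 1 + 1 then
        s (k + 1 + 1) + -s (k + 1 + 1) / 2 else (knd c i).lo) (fun j hj => ?_) ?_
      ⟨_, _, _, t', hCs, ht', fun i => ?_⟩
    · show s j - ψ ≤ if j ≤ k + 1 then s j - ψ else _
      rw [if_pos (by omega)]
    · show _ ≤ if k + 1 + 1 ≤ k + 1 then _ else if k + 1 + 1 = k + 1 + 1 then
        s (k + 1 + 1) + -s (k + 1 + 1) / 2 else _
      rw [if_neg (by omega), if_pos rfl]
    · show (if i ≤ k + 1 then s i - ψ else if i = k + 1 + 1 then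
        s (k + 1 + 1) + -s (k + 1 + 1) / 2 else (knd c i).lo) ≤ _ ∨
        (knd c i).at δ (gp γ J) F A _ _ _ _
        (if i ≤ k + 1 then s i - ψ else if i = k + 1 + 1 then
        s (k + 1 + 1) + -s (k + 1 + 1) / 2 else (knd c i).lo)
      rcases Nat.eq_zero_or_pos i with hi0 | hi0
      · subst hi0
        rw [if_pos (by omega), knd_zero]
        refine Or.inr ?_
        show (e : ℝ) ≤ -((s 0 - ψ) * J)
        rw [hs0]
        linarith
      · obtain ⟨i, rfl⟩ : ∃ i', i = i' + 1 := ⟨i - 1, by omega⟩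
        rcases lt_trichotomy i (k + 1) with hi | hi | hi
        · rw [if_pos (by omega), knd_sc c (hi.trans hk)]
          refine Or.inr ?_
          show (s (i + 1) - ψ) * J ≤ nsc δ (gp γ J) _ _ i
          have := hsc i (by omega)
          unfold nsc at this ⊢
          rw [rep_lt hi, repN_lt hi]
          refine le_trans (mul_le_mul_of_nonneg_right (by linarith) hJr) this
        · subst hi
          rw [if_neg (by omega), if_pos rfl, knd_sc c hk]
          refine Or.inr ?_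
          show (s (k + 1 + 1) + -s (k + 1 + 1) / 2) * J ≤ nsc δ (gp γ J) _ _ (k + 1)
          have e0 := hsc k le_rfl
          have hk0 := ih k (by omega) (by omega)
          have c1 : ((B k).vol : ℝ) ≤ ((B k).sh (gp γ J)).vol :=
            Nat.cast_le.2 ((hC.ok k (by omega)).vol_sh (gp γ J))
          unfold nsc at e0 ⊢
          rw [rep_self, repN_self]
          have e3 : (N k + m * (gp γ J : ℝ) * Real.log 2) / δ = N k / δ +
              (m * (gp γ J : ℝ) * Real.log 2) / δ := add_div _ _ _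
          have e4 : (((k + 1 : ℕ) : ℕ) : ℝ) * (m * (gp γ J : ℝ) * Real.log 2) / δ =
              (k : ℝ) * (m * (gp γ J : ℝ) * Real.log 2) / δ +
              (m * (gp γ J : ℝ) * Real.log 2) / δ := by
            push_cast
            rw [add_mul, one_mul, add_div]
          rw [e3, e4]
          have e5 : ((B k).vol : ℝ) * Real.log 2 ≤
              (((B k).sh (gp γ J)).vol : ℝ) * Real.log 2 :=
            mul_le_mul_of_nonneg_right c1 hl2.le
          have e6 : (s (k + 1 + 1) + -s (k + 1 + 1) / 2) * (J : ℝ) ≤ (s (k + 1) - τ) * J :=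
            mul_le_mul_of_nonneg_right (by linarith) hJr
          linarith
        · rw [if_neg (by omega), if_neg (by omega)]
          exact Or.inl le_rfl

/-! ### The data of one family -/

/-- The decoration of one family at the class numbers `s`, up to `ψ`. -/
def Dat {J : ℕ} (δ γ : ℝ) (c : ℕ → Crd Λ) (s : ℕ → ℝ) (ψ : ℝ) (F : Fam m J)
    (A : F.Ω → Prop) (e : ℕ) (B : ℕ → Bx F) (N : ℕ → ℝ) (t : Λ.T F) : Prop :=
  Chn F A M (gp γ J) e B N ∧ Λ.Val F A (gp γ J) e B N t ∧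
    ∀ i : ℕ, ((i : ℝ) + 1) * ψ ≤ 1 → (knd c i).at δ (gp γ J) F A e B N t (s i - ψ)

theorem Dat.mono {J : ℕ} {δ γ : ℝ} {c : ℕ → Crd Λ} {s : ℕ → ℝ} {ψ ψ' : ℝ} {F : Fam m J}
    {A : F.Ω → Prop} {e : ℕ} {B : ℕ → Bx F} {N : ℕ → ℝ} {t : Λ.T F}
    (h : Dat δ γ c s ψ F A e B N t) (hψ : ψ ≤ ψ') : Dat δ γ c s ψ' F A e B N t :=
  ⟨h.1, h.2.1, fun i hi => (h.2.2 i (le_trans (mul_le_mul_of_nonneg_left hψ (by positivity))
    hi)).anti (by linarith)⟩

theorem Dat.sub {J : ℕ} {δ γ : ℝ} {c : ℕ → Crd Λ} {s : ℕ → ℝ} {ψ : ℝ} {F : Fam m J}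
    {A E : F.Ω → Prop} {e : ℕ} {B : ℕ → Bx F} {N : ℕ → ℝ} {t : Λ.T F}
    (h : Dat δ γ c s ψ F A e B N t) (hE : ∀ ω, E ω → A ω) : Dat δ γ c s ψ F E e B N t :=
  ⟨h.1.sub hE, Λ.sub hE h.2.1, fun i hi => (h.2.2 i hi).sub hE⟩

/-- The families of the subclass have such decorations. -/
theorem dat_of {δ γ : ℝ} {c : ℕ → Crd Λ} {S : PCl m} {s : ℕ → ℝ} (hs0 : s 0 = 0)
    (hs : ∀ k < M, 0 ≤ s (k + 1)) {τ : ℝ} (hτ : 0 < τ) (hτ1 : τ < 1) : ∃ J₁ : ℕ, ∀ J ≥ J₁,
    ∀ (F : Fam m J) (A : F.Ω → Prop), (S.sl ((bdec δ γ c).sld s)).St τ J F A →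
      ∃ e B N t, Dat δ γ c s τ F A e B N t := by
  obtain ⟨J₁, hJ₁⟩ : ∃ J₁ : ℕ, ∀ j : ℕ, j ≤ ⌊1 / τ⌋₊ → (c j).J₀ ≤ J₁ := by
    refine ⟨∑ j ∈ range (⌊1 / τ⌋₊ + 1), (c j).J₀, fun j hj => ?_⟩
    exact Finset.single_le_sum (f := fun j => (c j).J₀) (fun _ _ => Nat.zero_le _)
      (Finset.mem_range.2 (by omega))
  refine ⟨J₁, fun J hJ F A hA => ?_⟩
  obtain ⟨-, v, ⟨e, B, N, t, hC, hV, h1⟩, h2⟩ := hA
  refine ⟨e, B, N, t, hC, hV, fun i hi => ?_⟩
  have h3 := h2 i hi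
  rcases h1 i with h4 | h4
  · rcases knd_cases c i with hi' | ⟨k, hk, hi'⟩ | ⟨j, hi'⟩
    · rw [hi'] at h3 h4
      rw [knd_zero] at h4
      have h5 : v 0 ≤ -1 := h4
      linarith
    · rw [hi'] at h3 h4
      rw [knd_sc c hk] at h4
      have h5 : v (k + 1) ≤ -1 := h4
      have := hs k hk
      linarith
    · have hj : j ≤ ⌊1 / τ⌋₊ := by
        refine Nat.le_floor ?_
        rw [le_div_iff₀ hτ]
        have : (j : ℝ) ≤ (i : ℝ) + 1 := by
          rw [hi']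
          push_cast
          linarith [(Nat.cast_nonneg M : (0 : ℝ) ≤ M)]
        exact (mul_le_mul_of_nonneg_right this hτ.le).trans hi
      rw [hi'] at h3 h4 ⊢
      rw [knd_ad] at h4 ⊢
      refine (c j).anti (h3.trans h4) ((c j).low hC hV ((hJ₁ j hj).trans hJ))
  · exact h4.anti h3

/-- **Coordinates are not exceeded** by the same chain on large events. -/
theorem bar_at {δ γ : ℝ} {c : ℕ → Crd Λ} {S : PCl m} {s : ℕ → ℝ} {i : ℕ}
    (hb : Bar S (bdec δ γ c) i s) : ∀ h > 0, ∃ ψ > 0, ∃ J₁ : ℕ, ∀ J ≥ J₁,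
    ∀ (F : Fam m J) (A : F.Ω → Prop), S.St ψ J F A → ∀ (e : ℕ) (B : ℕ → Bx F) (N : ℕ → ℝ)
      (t : Λ.T F), Dat δ γ c s ψ F A e B N t → ∀ E : F.Ω → Prop, Evt F A ψ E →
        ¬ (knd c i).at δ (gp γ J) F E e B N t (s i + h) := by
  intro h hh
  obtain ⟨ψ, hψ, J₁, h1⟩ := hb h hh
  have hi0 : (0 : ℝ) < (i : ℝ) + 2 := by positivity
  refine ⟨min ψ (1 / ((i : ℝ) + 2)), lt_min hψ (by positivity), J₁,
    fun J hJ F A hA e B N t hD E hE hcon => ?_⟩
  refine h1 J hJ F A (S.mono (min_le_left _ _) hA) E hE.1 (hE.mono (min_le_left _ _)).2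
    (fun j => if j < i then s j - ψ else if j = i then s i + h else (knd c j).lo)
    (fun j hj => ?_) ?_ ?_
  · show s j - ψ ≤ if j < i then s j - ψ else _
    rw [if_pos hj]
  · show _ ≤ if i < i then _ else if i = i then s i + h else _
    rw [if_neg (lt_irrefl i), if_pos rfl]
  · refine ⟨e, B, N, t, hD.1.sub hE.1, Λ.sub hE.1 hD.2.1, fun j => ?_⟩
    show (if j < i then s j - ψ else if j = i then s i + h else (knd c j).lo) ≤ _ ∨
      (knd c j).at δ (gp γ J) F E e B N t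
        (if j < i then s j - ψ else if j = i then s i + h else (knd c j).lo)
    rcases lt_trichotomy j i with hj | hj | hj
    · rw [if_pos hj]
      refine Or.inr (((hD.2.2 j ?_).sub hE.1).anti ?_)
      · have e1 : ((j : ℝ) + 1) * min ψ (1 / ((i : ℝ) + 2)) ≤
            ((i : ℝ) + 2) * (1 / ((i : ℝ) + 2)) := by
          have e2 : (j : ℝ) ≤ i := Nat.cast_le.2 hj.le
          refine mul_le_mul (by linarith) (min_le_right _ _)
            (le_min hψ.le (by positivity)) (by positivity)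
        refine e1.trans (le_of_eq ?_)
        field_simp
      · have := min_le_left ψ (1 / ((i : ℝ) + 2))
        linarith
    · subst hj
      rw [if_neg (lt_irrefl j), if_pos rfl]
      exact Or.inr hcon
    · rw [if_neg (by omega), if_neg (by omega)]
      exact Or.inl le_rfl

/-- The price of the labels. -/
theorem price {δ γ : ℝ} (hδ : 0 < δ) (hγ : 0 ≤ γ) {s : ℕ → ℝ} {k : ℕ} (hk : k < M)
    (hs : 0 ≤ s (k + 1)) {ψ : ℝ} {J : ℕ} {F : Fam m J} {A : F.Ω → Prop} {e : ℕ}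
    {B : ℕ → Bx F} {N : ℕ → ℝ} (hC : Chn F A M (gp γ J) e B N)
    (h : (s (k + 1) - ψ) * J ≤ nsc δ (gp γ J) B N k) :
    N k ≤ (m * δ + m * M * γ + δ * ψ) * J := by
  have hl2 : 0 < Real.log 2 := Real.log_pos (by norm_num)
  have hl21 : Real.log 2 ≤ 1 := by
    have := Real.log_le_sub_one_of_pos (show (0 : ℝ) < 2 by norm_num)
    linarith
  have hJ0 : (0 : ℝ) ≤ J := Nat.cast_nonneg J
  have hmr : (0 : ℝ) ≤ m := Nat.cast_nonneg m
  have h1 : ((B k).vol : ℝ) ≤ m * J := by exact_mod_cast (hC.ok k hk).vol_le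
  have h0 : (0 : ℝ) ≤ (B k).vol := Nat.cast_nonneg _
  unfold nsc at h
  have e1 : ((B k).vol : ℝ) * Real.log 2 ≤ m * J := by nlinarith
  have e2 : (k : ℝ) * (m * (gp γ J : ℝ) * Real.log 2) ≤ m * M * γ * J := by
    have c1 : (k : ℝ) ≤ M := Nat.cast_le.2 hk.le
    have c2 := gp_le hγ J
    have c0 : (0 : ℝ) ≤ gp γ J := Nat.cast_nonneg _
    have c3 : (gp γ J : ℝ) * Real.log 2 ≤ γ * J := by nlinarith
    have c4 : (0 : ℝ) ≤ (gp γ J : ℝ) * Real.log 2 := by positivity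
    calc (k : ℝ) * (m * (gp γ J : ℝ) * Real.log 2) = m * (k * ((gp γ J : ℝ) * Real.log 2)) := by
          ring
      _ ≤ m * (M * (γ * J)) := by
          refine mul_le_mul_of_nonneg_left ?_ hmr
          exact mul_le_mul c1 c3 c4 (Nat.cast_nonneg M)
      _ = _ := by ring
  have e3 : -(ψ * (J : ℝ)) ≤ (s (k + 1) - ψ) * J := by nlinarith
  have e4 : N k / δ ≤ m * J + m * M * γ * J / δ + ψ * J := by
    have : (k : ℝ) * (m * (gp γ J : ℝ) * Real.log 2) / δ ≤ m * M * γ * J / δ :=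
      div_le_div_of_nonneg_right e2 hδ.le
    linarith
  have e5 := mul_le_mul_of_nonneg_right e4 hδ.le
  rw [div_mul_cancel₀ _ hδ.ne'] at e5
  refine e5.trans (le_of_eq ?_)
  field_simp

/-- The labels up to level `k` have small entropy given the exact point, for every law on `A`. -/
theorem price_ent {g e : ℕ} {k : ℕ} (hk : k < M) {J : ℕ} {F : Fam m J} {A : F.Ω → Prop}
    {B : ℕ → Bx F} {N : ℕ → ℝ} (hC : Chn F A M g e B N) {p : F.Ω → ℝ} (hp : IsLaw p)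
    (hA : ∀ ω, 0 < p ω → On F A ω) : CH p (clab B k) (pt F) ≤ N k := by
  have := (hC.cnt k hk).entropy hp hA
  rwa [Real.log_exp] at this

/-! ### Activity and exactness -/

theorem nPig_le_exp (m : ℕ) {c : ℝ} (hc : 0 < c) : ∃ J₁ : ℕ, ∀ J ≥ J₁,
    nPig m J ≤ Real.exp (c * J) := by
  obtain ⟨J₁, hJ₁⟩ := Pool.PC.sq_le_exp (show 0 < c / ((m : ℝ) + 1) by positivity)
  obtain ⟨J₂, hJ₂⟩ := exists_nat_gt (m.factorial : ℝ)
  refine ⟨max J₁ J₂, fun J hJ => ?_⟩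
  have h1 := hJ₁ J ((le_max_left _ _).trans hJ)
  have h2 : (m.factorial : ℝ) ≤ J :=
    hJ₂.le.trans (Nat.cast_le.2 ((le_max_right _ _).trans hJ))
  have hJr : (0 : ℝ) ≤ J := Nat.cast_nonneg J
  have h3 : (J : ℝ) + 1 ≤ Real.exp (c / ((m : ℝ) + 1) * J) := by nlinarith
  have h4 : (m.factorial : ℝ) ≤ Real.exp (c / ((m : ℝ) + 1) * J) := by linarith
  unfold nPig
  have h5 : ((J : ℝ) + 1) ^ m ≤ Real.exp (c / ((m : ℝ) + 1) * J) ^ m :=
    pow_le_pow_left₀ (by positivity) h3 m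
  have h6 := mul_le_mul h4 h5 (by positivity) (by positivity)
  refine h6.trans (le_of_eq ?_)
  rw [← Real.exp_nat_mul, ← Real.exp_add]
  congr 1
  field_simp
  ring

/-- The functional `lam` of the zoomed direction is admissible for `x` digits. -/
def Adm {J : ℕ} {F : Fam m J} (B : Bx F) (E : F.Ω → Prop) (lam : F.Ω → Fin m → ℝ) (x : ℕ) :
    Prop :=
  ∀ ω, On F E ω → (∀ i, |lam ω i| ≤ 1) ∧ (∃ i, |lam ω i| = 1) ∧
    ∀ i, |lam ω i| * 2 ^ (B.q i + x) ≤ 2 ^ J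

/-- **(ACT)** On every event of cost `ψ`, `x` digits of every unit functional of the zoomed
direction have at least `exp (δ x log 2 - h J)` values, given the exact point with the labels. -/
theorem act {δ γ : ℝ} (hδ : 0 < δ) {c : ℕ → Crd Λ} {S : PCl m} {s : ℕ → ℝ} (hs0 : s 0 ≤ 0)
    {k : ℕ} (hk : k < M) (hb : Bar S (bdec δ γ c) (k + 1) s)
    (hpos : ∀ (τ : ℝ) (J : ℕ) (F : Fam m J) (A : F.Ω → Prop), S.St τ J F A → 0 < Pe F.p A) :
    ∀ h : ℝ, 0 < h → ∃ ψ > 0, ∃ J₁ : ℕ, ∀ J ≥ J₁,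
    ∀ (F : Fam m J) (A : F.Ω → Prop), S.St ψ J F A → ∀ (e : ℕ) (B : ℕ → Bx F) (N : ℕ → ℝ),
      Chn F A M (gp γ J) e B N → Scs δ γ s ψ k e B N →
      ∀ E : F.Ω → Prop, Evt F A ψ E →
      ∀ (x : ℕ) (L : ℝ) (lam : F.Ω → Fin m → ℝ), DetA F E (ptk B k) lam → Adm (B k) E lam x →
        0 ≤ L → Cnt F E (ptk B k) (fun ω => ⌊(2 : ℝ) ^ x * ∑ i, lam ω i * (B k).om ω i⌋)
          (Real.exp L) → δ * x * Real.log 2 - h * J ≤ L := by
  intro h hh
  have hl2 : 0 < Real.log 2 := Real.log_pos (by norm_num)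
  obtain ⟨ψ₁, hψ₁, J₁, hnb⟩ := no_better hδ hs0 hk hb (h / 2) (half_pos hh)
  obtain ⟨J₂, hJ₂⟩ := nPig_le_exp m (half_pos hψ₁)
  obtain ⟨J₃, hJ₃⟩ := exists_nat_gt ((cV m * (δ * Real.log 2) + cN m * Real.log 2) / (h / 2))
  obtain ⟨J₄, hJ₄⟩ := exists_nat_gt (cS m / ψ₁)
  refine ⟨ψ₁ / 2, half_pos hψ₁, max (max J₁ J₂) (max J₃ J₄),
    fun J hJ F A hA e B N hC hsc E hE x L lam hdl hadm hL hcnt => ?_⟩
  have hJ1 : J₁ ≤ J := (le_max_left _ _).trans ((le_max_left _ _).trans hJ)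
  have hJ2 : J₂ ≤ J := (le_max_right _ _).trans ((le_max_left _ _).trans hJ)
  have hJ3 : J₃ ≤ J := (le_max_left _ _).trans ((le_max_right _ _).trans hJ)
  have hJ4 : J₄ ≤ J := (le_max_right _ _).trans ((le_max_right _ _).trans hJ)
  have hJr : (0 : ℝ) ≤ J := Nat.cast_nonneg J
  have hpA := hpos _ J F A hA
  have hpE : 0 < Pe F.p E := lt_of_lt_of_le (mul_pos (Real.exp_pos _) hpA) hE.2
  have hn0 : 0 < nPig m J := by
    unfold nPig
    have : (0 : ℝ) < m.factorial := by exact_mod_cast m.factorial_pos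
    positivity
  obtain ⟨A', B', hA', hPA', hO, hgain, hS, hcnt'⟩ := mod (B := B k) (P := ptk B k)
    ((hC.ok k hk).sub hE.1) (ptk_det_lab B le_rfl) hdl hadm hcnt hpE
  rw [two_pow_exp, ← Real.exp_add] at hcnt'
  have hE' : Evt F A ψ₁ A' := by
    refine ⟨fun ω hω => hE.1 ω (hA' ω hω), le_trans ?_ hPA'⟩
    rw [le_div_iff₀ hn0]
    have k1 := hJ₂ J hJ2
    have k2 : Real.exp (-(ψ₁ * J)) * nPig m J ≤ Real.exp (-(ψ₁ / 2 * J)) := by
      refine (mul_le_mul_of_nonneg_left k1 (Real.exp_pos _).le).trans (le_of_eq ?_)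
      rw [← Real.exp_add]
      congr 1
      ring
    calc Real.exp (-(ψ₁ * J)) * Pe F.p A * nPig m J
        = Real.exp (-(ψ₁ * J)) * nPig m J * Pe F.p A := by ring
      _ ≤ Real.exp (-(ψ₁ / 2 * J)) * Pe F.p A := mul_le_mul_of_nonneg_right k2 hpA.le
      _ ≤ _ := hE.2
  have hψψ : ψ₁ / 2 ≤ ψ₁ := by linarith
  have hsc' : Scs δ γ s ψ₁ k e B N := by
    refine ⟨hsc.1.trans (mul_le_mul_of_nonneg_right hψψ hJr), fun j hj => ?_⟩
    exact le_trans (mul_le_mul_of_nonneg_right (by linarith) hJr) (hsc.2 j hj)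
  have hr : ((cS m : ℕ) : ℝ) ≤ ψ₁ * J := by
    have h5 := hJ₄.trans_le (Nat.cast_le.2 hJ4 : (J₄ : ℝ) ≤ J)
    rw [div_lt_iff₀ hψ₁] at h5
    linarith
  have hlt := hnb J hJ1 F A (S.mono hψψ hA) e B N hC hsc' A' hE' B' (cS m)
    (cN m * Real.log 2 + L) hO hS hr (by positivity) hcnt'
  have hgr : ((B k).vol : ℝ) + x ≤ B'.vol + cV m := by exact_mod_cast hgain
  have k3 : ((x : ℝ) - cV m) * (δ * Real.log 2) ≤
      ((B'.vol : ℝ) - (B k).vol) * (δ * Real.log 2) :=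
    mul_le_mul_of_nonneg_right (by linarith) (by positivity)
  have k8 := hJ₃.trans_le (Nat.cast_le.2 hJ3 : (J₃ : ℝ) ≤ J)
  rw [div_lt_iff₀ (by positivity)] at k8
  nlinarith

/-- The fans are near hyperplanes, on `E`. -/
def NearPl {J : ℕ} {F : Fam m J} (B : Bx F) (E : F.Ω → Prop) {α : Type} (P : F.Ω → α) (x : ℕ) :
    Prop :=
  ∃ (lam : F.Ω → Fin m → ℝ) (nu : F.Ω → ℝ), DetA F E P (fun ω => (lam ω, nu ω)) ∧
    Adm B E lam x ∧ ∀ ω, On F E ω → |∑ i, lam ω i * B.om ω i - nu ω| ≤ 1 / 2 ^ x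

/-- **(EXA)** On no event of cost `ψ` the fans at the exact points with the labels are near
hyperplanes. -/
theorem exa {δ γ : ℝ} (hδ : 0 < δ) {c : ℕ → Crd Λ} {S : PCl m} {s : ℕ → ℝ} (hs0 : s 0 ≤ 0)
    {k : ℕ} (hk : k < M) (hb : Bar S (bdec δ γ c) (k + 1) s)
    (hpos : ∀ (τ : ℝ) (J : ℕ) (F : Fam m J) (A : F.Ω → Prop), S.St τ J F A → 0 < Pe F.p A) :
    ∀ h : ℝ, 0 < h → ∃ ψ > 0, ∃ J₁ : ℕ, ∀ J ≥ J₁,
    ∀ (F : Fam m J) (A : F.Ω → Prop), S.St ψ J F A → ∀ (e : ℕ) (B : ℕ → Bx F) (N : ℕ → ℝ),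
      Chn F A M (gp γ J) e B N → Scs δ γ s ψ k e B N →
      ∀ E : F.Ω → Prop, Evt F A ψ E →
      ∀ x : ℕ, h * J ≤ x → ¬ NearPl (B k) E (ptk B k) x := by
  intro h hh
  have hl2 : 0 < Real.log 2 := Real.log_pos (by norm_num)
  obtain ⟨h', hh', hh''⟩ : ∃ h' > 0, 2 * h' = h * (δ * Real.log 2) :=
    ⟨h * (δ * Real.log 2) / 2, by positivity, by ring⟩
  obtain ⟨ψ, hψ, J₁, h1⟩ := act hδ hs0 hk hb hpos h' hh'
  obtain ⟨J₂, hJ₂⟩ := exists_nat_gt (Real.log 5 / h')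
  refine ⟨ψ, hψ, max J₁ J₂, fun J hJ F A hA e B N hC hsc E hE x hx hN => ?_⟩
  obtain ⟨lam, nu, hdet, hadm, hnear⟩ := hN
  have hcnt : Cnt F E (ptk B k) (fun ω => ⌊(2 : ℝ) ^ x * ∑ i, lam ω i * (B k).om ω i⌋)
      (Real.exp (Real.log 5)) := by
    have h2 : Cnt F E (ptk B k) (fun ω => ⌊(2 : ℝ) ^ x * ∑ i, lam ω i * (B k).om ω i⌋)
        (2 * (2 : ℕ) + 1) := by
      refine Cnt.int fun ω ω' h3 h4 e5 => ?_
      have e6 : nu ω = nu ω' := congrArg Prod.snd (hdet ω ω' h3 h4 e5)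
      have p0 : (0 : ℝ) < 2 ^ x := by positivity
      have k1 := hnear ω h3
      have k2 := hnear ω' h4
      rw [abs_le, le_div_iff₀ p0] at k1 k2
      have k3 := k1.2
      have k4 := k2.1
      have k5 : (2 : ℝ) ^ x * ∑ i, lam ω i * (B k).om ω i -
          2 ^ x * ∑ i, lam ω' i * (B k).om ω' i ≤ 2 := by
        have k6 : -(1 : ℝ) ≤ (∑ i, lam ω' i * (B k).om ω' i - nu ω') * 2 ^ x := by
          have := mul_le_mul_of_nonneg_right k4 p0.le
          rw [neg_mul, div_mul_cancel₀ _ p0.ne'] at this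
          exact this
        rw [← e6] at k6
        nlinarith
      have k7 := Int.floor_le ((2 : ℝ) ^ x * ∑ i, lam ω i * (B k).om ω i)
      have k8 := Int.lt_floor_add_one ((2 : ℝ) ^ x * ∑ i, lam ω' i * (B k).om ω' i)
      have k9 : ((⌊(2 : ℝ) ^ x * ∑ i, lam ω i * (B k).om ω i⌋ -
          ⌊(2 : ℝ) ^ x * ∑ i, lam ω' i * (B k).om ω' i⌋ : ℤ) : ℝ) < ((3 : ℤ) : ℝ) := by
        push_cast
        linarith
      have k10 := Int.cast_lt.1 k9
      push_cast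
      omega
    refine h2.mono (le_of_eq ?_)
    rw [Real.exp_log (by norm_num)]
    norm_num
  have h3 := h1 J ((le_max_left _ _).trans hJ) F A hA e B N hC hsc E hE x (Real.log 5) lam
    (fun ω ω' a b e5 => congrArg Prod.fst (hdet ω ω' a b e5)) hadm
    (Real.log_nonneg (by norm_num)) hcnt
  have h4 := hJ₂.trans_le (Nat.cast_le.2 ((le_max_right _ _).trans hJ) : (J₂ : ℝ) ≤ J)
  rw [div_lt_iff₀ hh'] at h4
  have h5 : h * (δ * Real.log 2) * J ≤ δ * x * Real.log 2 := by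
    have := mul_le_mul_of_nonneg_right hx (show 0 ≤ δ * Real.log 2 by positivity)
    linarith
  rw [← hh''] at h5
  linarith

end Pool.NB
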