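import Pool.Agent.H69.NB.GoodV

/-!
# Inequalities of the class numbers
-/

set_option autoImplicit false

namespace Pool.NB

open Finset Real
open Pool.Agent.H49.Ent Pool.Agent.H32.Dense Pool.STK Pool.KA Pool.K2S Pool.PB Pool.KSAT
open Pool.PC (On Cnt DetA pt Dec Bar Evt lex)

variable {m J : ℕ}

/-! ### Falls, for one point -/

section falls

variable {q q' : Fin m → ℕ} {g g' A A' : Fin m → Fin m → ℝ} {σ : Fin m → ℝ}

/-- The falls are nonnegative if the boxes are nested. -/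
theorem Rel.nonneg (h : Rel q q' g g' A A' σ) {o : Equiv.Perm (Fin m)} (hg : Fr o g) {c : ℕ}
    (hn : ∀ v : Fin m → ℝ, (∀ i, |dot (g' i) v| ≤ 1 / 2 ^ q' i) →
      ∀ i, |dot (g i) v| ≤ 2 ^ c / 2 ^ q i) (i : Fin m) :
    -(((c + 2 * m : ℕ) : ℕ) : ℝ) ≤ Real.logb 2 (σ i) := by
  have hσ := h.pos i
  have hm : 0 < m := lt_of_le_of_lt (Nat.zero_le _) i.2
  have hmr : (0 : ℝ) < m := Nat.cast_pos.2 hm
  have hm2 := nat_le_two_pow m
  obtain ⟨v, hv⟩ := hg.vecs q (fun j => A' j i)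
  have h1 := h.out v (σ i) hσ.le (fun j => by
    have e1 : ∑ l, A j l * (2 ^ q l * dot (g l) v) = if j = i then 1 else 0 := by
      rw [← h.inv' j i]
      exact Finset.sum_congr rfl fun l _ => by rw [hv l]
    rw [e1]
    by_cases hj : j = i
    · rw [if_pos hj, abs_one, mul_one, hj]
    · rw [if_neg hj, abs_zero, mul_zero]
      exact hσ.le)
  have hK : 0 < m * σ i := by positivity
  have h2 := hn (fun l => (m * σ i)⁻¹ * v l) (fun j => by
    have e1 : dot (g' j) (fun l => (m * σ i)⁻¹ * v l) = (m * σ i)⁻¹ * dot (g' j) v := by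
      unfold dot
      rw [Finset.mul_sum]
      exact Finset.sum_congr rfl fun l _ => by ring
    rw [e1, abs_mul, abs_inv, abs_of_pos hK, inv_mul_le_iff₀ hK, mul_one_div,
      le_div_iff₀ (by positivity), mul_comm]
    exact h1 j)
  obtain ⟨l, hl⟩ := h.one' i
  have h3 := h2 l
  have e1 : dot (g l) (fun l => (m * σ i)⁻¹ * v l) = (m * σ i)⁻¹ * dot (g l) v := by
    unfold dot
    rw [Finset.mul_sum]
    exact Finset.sum_congr rfl fun l _ => by ring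
  rw [e1, abs_mul, abs_inv, abs_of_pos hK, inv_mul_le_iff₀ hK, mul_div_assoc',
    le_div_iff₀ (by positivity)] at h3
  have h4 : |A' l i| ≤ m * σ i * 2 ^ c := by
    rw [← hv l, abs_mul, abs_of_pos (show (0 : ℝ) < 2 ^ q l by positivity), mul_comm]
    exact h3
  have h5 : 1 ≤ σ i * 2 ^ (c + 2 * m) := by
    calc (1 : ℝ) ≤ m * |A' l i| := hl
      _ ≤ m * (m * σ i * 2 ^ c) := mul_le_mul_of_nonneg_left h4 hmr.le
      _ = (m * m) * (σ i * 2 ^ c) := by ring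
      _ ≤ (2 ^ m * 2 ^ m) * (σ i * 2 ^ c) := by
          refine mul_le_mul_of_nonneg_right ?_ (by positivity)
          exact mul_le_mul hm2 hm2 hmr.le (by positivity)
      _ = σ i * 2 ^ (c + 2 * m) := by
          rw [show c + 2 * m = m + m + c by ring, pow_add, pow_add]
          ring
  rw [Real.le_logb_iff_rpow_le (by norm_num) hσ, Real.rpow_neg (by norm_num), Real.rpow_natCast,
    inv_le_iff_one_le_mul₀ (by positivity)]
  exact h5

/-- The first fall is at most the difference of the first precisions. -/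
theorem Rel.first (h : Rel q q' g g' A A' σ) {o o' : Equiv.Perm (Fin m)} (hg : Fr o g)
    (hg' : Fr o' g') (hq : Monotone q) (i₀ : Fin m) (hi₀ : ∀ i, i₀ ≤ i) :
    Real.logb 2 (σ i₀) ≤ (q' i₀ : ℝ) - q i₀ + (5 * m : ℕ) := by
  have hm : 0 < m := lt_of_le_of_lt (Nat.zero_le _) i₀.2
  have hmr : (0 : ℝ) < m := Nat.cast_pos.2 hm
  have hm2 := nat_le_two_pow m
  obtain ⟨v, hv⟩ := hg'.vec q' i₀
  -- the size of `v`
  have hzer : ∀ l, l ≠ o' i₀ → g' i₀ l = 0 := by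
    intro l hl
    obtain ⟨j, rfl⟩ := o'.surjective l
    have hj : i₀ < j := lt_of_le_of_ne (hi₀ j) fun h => hl (by rw [h])
    exact hg'.zer i₀ j hj
  have h1 : dot (g' i₀) v = v (o' i₀) := by
    unfold dot
    rw [Finset.sum_eq_single (o' i₀)]
    · rw [hg'.one, one_mul]
    · intro l _ hl
      rw [hzer l hl, zero_mul]
    · intro hcon
      exact absurd (mem_univ _) hcon
  have h2 : |v (o' i₀)| = 1 / 2 ^ q' i₀ := by
    have h3 := hv i₀
    rw [if_pos rfl, h1] at h3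
    have h4 : |2 ^ q' i₀ * v (o' i₀)| = 1 := by rw [h3, abs_one]
    rw [abs_mul, abs_of_pos (by positivity)] at h4
    rw [eq_div_iff (by positivity), mul_comm]
    exact h4
  -- the natural coordinates of `v`
  obtain ⟨u, hu⟩ : ∃ u : Fin m → ℝ, u = fun j => 2 ^ q j * dot (g j) v := ⟨_, rfl⟩
  have huj : ∀ j, u j = 2 ^ q j * dot (g j) v := fun j => by rw [hu]
  have h3 := h.inn v 1 zero_le_one (fun j => by
    have := hv j
    have h4 : |2 ^ q' j * dot (g' j) v| ≤ 1 := by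
      rw [this]
      split_ifs
      · rw [abs_one]
      · rw [abs_zero]; exact zero_le_one
    rwa [abs_mul, abs_of_pos (show (0 : ℝ) < 2 ^ q' j by positivity)] at h4)
  have hσ0 := h.pos i₀
  have h4 : ∀ i, |∑ j, A i j * u j| ≤ 2 ^ m * 2 ^ m / σ i₀ := by
    intro i
    have h5 := h3 i
    rw [mul_one] at h5
    have h6 := h.mon i₀ i (hi₀ i)
    have h7 : (2 : ℝ) ^ ((i : ℕ) - (i₀ : ℕ)) ≤ 2 ^ m :=
      pow_le_pow_right₀ (by norm_num) (by omega)
    have h8 : σ i₀ ≤ 2 ^ m * σ i := h6.trans (mul_le_mul_of_nonneg_right h7 (h.pos i).le)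
    rw [le_div_iff₀ hσ0]
    have e1 : ∑ j, A i j * u j = ∑ j, A i j * (2 ^ q j * dot (g j) v) :=
      Finset.sum_congr rfl fun j _ => by rw [huj]
    rw [e1]
    calc |∑ j, A i j * (2 ^ q j * dot (g j) v)| * σ i₀
        ≤ |∑ j, A i j * (2 ^ q j * dot (g j) v)| * (2 ^ m * σ i) :=
          mul_le_mul_of_nonneg_left h8 (abs_nonneg _)
      _ = 2 ^ m * (σ i * |∑ j, A i j * (2 ^ q j * dot (g j) v)|) := by ring
      _ ≤ 2 ^ m * 2 ^ m := mul_le_mul_of_nonneg_left h5 (by positivity)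
  have h5 : ∀ j, |u j| ≤ m * (2 ^ m * 2 ^ m / σ i₀ * 2 ^ m) := by
    intro j
    rw [h.expand u j]
    refine (Finset.abs_sum_le_sum_abs _ _).trans ?_
    have h6 : ∀ l ∈ (univ : Finset (Fin m)), |(∑ i, A l i * u i) * A' j l| ≤
        2 ^ m * 2 ^ m / σ i₀ * 2 ^ m := by
      intro l _
      rw [abs_mul]
      exact mul_le_mul (h4 l) (h.bd' j l) (abs_nonneg _) (by positivity)
    refine (Finset.sum_le_card_nsmul _ _ _ h6).trans ?_
    rw [card_univ, Fintype.card_fin, nsmul_eq_mul]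
  obtain ⟨K, hK⟩ : ∃ K : ℝ, K = m * (2 ^ m * 2 ^ m / σ i₀ * 2 ^ m) := ⟨_, rfl⟩
  have hK0 : 0 ≤ K := by rw [hK]; positivity
  have h6 : ∀ j, |dot (g j) v| ≤ K / 2 ^ q i₀ := by
    intro j
    rw [le_div_iff₀ (by positivity), hK]
    have h7 := h5 j
    rw [huj, abs_mul, abs_of_pos (show (0 : ℝ) < 2 ^ q j by positivity)] at h7
    have h8 : (2 : ℝ) ^ q i₀ ≤ 2 ^ q j := pow_le_pow_right₀ (by norm_num) (hq (hi₀ j))
    calc |dot (g j) v| * 2 ^ q i₀ ≤ |dot (g j) v| * 2 ^ q j :=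
          mul_le_mul_of_nonneg_left h8 (abs_nonneg _)
      _ = 2 ^ q j * |dot (g j) v| := mul_comm _ _
      _ ≤ _ := h7
  have h7 := hg.coord (div_nonneg hK0 (by positivity)) h6 (o' i₀)
  rw [h2] at h7
  -- the conclusion
  have h8 : σ i₀ * 2 ^ q i₀ ≤ 2 ^ (5 * m) * 2 ^ q' i₀ := by
    rw [mul_div_assoc', div_le_div_iff₀ (by positivity) (by positivity), one_mul, hK] at h7
    have e1 : (2 : ℝ) ^ m * (m * (2 ^ m * 2 ^ m / σ i₀ * 2 ^ m)) * 2 ^ q' i₀ =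
        (m * (2 ^ m * 2 ^ m * 2 ^ m * 2 ^ m) * 2 ^ q' i₀) / σ i₀ := by
      field_simp
    rw [e1, le_div_iff₀ hσ0] at h7
    calc σ i₀ * 2 ^ q i₀ = 2 ^ q i₀ * σ i₀ := mul_comm _ _
      _ ≤ m * (2 ^ m * 2 ^ m * 2 ^ m * 2 ^ m) * 2 ^ q' i₀ := h7
      _ ≤ 2 ^ m * (2 ^ m * 2 ^ m * 2 ^ m * 2 ^ m) * 2 ^ q' i₀ := by
          refine mul_le_mul_of_nonneg_right ?_ (by positivity)
          exact mul_le_mul_of_nonneg_right hm2 (by positivity)
      _ = 2 ^ (5 * m) * 2 ^ q' i₀ := by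
          rw [show 5 * m = m + m + m + m + m by ring, pow_add, pow_add, pow_add, pow_add]
          ring
  rw [Real.logb_le_iff_le_rpow (by norm_num) hσ0]
  have e1 : (2 : ℝ) ^ ((q' i₀ : ℝ) - q i₀ + (5 * m : ℕ)) = 2 ^ (5 * m) * 2 ^ q' i₀ / 2 ^ q i₀ := by
    rw [Real.rpow_add (by norm_num), Real.rpow_sub (by norm_num), Real.rpow_natCast,
      Real.rpow_natCast, Real.rpow_natCast]
    ring
  rw [e1, le_div_iff₀ (by positivity)]
  exact h8

/-- The sum of the falls. -/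
theorem Rel.sum (h : Rel q q' g g' A A' σ) :
    ∑ i, Real.logb 2 (σ i) = ((∑ i, q' i : ℕ) : ℝ) - (∑ i, q i : ℕ) := by
  have e1 : ∑ i, Real.logb 2 (σ i) = Real.logb 2 (∏ i, σ i) := by
    unfold Real.logb
    rw [Real.log_prod (fun i _ => (h.pos i).ne'), Finset.sum_div]
  rw [e1, h.det, Real.logb_div (by positivity) (by positivity), Real.logb_pow, Real.logb_pow,
    Real.logb_self_eq_one (by norm_num), mul_one, mul_one]

/-- The falls are increasing. -/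
theorem Rel.log_mon (h : Rel q q' g g' A A' σ) {i j : Fin m} (hij : i ≤ j) :
    Real.logb 2 (σ i) ≤ Real.logb 2 (σ j) + m := by
  have h1 := h.mon i j hij
  have hi := h.pos i
  have hj := h.pos j
  have h2 : σ i ≤ 2 ^ m * σ j := by
    refine h1.trans (mul_le_mul_of_nonneg_right ?_ hj.le)
    exact pow_le_pow_right₀ (by norm_num) (by omega)
  have h3 := Real.logb_le_logb_of_le (b := 2) (by norm_num) hi h2
  rw [Real.logb_mul (by positivity) hj.ne', Real.logb_pow,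
    Real.logb_self_eq_one (by norm_num), mul_one] at h3
  linarith

end falls

/-! ### One good family -/

section fam

variable {M : ℕ} {Λ' : Lbs m M} {δ γ : ℝ} {s s₂ : ℕ → ℝ} {W : Finset ℚ} {h ψ : ℝ} {F : Fam m J}
  {A : F.Ω → Prop} {e : ℕ} {B : ℕ → Bx F} {N : ℕ → ℝ} {z : Bool → ℕ → ℚ → Bx F} {u : Λ'.T F}

theorem Good.m_le (G : Good (M := M) δ γ s s₂ W h ψ F A e B N z u) : (m : ℝ) ≤ h * J := by
  have h1 := G.err
  push_cast at h1
  have : (0 : ℝ) ≤ e := Nat.cast_nonneg e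
  linarith

/-- Precisions of nested boxes. -/
theorem sub_prec {A : F.Ω → Prop} {z z' : Bx F} {c : ℕ} (hz : z.Ok A) (hz' : z'.Ok A)
    (hs : z'.Sub c z A) (hA : ∃ ω, On F A ω) (i : Fin m) : z.q i ≤ z'.q i + (c + 2 * m) := by
  obtain ⟨ω, hω⟩ := hA
  exact prec_mono (hz.fr ω hω) (hz'.fr ω hω) hz.mono hz'.mono (fun v hv => hs ω hω v hv) i

variable (G : Good (M := M) δ γ s s₂ W h ψ F A e B N z u)
include G

theorem Good.n_win (hA : ∃ ω, On F A ω) (hh : 0 ≤ h) (hJ : 0 < J) {b : Bool} {k : ℕ}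
    (hk : k < M) {w w' : ℚ} (hw : w ∈ W) (hw' : w' ∈ W) (hww : w ≤ w') (i : Fin m) :
    nz M s b k w i ≤ nz M s b k w' i + 5 * h := by
  have hJ' : (0 : ℝ) < J := Nat.cast_pos.2 hJ
  have h1 := abs_le.1 (G.num b k hk w hw i)
  have h2 := abs_le.1 (G.num b k hk w' hw' i)
  have h3 : ((z b k w).q i : ℝ) ≤ (z b k w').q i + (⌊h * J⌋₊ + 2 * m) := by
    exact_mod_cast sub_prec (G.ok b k hk w) (G.ok b k hk w') (G.win b k hk w hw w' hw' hww) hA i
  have h4 := Nat.floor_le (show 0 ≤ h * (J : ℝ) by positivity)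
  have h5 := G.m_le
  have h6 : (nz M s b k w i) * J ≤ (nz M s b k w' i + 5 * h) * J := by
    rw [add_mul]
    linarith [h1.1, h2.2]
  exact le_of_mul_le_mul_right h6 hJ'

theorem Good.n_sup (hA : ∃ ω, On F A ω) (hJ : 0 < J) {b : Bool} {k : ℕ}
    (hk : k < M) {w : ℚ} (hw : w ∈ W) (i : Fin m) : nz M s b k w i ≤ nb M s k i + 5 * h := by
  have hJ' : (0 : ℝ) < J := Nat.cast_pos.2 hJ
  have h1 := abs_le.1 (G.num b k hk w hw i)
  have h2 := abs_le.1 (G.nuB k hk i)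
  have h3 : ((z b k w).q i : ℝ) ≤ (B k).q i + ((e + m : ℕ) + 2 * m) := by
    exact_mod_cast sub_prec (G.ok b k hk w) (G.chn.ok k hk) (G.sup b k hk w) hA i
  have h4 := G.err
  have h5 := G.m_le
  have h6 : (nz M s b k w i) * J ≤ (nb M s k i + 5 * h) * J := by
    rw [add_mul]
    linarith [h1.1, h2.2]
  exact le_of_mul_le_mul_right h6 hJ'

theorem Good.n_hid (hA : ∃ ω, On F A ω) (hh : 0 ≤ h) (hJ : 0 < J) {k : ℕ}
    (hk : k < M) {w : ℚ} (hw : w ∈ W) (i : Fin m) :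
    nz M s true k w i ≤ nz M s false k w i + 5 * h := by
  have hJ' : (0 : ℝ) < J := Nat.cast_pos.2 hJ
  have h1 := abs_le.1 (G.num true k hk w hw i)
  have h2 := abs_le.1 (G.num false k hk w hw i)
  have h3 : ((z true k w).q i : ℝ) ≤ (z false k w).q i + (⌊h * J⌋₊ + 2 * m) := by
    exact_mod_cast sub_prec (G.ok true k hk w) (G.ok false k hk w) (G.hid k hk w hw) hA i
  have h4 := Nat.floor_le (show 0 ≤ h * (J : ℝ) by positivity)
  have h5 := G.m_le
  have h6 : (nz M s true k w i) * J ≤ (nz M s false k w i + 5 * h) * J := by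
    rw [add_mul]
    linarith [h1.1, h2.2]
  exact le_of_mul_le_mul_right h6 hJ'

theorem Good.n_lev (hA : ∃ ω, On F A ω) (hh : 0 ≤ h) (hJ : 0 < J) {b : Bool} {k : ℕ}
    (hk : k + 1 < M) {w : ℚ} (hw : w ∈ W) (i : Fin m) :
    min (nz M s b k w i + γ) 1 ≤ nz M s b (k + 1) w i + 6 * h := by
  have hJ' : (0 : ℝ) < J := Nat.cast_pos.2 hJ
  have hk' : k < M := by omega
  have h1 := abs_le.1 (G.num b k hk' w hw i)
  have h2 := abs_le.1 (G.num b (k + 1) hk w hw i)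
  have h3 : (((z b k w).sh (gp γ J)).q i : ℝ) ≤ (z b (k + 1) w).q i + (⌊h * J⌋₊ + 2 * m) := by
    exact_mod_cast sub_prec ((G.ok b k hk' w).sh _) (G.ok b (k + 1) hk w)
      (G.lev b k hk w hw) hA i
  have h4 := Nat.floor_le (show 0 ≤ h * (J : ℝ) by positivity)
  have h5 := G.m_le
  have hm : (1 : ℝ) ≤ m := by
    have : 1 ≤ m := lt_of_le_of_lt (Nat.zero_le _) i.2
    exact_mod_cast this
  have h7 : γ * J - 1 ≤ (gp γ J : ℝ) := by
    unfold gp
    have := Nat.lt_floor_add_one (γ * (J : ℝ))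
    linarith
  have h8 : min (nz M s b k w i + γ) 1 * J ≤ (((z b k w).sh (gp γ J)).q i : ℝ) + 2 * (h * J) := by
    have e1 : ((z b k w).sh (gp γ J)).q i = min ((z b k w).q i + gp γ J) J := rfl
    rw [e1, Nat.cast_min]
    rcases le_total (((z b k w).q i + gp γ J : ℕ) : ℝ) (J : ℝ) with h9 | h9
    · rw [min_eq_left h9]
      have h10 := mul_le_mul_of_nonneg_right (min_le_left (nz M s b k w i + γ) 1) hJ'.le
      rw [add_mul] at h10
      push_cast at h9 ⊢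
      linarith [h1.1]
    · rw [min_eq_right h9]
      have h10 := mul_le_mul_of_nonneg_right (min_le_right (nz M s b k w i + γ) 1) hJ'.le
      have : 0 ≤ h * (J : ℝ) := by positivity
      linarith
  have h6 : min (nz M s b k w i + γ) 1 * J ≤ (nz M s b (k + 1) w i + 6 * h) * J := by
    rw [add_mul]
    linarith [h2.2]
  exact le_of_mul_le_mul_right h6 hJ'

theorem Good.n_mono (hJ : 0 < J) {b : Bool} {k : ℕ} (hk : k < M) {w : ℚ} (hw : w ∈ W)
    {i j : Fin m} (hij : i ≤ j) : nz M s b k w i ≤ nz M s b k w j + 2 * h := by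
  have hJ' : (0 : ℝ) < J := Nat.cast_pos.2 hJ
  have h1 := abs_le.1 (G.num b k hk w hw i)
  have h2 := abs_le.1 (G.num b k hk w hw j)
  have h3 : ((z b k w).q i : ℝ) ≤ (z b k w).q j := Nat.cast_le.2 ((G.ok b k hk w).mono hij)
  have h6 : (nz M s b k w i) * J ≤ (nz M s b k w j + 2 * h) * J := by
    rw [add_mul]
    linarith [h1.1, h2.2]
  exact le_of_mul_le_mul_right h6 hJ'

theorem Good.nb_mono (hJ : 0 < J) {k : ℕ} (hk : k < M) {i j : Fin m} (hij : i ≤ j) :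
    nb M s k i ≤ nb M s k j + 2 * h := by
  have hJ' : (0 : ℝ) < J := Nat.cast_pos.2 hJ
  have h1 := abs_le.1 (G.nuB k hk i)
  have h2 := abs_le.1 (G.nuB k hk j)
  have h3 : ((B k).q i : ℝ) ≤ (B k).q j := Nat.cast_le.2 ((G.chn.ok k hk).mono hij)
  have h6 : (nb M s k i) * J ≤ (nb M s k j + 2 * h) * J := by
    rw [add_mul]
    linarith [h1.1, h2.2]
  exact le_of_mul_le_mul_right h6 hJ'

theorem Good.n_bd (hJ : 0 < J) {b : Bool} {k : ℕ} (hk : k < M) {w : ℚ} (hw : w ∈ W)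
    (i : Fin m) : -h ≤ nz M s b k w i ∧ nz M s b k w i ≤ 1 + h := by
  have hJ' : (0 : ℝ) < J := Nat.cast_pos.2 hJ
  have h1 := abs_le.1 (G.num b k hk w hw i)
  have h3 : (0 : ℝ) ≤ (z b k w).q i := Nat.cast_nonneg _
  have h4 : ((z b k w).q i : ℝ) ≤ J := Nat.cast_le.2 ((G.ok b k hk w).leJ i)
  refine ⟨le_of_mul_le_mul_right (a := (J : ℝ)) ?_ hJ',
    le_of_mul_le_mul_right (a := (J : ℝ)) ?_ hJ'⟩
  · linarith [h1.2]
  · rw [add_mul]
    linarith [h1.1]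

theorem Good.f_sum (hA : ∃ ω, On F A ω) (hJ : 0 < J) {b : Bool} {k : ℕ}
    (hk : k < M) {w w' : ℚ} (hw : w ∈ W) (hw' : w' ∈ W) :
    |∑ i : Fin m, nf s₂ b k w w' i - ∑ i : Fin m, (nz M s b k w' i - nz M s b k w i)| ≤
      3 * m * h := by
  have hJ' : (0 : ℝ) < J := Nat.cast_pos.2 hJ
  obtain ⟨ω, hω⟩ := hA
  have h1 := ((z b k w).rel (G.ok b k hk w) (G.ok b k hk w') hω).sum
  push_cast at h1
  rw [← Finset.sum_sub_distrib] at h1
  have h2 : |∑ i : Fin m, (nf s₂ b k w w' i * J - (nz M s b k w' i - nz M s b k w i) * J)| ≤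
      m * (3 * (h * J)) := by
    have e1 : ∑ i : Fin m, (nf s₂ b k w w' i * J - (nz M s b k w' i - nz M s b k w i) * J) =
        ∑ i, ((nf s₂ b k w w' i * J - Real.logb 2 ((z b k w).fs (z b k w') ω i)) +
          (((z b k w').q i : ℝ) - nz M s b k w' i * J) -
          (((z b k w).q i : ℝ) - nz M s b k w i * J)) := by
      rw [Finset.sum_sub_distrib, Finset.sum_sub_distrib, Finset.sum_add_distrib,
        Finset.sum_sub_distrib, h1, Finset.sum_sub_distrib, Finset.sum_sub_distrib,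
        Finset.sum_sub_distrib]
      have e2 : ∑ i : Fin m, (nz M s b k w' i - nz M s b k w i) * (J : ℝ) =
          ∑ i : Fin m, nz M s b k w' i * J - ∑ i : Fin m, nz M s b k w i * J := by
        rw [← Finset.sum_sub_distrib]
        exact Finset.sum_congr rfl fun i _ => by ring
      rw [e2]
      ring
    rw [e1]
    refine (Finset.abs_sum_le_sum_abs _ _).trans ?_
    have h3 : ∀ i ∈ (univ : Finset (Fin m)),
        |(nf s₂ b k w w' i * J - Real.logb 2 ((z b k w).fs (z b k w') ω i)) +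
          (((z b k w').q i : ℝ) - nz M s b k w' i * J) -
          (((z b k w).q i : ℝ) - nz M s b k w i * J)| ≤ 3 * (h * J) := by
      intro i _
      have a1 := G.fal b k hk w hw w' hw' i ω hω
      rw [abs_sub_comm] at a1
      have a2 := G.num b k hk w' hw' i
      have a3 := G.num b k hk w hw i
      refine (abs_sub _ _).trans ?_
      refine (add_le_add (abs_add_le _ _) le_rfl).trans ?_
      linarith
    refine (Finset.sum_le_card_nsmul _ _ _ h3).trans ?_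
    rw [card_univ, Fintype.card_fin, nsmul_eq_mul]
  have e3 : ∑ i : Fin m, (nf s₂ b k w w' i * J - (nz M s b k w' i - nz M s b k w i) * J) =
      (∑ i : Fin m, nf s₂ b k w w' i - ∑ i : Fin m, (nz M s b k w' i - nz M s b k w i)) * J := by
    rw [sub_mul, Finset.sum_mul, Finset.sum_mul, ← Finset.sum_sub_distrib]
  rw [e3, abs_mul, abs_of_pos hJ'] at h2
  have h4 : |∑ i : Fin m, nf s₂ b k w w' i -
      ∑ i : Fin m, (nz M s b k w' i - nz M s b k w i)| * J ≤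
      3 * m * h * J := by
    linarith
  exact le_of_mul_le_mul_right h4 hJ'

theorem Good.f_mono (hA : ∃ ω, On F A ω) (hJ : 0 < J) {b : Bool} {k : ℕ}
    (hk : k < M) {w w' : ℚ} (hw : w ∈ W) (hw' : w' ∈ W) {i j : Fin m} (hij : i ≤ j) :
    nf s₂ b k w w' i ≤ nf s₂ b k w w' j + 3 * h := by
  have hJ' : (0 : ℝ) < J := Nat.cast_pos.2 hJ
  obtain ⟨ω, hω⟩ := hA
  have h1 := ((z b k w).rel (G.ok b k hk w) (G.ok b k hk w') hω).log_mon hij
  have h2 := abs_le.1 (G.fal b k hk w hw w' hw' i ω hω)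
  have h3 := abs_le.1 (G.fal b k hk w hw w' hw' j ω hω)
  have h5 := G.m_le
  have h6 : nf s₂ b k w w' i * J ≤ (nf s₂ b k w w' j + 3 * h) * J := by
    rw [add_mul]
    linarith [h2.1, h3.2]
  exact le_of_mul_le_mul_right h6 hJ'

theorem Good.f_nonneg (hA : ∃ ω, On F A ω) (hh : 0 ≤ h) (hJ : 0 < J) {b : Bool} {k : ℕ}
    (hk : k < M) {w w' : ℚ} (hw : w ∈ W) (hw' : w' ∈ W) (hww : w ≤ w') (i : Fin m) :
    -(4 * h) ≤ nf s₂ b k w w' i := by
  have hJ' : (0 : ℝ) < J := Nat.cast_pos.2 hJ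
  obtain ⟨ω, hω⟩ := hA
  have h1 := ((z b k w).rel (G.ok b k hk w) (G.ok b k hk w') hω).nonneg
    ((G.ok b k hk w).fr ω hω) (c := ⌊h * J⌋₊)
    (fun v hv => G.win b k hk w hw w' hw' hww ω hω v hv) i
  have h2 := abs_le.1 (G.fal b k hk w hw w' hw' i ω hω)
  have h4 := Nat.floor_le (show 0 ≤ h * (J : ℝ) by positivity)
  have h5 := G.m_le
  push_cast at h1
  have h6 : -(4 * h) * J ≤ nf s₂ b k w w' i * J := by
    linarith [h2.2]
  exact le_of_mul_le_mul_right h6 hJ'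

theorem Good.f_first (hA : ∃ ω, On F A ω) (hJ : 0 < J) {b : Bool} {k : ℕ}
    (hk : k < M) {w w' : ℚ} (hw : w ∈ W) (hw' : w' ∈ W) (i : Fin m) (hi : ∀ j, i ≤ j) :
    nf s₂ b k w w' i ≤ nz M s b k w' i - nz M s b k w i + 8 * h := by
  have hJ' : (0 : ℝ) < J := Nat.cast_pos.2 hJ
  obtain ⟨ω, hω⟩ := hA
  have h1 := ((z b k w).rel (G.ok b k hk w) (G.ok b k hk w') hω).first
    ((G.ok b k hk w).fr ω hω) ((G.ok b k hk w').fr ω hω) (G.ok b k hk w).mono i hi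
  have h2 := abs_le.1 (G.fal b k hk w hw w' hw' i ω hω)
  have h3 := abs_le.1 (G.num b k hk w hw i)
  have h30 := abs_le.1 (G.num b k hk w' hw' i)
  have h5 := G.m_le
  push_cast at h1
  have h6 : nf s₂ b k w w' i * J ≤ (nz M s b k w' i - nz M s b k w i + 8 * h) * J := by
    rw [add_mul, sub_mul]
    linarith [h2.1, h3.1, h30.2]
  exact le_of_mul_le_mul_right h6 hJ'

/-- The first precision of the closed box is at least the first precision of the box. -/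
theorem Good.n_base (hψ : 0 ≤ ψ) (hJ : 0 < J) (hm : (m : ℝ) ≤ ψ * J)
    (hh : 0 ≤ h) {b : Bool} {k : ℕ} (hk : k < M) {w : ℚ} (hw : w ∈ W) (i : Fin m)
    (hi : ∀ j, i ≤ j) : nb M s k i ≤ nz M s b k w i + 3 * h := by
  classical
  have hJ' : (0 : ℝ) < J := Nat.cast_pos.2 hJ
  by_contra hcon
  push Not at hcon
  have h1 := abs_le.1 (G.num b k hk w hw i)
  have h2 := abs_le.1 (G.nuB k hk i)
  have h3 : ((z b k w).q i : ℝ) + h * J ≤ (B k).q i := by
    have h4 := mul_lt_mul_of_pos_right hcon hJ'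
    rw [add_mul] at h4
    linarith [h1.2, h2.1]
  have h4 : (z b k w).q i ≤ (B k).q i := by
    have : 0 ≤ h * (J : ℝ) := by positivity
    have : ((z b k w).q i : ℝ) ≤ (B k).q i := by linarith
    exact_mod_cast this
  obtain ⟨l, hl⟩ : ∃ l, l = (z b k w).o i := ⟨_, rfl⟩
  have hdot : ∀ (c : ℝ) (v : Fin m → ℝ), dot (fun l' => if l' = l then c else 0) v = c * v l := by
    intro c v
    unfold dot
    rw [Finset.sum_eq_single l]
    · show (if l = l then c else 0) * v l = _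
      rw [if_pos rfl]
    · intro j _ hj
      show (if j = l then c else 0) * v j = _
      rw [if_neg hj, zero_mul]
    · intro h
      exact absurd (mem_univ _) h
  refine G.max b k hk w hw A (Evt.refl hψ)
    (fun _ l' => if l' = l then 2 ^ (B k).q i else 0) m ((B k).q i - (z b k w).q i)
    (fun _ _ _ _ _ => rfl) (fun _ _ _ _ _ _ => rfl) (fun ω hω l' => ?_) hm (fun ω hω v hv => ?_)
    (by
      rw [Nat.cast_sub h4]
      linarith) fun ω hω => ?_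
  · show |if l' = l then (2 : ℝ) ^ (B k).q i else 0| ≤ 2 ^ J
    split_ifs
    · rw [abs_of_pos (by positivity)]
      exact pow_le_pow_right₀ (by norm_num) ((G.chn.ok k hk).leJ i)
    · rw [abs_zero]
      positivity
  · rw [hdot, abs_mul, abs_of_pos (by positivity)]
    have h5 := ((G.chn.ok k hk).fr ω hω).coord (v := v) (c := 1 / 2 ^ (B k).q i) (by positivity)
      (fun j => (hv j).trans (div_le_div_of_nonneg_left zero_le_one (by positivity)
        (pow_le_pow_right₀ (by norm_num) ((G.chn.ok k hk).mono (hi j))))) l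
    calc (2 : ℝ) ^ (B k).q i * |v l| ≤ 2 ^ (B k).q i * (2 ^ m * (1 / 2 ^ (B k).q i)) :=
          mul_le_mul_of_nonneg_left h5 (by positivity)
      _ = 2 ^ m := by
          field_simp
  · obtain ⟨v, hv⟩ := ((G.ok b k hk w).fr ω hω).vec (z b k w).q i
    refine ⟨v, fun j => ?_, ?_⟩
    · show |dot ((z b k w).g ω j) v| ≤ 1 / 2 ^ (z b k w).q j
      rw [le_div_iff₀ (by positivity), mul_comm,
        ← abs_of_pos (show (0 : ℝ) < 2 ^ (z b k w).q j by positivity), ← abs_mul, hv j]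
      split_ifs
      · rw [abs_one]
      · rw [abs_zero]; exact zero_le_one
    · rw [hdot]
      have h5 : dot ((z b k w).g ω i) v = v l := by
        unfold dot
        rw [Finset.sum_eq_single l]
        · rw [hl, ((G.ok b k hk w).fr ω hω).one, one_mul]
        · intro j _ hj
          obtain ⟨j', rfl⟩ := (z b k w).o.surjective j
          have hj' : i < j' := lt_of_le_of_ne (hi j') fun h => hj (by rw [← h, hl])
          rw [((G.ok b k hk w).fr ω hω).zer i j' hj', zero_mul]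
        · intro h
          exact absurd (mem_univ _) h
      have h6 := hv i
      rw [if_pos rfl, h5] at h6
      have h7 : v l = 1 / 2 ^ (z b k w).q i := by
        rw [eq_div_iff (by positivity), mul_comm]
        exact h6
      rw [h7, abs_of_pos (by positivity), mul_one_div, le_div_iff₀ (by positivity), ← pow_add,
        Nat.sub_add_cancel h4]

end fam

/-! ### The class -/

section cls

variable {M : ℕ} {Λ' : Lbs m M} {c' : ℕ → Crd Λ'} {c₂' : ℕ → Crd ((CL m M).prod Λ')} {δ γ : ℝ}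
  {S : PCl m} {s s₂ : ℕ → ℝ}

/-- **A class with its numbers.** -/
structure ClsB (S : PCl m) (δ γ : ℝ) (c' : ℕ → Crd Λ') (s : ℕ → ℝ)
    (c₂' : ℕ → Crd ((CL m M).prod Λ')) (s₂ : ℕ → ℝ) : Prop
    extends Hyp2 S δ γ c' s c₂' s₂ where
  ne : S.Ne
  dat : ∀ τ : ℝ, 0 < τ → τ < 1 → ∃ J₁ : ℕ, ∀ J ≥ J₁, ∀ (F : Fam m J) (A : F.Ω → Prop),
    S.St τ J F A → ∃ e B N z u, Dat3 δ γ c' s c₂' s₂ τ F A e B N z u

/-- **The class.** -/
theorem cls_thm {δ γ : ℝ} (hδ : 0 < δ) (hγ : 0 < γ) (c' : ℕ → Crd Λ')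
    (c₂' : ℕ → Crd ((CL m M).prod Λ')) {S : PCl m} (hS : S.Ne)
    (hpos : ∀ (τ : ℝ) (J : ℕ) (F : Fam m J) (A : F.Ω → Prop), S.St τ J F A → 0 < Pe F.p A) :
    ∃ (s s₂ : ℕ → ℝ) (S₁ : PCl m),
      (∀ (τ : ℝ) (J : ℕ) (F : Fam m J) (A : F.Ω → Prop), S₁.St τ J F A → S.St τ J F A) ∧
      ClsB S₁ δ γ c' s c₂' s₂ := by
  obtain ⟨s, s₂, S₁, h1, h2, h3, h4⟩ := good_thm hδ hγ c' c₂' hS hpos
  exact ⟨s, s₂, S₁, h2, ⟨h3, h1, h4⟩⟩

/-- All large families of the class are good. -/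
theorem ClsB.good (C : ClsB S δ γ c' s c₂' s₂) (W : Finset ℚ) (hW : ∀ w ∈ W, w ≤ 1) {h : ℝ}
    (hh : 0 < h) : ∃ ψ > 0, ψ < 1 ∧ ∃ J₁ : ℕ, ∀ J ≥ J₁, ∀ (F : Fam m J) (A : F.Ω → Prop),
      S.St ψ J F A → ∃ (A₁ : F.Ω → Prop) (e : ℕ) (B : ℕ → Bx F) (N : ℕ → ℝ)
        (z : Bool → ℕ → ℚ → Bx F) (u : Λ'.T F), (∀ ω, A₁ ω → A ω) ∧ S.St (ψ + ψ) J F A₁ ∧
        Pe F.p (fun ω => A ω ∧ ¬ A₁ ω) ≤ Real.exp (-(ψ * J)) * Pe F.p A ∧
        (m : ℝ) + 1 ≤ ψ * J ∧ Good (M := M) δ γ s s₂ W h ψ F A₁ e B N z u := by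
  obtain ⟨ψ, hψ, hψ1, J₁, h1⟩ := good_of C.toHyp2 W hW h hh
  obtain ⟨J₂, h2⟩ := C.dat ψ hψ hψ1
  obtain ⟨J₃, hJ₃⟩ := exists_nat_gt (((m : ℝ) + 1) / ψ)
  refine ⟨ψ, hψ, hψ1, J₁ + J₂ + J₃, fun J hJ F A hA => ?_⟩
  obtain ⟨e, B, N, z, u, hD⟩ := h2 J (by omega) F A hA
  obtain ⟨A₁, a1, a2, a3, a4⟩ := h1 J (by omega) F A hA e B N z u hD
  refine ⟨A₁, e, B, N, z, u, a1, a2, a3, ?_, a4⟩
  have h5 := hJ₃.trans_le (Nat.cast_le.2 (show J₃ ≤ J by omega) : (J₃ : ℝ) ≤ J)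
  rw [div_lt_iff₀ hψ] at h5
  linarith

/-- There are good families. -/
theorem ClsB.ex (C : ClsB S δ γ c' s c₂' s₂) (W : Finset ℚ) (hW : ∀ w ∈ W, w ≤ 1) {h : ℝ}
    (hh : 0 < h) : ∃ (ψ : ℝ) (J : ℕ) (F : Fam m J) (A : F.Ω → Prop) (e : ℕ) (B : ℕ → Bx F)
      (N : ℕ → ℝ) (z : Bool → ℕ → ℚ → Bx F) (u : Λ'.T F), 0 < ψ ∧ 0 < J ∧
        (m : ℝ) ≤ ψ * J ∧ (∃ ω, On F A ω) ∧ Good (M := M) δ γ s s₂ W h ψ F A e B N z u := by
  obtain ⟨ψ, hψ, -, J₁, h1⟩ := C.good W hW hh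
  obtain ⟨J, hJ, F, A, hA⟩ := C.ne ψ hψ (J₁ + 1)
  obtain ⟨A₁, e, B, N, z, u, a1, a2, a3, a4, a5⟩ := h1 J (by omega) F A hA
  exact ⟨ψ, J, F, A₁, e, B, N, z, u, hψ, by omega, by linarith,
    Pool.PC.exists_on (C.one.pos _ J F A₁ a2), a5⟩

/-- **The inequalities of the class numbers.** -/
structure Nums (m M : ℕ) (γ : ℝ) (s s₂ : ℕ → ℝ) : Prop where
  /-- the precisions are between `0` and `1` -/
  n_bd : ∀ b, ∀ k < M, ∀ w : ℚ, w ≤ 1 → ∀ i : Fin m, 0 ≤ nz M s b k w i ∧ nz M s b k w i ≤ 1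
  /-- increasing in the coordinates -/
  n_mono : ∀ b, ∀ k < M, ∀ w : ℚ, w ≤ 1 → ∀ i j : Fin m, i ≤ j →
    nz M s b k w i ≤ nz M s b k w j
  /-- increasing in the coordinates -/
  nb_mono : ∀ k < M, ∀ i j : Fin m, i ≤ j → nb M s k i ≤ nb M s k j
  /-- increasing in the windows -/
  n_win : ∀ b, ∀ k < M, ∀ w w' : ℚ, w ≤ w' → w' ≤ 1 → ∀ i : Fin m,
    nz M s b k w i ≤ nz M s b k w' i
  /-- at most the precisions of the box -/
  n_sup : ∀ b, ∀ k < M, ∀ w : ℚ, w ≤ 1 → ∀ i : Fin m, nz M s b k w i ≤ nb M s k i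
  /-- the first precision is the first precision of the box -/
  n_base : ∀ b, ∀ k < M, ∀ w : ℚ, w ≤ 1 → ∀ i : Fin m, (∀ j, i ≤ j) →
    nz M s b k w i = nb M s k i
  /-- the hidden box is finer -/
  n_hid : ∀ k < M, ∀ w : ℚ, w ≤ 1 → ∀ i : Fin m, nz M s true k w i ≤ nz M s false k w i
  /-- increasing in the levels -/
  n_lev : ∀ b, ∀ k, k + 1 < M → ∀ w : ℚ, w ≤ 1 → ∀ i : Fin m,
    min (nz M s b k w i + γ) 1 ≤ nz M s b (k + 1) w i
  /-- the sum of the falls -/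
  f_sum : ∀ b, ∀ k < M, ∀ w w' : ℚ, w ≤ 1 → w' ≤ 1 →
    ∑ i : Fin m, nf s₂ b k w w' i = ∑ i : Fin m, (nz M s b k w' i - nz M s b k w i)
  /-- the falls are increasing in the coordinates -/
  f_mono : ∀ b, ∀ k < M, ∀ w w' : ℚ, w ≤ 1 → w' ≤ 1 → ∀ i j : Fin m, i ≤ j →
    nf s₂ b k w w' i ≤ nf s₂ b k w w' j
  /-- the falls are nonnegative -/
  f_nonneg : ∀ b, ∀ k < M, ∀ w w' : ℚ, w ≤ w' → w' ≤ 1 → ∀ i : Fin m,
    0 ≤ nf s₂ b k w w' i
  /-- the long direction does not fall -/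
  f_first : ∀ b, ∀ k < M, ∀ w w' : ℚ, w ≤ w' → w' ≤ 1 → ∀ i : Fin m, (∀ j, i ≤ j) →
    nf s₂ b k w w' i = 0

/-- An inequality up to every error. -/
theorem le_of_err {x y C : ℝ} (hC : 0 < C) (h : ∀ h : ℝ, 0 < h → x ≤ y + C * h) : x ≤ y := by
  refine le_of_forall_pos_le_add fun ε hε => ?_
  have h1 := h (ε / C) (by positivity)
  rwa [mul_div_cancel₀ _ hC.ne'] at h1

theorem ClsB.nums (C : ClsB S δ γ c' s c₂' s₂) : Nums m M γ s s₂ := by
  have hW1 : ∀ {w : ℚ}, w ≤ 1 → ∀ x ∈ ({w} : Finset ℚ), x ≤ 1 := by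
    intro w hw x hx
    rw [Finset.mem_singleton.1 hx]
    exact hw
  have hW2 : ∀ {w w' : ℚ}, w ≤ 1 → w' ≤ 1 → ∀ x ∈ ({w, w'} : Finset ℚ), x ≤ 1 := by
    intro w w' hw hw' x hx
    rcases Finset.mem_insert.1 hx with h | h
    · rw [h]; exact hw
    · rw [Finset.mem_singleton.1 h]; exact hw'
  have hm1 : ∀ w : ℚ, w ∈ ({w} : Finset ℚ) := fun w => Finset.mem_singleton_self w
  have hm2 : ∀ w w' : ℚ, w ∈ ({w, w'} : Finset ℚ) := fun w w' => Finset.mem_insert_self w _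
  have hm3 : ∀ w w' : ℚ, w' ∈ ({w, w'} : Finset ℚ) := fun w w' =>
    Finset.mem_insert_of_mem (Finset.mem_singleton_self w')
  have n_sup : ∀ b, ∀ k < M, ∀ w : ℚ, w ≤ 1 → ∀ i : Fin m,
      nz M s b k w i ≤ nb M s k i := by
    intro b k hk w hw i
    refine le_of_err (C := 5) (by norm_num) fun h hh => ?_
    obtain ⟨ψ, J, F, A, e, B, N, z, u, hψ, hJ, hmψ, hA, G⟩ := C.ex {w} (hW1 hw) hh
    exact G.n_sup hA hJ hk (hm1 w) i
  have n_base : ∀ b, ∀ k < M, ∀ w : ℚ, w ≤ 1 → ∀ i : Fin m, (∀ j, i ≤ j) →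
      nz M s b k w i = nb M s k i := by
    intro b k hk w hw i hi
    refine le_antisymm (n_sup b k hk w hw i) (le_of_err (C := 3) (by norm_num) fun h hh => ?_)
    obtain ⟨ψ, J, F, A, e, B, N, z, u, hψ, hJ, hmψ, hA, G⟩ := C.ex {w} (hW1 hw) hh
    exact G.n_base hψ.le hJ hmψ hh.le hk (hm1 w) i hi
  have f_nonneg : ∀ b, ∀ k < M, ∀ w w' : ℚ, w ≤ w' → w' ≤ 1 → ∀ i : Fin m,
      0 ≤ nf s₂ b k w w' i := by
    intro b k hk w w' hw hw' i
    refine le_of_err (C := 4) (by norm_num) fun h hh => ?_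
    obtain ⟨ψ, J, F, A, e, B, N, z, u, hψ, hJ, hmψ, hA, G⟩ :=
      C.ex {w, w'} (hW2 (hw.trans hw') hw') hh
    have := G.f_nonneg hA hh.le hJ (b := b) hk (hm2 w w') (hm3 w w') hw i
    linarith
  refine ⟨fun b k hk w hw i => ⟨?_, ?_⟩, fun b k hk w hw i j hij => ?_,
    fun k hk i j hij => ?_, fun b k hk w w' hw hw' i => ?_, n_sup, n_base,
    fun k hk w hw i => ?_, fun b k hk w hw i => ?_, fun b k hk w w' hw hw' => ?_,
    fun b k hk w w' hw hw' i j hij => ?_, f_nonneg,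
    fun b k hk w w' hw hw' i hi => le_antisymm ?_ (f_nonneg b k hk w w' hw hw' i)⟩
  · refine le_of_err (C := 1) (by norm_num) fun h hh => ?_
    obtain ⟨ψ, J, F, A, e, B, N, z, u, hψ, hJ, hmψ, hA, G⟩ := C.ex {w} (hW1 hw) hh
    have := (G.n_bd hJ (b := b) hk (hm1 w) i).1
    linarith
  · refine le_of_err (C := 1) (by norm_num) fun h hh => ?_
    obtain ⟨ψ, J, F, A, e, B, N, z, u, hψ, hJ, hmψ, hA, G⟩ := C.ex {w} (hW1 hw) hh
    have := (G.n_bd hJ (b := b) hk (hm1 w) i).2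
    linarith
  · refine le_of_err (C := 2) (by norm_num) fun h hh => ?_
    obtain ⟨ψ, J, F, A, e, B, N, z, u, hψ, hJ, hmψ, hA, G⟩ := C.ex {w} (hW1 hw) hh
    exact G.n_mono hJ hk (hm1 w) hij
  · refine le_of_err (C := 2) (by norm_num) fun h hh => ?_
    obtain ⟨ψ, J, F, A, e, B, N, z, u, hψ, hJ, hmψ, hA, G⟩ :=
      C.ex ∅ (fun x hx => absurd hx (Finset.notMem_empty x)) hh
    exact G.nb_mono hJ hk hij
  · refine le_of_err (C := 5) (by norm_num) fun h hh => ?_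
    obtain ⟨ψ, J, F, A, e, B, N, z, u, hψ, hJ, hmψ, hA, G⟩ :=
      C.ex {w, w'} (hW2 (hw.trans hw') hw') hh
    exact G.n_win hA hh.le hJ hk (hm2 w w') (hm3 w w') hw i
  · refine le_of_err (C := 5) (by norm_num) fun h hh => ?_
    obtain ⟨ψ, J, F, A, e, B, N, z, u, hψ, hJ, hmψ, hA, G⟩ := C.ex {w} (hW1 hw) hh
    exact G.n_hid hA hh.le hJ hk (hm1 w) i
  · refine le_of_err (C := 6) (by norm_num) fun h hh => ?_
    obtain ⟨ψ, J, F, A, e, B, N, z, u, hψ, hJ, hmψ, hA, G⟩ := C.ex {w} (hW1 hw) hh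
    exact G.n_lev hA hh.le hJ hk (hm1 w) i
  · have key : ∀ h : ℝ, 0 < h → |∑ i : Fin m, nf s₂ b k w w' i -
        ∑ i : Fin m, (nz M s b k w' i - nz M s b k w i)| ≤ 3 * m * h := by
      intro h hh
      obtain ⟨ψ, J, F, A, e, B, N, z, u, hψ, hJ, hmψ, hA, G⟩ := C.ex {w, w'} (hW2 hw hw') hh
      exact G.f_sum hA hJ hk (hm2 w w') (hm3 w w')
    have h1 : |∑ i : Fin m, nf s₂ b k w w' i -
        ∑ i : Fin m, (nz M s b k w' i - nz M s b k w i)| ≤ 0 := by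
      refine le_of_err (C := 3 * m + 1) (by positivity) fun h hh => ?_
      have := key h hh
      nlinarith
    exact sub_eq_zero.1 (abs_eq_zero.1 (le_antisymm h1 (abs_nonneg _)))
  · refine le_of_err (C := 3) (by norm_num) fun h hh => ?_
    obtain ⟨ψ, J, F, A, e, B, N, z, u, hψ, hJ, hmψ, hA, G⟩ := C.ex {w, w'} (hW2 hw hw') hh
    exact G.f_mono hA hJ hk (hm2 w w') (hm3 w w') hij
  · refine le_of_err (C := 8) (by norm_num) fun h hh => ?_
    obtain ⟨ψ, J, F, A, e, B, N, z, u, hψ, hJ, hmψ, hA, G⟩ :=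
      C.ex {w, w'} (hW2 (hw.trans hw') hw') hh
    have h1 := G.f_first hA hJ (b := b) hk (hm2 w w') (hm3 w w') i hi
    rw [n_base b k hk w (hw.trans hw') i hi, n_base b k hk w' hw' i hi] at h1
    linarith

end cls

end Pool.NB
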