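import Mathlib

/-!
# Complete pivoting from the thinnest direction

For an invertible matrix `A` (rows: linear functionals) there are an order of the coordinates and
functionals `g i`, triangular in this order with entries at most one, and numbers `σ i`, almost
increasing, such that the bodies `max |A v| ≤ 1` and `max σ i |g i v| ≤ 1` are the same up to
constants, and `|det A| = ∏ σ i`.
-/

set_option autoImplicit false

namespace Pool.NB

open Finset

/-- The value of a functional. -/
def dot {m : ℕ} (a v : Fin m → ℝ) : ℝ := ∑ l, a l * v l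

theorem dot_sub {m : ℕ} (a v w : Fin m → ℝ) : dot a (fun l => v l - w l) = dot a v - dot a w := by
  unfold dot
  rw [← Finset.sum_sub_distrib]
  exact Finset.sum_congr rfl fun l _ => by ring

theorem dot_smul {m : ℕ} (c : ℝ) (a v : Fin m → ℝ) : dot (fun l => c * a l) v = c * dot a v := by
  unfold dot
  rw [Finset.mul_sum]
  exact Finset.sum_congr rfl fun l _ => by ring

theorem dot_succAbove {m : ℕ} (l₀ : Fin (m + 1)) (a v : Fin (m + 1) → ℝ) :
    dot a v = a l₀ * v l₀ + dot (fun l => a (l₀.succAbove l)) (fun l => v (l₀.succAbove l)) := by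
  unfold dot
  exact Fin.sum_univ_succAbove _ l₀

theorem abs_dot_le {m : ℕ} {a v : Fin m → ℝ} {x y : ℝ} (hx : 0 ≤ x) (ha : ∀ l, |a l| ≤ x)
    (hv : ∀ l, |v l| ≤ y) : |dot a v| ≤ m * (x * y) := by
  unfold dot
  refine (Finset.abs_sum_le_sum_abs _ _).trans ?_
  have h : ∀ l ∈ (univ : Finset (Fin m)), |a l * v l| ≤ x * y := fun l _ => by
    rw [abs_mul]
    exact mul_le_mul (ha l) (hv l) (abs_nonneg _) hx
  refine (Finset.sum_le_card_nsmul _ _ _ h).trans ?_
  rw [Finset.card_univ, Fintype.card_fin, nsmul_eq_mul]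

/-- The largest entry of a matrix. -/
theorem exists_max_entry {m : ℕ} (A : Matrix (Fin (m + 1)) (Fin (m + 1)) ℝ) :
    ∃ i₀ l₀, ∀ i l, |A i l| ≤ |A i₀ l₀| := by
  obtain ⟨x, -, hx⟩ := Finset.exists_max_image (univ : Finset (Fin (m + 1) × Fin (m + 1)))
    (fun x => |A x.1 x.2|) ⟨(0, 0), mem_univ _⟩
  exact ⟨x.1, x.2, fun i l => hx (i, l) (mem_univ _)⟩

/-- The Schur complement. -/
noncomputable def schur {m : ℕ} (A : Matrix (Fin (m + 1)) (Fin (m + 1)) ℝ) (i₀ l₀ : Fin (m + 1)) :
    Matrix (Fin m) (Fin m) ℝ :=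
  fun i l => A (i₀.succAbove i) (l₀.succAbove l) -
    A (i₀.succAbove i) l₀ / A i₀ l₀ * A i₀ (l₀.succAbove l)

theorem det_schur {m : ℕ} (A : Matrix (Fin (m + 1)) (Fin (m + 1)) ℝ) (i₀ l₀ : Fin (m + 1))
    (h : A i₀ l₀ ≠ 0) : |A.det| = |(schur A i₀ l₀).det| * |A i₀ l₀| := by
  obtain ⟨B, hB⟩ : ∃ B : Matrix (Fin (m + 1)) (Fin (m + 1)) ℝ,
      B = fun i l => if i = i₀ then A i l else A i l - A i l₀ / A i₀ l₀ * A i₀ l := ⟨_, rfl⟩
  have h1 : A.det = B.det := by
    refine Matrix.det_eq_of_forall_row_eq_smul_add_const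
      (fun i => if i = i₀ then 0 else A i l₀ / A i₀ l₀) i₀ (if_pos rfl) fun i l => ?_
    rw [hB]
    dsimp only
    by_cases hi : i = i₀
    · rw [if_pos hi, if_pos hi, zero_mul, add_zero]
    · rw [if_neg hi, if_neg hi, if_pos rfl]
      ring
  have h2 : B.det = (-1) ^ ((i₀ : ℕ) + (l₀ : ℕ)) * B i₀ l₀ *
      (B.submatrix i₀.succAbove l₀.succAbove).det := by
    rw [Matrix.det_succ_column B l₀]
    refine Finset.sum_eq_single i₀ (fun i _ hi => ?_) fun hcon => absurd (mem_univ _) hcon
    have : B i l₀ = 0 := by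
      rw [hB]
      dsimp only
      rw [if_neg hi, div_mul_cancel₀ _ h, sub_self]
    rw [this, mul_zero, zero_mul]
  have h3 : B.submatrix i₀.succAbove l₀.succAbove = schur A i₀ l₀ := by
    ext i l
    rw [Matrix.submatrix_apply, hB]
    dsimp only
    rw [if_neg (Fin.succAbove_ne i₀ i)]
    rfl
  have h4 : B i₀ l₀ = A i₀ l₀ := by
    rw [hB]
    exact if_pos rfl
  rw [h1, h2, h3, h4, abs_mul, abs_mul, abs_pow, abs_neg, abs_one, one_pow, one_mul, mul_comm]

theorem dot_schur {m : ℕ} (A : Matrix (Fin (m + 1)) (Fin (m + 1)) ℝ) (i₀ l₀ : Fin (m + 1))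
    (h : A i₀ l₀ ≠ 0) (v : Fin (m + 1) → ℝ) (i : Fin m) :
    dot (schur A i₀ l₀ i) (fun l => v (l₀.succAbove l)) =
      dot (A (i₀.succAbove i)) v - A (i₀.succAbove i) l₀ / A i₀ l₀ * dot (A i₀) v := by
  rw [dot_succAbove l₀ (A (i₀.succAbove i)) v, dot_succAbove l₀ (A i₀) v]
  have e : dot (schur A i₀ l₀ i) (fun l => v (l₀.succAbove l)) =
      dot (fun l => A (i₀.succAbove i) (l₀.succAbove l)) (fun l => v (l₀.succAbove l)) -
      A (i₀.succAbove i) l₀ / A i₀ l₀ *
        dot (fun l => A i₀ (l₀.succAbove l)) (fun l => v (l₀.succAbove l)) := by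
    unfold dot schur
    rw [Finset.mul_sum, ← Finset.sum_sub_distrib]
    exact Finset.sum_congr rfl fun l _ => by ring
  rw [e]
  field_simp
  ring

/-- The functionals `g` are triangular in the order `o`. -/
structure Fr {m : ℕ} (o : Equiv.Perm (Fin m)) (g : Fin m → Fin m → ℝ) : Prop where
  one : ∀ i, g i (o i) = 1
  zer : ∀ i l, i < l → g i (o l) = 0
  bd : ∀ i l, |g i l| ≤ 1

/-- The result of the pivoting. -/
structure PivRes {m : ℕ} (A : Matrix (Fin m) (Fin m) ℝ) (o : Equiv.Perm (Fin m))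
    (g : Fin m → Fin m → ℝ) (σ : Fin m → ℝ) : Prop where
  fr : Fr o g
  pos : ∀ i, 0 < σ i
  det : |A.det| = ∏ i, σ i
  inn : ∀ (v : Fin m → ℝ) (c : ℝ), 0 ≤ c → (∀ i, |dot (A i) v| ≤ c) →
    ∀ i, σ i * |dot (g i) v| ≤ 2 ^ m * c
  out : ∀ (v : Fin m → ℝ) (c : ℝ), 0 ≤ c → (∀ i, σ i * |dot (g i) v| ≤ c) →
    ∀ i, |dot (A i) v| ≤ m * c
  top : ∀ N : ℝ, (∀ i l, |A i l| ≤ N) → ∀ i : Fin m, σ i ≤ 2 ^ (m - 1 - (i : ℕ)) * N
  mon : ∀ i j : Fin m, i ≤ j → σ i ≤ 2 ^ ((j : ℕ) - (i : ℕ)) * σ j

/-- The new order. -/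
def ordS {m : ℕ} (o : Equiv.Perm (Fin m)) (l₀ : Fin (m + 1)) : Fin (m + 1) → Fin (m + 1) :=
  Fin.lastCases l₀ fun i => l₀.succAbove (o i)

theorem ordS_last {m : ℕ} (o : Equiv.Perm (Fin m)) (l₀ : Fin (m + 1)) :
    ordS o l₀ (Fin.last m) = l₀ := by
  unfold ordS
  rw [Fin.lastCases_last]

theorem ordS_cast {m : ℕ} (o : Equiv.Perm (Fin m)) (l₀ : Fin (m + 1)) (i : Fin m) :
    ordS o l₀ i.castSucc = l₀.succAbove (o i) := by
  unfold ordS
  rw [Fin.lastCases_castSucc]

theorem ordS_inj {m : ℕ} (o : Equiv.Perm (Fin m)) (l₀ : Fin (m + 1)) :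
    Function.Injective (ordS o l₀) := by
  intro i j
  refine Fin.lastCases (fun h => ?_) (fun i h => ?_) i
  · revert h
    refine Fin.lastCases (fun _ => rfl) (fun j h => ?_) j
    rw [ordS_last, ordS_cast] at h
    exact absurd h.symm (Fin.succAbove_ne _ _)
  · revert h
    refine Fin.lastCases (fun h => ?_) (fun j h => ?_) j
    · rw [ordS_last, ordS_cast] at h
      exact absurd h (Fin.succAbove_ne _ _)
    · rw [ordS_cast, ordS_cast] at h
      rw [o.injective (Fin.succAbove_right_injective h)]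

/-- The new functionals. -/
noncomputable def funS {m : ℕ} (g : Fin m → Fin m → ℝ) (l₀ : Fin (m + 1)) (a : Fin (m + 1) → ℝ) :
    Fin (m + 1) → Fin (m + 1) → ℝ :=
  Fin.lastCases a fun i => l₀.insertNth (0 : ℝ) (g i)

theorem funS_last {m : ℕ} (g : Fin m → Fin m → ℝ) (l₀ : Fin (m + 1)) (a : Fin (m + 1) → ℝ) :
    funS g l₀ a (Fin.last m) = a := by
  unfold funS
  rw [Fin.lastCases_last]

theorem funS_cast {m : ℕ} (g : Fin m → Fin m → ℝ) (l₀ : Fin (m + 1)) (a : Fin (m + 1) → ℝ)
    (i : Fin m) : funS g l₀ a i.castSucc = l₀.insertNth (0 : ℝ) (g i) := by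
  unfold funS
  rw [Fin.lastCases_castSucc]

theorem funS_cast_self {m : ℕ} (g : Fin m → Fin m → ℝ) (l₀ : Fin (m + 1)) (a : Fin (m + 1) → ℝ)
    (i : Fin m) : funS g l₀ a i.castSucc l₀ = 0 := by
  rw [funS_cast]
  exact Fin.insertNth_apply_same _ _ _

theorem funS_cast_succAbove {m : ℕ} (g : Fin m → Fin m → ℝ) (l₀ : Fin (m + 1))
    (a : Fin (m + 1) → ℝ) (i l : Fin m) : funS g l₀ a i.castSucc (l₀.succAbove l) = g i l := by
  rw [funS_cast]
  exact Fin.insertNth_apply_succAbove _ _ _ _

theorem dot_funS_cast {m : ℕ} (g : Fin m → Fin m → ℝ) (l₀ : Fin (m + 1))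
    (a v : Fin (m + 1) → ℝ) (i : Fin m) :
    dot (funS g l₀ a i.castSucc) v = dot (g i) (fun l => v (l₀.succAbove l)) := by
  rw [dot_succAbove l₀, funS_cast_self, zero_mul, zero_add]
  congr 1
  funext l
  exact funS_cast_succAbove g l₀ a i l

/-- **Complete pivoting.** -/
theorem piv : ∀ (m : ℕ) (A : Matrix (Fin m) (Fin m) ℝ), A.det ≠ 0 →
    ∃ (o : Equiv.Perm (Fin m)) (g : Fin m → Fin m → ℝ) (σ : Fin m → ℝ), PivRes A o g σ := by
  intro m
  induction m with
  | zero =>
    intro A _
    refine ⟨Equiv.refl _, fun i => i.elim0, fun i => i.elim0, ?_⟩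
    refine ⟨⟨fun i => i.elim0, fun i => i.elim0, fun i => i.elim0⟩, fun i => i.elim0, ?_,
      fun _ _ _ _ i => i.elim0, fun _ _ _ _ i => i.elim0, fun _ _ i => i.elim0,
      fun i => i.elim0⟩
    simp
  | succ m ih =>
    intro A hA
    obtain ⟨i₀, l₀, hmax⟩ := exists_max_entry A
    have hne : A i₀ l₀ ≠ 0 := by
      intro h0
      refine hA ?_
      have hz : A = 0 := by
        ext i l
        have h1 := hmax i l
        rw [h0, abs_zero] at h1
        exact abs_eq_zero.1 (le_antisymm h1 (abs_nonneg _))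
      rw [hz]
      exact Matrix.det_zero
    have hpos : 0 < |A i₀ l₀| := abs_pos.2 hne
    have hdet := det_schur A i₀ l₀ hne
    have hA' : (schur A i₀ l₀).det ≠ 0 := by
      intro h0
      rw [h0, abs_zero, zero_mul] at hdet
      exact hA (abs_eq_zero.1 hdet)
    obtain ⟨o, g, σ, hP⟩ := ih _ hA'
    have hr : ∀ i, |A i l₀ / A i₀ l₀| ≤ 1 := fun i => by
      rw [abs_div, div_le_one hpos]
      exact hmax i l₀
    have hS : ∀ i l, |schur A i₀ l₀ i l| ≤ 2 * |A i₀ l₀| := by
      intro i l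
      unfold schur
      refine (abs_sub _ _).trans ?_
      rw [abs_mul]
      have h1 := hmax (i₀.succAbove i) (l₀.succAbove l)
      have h2 := mul_le_mul (hr (i₀.succAbove i)) (hmax i₀ (l₀.succAbove l)) (abs_nonneg _)
        zero_le_one
      linarith
    obtain ⟨a, ha⟩ : ∃ a : Fin (m + 1) → ℝ, a = fun l => (A i₀ l₀)⁻¹ * A i₀ l := ⟨_, rfl⟩
    have hda : ∀ v, dot a v = (A i₀ l₀)⁻¹ * dot (A i₀) v := fun v => by
      rw [ha]
      exact dot_smul _ _ _
    have hda' : ∀ v, |A i₀ l₀| * |dot a v| = |dot (A i₀) v| := fun v => by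
      rw [hda, abs_mul, abs_inv, ← mul_assoc, mul_inv_cancel₀ hpos.ne', one_mul]
    refine ⟨Equiv.ofBijective (ordS o l₀) (Finite.injective_iff_bijective.1 (ordS_inj o l₀)),
      funS g l₀ a, Fin.lastCases |A i₀ l₀| σ, ⟨?_, ?_, ?_⟩, ?_, ?_, ?_, ?_, ?_, ?_⟩
    · intro i
      rw [Equiv.ofBijective_apply]
      refine Fin.lastCases ?_ (fun i => ?_) i
      · rw [ordS_last, funS_last, ha]
        exact inv_mul_cancel₀ hne
      · rw [ordS_cast, funS_cast_succAbove]
        exact hP.fr.one i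
    · intro i l
      rw [Equiv.ofBijective_apply]
      refine Fin.lastCases (fun h => ?_) (fun i => ?_) i
      · exact absurd h (not_lt.2 (Fin.le_last l))
      · refine Fin.lastCases (fun _ => ?_) (fun l h => ?_) l
        · rw [ordS_last, funS_cast_self]
        · rw [ordS_cast, funS_cast_succAbove]
          exact hP.fr.zer i l (Fin.castSucc_lt_castSucc_iff.1 h)
    · intro i
      refine Fin.lastCases (fun l => ?_) (fun i l => ?_) i
      · rw [funS_last, ha]
        dsimp only
        rw [abs_mul, abs_inv, inv_mul_le_iff₀ hpos, mul_one]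
        exact hmax i₀ l
      · rcases eq_or_ne l l₀ with h | h
        · rw [h, funS_cast_self, abs_zero]
          exact zero_le_one
        · obtain ⟨l', rfl⟩ := Fin.exists_succAbove_eq h
          rw [funS_cast_succAbove]
          exact hP.fr.bd i l'
    · intro i
      refine Fin.lastCases ?_ (fun i => ?_) i
      · rw [Fin.lastCases_last]
        exact hpos
      · rw [Fin.lastCases_castSucc]
        exact hP.pos i
    · rw [Fin.prod_univ_castSucc, Fin.lastCases_last, hdet, hP.det]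
      congr 1
      exact Finset.prod_congr rfl fun i _ => by rw [Fin.lastCases_castSucc]
    · intro v c hc hv i
      have h2m : (1 : ℝ) ≤ 2 ^ (m + 1) := one_le_pow₀ (by norm_num)
      refine Fin.lastCases ?_ (fun i => ?_) i
      · rw [Fin.lastCases_last, funS_last, hda']
        refine (hv i₀).trans ?_
        nlinarith
      · rw [Fin.lastCases_castSucc, dot_funS_cast]
        have h1 := hP.inn (fun l => v (l₀.succAbove l)) (2 * c) (by linarith) (fun j => by
          rw [dot_schur A i₀ l₀ hne v j]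
          refine (abs_sub _ _).trans ?_
          rw [abs_mul]
          have h3 := hv (i₀.succAbove j)
          have h4 := mul_le_mul (hr (i₀.succAbove j)) (hv i₀) (abs_nonneg _) zero_le_one
          linarith) i
        refine h1.trans (le_of_eq ?_)
        rw [pow_succ]
        ring
    · intro v c hc hv i
      have h0 : |dot (A i₀) v| ≤ c := by
        have h1 := hv (Fin.last m)
        rwa [Fin.lastCases_last, funS_last, hda'] at h1
      rcases eq_or_ne i i₀ with h | h
      · rw [h]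
        refine h0.trans ?_
        push_cast
        nlinarith [show (0 : ℝ) ≤ m * c by positivity]
      · obtain ⟨j, rfl⟩ := Fin.exists_succAbove_eq h
        have h1 := hP.out (fun l => v (l₀.succAbove l)) c hc (fun k => by
          have h2 := hv k.castSucc
          rwa [Fin.lastCases_castSucc, dot_funS_cast] at h2) j
        rw [dot_schur A i₀ l₀ hne v j] at h1
        have h4 := mul_le_mul (hr (i₀.succAbove j)) h0 (abs_nonneg _) zero_le_one
        rw [← abs_mul] at h4
        have h5 : |dot (A (i₀.succAbove j)) v| ≤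
            |dot (A (i₀.succAbove j)) v - A (i₀.succAbove j) l₀ / A i₀ l₀ * dot (A i₀) v| +
            |A (i₀.succAbove j) l₀ / A i₀ l₀ * dot (A i₀) v| := by
          have := abs_add_le (dot (A (i₀.succAbove j)) v -
            A (i₀.succAbove j) l₀ / A i₀ l₀ * dot (A i₀) v)
            (A (i₀.succAbove j) l₀ / A i₀ l₀ * dot (A i₀) v)
          rwa [sub_add_cancel] at this
        push_cast
        linarith
    · intro N hN i
      have hN0 : 0 ≤ N := (abs_nonneg _).trans (hN i₀ l₀)
      refine Fin.lastCases ?_ (fun i => ?_) i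
      · rw [Fin.lastCases_last]
        have h1 : (m + 1) - 1 - ((Fin.last m : Fin (m + 1)) : ℕ) = 0 := by
          rw [Fin.val_last]; omega
        rw [h1, pow_zero, one_mul]
        exact hN i₀ l₀
      · rw [Fin.lastCases_castSucc]
        have h1 := hP.top (2 * |A i₀ l₀|) hS i
        refine h1.trans ?_
        have h2 : (m + 1) - 1 - ((i.castSucc : Fin (m + 1)) : ℕ) = (m - 1 - (i : ℕ)) + 1 := by
          rw [Fin.val_castSucc]
          have := i.2
          omega
        rw [h2, pow_succ]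
        have h3 : (0 : ℝ) < 2 ^ (m - 1 - (i : ℕ)) := by positivity
        have h4 := hN i₀ l₀
        nlinarith [mul_le_mul_of_nonneg_left h4 h3.le]
    · intro i j
      refine Fin.lastCases (fun h => ?_) (fun i => ?_) i
      · obtain rfl : j = Fin.last m := le_antisymm (Fin.le_last j) h
        rw [Fin.lastCases_last, Nat.sub_self, pow_zero, one_mul]
      · refine Fin.lastCases (fun h => ?_) (fun j h => ?_) j
        · rw [Fin.lastCases_last, Fin.lastCases_castSucc]
          refine (hP.top (2 * |A i₀ l₀|) hS i).trans (le_of_eq ?_)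
          have h2 : ((Fin.last m : Fin (m + 1)) : ℕ) - ((i.castSucc : Fin (m + 1)) : ℕ) =
              (m - 1 - (i : ℕ)) + 1 := by
            rw [Fin.val_castSucc, Fin.val_last]
            have := i.2
            omega
          rw [h2, pow_succ]
          ring
        · rw [Fin.lastCases_castSucc, Fin.lastCases_castSucc, Fin.val_castSucc, Fin.val_castSucc]
          exact hP.mon i j (Fin.castSucc_le_castSucc_iff.1 h)

end Pool.NB
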