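import Pool.Agent.H69.NB.Tilt

/-!
# The relative position of two boxes

The second box in the natural units of the first one: the frame `A` of a complete pivoting, its
inverse `A'`, the falls `log σ`.
-/

set_option autoImplicit false

namespace Pool.NB

open Finset Real
open Pool.Agent.H49.Ent Pool.Agent.H32.Dense Pool.STK Pool.KA Pool.K2S Pool.PB Pool.KSAT
open Pool.PC (On Cnt DetA pt Dec Bar Evt lex)

variable {m J : ℕ}

/-- **The relative position**: `σ i` times the functional `A i`, in the natural units of the first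
box, is the second box. -/
structure Rel (q q' : Fin m → ℕ) (g g' A A' : Fin m → Fin m → ℝ) (σ : Fin m → ℝ) : Prop where
  bd : ∀ i j, |A i j| ≤ 1
  one : ∀ i, ∃ j, |A i j| = 1
  bd' : ∀ i j, |A' i j| ≤ 2 ^ m
  one' : ∀ j, ∃ i, 1 ≤ m * |A' i j|
  inv : ∀ i l, ∑ j, A' i j * A j l = if i = l then 1 else 0
  inv' : ∀ i l, ∑ j, A i j * A' j l = if i = l then 1 else 0
  pos : ∀ i, 0 < σ i
  mon : ∀ i j : Fin m, i ≤ j → σ i ≤ 2 ^ ((j : ℕ) - (i : ℕ)) * σ j
  det : ∏ i, σ i = 2 ^ (∑ i, q' i) / 2 ^ (∑ i, q i)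
  inn : ∀ (v : Fin m → ℝ) (c : ℝ), 0 ≤ c → (∀ i, 2 ^ q' i * |dot (g' i) v| ≤ c) →
    ∀ i, σ i * |∑ j, A i j * (2 ^ q j * dot (g j) v)| ≤ 2 ^ m * c
  out : ∀ (v : Fin m → ℝ) (c : ℝ), 0 ≤ c →
    (∀ i, σ i * |∑ j, A i j * (2 ^ q j * dot (g j) v)| ≤ c) →
    ∀ i, 2 ^ q' i * |dot (g' i) v| ≤ m * c

/-- The relative position exists. -/
theorem rel {o o' : Equiv.Perm (Fin m)} {g g' : Fin m → Fin m → ℝ} (h : Fr o g)
    (h' : Fr o' g') (q q' : Fin m → ℕ) : ∃ A A' σ, Rel q q' g g' A A' σ := by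
  have hdet : (Matrix.of g).det ≠ 0 := by
    intro h0
    have := h.det
    rw [h0, abs_zero] at this
    exact zero_ne_one this
  have hunit : IsUnit (Matrix.of g).det := isUnit_iff_ne_zero.2 hdet
  obtain ⟨a, ha⟩ : ∃ a : Matrix (Fin m) (Fin m) ℝ, a = Matrix.of g' * (Matrix.of g)⁻¹ := ⟨_, rfl⟩
  have hag : a * Matrix.of g = Matrix.of g' := by
    rw [ha, Matrix.mul_assoc, Matrix.nonsing_inv_mul _ hunit, Matrix.mul_one]
  obtain ⟨T, hT⟩ : ∃ T : Matrix (Fin m) (Fin m) ℝ, T =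
      Matrix.diagonal (fun i => (2 : ℝ) ^ q' i) * a * Matrix.diagonal (fun i => ((2 : ℝ) ^ q i)⁻¹)
      := ⟨_, rfl⟩
  have hTij : ∀ i j, T i j = 2 ^ q' i * a i j * (2 ^ q j)⁻¹ := by
    intro i j
    rw [hT, Matrix.mul_diagonal, Matrix.diagonal_mul]
  have key : ∀ (v : Fin m → ℝ) (i : Fin m),
      dot (T i) (fun j => 2 ^ q j * dot (g j) v) = 2 ^ q' i * dot (g' i) v := by
    intro v i
    have e1 : dot (g' i) v = ∑ j, a i j * dot (g j) v := by
      have e2 : ∀ l, g' i l = ∑ j, a i j * g j l := by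
        intro l
        have := congrFun (congrFun hag i) l
        rw [Matrix.mul_apply] at this
        exact this.symm
      unfold dot
      have e3 : ∀ l, g' i l * v l = ∑ j, a i j * (g j l * v l) := by
        intro l
        rw [e2, Finset.sum_mul]
        exact Finset.sum_congr rfl fun j _ => by ring
      rw [Finset.sum_congr rfl fun l _ => e3 l, Finset.sum_comm]
      exact Finset.sum_congr rfl fun j _ => by rw [Finset.mul_sum]
    rw [e1, Finset.mul_sum]
    show ∑ j, T i j * (2 ^ q j * dot (g j) v) = _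
    refine Finset.sum_congr rfl fun j _ => ?_
    rw [hTij]
    have : (2 : ℝ) ^ q j ≠ 0 := by positivity
    field_simp
  have hTdet : |T.det| = 2 ^ (∑ i, q' i) / 2 ^ (∑ i, q i) := by
    have h1 : |a.det| = 1 := by
      have h2 := congrArg Matrix.det hag
      rw [Matrix.det_mul] at h2
      have h3 : |a.det| * |(Matrix.of g).det| = |(Matrix.of g').det| := by rw [← abs_mul, h2]
      rw [h.det, h'.det, mul_one] at h3
      exact h3
    rw [hT, Matrix.det_mul, Matrix.det_mul, Matrix.det_diagonal, Matrix.det_diagonal, abs_mul,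
      abs_mul, h1, mul_one, Finset.prod_pow_eq_pow_sum, Finset.prod_inv_distrib,
      Finset.prod_pow_eq_pow_sum, abs_of_pos (by positivity), abs_of_pos (by positivity)]
    rfl
  have hT0 : T.det ≠ 0 := by
    intro h0
    rw [h0, abs_zero] at hTdet
    have : (0 : ℝ) < 2 ^ (∑ i, q' i) / 2 ^ (∑ i, q i) := by positivity
    rw [← hTdet] at this
    exact lt_irrefl _ this
  obtain ⟨o₁, A, σ, hp⟩ := piv m T hT0
  have hAdet : (Matrix.of A).det ≠ 0 := by
    intro h0
    have := hp.fr.det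
    rw [h0, abs_zero] at this
    exact zero_ne_one this
  have hAu : IsUnit (Matrix.of A).det := isUnit_iff_ne_zero.2 hAdet
  obtain ⟨A', hA'⟩ : ∃ A' : Matrix (Fin m) (Fin m) ℝ, A' = (Matrix.of A)⁻¹ := ⟨_, rfl⟩
  have hinv : ∀ i l, ∑ j, A' i j * A j l = if i = l then 1 else 0 := by
    intro i l
    have h1 : A' * Matrix.of A = 1 := by rw [hA', Matrix.nonsing_inv_mul _ hAu]
    have h2 := congrFun (congrFun h1 i) l
    rw [Matrix.mul_apply, Matrix.one_apply] at h2
    exact h2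
  have hinv' : ∀ i l, ∑ j, A i j * A' j l = if i = l then 1 else 0 := by
    intro i l
    have h1 : Matrix.of A * A' = 1 := by rw [hA', Matrix.mul_nonsing_inv _ hAu]
    have h2 := congrFun (congrFun h1 i) l
    rw [Matrix.mul_apply, Matrix.one_apply] at h2
    exact h2
  refine ⟨A, A', σ, ⟨hp.fr.bd, fun i => ⟨o₁ i, by rw [hp.fr.one, abs_one]⟩, fun i j => ?_,
    fun j => ?_, hinv, hinv', hp.pos, hp.mon, by rw [← hTdet, hp.det], fun v c hc hv i => ?_,
    fun v c hc hv i => ?_⟩⟩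
  · have h1 := hp.fr.coord (v := fun l => A' l j) zero_le_one (fun i => by
      show |∑ l, A i l * A' l j| ≤ 1
      rw [hinv' i j]
      split_ifs
      · rw [abs_one]
      · rw [abs_zero]
        exact zero_le_one) i
    rwa [mul_one] at h1
  · by_contra hcon
    push Not at hcon
    have h1 := hinv' j j
    rw [if_pos rfl] at h1
    have h2 : |∑ l, A j l * A' l j| < 1 := by
      have hm : 0 < m := lt_of_le_of_lt (Nat.zero_le _) j.2
      have hmr : (0 : ℝ) < m := Nat.cast_pos.2 hm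
      refine lt_of_le_of_lt (Finset.abs_sum_le_sum_abs _ _) ?_
      have h3 : ∀ l ∈ (univ : Finset (Fin m)), |A j l * A' l j| < 1 / m := by
        intro l _
        rw [abs_mul, lt_div_iff₀ hmr]
        have h4 := hcon l
        have h5 := mul_le_mul_of_nonneg_right (hp.fr.bd j l) (abs_nonneg (A' l j))
        nlinarith [abs_nonneg (A' l j)]
      have h6 := Finset.sum_lt_sum_of_nonempty (s := (univ : Finset (Fin m))) ⟨j, mem_univ _⟩ h3
      refine h6.trans_le (le_of_eq ?_)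
      rw [Finset.sum_const, card_univ, Fintype.card_fin, nsmul_eq_mul]
      field_simp
    rw [h1, abs_one] at h2
    exact lt_irrefl _ h2
  · have h1 := hp.inn (fun j => 2 ^ q j * dot (g j) v) c hc (fun i => by
      rw [key, abs_mul, abs_of_pos (show (0 : ℝ) < 2 ^ q' i by positivity)]
      exact hv i) i
    exact h1
  · have h1 := hp.out (fun j => 2 ^ q j * dot (g j) v) c hc hv i
    rw [key, abs_mul, abs_of_pos (show (0 : ℝ) < 2 ^ q' i by positivity)] at h1
    exact h1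

open Classical in
/-- The chosen relative position. -/
noncomputable def relf (q q' : Fin m → ℕ) (g g' : Fin m → Fin m → ℝ) :
    (Fin m → Fin m → ℝ) × ((Fin m → Fin m → ℝ) × (Fin m → ℝ)) :=
  if h : ∃ x : (Fin m → Fin m → ℝ) × ((Fin m → Fin m → ℝ) × (Fin m → ℝ)),
    Rel q q' g g' x.1 x.2.1 x.2.2 then h.choose else (fun _ _ => 0, (fun _ _ => 0, fun _ => 0))

section

variable {F : Fam m J}

/-- The frame of the second box in the natural units of the first one. -/
noncomputable def Bx.fA (z z' : Bx F) (ω : F.Ω) : Fin m → Fin m → ℝ :=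
  (relf z.q z'.q (z.g ω) (z'.g ω)).1

/-- The inverse frame. -/
noncomputable def Bx.fA' (z z' : Bx F) (ω : F.Ω) : Fin m → Fin m → ℝ :=
  (relf z.q z'.q (z.g ω) (z'.g ω)).2.1

/-- The falls. -/
noncomputable def Bx.fs (z z' : Bx F) (ω : F.Ω) : Fin m → ℝ :=
  (relf z.q z'.q (z.g ω) (z'.g ω)).2.2

theorem Bx.rel {z z' : Bx F} {A : F.Ω → Prop} (h : z.Ok A) (h' : z'.Ok A) {ω : F.Ω}
    (hω : On F A ω) : Rel z.q z'.q (z.g ω) (z'.g ω) (z.fA z' ω) (z.fA' z' ω) (z.fs z' ω) := by
  have hex : ∃ x : (Fin m → Fin m → ℝ) × ((Fin m → Fin m → ℝ) × (Fin m → ℝ)),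
      Rel z.q z'.q (z.g ω) (z'.g ω) x.1 x.2.1 x.2.2 := by
    obtain ⟨A, A', σ, h1⟩ := Pool.NB.rel (h.fr ω hω) (h'.fr ω hω) z.q z'.q
    exact ⟨(A, (A', σ)), h1⟩
  unfold Bx.fA Bx.fA' Bx.fs relf
  rw [dif_pos hex]
  exact hex.choose_spec

theorem Bx.fA_det {z z' : Bx F} {A : F.Ω → Prop} {α : Type} {P : F.Ω → α}
    (h : DetA F A P z.g) (h' : DetA F A P z'.g) : DetA F A P (z.fA z') ∧
      DetA F A P (z.fA' z') ∧ DetA F A P (z.fs z') := by
  refine ⟨fun ω ω' a b c => ?_, fun ω ω' a b c => ?_, fun ω ω' a b c => ?_⟩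
  · unfold Bx.fA
    rw [h ω ω' a b c, h' ω ω' a b c]
  · unfold Bx.fA'
    rw [h ω ω' a b c, h' ω ω' a b c]
  · unfold Bx.fs
    rw [h ω ω' a b c, h' ω ω' a b c]

end

/-- A vector in the new coordinates. -/
theorem Rel.expand {q q' : Fin m → ℕ} {g g' A A' : Fin m → Fin m → ℝ} {σ : Fin m → ℝ}
    (h : Rel q q' g g' A A' σ) (u : Fin m → ℝ) (i : Fin m) :
    u i = ∑ j, (∑ l, A j l * u l) * A' i j := by
  have e1 : ∀ j, (∑ l, A j l * u l) * A' i j = ∑ l, A' i j * A j l * u l := by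
    intro j
    rw [Finset.sum_mul]
    exact Finset.sum_congr rfl fun l _ => by ring
  rw [Finset.sum_congr rfl fun j _ => e1 j, Finset.sum_comm]
  have e2 : ∀ l, ∑ j, A' i j * A j l * u l = (if i = l then 1 else 0) * u l := by
    intro l
    rw [← Finset.sum_mul, h.inv]
  rw [Finset.sum_congr rfl fun l _ => e2 l]
  simp

/-- A functional in the new coordinates. -/
theorem Rel.expand' {q q' : Fin m → ℕ} {g g' A A' : Fin m → Fin m → ℝ} {σ : Fin m → ℝ}
    (h : Rel q q' g g' A A' σ) (a u : Fin m → ℝ) :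
    ∑ i, a i * u i = ∑ j, (∑ l, A j l * u l) * (∑ i, a i * A' i j) := by
  have e1 : ∀ i, a i * u i = ∑ j, (∑ l, A j l * u l) * (a i * A' i j) := by
    intro i
    rw [h.expand u i, Finset.mul_sum]
    refine Finset.sum_congr rfl fun j _ => ?_
    ring
  rw [Finset.sum_congr rfl fun i _ => e1 i, Finset.sum_comm]
  exact Finset.sum_congr rfl fun j _ => by rw [Finset.mul_sum]

end Pool.NB
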