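import Pool.Agent.H69.NB.Ncl
import Pool.Agent.H81.XF.Stm

/-!
# Two and three conditionally independent copies

If no function of the condition is in a relation to the random variable, outside a small
probability, then no function of one copy (of two copies) is in this relation to another copy.
Consequence: three random vectors which are not in strips are linearly independent.
-/

set_option autoImplicit false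

namespace Pool.NB

open Finset Real
open Pool.Agent.H49.Ent Pool.Agent.H32.Dense Pool.STK Pool.KA Pool.K2S Pool.PB Pool.KSAT
open Pool.PC (On Cnt DetA pt Dec Bar Evt lex)

open Classical in
theorem pe_sum {Ω : Type} [Fintype Ω] (p : Ω → ℝ) (A : Ω → Prop) :
    Pe p A = ∑ ω, if A ω then p ω else 0 := by
  unfold Pe law
  refine Finset.sum_congr rfl fun ω _ => ?_
  by_cases h : A ω
  · rw [if_pos h, if_pos (eq_true h)]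
  · rw [if_neg h, if_neg (by simpa using h)]

open Classical in
/-- **One copy against a function of the other copy.** -/
theorem pe_glue {Ω₁ Ω₂ T Λ : Type} [Fintype Ω₁] [Fintype Ω₂] {p₁ : Ω₁ → ℝ} {p₂ : Ω₂ → ℝ}
    (h₁ : ∀ ω, 0 ≤ p₁ ω) (h₂ : ∀ ω, 0 ≤ p₂ ω) {Z₁ : Ω₁ → T} {Z₂ : Ω₂ → T}
    {R : Λ → Ω₂ → Prop} {ε : ℝ} (hε : 0 ≤ ε)
    (h : ∀ lam : T → Λ, Pe p₂ (fun ω => R (lam (Z₂ ω)) ω) ≤ ε)
    (l : Ω₁ → Λ) : Pe (glue p₁ p₂ Z₁ Z₂) (fun u => R (l u.1) u.2) ≤ ε := by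
  rcases isEmpty_or_nonempty Ω₁ with he | ⟨⟨ω₀⟩⟩
  · rw [pe_sum, Finset.univ_eq_empty, Finset.sum_empty]
    exact hε
  obtain ⟨φ, hφ⟩ : ∃ φ : Λ → T → ℝ, φ = fun a t =>
      ∑ ω, if Z₂ ω = t then (if R a ω then p₂ ω else 0) else 0 := ⟨_, rfl⟩
  have hφ0 : ∀ a t, 0 ≤ φ a t := by
    intro a t
    rw [hφ]
    refine Finset.sum_nonneg fun ω _ => ?_
    split_ifs
    exacts [h₂ ω, le_rfl, le_rfl]
  -- the best element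
  have hch : ∀ t : T, ∃ a : Λ, ∀ ω, Z₁ ω = t → φ (l ω) t ≤ φ a t := by
    intro t
    obtain ⟨ω, hω1, hω2⟩ := Finset.exists_max_image (univ : Finset Ω₁) (fun ω => φ (l ω) t)
      ⟨ω₀, mem_univ _⟩
    exact ⟨l ω, fun ω' _ => hω2 ω' (mem_univ _)⟩
  choose lam hlam using hch
  refine le_trans ?_ (h lam)
  have e1 : Pe (glue p₁ p₂ Z₁ Z₂) (fun u => R (l u.1) u.2) =
      ∑ ω₁, p₁ ω₁ / law p₁ Z₁ (Z₁ ω₁) * φ (l ω₁) (Z₁ ω₁) := by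
    rw [pe_sum, Fintype.sum_prod_type]
    refine Finset.sum_congr rfl fun ω₁ _ => ?_
    rw [hφ, Finset.mul_sum]
    refine Finset.sum_congr rfl fun ω₂ _ => ?_
    unfold glue
    show (if R (l ω₁) ω₂ then (if Z₁ ω₁ = Z₂ ω₂ then p₁ ω₁ * p₂ ω₂ / law p₁ Z₁ (Z₁ ω₁) else 0)
      else 0) = _ * (if Z₂ ω₂ = Z₁ ω₁ then (if R (l ω₁) ω₂ then p₂ ω₂ else 0) else 0)
    by_cases h5 : R (l ω₁) ω₂
    · rw [if_pos h5, if_pos h5]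
      by_cases h6 : Z₁ ω₁ = Z₂ ω₂
      · rw [if_pos h6, if_pos h6.symm]
        ring
      · rw [if_neg h6, if_neg (fun h7 => h6 (Eq.symm h7)), mul_zero]
    · rw [if_neg h5, if_neg h5]
      split_ifs <;> ring
  have e2 : ∑ ω₁, p₁ ω₁ / law p₁ Z₁ (Z₁ ω₁) * φ (l ω₁) (Z₁ ω₁) ≤
      ∑ ω₁, p₁ ω₁ / law p₁ Z₁ (Z₁ ω₁) * φ (lam (Z₁ ω₁)) (Z₁ ω₁) :=
    Finset.sum_le_sum fun ω₁ _ => mul_le_mul_of_nonneg_left (hlam _ ω₁ rfl)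
      (div_nonneg (h₁ _) (law_nonneg h₁ _ _))
  rw [e1]
  refine e2.trans ?_
  have e3 : ∑ ω₁, p₁ ω₁ / law p₁ Z₁ (Z₁ ω₁) * φ (lam (Z₁ ω₁)) (Z₁ ω₁) =
      ∑ ω₂, (if R (lam (Z₂ ω₂)) ω₂ then p₂ ω₂ else 0) *
        ∑ ω₁, if Z₁ ω₁ = Z₂ ω₂ then p₁ ω₁ / law p₁ Z₁ (Z₁ ω₁) else 0 := by
    rw [hφ]
    have k1 : ∀ ω₁, p₁ ω₁ / law p₁ Z₁ (Z₁ ω₁) *
        (∑ ω, if Z₂ ω = Z₁ ω₁ then (if R (lam (Z₁ ω₁)) ω then p₂ ω else 0) else 0) =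
        ∑ ω, (if R (lam (Z₂ ω)) ω then p₂ ω else 0) *
          (if Z₁ ω₁ = Z₂ ω then p₁ ω₁ / law p₁ Z₁ (Z₁ ω₁) else 0) := by
      intro ω₁
      rw [Finset.mul_sum]
      refine Finset.sum_congr rfl fun ω _ => ?_
      by_cases h6 : Z₂ ω = Z₁ ω₁
      · rw [if_pos h6, if_pos h6.symm, h6]
        ring
      · rw [if_neg h6, if_neg (fun h7 => h6 (Eq.symm h7))]
        ring
    rw [Finset.sum_congr rfl fun ω₁ _ => k1 ω₁, Finset.sum_comm]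
    refine Finset.sum_congr rfl fun ω _ => ?_
    rw [Finset.mul_sum]
  rw [e3, pe_sum]
  refine Finset.sum_le_sum fun ω₂ _ => ?_
  have k2 : (∑ ω₁, if Z₁ ω₁ = Z₂ ω₂ then p₁ ω₁ / law p₁ Z₁ (Z₁ ω₁) else 0) ≤ 1 := by
    have k3 : (∑ ω₁, if Z₁ ω₁ = Z₂ ω₂ then p₁ ω₁ / law p₁ Z₁ (Z₁ ω₁) else 0) =
        law p₁ Z₁ (Z₂ ω₂) / law p₁ Z₁ (Z₂ ω₂) := by
      rw [show law p₁ Z₁ (Z₂ ω₂) / law p₁ Z₁ (Z₂ ω₂) =
        (∑ ω₁, if Z₁ ω₁ = Z₂ ω₂ then p₁ ω₁ else 0) / law p₁ Z₁ (Z₂ ω₂) from by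
          unfold law; rfl, Finset.sum_div]
      refine Finset.sum_congr rfl fun ω₁ _ => ?_
      by_cases h6 : Z₁ ω₁ = Z₂ ω₂
      · rw [if_pos h6, if_pos h6, h6]
      · rw [if_neg h6, if_neg h6, zero_div]
    rw [k3]
    exact div_self_le_one _
  have k4 : (0 : ℝ) ≤ (if R (lam (Z₂ ω₂)) ω₂ then p₂ ω₂ else 0) := by
    split_ifs
    exacts [h₂ ω₂, le_rfl]
  calc _ ≤ (if R (lam (Z₂ ω₂)) ω₂ then p₂ ω₂ else 0) * 1 := mul_le_mul_of_nonneg_left k2 k4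
    _ = _ := mul_one _

/-- Two copies. -/
theorem pe_dbl {Ω T Λ : Type} [Fintype Ω] {p : Ω → ℝ} (hp : ∀ ω, 0 ≤ p ω) {Z : Ω → T}
    {R : Λ → Ω → Prop} {ε : ℝ} (hε : 0 ≤ ε)
    (h : ∀ lam : T → Λ, Pe p (fun ω => R (lam (Z ω)) ω) ≤ ε)
    (l : Ω → Λ) : Pe (dbl p Z) (fun u => R (l u.1) u.2) ≤ ε :=
  pe_glue hp hp hε h l

/-- Three copies. -/
theorem pe_tri {Ω T Λ : Type} [Fintype Ω] {p : Ω → ℝ} (hp : ∀ ω, 0 ≤ p ω) {Z : Ω → T}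
    {R : Λ → Ω → Prop} {ε : ℝ} (hε : 0 ≤ ε)
    (h : ∀ lam : T → Λ, Pe p (fun ω => R (lam (Z ω)) ω) ≤ ε)
    (l : Ω × Ω → Λ) : Pe (tri p Z) (fun u => R (l u.1) u.2) ≤ ε :=
  pe_glue (dbl_nonneg hp) hp hε h l

end Pool.NB
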